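import Mathlib
import Pool.Agent.Lib.MP_4aa2a9_ag.Mg.G003

section

/-!
# Weighted `ℓ¹` convolution algebras (Beurling / Wiener algebras) with values in a Banach algebra

`Beur ω B`: families `a : G → B` with `∑ ω g ‖a g‖ < ∞`, `ω` a submultiplicative weight on the additive
group `G` (for us `G = ℤ`, `ℤ × ℤ`: Laurent series on annuli). It is a Banach algebra; the projections onto
subsets of `G` (splittings) have norm `≤ 1`; characters dominated by the weight give evaluations.
-/

set_option autoImplicit false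
set_option linter.unusedSectionVars false

open Filter Topology

namespace DQ.F

/-- submultiplicative weights -/
class IsWt {G : Type*} [AddCommGroup G] (ω : G → ℝ) : Prop where
  pos : ∀ g, 0 < ω g
  zero : ω 0 = 1
  add : ∀ g h, ω (g + h) ≤ ω g * ω h

/-- weighted `ℓ¹` families -/
@[ext] structure Beur {G : Type*} (ω : G → ℝ) (B : Type*) [NormedAddCommGroup B] where
  coef : G → B
  summ : Summable fun g => ω g * ‖coef g‖

namespace Beur

section group

variable {G : Type*} [AddCommGroup G] {ω : G → ℝ} [IsWt ω] {B : Type*} [NormedAddCommGroup B]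
  [NormedSpace ℂ B]

theorem coef_injective : Function.Injective (coef : Beur ω B → G → B) := fun _ _ h => Beur.ext h

omit [NormedSpace ℂ B] in
theorem summable_add {a b : G → B} (ha : Summable fun g => ω g * ‖a g‖)
    (hb : Summable fun g => ω g * ‖b g‖) : Summable fun g => ω g * ‖a g + b g‖ := by
  refine Summable.of_nonneg_of_le (fun g => by have := IsWt.pos (ω := ω) g; positivity) (fun g => ?_)
    (ha.add hb)
  have := IsWt.pos (ω := ω) g
  rw [← mul_add]
  exact mul_le_mul_of_nonneg_left (norm_add_le _ _) this.le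

instance : Zero (Beur ω B) := ⟨⟨0, by simpa using summable_zero⟩⟩
instance : Add (Beur ω B) := ⟨fun a b => ⟨a.coef + b.coef, summable_add a.summ b.summ⟩⟩
instance : Neg (Beur ω B) := ⟨fun a => ⟨-a.coef, by simpa using a.summ⟩⟩
instance : Sub (Beur ω B) := ⟨fun a b => ⟨a.coef - b.coef, by
  have := summable_add a.summ (b := -b.coef) (by simpa using b.summ)
  simpa [sub_eq_add_neg] using this⟩⟩
instance : SMul ℂ (Beur ω B) := ⟨fun c a => ⟨c • a.coef, by
  have := a.summ.mul_left ‖c‖
  refine this.congr fun g => ?_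
  rw [Pi.smul_apply, norm_smul]
  ring⟩⟩
instance : SMul ℕ (Beur ω B) := ⟨fun n a => ⟨n • a.coef, by
  have := a.summ.mul_left ‖(n : ℂ)‖
  refine this.congr fun g => ?_
  rw [Pi.smul_apply, ← Nat.cast_smul_eq_nsmul ℂ, norm_smul]
  ring⟩⟩
instance : SMul ℤ (Beur ω B) := ⟨fun n a => ⟨n • a.coef, by
  have := a.summ.mul_left ‖(n : ℂ)‖
  refine this.congr fun g => ?_
  rw [Pi.smul_apply, ← Int.cast_smul_eq_zsmul ℂ, norm_smul]
  ring⟩⟩

instance : AddCommGroup (Beur ω B) :=
  Function.Injective.addCommGroup coef coef_injective rfl (fun _ _ => rfl) (fun _ => rfl)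
    (fun _ _ => rfl) (fun _ _ => rfl) (fun _ _ => rfl)

/-- the family of coefficients, as an additive map -/
def coefHom : Beur ω B →+ (G → B) where
  toFun := coef
  map_zero' := rfl
  map_add' _ _ := rfl

instance : Module ℂ (Beur ω B) :=
  Function.Injective.module ℂ coefHom coef_injective (fun _ _ => rfl)

@[simp] theorem coef_zero : (0 : Beur ω B).coef = 0 := rfl
@[simp] theorem coef_add (a b : Beur ω B) : (a + b).coef = a.coef + b.coef := rfl
@[simp] theorem coef_neg (a : Beur ω B) : (-a).coef = -a.coef := rfl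
@[simp] theorem coef_sub (a b : Beur ω B) : (a - b).coef = a.coef - b.coef := rfl
@[simp] theorem coef_smul (c : ℂ) (a : Beur ω B) : (c • a).coef = c • a.coef := rfl

noncomputable instance : Norm (Beur ω B) := ⟨fun a => ∑' g, ω g * ‖a.coef g‖⟩

theorem norm_def (a : Beur ω B) : ‖a‖ = ∑' g, ω g * ‖a.coef g‖ := rfl

theorem term_nonneg (a : Beur ω B) (g : G) : 0 ≤ ω g * ‖a.coef g‖ := by
  have := IsWt.pos (ω := ω) g
  positivity

theorem term_le_norm (a : Beur ω B) (g : G) : ω g * ‖a.coef g‖ ≤ ‖a‖ :=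
  a.summ.le_tsum g fun h _ => term_nonneg a h

/-- norm core -/
noncomputable instance : NormedAddCommGroup (Beur ω B) :=
  AddGroupNorm.toNormedAddCommGroup
    { toFun := fun a => ‖a‖
      map_zero' := by simp [norm_def]
      add_le' := fun a b => by
        rw [norm_def, norm_def, norm_def, ← a.summ.tsum_add b.summ]
        refine (a + b).summ.tsum_le_tsum (fun g => ?_) (a.summ.add b.summ)
        have := IsWt.pos (ω := ω) g
        rw [← mul_add]
        exact mul_le_mul_of_nonneg_left (norm_add_le _ _) this.le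
      neg' := fun a => by simp [norm_def]
      eq_zero_of_map_eq_zero' := fun a ha => by
        apply Beur.ext
        funext g
        have h1 := term_le_norm a g
        have h2 : ‖a‖ = 0 := ha
        rw [h2] at h1
        have h3 := IsWt.pos (ω := ω) g
        have h4 : ‖a.coef g‖ ≤ 0 := by
          by_contra hc
          push Not at hc
          have := mul_pos h3 hc
          linarith
        exact norm_le_zero_iff.mp h4 }

noncomputable instance : NormedSpace ℂ (Beur ω B) where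
  norm_smul_le c a := by
    rw [norm_def, norm_def, ← tsum_mul_left]
    refine le_of_eq (tsum_congr fun g => ?_)
    rw [coef_smul, Pi.smul_apply, norm_smul]
    ring

theorem norm_coef_le (a : Beur ω B) (g : G) : ‖a.coef g‖ ≤ (ω g)⁻¹ * ‖a‖ := by
  have h3 := IsWt.pos (ω := ω) g
  rw [← div_eq_inv_mul, le_div_iff₀ h3, mul_comm]
  exact term_le_norm a g

/-- the coefficient of `g`, as a continuous linear map -/
noncomputable def coefL (g : G) : Beur ω B →L[ℂ] B :=
  LinearMap.mkContinuous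
    { toFun := fun a => a.coef g
      map_add' := fun _ _ => rfl
      map_smul' := fun _ _ => rfl } (ω g)⁻¹ (fun a => norm_coef_le a g)

@[simp] theorem coefL_apply (g : G) (a : Beur ω B) : coefL g a = a.coef g := rfl

instance [CompleteSpace B] : CompleteSpace (Beur ω B) := by
  refine NormedAddCommGroup.completeSpace_of_summable_imp_tendsto fun u hu => ?_
  have hprod : Summable fun p : ℕ × G => ω p.2 * ‖(u p.1).coef p.2‖ := by
    refine (summable_prod_of_nonneg fun p => term_nonneg (u p.1) p.2).mpr ⟨fun n => (u n).summ, hu⟩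
  have hsn : ∀ g, Summable fun n => ‖(u n).coef g‖ := by
    intro g
    refine Summable.of_nonneg_of_le (fun n => norm_nonneg _) (fun n => norm_coef_le (u n) g)
      (hu.mul_left _)
  have hs : ∀ g, Summable fun n => (u n).coef g := fun g => (hsn g).of_norm
  have hprod' : Summable fun p : G × ℕ => ω p.1 * ‖(u p.2).coef p.1‖ :=
    hprod.comp_injective (i := Prod.swap) Prod.swap_injective
  have hbound : ∀ g (v : ℕ → ℕ) , Function.Injective v → ω g * ‖∑' n, (u (v n)).coef g‖ ≤
      ∑' n, ω g * ‖(u (v n)).coef g‖ := by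
    intro g v hv
    rw [tsum_mul_left]
    have := IsWt.pos (ω := ω) g
    exact mul_le_mul_of_nonneg_left (norm_tsum_le_tsum_norm ((hsn g).comp_injective hv)) this.le
  have hS : Summable fun g => ω g * ‖∑' n, (u n).coef g‖ := by
    refine Summable.of_nonneg_of_le (fun g => ?_) (fun g => hbound g id Function.injective_id)
      hprod'.prod
    have := IsWt.pos (ω := ω) g
    positivity
  let S : Beur ω B := ⟨fun g => ∑' n, (u n).coef g, hS⟩
  refine ⟨S, ?_⟩
  rw [tendsto_iff_norm_sub_tendsto_zero]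
  have hcoef : ∀ (s : Finset ℕ) (g : G), (∑ n ∈ s, u n).coef g = ∑ n ∈ s, (u n).coef g := by
    intro s g
    exact map_sum (coefL (ω := ω) (B := B) g) u s
  have hle : ∀ N : ℕ, ‖(∑ n ∈ Finset.range N, u n) - S‖ ≤ ∑' n, ‖u (n + N)‖ := by
    intro N
    rw [norm_def]
    have hinj : Function.Injective fun n : ℕ => n + N := add_left_injective N
    have e : ∀ g, ((∑ n ∈ Finset.range N, u n) - S).coef g = -∑' n, (u (n + N)).coef g := by
      intro g
      rw [coef_sub, Pi.sub_apply, hcoef]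
      change _ - ∑' n, (u n).coef g = _
      rw [← (hs g).sum_add_tsum_nat_add N]
      abel
    have hshift : Summable fun p : G × ℕ => ω p.1 * ‖(u (p.2 + N)).coef p.1‖ := by
      have := hprod'.comp_injective (i := fun p : G × ℕ => (p.1, p.2 + N)) (by
        rintro ⟨a, b⟩ ⟨c, d⟩ h
        simp only [Prod.mk.injEq, add_left_inj] at h
        exact Prod.ext h.1 h.2)
      exact this
    calc ∑' g, ω g * ‖((∑ n ∈ Finset.range N, u n) - S).coef g‖
        ≤ ∑' g, ∑' n, ω g * ‖(u (n + N)).coef g‖ := by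
          refine Summable.tsum_le_tsum (fun g => ?_) ?_ hshift.prod
          · rw [e g, norm_neg]
            exact hbound g _ hinj
          · exact ((∑ n ∈ Finset.range N, u n) - S).summ
      _ = ∑' n, ∑' g, ω g * ‖(u (n + N)).coef g‖ := by
          have := hshift.tsum_comm' (fun g => hshift.prod_factor g) (fun n => (u (n + N)).summ)
          exact this.symm
      _ = ∑' n, ‖u (n + N)‖ := rfl
  have htend : Tendsto (fun N => ∑' n, ‖u (n + N)‖) atTop (𝓝 0) :=
    tendsto_sum_nat_add fun n => ‖u n‖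
  exact squeeze_zero (fun N => norm_nonneg _) hle htend

/-- projection onto a subset of `G` -/
noncomputable def proj (S : Set G) : Beur ω B →L[ℂ] Beur ω B := by
  classical
  exact LinearMap.mkContinuous
    { toFun := fun a => ⟨S.indicator a.coef, by
        refine Summable.of_nonneg_of_le (fun g => ?_) (fun g => ?_) a.summ
        · have := IsWt.pos (ω := ω) g
          positivity
        · have := IsWt.pos (ω := ω) g
          refine mul_le_mul_of_nonneg_left ?_ this.le
          by_cases h : g ∈ S <;> simp [h]⟩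
      map_add' := fun a b => Beur.ext (Set.indicator_add _ _ _)
      map_smul' := fun c a => Beur.ext (by
        funext g
        by_cases h : g ∈ S <;> simp [h]) } 1 (fun a => by
        rw [one_mul, norm_def, norm_def]
        refine Summable.tsum_le_tsum (fun g => ?_) ?_ a.summ
        · have := IsWt.pos (ω := ω) g
          refine mul_le_mul_of_nonneg_left ?_ this.le
          change ‖S.indicator a.coef g‖ ≤ _
          by_cases h : g ∈ S <;> simp [h]
        · exact Beur.summ _)

theorem coef_proj (S : Set G) (a : Beur ω B) : (proj S a).coef = S.indicator a.coef := rfl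

theorem norm_proj_le (S : Set G) (a : Beur ω B) : ‖proj S a‖ ≤ ‖a‖ := by
  rw [norm_def, norm_def]
  refine Summable.tsum_le_tsum (fun g => ?_) (Beur.summ _) a.summ
  have := IsWt.pos (ω := ω) g
  refine mul_le_mul_of_nonneg_left ?_ this.le
  rw [coef_proj]
  by_cases h : g ∈ S <;> simp [h]

theorem proj_add_compl (S : Set G) (a : Beur ω B) : proj S a + proj Sᶜ a = a := by
  apply Beur.ext
  rw [coef_add, coef_proj, coef_proj, Set.indicator_self_add_compl]

/-- the monomial `b X^g` -/
noncomputable def mono (g : G) (b : B) : Beur ω B := by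
  classical
  exact ⟨Pi.single g b, by
    refine summable_of_ne_finset_zero (s := {g}) fun h hh => ?_
    rw [Finset.mem_singleton] at hh
    rw [Pi.single_eq_of_ne hh]
    simp⟩

theorem coef_mono_self (g : G) (b : B) : (mono g b : Beur ω B).coef g = b := by
  classical
  exact Pi.single_eq_same (M := fun _ => B) g b

theorem coef_mono_ne {g h : G} (hh : h ≠ g) (b : B) : (mono g b : Beur ω B).coef h = 0 := by
  classical
  exact Pi.single_eq_of_ne (M := fun _ => B) hh b

/-! ### Characters dominated by the weight, evaluations -/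

theorem summ_char {χ : G → ℂ} (hχ : ∀ g, ‖χ g‖ ≤ ω g) (a : Beur ω B) :
    Summable fun g => ‖χ g • a.coef g‖ := by
  refine Summable.of_nonneg_of_le (fun g => norm_nonneg _) (fun g => ?_) a.summ
  rw [norm_smul]
  exact mul_le_mul_of_nonneg_right (hχ g) (norm_nonneg _)

/-- evaluation at a character `χ` dominated by the weight -/
noncomputable def eval (χ : G → ℂ) (a : Beur ω B) : B := ∑' g, χ g • a.coef g

theorem norm_eval_le {χ : G → ℂ} (hχ : ∀ g, ‖χ g‖ ≤ ω g) (a : Beur ω B) :
    ‖eval χ a‖ ≤ ‖a‖ := by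
  refine (norm_tsum_le_tsum_norm (summ_char hχ a)).trans ?_
  rw [norm_def]
  refine (summ_char hχ a).tsum_le_tsum (fun g => ?_) a.summ
  rw [norm_smul]
  exact mul_le_mul_of_nonneg_right (hχ g) (norm_nonneg _)

theorem hasSum_eval [CompleteSpace B] {χ : G → ℂ} (hχ : ∀ g, ‖χ g‖ ≤ ω g) (a : Beur ω B) :
    HasSum (fun g => χ g • a.coef g) (eval χ a) := (summ_char hχ a).of_norm.hasSum

theorem eval_add [CompleteSpace B] {χ : G → ℂ} (hχ : ∀ g, ‖χ g‖ ≤ ω g) (a b : Beur ω B) :
    eval χ (a + b) = eval χ a + eval χ b := by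
  have h1 := (hasSum_eval hχ a).add (hasSum_eval hχ b)
  refine (hasSum_eval hχ (a + b)).unique (h1.congr_fun ?_)
  intro g
  rw [coef_add, Pi.add_apply, smul_add]

theorem eval_smul [CompleteSpace B] {χ : G → ℂ} (hχ : ∀ g, ‖χ g‖ ≤ ω g) (c : ℂ) (a : Beur ω B) :
    eval χ (c • a) = c • eval χ a := by
  have h1 := (hasSum_eval hχ a).const_smul c
  refine (hasSum_eval hχ (c • a)).unique (h1.congr_fun ?_)
  intro g
  rw [coef_smul, Pi.smul_apply, smul_comm]

theorem eval_mono (χ : G → ℂ) (g : G) (b : B) : eval χ (mono g b : Beur ω B) = χ g • b := by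
  rw [eval, tsum_eq_single g]
  · rw [coef_mono_self]
  · intro h hh
    rw [coef_mono_ne hh, smul_zero]

/-- evaluation at a family dominated by the weight, as a continuous linear map -/
noncomputable def evalL [CompleteSpace B] (χ : G → ℂ) (hχ : ∀ g, ‖χ g‖ ≤ ω g) : Beur ω B →L[ℂ] B :=
  LinearMap.mkContinuous
    { toFun := eval χ
      map_add' := eval_add hχ
      map_smul' := eval_smul hχ } 1 (fun a => by
        rw [one_mul]
        exact norm_eval_le hχ a)

@[simp] theorem evalL_apply [CompleteSpace B] (χ : G → ℂ) (hχ : ∀ g, ‖χ g‖ ≤ ω g) (a : Beur ω B) :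
    evalL χ hχ a = eval χ a := rfl

theorem norm_evalL_le [CompleteSpace B] (χ : G → ℂ) (hχ : ∀ g, ‖χ g‖ ≤ ω g) :
    ‖(evalL χ hχ : Beur ω B →L[ℂ] B)‖ ≤ 1 :=
  LinearMap.mkContinuous_norm_le _ zero_le_one _

theorem norm_coefL_le (g : G) : ‖(coefL g : Beur ω B →L[ℂ] B)‖ ≤ (ω g)⁻¹ :=
  LinearMap.mkContinuous_norm_le _ (inv_nonneg.mpr (IsWt.pos g).le) _

theorem norm_mono (g : G) (b : B) : ‖(mono g b : Beur ω B)‖ = ω g * ‖b‖ := by
  rw [norm_def, tsum_eq_single g]
  · rw [coef_mono_self]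
  · intro h hh
    rw [coef_mono_ne hh, norm_zero, mul_zero]

/-! ### Projections: tails, finite dimensional ranges -/

theorem norm_proj_eq (S : Set G) (a : Beur ω B) :
    ‖proj S a‖ = ∑' g, S.indicator (fun g => ω g * ‖a.coef g‖) g := by
  rw [norm_def]
  refine tsum_congr fun g => ?_
  rw [coef_proj]
  by_cases h : g ∈ S <;> simp [h]

theorem proj_eq_self {S : Set G} {a : Beur ω B} (h : ∀ g, g ∉ S → a.coef g = 0) : proj S a = a := by
  apply Beur.ext
  rw [coef_proj]
  funext g
  by_cases hg : g ∈ S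
  · simp [hg]
  · simp [hg, h g hg]

theorem proj_eq_zero_iff {S : Set G} {a : Beur ω B} : proj S a = 0 ↔ ∀ g ∈ S, a.coef g = 0 := by
  constructor
  · intro h g hg
    have := congrArg (fun x : Beur ω B => x.coef g) h
    simpa [coef_proj, hg] using this
  · intro h
    apply Beur.ext
    rw [coef_proj]
    funext g
    by_cases hg : g ∈ S
    · simp [hg, h g hg]
    · simp [hg]

theorem proj_proj (S T : Set G) (a : Beur ω B) : proj S (proj T a) = proj (S ∩ T) a := by
  apply Beur.ext
  rw [coef_proj, coef_proj, coef_proj, Set.indicator_indicator]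

theorem norm_proj_mono {S T : Set G} (h : S ⊆ T) (a : Beur ω B) : ‖proj S a‖ ≤ ‖proj T a‖ := by
  rw [← Set.inter_eq_self_of_subset_left h, ← proj_proj]
  exact norm_proj_le _ _

theorem norm_projL_le (S : Set G) : ‖(proj S : Beur ω B →L[ℂ] Beur ω B)‖ ≤ 1 :=
  ContinuousLinearMap.opNorm_le_bound _ zero_le_one fun a => by
    rw [one_mul]
    exact norm_proj_le S a

theorem tendsto_norm_proj {ι : Type*} {l : Filter ι} [l.IsCountablyGenerated] (S : ι → Set G)
    (hS : ∀ g, ∀ᶠ i in l, g ∉ S i) (a : Beur ω B) : Tendsto (fun i => ‖proj (S i) a‖) l (𝓝 0) := by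
  simp only [norm_proj_eq]
  have h := tendsto_tsum_of_dominated_convergence (𝓕 := l)
    (f := fun i g => (S i).indicator (fun g => ω g * ‖a.coef g‖) g) (g := fun _ => (0 : ℝ))
    (bound := fun g => ω g * ‖a.coef g‖) a.summ (fun g => ?_) (Eventually.of_forall fun i g => ?_)
  · simpa using h
  · refine tendsto_const_nhds.congr' ?_
    filter_upwards [hS g] with i hi
    simp [hi]
  · rw [Real.norm_eq_abs, abs_of_nonneg (Set.indicator_nonneg (fun g _ => term_nonneg a g) g)]
    exact Set.indicator_le_self' (fun g _ => term_nonneg a g) g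

/-- tails are uniformly small on compact sets -/
theorem tail_compact {ι : Type*} {l : Filter ι} [l.IsCountablyGenerated] (S : ι → Set G)
    (hS : ∀ g, ∀ᶠ i in l, g ∉ S i) {K : Set (Beur ω B)} (hK : IsCompact K) {ε : ℝ} (hε : 0 < ε) :
    ∀ᶠ i in l, ∀ a ∈ K, ‖proj (S i) a‖ < ε := by
  obtain ⟨t, htK, htf, hcov⟩ := hK.finite_cover_balls (half_pos hε)
  have h1 : ∀ᶠ i in l, ∀ a ∈ t, ‖proj (S i) a‖ < ε / 2 := (Filter.eventually_all_finite htf).mpr
    fun a _ => (tendsto_norm_proj S hS a).eventually (gt_mem_nhds (half_pos hε))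
  filter_upwards [h1] with i hi a ha
  obtain ⟨x, hx, hax⟩ := Set.mem_iUnion₂.mp (hcov ha)
  rw [Metric.mem_ball, dist_eq_norm] at hax
  calc ‖proj (S i) a‖ = ‖proj (S i) x + proj (S i) (a - x)‖ := by rw [← map_add, add_sub_cancel]
    _ ≤ ‖proj (S i) x‖ + ‖proj (S i) (a - x)‖ := norm_add_le _ _
    _ ≤ ‖proj (S i) x‖ + ‖a - x‖ := by gcongr; exact norm_proj_le _ _
    _ < ε / 2 + ε / 2 := add_lt_add (hi x hx) hax
    _ = ε := add_halves ε

theorem hasSum_mono [CompleteSpace B] (a : Beur ω B) : HasSum (fun g => mono g (a.coef g)) a := by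
  have h1 : Summable fun g => (mono g (a.coef g) : Beur ω B) := by
    refine Summable.of_norm (a.summ.congr fun g => ?_)
    rw [norm_mono]
  convert h1.hasSum using 1
  apply Beur.ext
  funext g
  have h2 := h1.hasSum.mapL (coefL g)
  have h3 : HasSum (fun h => coefL g (mono h (a.coef h) : Beur ω B)) (a.coef g) := by
    convert hasSum_single (f := fun h => coefL g (mono h (a.coef h) : Beur ω B)) g ?_ using 1
    · rw [coefL_apply, coef_mono_self]
    · intro h hh
      rw [coefL_apply, coef_mono_ne hh.symm]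
  exact h3.unique h2

theorem finiteDimensional_range_proj [FiniteDimensional ℂ B] {S : Set G} (hS : S.Finite) :
    FiniteDimensional ℂ (LinearMap.range (proj S : Beur ω B →L[ℂ] Beur ω B).toLinearMap) := by
  haveI : Finite S := hS
  let φ : LinearMap.range (proj S : Beur ω B →L[ℂ] Beur ω B).toLinearMap →ₗ[ℂ] (S → B) :=
    { toFun := fun x s => x.1.coef s
      map_add' := fun _ _ => rfl
      map_smul' := fun _ _ => rfl }
  refine Module.Finite.of_injective φ ?_
  rintro ⟨x, a, rfl⟩ ⟨y, b, rfl⟩ h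
  apply Subtype.ext
  apply Beur.ext
  funext g
  by_cases hg : g ∈ S
  · exact congrFun h ⟨g, hg⟩
  · change S.indicator a.coef g = S.indicator b.coef g
    rw [Set.indicator_of_notMem hg, Set.indicator_of_notMem hg]

end group

section ring

variable {G : Type*} [AddCommGroup G] {ω : G → ℝ} [IsWt ω] {B : Type*} [NormedRing B]
  [NormedAlgebra ℂ B] [CompleteSpace B]

omit [CompleteSpace B] in
theorem summable_pair (a b : Beur ω B) :
    Summable fun p : G × G => (ω p.1 * ‖a.coef p.1‖) * (ω p.2 * ‖b.coef p.2‖) :=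
  a.summ.mul_of_nonneg b.summ (fun g => term_nonneg a g) (fun g => term_nonneg b g)

omit [CompleteSpace B] in
/-- the summability behind all the algebra: `ω g ‖a h‖ ‖b (g - h)‖` is summable on `G × G` -/
theorem summable_conv (a b : Beur ω B) :
    Summable fun p : G × G => ω p.1 * (‖a.coef p.2‖ * ‖b.coef (p.1 - p.2)‖) := by
  have h1 := summable_pair a b
  let e : G × G ≃ G × G :=
    { toFun := fun p => (p.2, p.1 - p.2)
      invFun := fun p => (p.1 + p.2, p.1)
      left_inv := fun p => by simp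
      right_inv := fun p => by simp }
  have h2 : Summable fun p : G × G =>
      (ω (e p).1 * ‖a.coef (e p).1‖) * (ω (e p).2 * ‖b.coef (e p).2‖) := h1.comp_injective e.injective
  refine Summable.of_nonneg_of_le (fun p => ?_) (fun p => ?_) h2
  · have := IsWt.pos (ω := ω) p.1
    positivity
  · change ω p.1 * (‖a.coef p.2‖ * ‖b.coef (p.1 - p.2)‖) ≤
      (ω p.2 * ‖a.coef p.2‖) * (ω (p.1 - p.2) * ‖b.coef (p.1 - p.2)‖)
    have h3 := IsWt.add (ω := ω) p.2 (p.1 - p.2)
    rw [add_sub_cancel] at h3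
    calc ω p.1 * (‖a.coef p.2‖ * ‖b.coef (p.1 - p.2)‖)
        ≤ (ω p.2 * ω (p.1 - p.2)) * (‖a.coef p.2‖ * ‖b.coef (p.1 - p.2)‖) := by gcongr
      _ = _ := by ring

omit [CompleteSpace B] in
theorem summable_conv_norm (a b : Beur ω B) (g : G) :
    Summable fun h => ‖a.coef h‖ * ‖b.coef (g - h)‖ := by
  have h1 := (summable_conv a b).prod_factor g
  have h2 := IsWt.pos (ω := ω) g
  have h3 := h1.mul_left (ω g)⁻¹
  refine h3.congr fun h => ?_
  field_simp

theorem summable_conv_coef (a b : Beur ω B) (g : G) :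
    Summable fun h => a.coef h * b.coef (g - h) := by
  refine Summable.of_norm_bounded (summable_conv_norm a b g) fun h => norm_mul_le _ _

/-- convolution -/
noncomputable instance : Mul (Beur ω B) := ⟨fun a b => ⟨fun g => ∑' h, a.coef h * b.coef (g - h), by
  refine Summable.of_nonneg_of_le (fun g => ?_) (fun g => ?_) (summable_conv a b).prod
  · have := IsWt.pos (ω := ω) g
    positivity
  · have := IsWt.pos (ω := ω) g
    change _ ≤ ∑' h, ω g * (‖a.coef h‖ * ‖b.coef (g - h)‖)
    rw [tsum_mul_left]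
    refine mul_le_mul_of_nonneg_left ?_ this.le
    exact tsum_of_norm_bounded (summable_conv_norm a b g).hasSum fun h => norm_mul_le _ _⟩⟩

theorem coef_mul (a b : Beur ω B) (g : G) : (a * b).coef g = ∑' h, a.coef h * b.coef (g - h) := rfl

theorem norm_mul_le' (a b : Beur ω B) : ‖a * b‖ ≤ ‖a‖ * ‖b‖ := by
  have h1 : ‖a‖ * ‖b‖ = ∑' p : G × G, (ω p.1 * ‖a.coef p.1‖) * (ω p.2 * ‖b.coef p.2‖) :=
    a.summ.tsum_mul_tsum b.summ (summable_pair a b)
  let e : G × G ≃ G × G :=
    { toFun := fun p => (p.2, p.1 - p.2)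
      invFun := fun p => (p.1 + p.2, p.1)
      left_inv := fun p => by simp
      right_inv := fun p => by simp }
  have h2 : ∑' p : G × G, (ω p.1 * ‖a.coef p.1‖) * (ω p.2 * ‖b.coef p.2‖) =
      ∑' p : G × G, (ω (e p).1 * ‖a.coef (e p).1‖) * (ω (e p).2 * ‖b.coef (e p).2‖) :=
    (e.tsum_eq fun p : G × G => (ω p.1 * ‖a.coef p.1‖) * (ω p.2 * ‖b.coef p.2‖)).symm
  have h3 : Summable fun p : G × G =>
      (ω (e p).1 * ‖a.coef (e p).1‖) * (ω (e p).2 * ‖b.coef (e p).2‖) :=
    (summable_pair a b).comp_injective e.injective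
  rw [h1, h2]
  calc ‖a * b‖ ≤ ∑' g, ∑' h, ω g * (‖a.coef h‖ * ‖b.coef (g - h)‖) := by
        rw [norm_def]
        refine Summable.tsum_le_tsum (fun g => ?_) (a * b).summ (summable_conv a b).prod
        have := IsWt.pos (ω := ω) g
        rw [tsum_mul_left]
        refine mul_le_mul_of_nonneg_left ?_ this.le
        exact tsum_of_norm_bounded (summable_conv_norm a b g).hasSum fun h => norm_mul_le _ _
    _ = ∑' p : G × G, ω p.1 * (‖a.coef p.2‖ * ‖b.coef (p.1 - p.2)‖) :=
        ((summable_conv a b).tsum_prod).symm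
    _ ≤ _ := by
        refine Summable.tsum_le_tsum (fun p => ?_) (summable_conv a b) h3
        change ω p.1 * (‖a.coef p.2‖ * ‖b.coef (p.1 - p.2)‖) ≤
          (ω p.2 * ‖a.coef p.2‖) * (ω (p.1 - p.2) * ‖b.coef (p.1 - p.2)‖)
        have h3 := IsWt.add (ω := ω) p.2 (p.1 - p.2)
        rw [add_sub_cancel] at h3
        calc ω p.1 * (‖a.coef p.2‖ * ‖b.coef (p.1 - p.2)‖)
            ≤ (ω p.2 * ω (p.1 - p.2)) * (‖a.coef p.2‖ * ‖b.coef (p.1 - p.2)‖) := by gcongr
          _ = _ := by ring

theorem mul_assoc' (a b c : Beur ω B) : a * b * c = a * (b * c) := by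
  apply Beur.ext
  funext g
  -- triple sum over `(h, k)`: `a h * b k * c (g - h - k)`
  have hbc : Summable fun p : G × G => ‖a.coef p.1‖ * (‖b.coef p.2‖ * ‖c.coef (g - p.1 - p.2)‖) := by
    -- `ω g` times this is dominated by a product of three summable families
    have h1 : Summable fun p : G × (G × G) => (ω p.1 * ‖a.coef p.1‖) *
        ((ω p.2.1 * ‖b.coef p.2.1‖) * (ω p.2.2 * ‖c.coef p.2.2‖)) :=
      a.summ.mul_of_nonneg (summable_pair b c) (fun g => term_nonneg a g)
        (fun p => mul_nonneg (term_nonneg b p.1) (term_nonneg c p.2))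
    have h2 : Summable fun p : G × G => (ω p.1 * ‖a.coef p.1‖) *
        ((ω p.2 * ‖b.coef p.2‖) * (ω (g - p.1 - p.2) * ‖c.coef (g - p.1 - p.2)‖)) :=
      h1.comp_injective (i := fun p : G × G => (p.1, (p.2, g - p.1 - p.2))) (by
        rintro ⟨x, y⟩ ⟨z, w⟩ h
        simp only [Prod.mk.injEq] at h
        exact Prod.ext h.1 h.2.1)
    have hg := IsWt.pos (ω := ω) g
    refine Summable.of_nonneg_of_le (fun p => by positivity) (fun p => ?_) (h2.mul_left (ω g)⁻¹)
    have h3 : ω g ≤ ω p.1 * (ω p.2 * ω (g - p.1 - p.2)) := by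
      have e1 := IsWt.add (ω := ω) p.1 (g - p.1)
      have e2 := IsWt.add (ω := ω) p.2 (g - p.1 - p.2)
      rw [add_sub_cancel] at e1 e2
      have := IsWt.pos (ω := ω) p.1
      calc ω g ≤ ω p.1 * ω (g - p.1) := e1
        _ ≤ _ := by gcongr
    have h4 : 0 ≤ ‖a.coef p.1‖ * (‖b.coef p.2‖ * ‖c.coef (g - p.1 - p.2)‖) := by positivity
    calc ‖a.coef p.1‖ * (‖b.coef p.2‖ * ‖c.coef (g - p.1 - p.2)‖)
        = (ω g)⁻¹ * (ω g * (‖a.coef p.1‖ * (‖b.coef p.2‖ * ‖c.coef (g - p.1 - p.2)‖))) := by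
          field_simp
      _ ≤ (ω g)⁻¹ * ((ω p.1 * (ω p.2 * ω (g - p.1 - p.2))) *
          (‖a.coef p.1‖ * (‖b.coef p.2‖ * ‖c.coef (g - p.1 - p.2)‖))) := by gcongr
      _ = _ := by ring
  have hS : Summable fun p : G × G => a.coef p.1 * (b.coef p.2 * c.coef (g - p.1 - p.2)) := by
    refine Summable.of_norm_bounded hbc fun p => ?_
    refine (norm_mul_le _ _).trans ?_
    exact mul_le_mul_of_nonneg_left (norm_mul_le _ _) (norm_nonneg _)
  have hR : (a * (b * c)).coef g = ∑' p : G × G, a.coef p.1 * (b.coef p.2 * c.coef (g - p.1 - p.2)) := by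
    rw [hS.tsum_prod, coef_mul]
    refine tsum_congr fun h => ?_
    rw [coef_mul]
    exact ((summable_conv_coef b c (g - h)).tsum_mul_left _).symm
  let e : G × G ≃ G × G :=
    { toFun := fun p => (p.2, p.1 - p.2)
      invFun := fun p => (p.1 + p.2, p.1)
      left_inv := fun p => by simp
      right_inv := fun p => by simp }
  have hS' : Summable fun p : G × G => a.coef p.2 * b.coef (p.1 - p.2) * c.coef (g - p.1) := by
    have := hS.comp_injective e.injective
    refine this.congr fun p => ?_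
    change a.coef p.2 * (b.coef (p.1 - p.2) * c.coef (g - p.2 - (p.1 - p.2))) = _
    rw [mul_assoc]
    congr 3
    abel
  have hL : (a * b * c).coef g = ∑' p : G × G, a.coef p.2 * b.coef (p.1 - p.2) * c.coef (g - p.1) := by
    rw [hS'.tsum_prod, coef_mul]
    refine tsum_congr fun h => ?_
    rw [coef_mul]
    exact ((summable_conv_coef a b h).tsum_mul_right _).symm
  rw [hL, hR, ← e.tsum_eq fun p : G × G => a.coef p.1 * (b.coef p.2 * c.coef (g - p.1 - p.2))]
  refine tsum_congr fun p => ?_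
  change _ = a.coef p.2 * (b.coef (p.1 - p.2) * c.coef (g - p.2 - (p.1 - p.2)))
  rw [mul_assoc]
  congr 3
  abel

noncomputable instance : One (Beur ω B) := ⟨mono 0 1⟩

theorem mono_mul (g : G) (b : B) (a : Beur ω B) (h : G) :
    (mono g b * a).coef h = b * a.coef (h - g) := by
  rw [coef_mul, tsum_eq_single g]
  · rw [coef_mono_self]
  · intro k hk
    rw [coef_mono_ne hk, zero_mul]

theorem mul_mono (g : G) (b : B) (a : Beur ω B) (h : G) :
    (a * mono g b).coef h = a.coef (h - g) * b := by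
  rw [coef_mul, tsum_eq_single (h - g)]
  · rw [sub_sub_cancel, coef_mono_self]
  · intro k hk
    rw [coef_mono_ne, mul_zero]
    intro he
    apply hk
    rw [← he]
    abel

noncomputable instance : Ring (Beur ω B) where
  __ := (inferInstance : AddCommGroup (Beur ω B))
  mul := (· * ·)
  one := 1
  left_distrib a b c := by
    apply Beur.ext
    funext g
    rw [coef_add, Pi.add_apply, coef_mul, coef_mul, coef_mul,
      ← (summable_conv_coef a b g).tsum_add (summable_conv_coef a c g)]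
    exact tsum_congr fun h => mul_add _ _ _
  right_distrib a b c := by
    apply Beur.ext
    funext g
    rw [coef_add, Pi.add_apply, coef_mul, coef_mul, coef_mul,
      ← (summable_conv_coef a c g).tsum_add (summable_conv_coef b c g)]
    exact tsum_congr fun h => add_mul _ _ _
  zero_mul a := by
    apply Beur.ext
    funext g
    rw [coef_mul]
    simp
  mul_zero a := by
    apply Beur.ext
    funext g
    rw [coef_mul]
    simp
  mul_assoc := mul_assoc'
  one_mul a := by
    apply Beur.ext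
    funext g
    change (mono 0 1 * a).coef g = _
    rw [mono_mul, one_mul, sub_zero]
  mul_one a := by
    apply Beur.ext
    funext g
    change (a * mono 0 1).coef g = _
    rw [mul_mono, mul_one, sub_zero]

noncomputable instance : NormedRing (Beur ω B) where
  __ := (inferInstance : NormedAddCommGroup (Beur ω B))
  __ := (inferInstance : Ring (Beur ω B))
  norm_mul_le := norm_mul_le'

noncomputable instance : Algebra ℂ (Beur ω B) :=
  Algebra.ofModule
    (fun c a b => by
      apply Beur.ext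
      funext g
      change ∑' h, (c • a.coef h) * b.coef (g - h) = c • ∑' h, a.coef h * b.coef (g - h)
      rw [← (summable_conv_coef a b g).tsum_const_smul]
      exact tsum_congr fun h => smul_mul_assoc _ _ _)
    (fun c a b => by
      apply Beur.ext
      funext g
      change ∑' h, a.coef h * (c • b.coef (g - h)) = c • ∑' h, a.coef h * b.coef (g - h)
      rw [← (summable_conv_coef a b g).tsum_const_smul]
      exact tsum_congr fun h => mul_smul_comm _ _ _)

noncomputable instance : NormedAlgebra ℂ (Beur ω B) where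
  norm_smul_le c a := norm_smul_le c a

/-! ### Evaluations at multiplicative characters -/

theorem eval_one {χ : G → ℂ} (h0 : χ 0 = 1) : eval χ (1 : Beur ω B) = 1 := by
  change eval χ (mono 0 1) = 1
  rw [eval_mono, h0, one_smul]

theorem eval_mul {χ : G → ℂ} (hχ : ∀ g, ‖χ g‖ ≤ ω g) (hm : ∀ g h, χ (g + h) = χ g * χ h)
    (a b : Beur ω B) : eval χ (a * b) = eval χ a * eval χ b := by
  have hn : Summable fun p : G × G => ‖χ p.1 • (a.coef p.2 * b.coef (p.1 - p.2))‖ := by
    refine Summable.of_nonneg_of_le (fun p => norm_nonneg _) (fun p => ?_) (summable_conv a b)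
    rw [norm_smul]
    have := IsWt.pos (ω := ω) p.1
    exact mul_le_mul (hχ p.1) (norm_mul_le _ _) (norm_nonneg _) this.le
  have h1 : eval χ (a * b) = ∑' p : G × G, χ p.1 • (a.coef p.2 * b.coef (p.1 - p.2)) := by
    rw [hn.of_norm.tsum_prod]
    refine tsum_congr fun g => ?_
    rw [coef_mul]
    exact ((summable_conv_coef a b g).tsum_const_smul _).symm
  have hs : Summable fun p : G × G => (χ p.1 • a.coef p.1) * (χ p.2 • b.coef p.2) :=
    summable_mul_of_summable_norm (summ_char hχ a) (summ_char hχ b)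
  have h2 : eval χ a * eval χ b = ∑' p : G × G, (χ p.1 • a.coef p.1) * (χ p.2 • b.coef p.2) :=
    tsum_mul_tsum_of_summable_norm (summ_char hχ a) (summ_char hχ b)
  let e : G × G ≃ G × G :=
    { toFun := fun p => (p.2, p.1 - p.2)
      invFun := fun p => (p.1 + p.2, p.1)
      left_inv := fun p => by simp
      right_inv := fun p => by simp }
  rw [h1, h2, ← e.tsum_eq fun p : G × G => (χ p.1 • a.coef p.1) * (χ p.2 • b.coef p.2)]
  refine tsum_congr fun p => ?_
  change χ p.1 • (a.coef p.2 * b.coef (p.1 - p.2)) =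
    (χ p.2 • a.coef p.2) * (χ (p.1 - p.2) • b.coef (p.1 - p.2))
  rw [smul_mul_smul_comm, ← hm, add_sub_cancel]

/-! ### Supports and products -/

theorem coef_mul_eq_zero {a b : Beur ω B} {g : G} (h : ∀ k, a.coef k = 0 ∨ b.coef (g - k) = 0) :
    (a * b).coef g = 0 := by
  rw [coef_mul]
  have : ∀ k, a.coef k * b.coef (g - k) = 0 := fun k => by
    rcases h k with h | h <;> simp [h]
  simp [this]

theorem proj_mul_proj {S T D : Set G} (hD : ∀ g ∈ S, ∀ h ∈ T, g - h ∈ D) (b a : Beur ω B) :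
    proj S (b * proj T a) = proj S (proj D b * proj T a) := by
  apply Beur.ext
  funext g
  rw [coef_proj, coef_proj]
  by_cases hg : g ∈ S
  · rw [Set.indicator_of_mem hg, Set.indicator_of_mem hg, coef_mul, coef_mul]
    refine tsum_congr fun k => ?_
    rw [coef_proj, coef_proj]
    by_cases hk : g - k ∈ T
    · have : k ∈ D := by simpa using hD g hg _ hk
      rw [Set.indicator_of_mem this]
    · rw [Set.indicator_of_notMem hk, mul_zero, mul_zero]
  · rw [Set.indicator_of_notMem hg, Set.indicator_of_notMem hg]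

theorem proj_proj_mul {S T D : Set G} (hD : ∀ g ∈ S, ∀ h ∈ T, g - h ∈ D) (b a : Beur ω B) :
    proj S (proj T a * b) = proj S (proj T a * proj D b) := by
  apply Beur.ext
  funext g
  rw [coef_proj, coef_proj]
  by_cases hg : g ∈ S
  · rw [Set.indicator_of_mem hg, Set.indicator_of_mem hg, coef_mul, coef_mul]
    refine tsum_congr fun k => ?_
    rw [coef_proj, coef_proj]
    by_cases hk : k ∈ T
    · rw [Set.indicator_of_mem (hD g hg k hk)]
    · rw [Set.indicator_of_notMem hk, zero_mul, zero_mul]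
  · rw [Set.indicator_of_notMem hg, Set.indicator_of_notMem hg]

/-- tails of multiplication operators, left factor -/
theorem norm_proj_mul_proj_le {S T D : Set G} (hD : ∀ g ∈ S, ∀ h ∈ T, g - h ∈ D) (b a : Beur ω B) :
    ‖proj S (b * proj T a)‖ ≤ ‖proj D b‖ * ‖a‖ := by
  rw [proj_mul_proj hD]
  refine (norm_proj_le _ _).trans ((norm_mul_le _ _).trans ?_)
  exact mul_le_mul_of_nonneg_left (norm_proj_le _ _) (norm_nonneg _)

/-- tails of multiplication operators, right factor -/
theorem norm_proj_proj_mul_le {S T D : Set G} (hD : ∀ g ∈ S, ∀ h ∈ T, g - h ∈ D) (b a : Beur ω B) :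
    ‖proj S (proj T a * b)‖ ≤ ‖a‖ * ‖proj D b‖ := by
  rw [proj_proj_mul hD]
  refine (norm_proj_le _ _).trans ((norm_mul_le _ _).trans ?_)
  exact mul_le_mul_of_nonneg_right (norm_proj_le _ _) (norm_nonneg _)

/-- products of families supported in a set closed under addition -/
theorem proj_mul_of_closed {S : Set G} (hS : ∀ g ∈ S, ∀ h ∈ S, g + h ∈ S) {a b : Beur ω B}
    (ha : proj S a = a) (hb : proj S b = b) : proj S (a * b) = a * b := by
  refine proj_eq_self fun g hg => coef_mul_eq_zero fun k => ?_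
  by_contra hc
  push Not at hc
  have h1 : k ∈ S := by
    by_contra h
    apply hc.1
    rw [← ha, coef_proj, Set.indicator_of_notMem h]
  have h2 : g - k ∈ S := by
    by_contra h
    apply hc.2
    rw [← hb, coef_proj, Set.indicator_of_notMem h]
  exact hg (by simpa using hS k h1 _ h2)

end ring

end Beur

end DQ.F
end

section

/-!
# Laurent expansions on closed annuli with values in a Banach space, and analytic families of them
-/

set_option autoImplicit false
set_option linter.unusedSectionVars false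
set_option linter.unusedVariables false

open Filter Topology Set Metric MeasureTheory

namespace DQ.F

/-! ### Weights of annuli -/

/-- the weight `k ↦ max (r^k) (R^k)` of the annulus `r ≤ |z| ≤ R` -/
noncomputable def wt (r R : ℝ) (k : ℤ) : ℝ := max (r ^ k) (R ^ k)

theorem isWt_wt {r R : ℝ} (hr : 0 < r) (hR : 0 < R) : IsWt (wt r R) where
  pos k := lt_max_of_lt_left (zpow_pos hr k)
  zero := by simp [wt]
  add g h := by
    have h1 : 0 < r ^ g := zpow_pos hr g
    have h2 : 0 < r ^ h := zpow_pos hr h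
    have h3 : 0 < R ^ g := zpow_pos hR g
    have h4 : 0 < R ^ h := zpow_pos hR h
    unfold wt
    rw [zpow_add₀ hr.ne', zpow_add₀ hR.ne']
    refine max_le ?_ ?_
    · exact mul_le_mul (le_max_left _ _) (le_max_left _ _) h2.le (le_max_of_le_left h1.le)
    · exact mul_le_mul (le_max_right _ _) (le_max_right _ _) h4.le (le_max_of_le_left h1.le)

instance instWt {r R : ℝ} [hr : Fact (0 < r)] [hR : Fact (0 < R)] : IsWt (wt r R) :=
  isWt_wt hr.out hR.out

theorem wt_nonneg_of {r R : ℝ} (hr : 0 < r) (hrR : r ≤ R) {k : ℤ} (hk : 0 ≤ k) :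
    wt r R k = R ^ k := by
  refine max_eq_right ?_
  lift k to ℕ using hk
  rw [zpow_natCast, zpow_natCast]
  exact pow_le_pow_left₀ hr.le hrR k

theorem wt_nonpos_of {r R : ℝ} (hr : 0 < r) (hrR : r ≤ R) {k : ℤ} (hk : k ≤ 0) :
    wt r R k = r ^ k := by
  refine max_eq_left ?_
  obtain ⟨m, rfl⟩ : ∃ m : ℕ, k = -(m : ℤ) := ⟨(-k).toNat, by omega⟩
  rw [zpow_neg, zpow_neg, zpow_natCast, zpow_natCast]
  exact inv_anti₀ (pow_pos hr m) (pow_le_pow_left₀ hr.le hrR m)

theorem norm_zpow_le_wt {r R : ℝ} (hr : 0 < r) {z : ℂ} (h1 : r ≤ ‖z‖) (h2 : ‖z‖ ≤ R) (k : ℤ) :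
    ‖z ^ k‖ ≤ wt r R k := by
  rw [norm_zpow]
  have hz : 0 < ‖z‖ := hr.trans_le h1
  rcases le_total 0 k with hk | hk
  · refine le_max_of_le_right ?_
    lift k to ℕ using hk
    rw [zpow_natCast, zpow_natCast]
    exact pow_le_pow_left₀ hz.le h2 k
  · refine le_max_of_le_left ?_
    obtain ⟨m, rfl⟩ : ∃ m : ℕ, k = -(m : ℤ) := ⟨(-k).toNat, by omega⟩
    rw [zpow_neg, zpow_neg, zpow_natCast, zpow_natCast]
    exact inv_anti₀ (pow_pos hr m) (pow_le_pow_left₀ hr.le h1 m)

/-! ### Geometry of annuli -/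

theorem isCompact_ann (r R : ℝ) : IsCompact {z : ℂ | r ≤ ‖z‖ ∧ ‖z‖ ≤ R} := by
  refine Metric.isCompact_of_isClosed_isBounded ?_ ?_
  · exact (isClosed_le continuous_const continuous_norm).inter
      (isClosed_le continuous_norm continuous_const)
  · refine (isBounded_closedBall (x := (0 : ℂ)) (r := R)).subset fun z hz => ?_
    rw [mem_closedBall_zero_iff]
    exact hz.2

/-- a neighbourhood of a closed annulus contains a larger closed annulus -/
theorem exists_larger {r R : ℝ} (hr : 0 < r) (hrR : r ≤ R) {U : Set ℂ} (hU : IsOpen U)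
    (hsub : {z : ℂ | r ≤ ‖z‖ ∧ ‖z‖ ≤ R} ⊆ U) :
    ∃ r' R' : ℝ, 0 < r' ∧ r' < r ∧ R < R' ∧ {z : ℂ | r' ≤ ‖z‖ ∧ ‖z‖ ≤ R'} ⊆ U := by
  obtain ⟨δ, hδ, hthick⟩ := (isCompact_ann r R).exists_cthickening_subset_open hU hsub
  refine ⟨max (r / 2) (r - δ), R + δ, lt_max_of_lt_left (by positivity),
    max_lt (by linarith) (by linarith), by linarith, fun z hz => hthick ?_⟩
  obtain ⟨h1, h2⟩ := hz
  have hz0 : 0 < ‖z‖ := (lt_of_lt_of_le (by positivity) (le_max_left (r / 2) (r - δ))).trans_le h1
  have h1' : r - δ ≤ ‖z‖ := (le_max_right _ _).trans h1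
  -- radial projection
  set s : ℝ := max r (min R ‖z‖) with hs
  have hs1 : r ≤ s := le_max_left _ _
  have hs2 : s ≤ R := max_le hrR (min_le_left _ _)
  have hsd : |s - ‖z‖| ≤ δ := by
    rw [abs_le]
    constructor
    · have : ‖z‖ - δ ≤ min R ‖z‖ := le_min (by linarith) (by linarith)
      have := le_max_right r (min R ‖z‖)
      linarith
    · have : max r (min R ‖z‖) ≤ ‖z‖ + δ := max_le (by linarith) ((min_le_right _ _).trans (by linarith))
      linarith
  refine mem_cthickening_of_dist_le z ((s / ‖z‖ : ℝ) • z) δ _ ⟨?_, ?_⟩ ?_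
  · rw [norm_smul, Real.norm_eq_abs, abs_of_nonneg (by positivity), div_mul_cancel₀ _ hz0.ne']
    exact hs1
  · rw [norm_smul, Real.norm_eq_abs, abs_of_nonneg (by positivity), div_mul_cancel₀ _ hz0.ne']
    exact hs2
  · rw [dist_comm, dist_eq_norm]
    have : (s / ‖z‖ : ℝ) • z - z = ((s - ‖z‖) / ‖z‖ : ℝ) • z := by
      rw [sub_div, sub_smul, div_self hz0.ne', one_smul]
    rw [this, norm_smul, Real.norm_eq_abs, abs_div, abs_of_pos hz0, div_mul_cancel₀ _ hz0.ne']
    exact hsd

/-! ### Laurent coefficients -/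

section one

variable {F : Type*} [NormedAddCommGroup F] [NormedSpace ℂ F]

/-- Laurent coefficients, by integration over the circle of radius `ρ` -/
noncomputable def lc (f : ℂ → F) (ρ : ℝ) (k : ℤ) : F :=
  (2 * Real.pi * Complex.I : ℂ)⁻¹ • ∮ z in C(0, ρ), z ^ (-k - 1) • f z

theorem norm_lc_le {f : ℂ → F} {ρ M : ℝ} (hρ : 0 < ρ) (hM : ∀ z : ℂ, ‖z‖ = ρ → ‖f z‖ ≤ M) (k : ℤ) :
    ‖lc f ρ k‖ ≤ M * ρ ^ (-k) := by
  have h := circleIntegral.norm_two_pi_i_inv_smul_integral_le_of_norm_le_const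
    (f := fun z : ℂ => z ^ (-k - 1) • f z) (c := 0) (R := ρ) (C := ρ ^ (-k - 1) * M) hρ.le (by
      intro z hz
      rw [mem_sphere_zero_iff_norm] at hz
      rw [norm_smul, norm_zpow, hz]
      exact mul_le_mul_of_nonneg_left (hM z hz) (zpow_nonneg hρ.le _))
  refine h.trans (le_of_eq ?_)
  rw [zpow_sub_one₀ hρ.ne']
  field_simp

theorem mem_annulus {a b : ℝ} {z : ℂ} (hz : z ∈ closedBall (0 : ℂ) b \ ball 0 a) :
    a ≤ ‖z‖ ∧ ‖z‖ ≤ b := by
  rw [Set.mem_sdiff, mem_closedBall_zero_iff, mem_ball_zero_iff, not_lt] at hz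
  exact ⟨hz.2, hz.1⟩

/-- independence of the radius -/
theorem lc_eq {f : ℂ → F} {a b : ℝ} (ha : 0 < a) (hab : a ≤ b)
    (hf : ∀ z : ℂ, a ≤ ‖z‖ → ‖z‖ ≤ b → DifferentiableAt ℂ f z) (k : ℤ) : lc f b k = lc f a k := by
  unfold lc
  congr 1
  have hd : ∀ z : ℂ, a ≤ ‖z‖ → ‖z‖ ≤ b →
      DifferentiableAt ℂ (fun z : ℂ => z ^ (-k - 1) • f z) z := by
    intro z h1 h2
    have hz : z ≠ 0 := norm_pos_iff.mp (ha.trans_le h1)
    exact (differentiableAt_zpow.mpr (Or.inl hz)).smul (hf z h1 h2)
  refine Complex.circleIntegral_eq_of_differentiable_on_annulus_off_countable ha hab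
    (s := ∅) countable_empty ?_ ?_
  · intro z hz
    obtain ⟨h1, h2⟩ := mem_annulus hz
    exact (hd z h1 h2).continuousAt.continuousWithinAt
  · rintro z ⟨hz, -⟩
    rw [Set.mem_sdiff, mem_ball_zero_iff, mem_closedBall_zero_iff, not_le] at hz
    exact hd z hz.2.le hz.1.le

/-- bounds on a slightly larger annulus give geometric decay -/
theorem wt_mul_le {r R r' R' M : ℝ} (hr' : 0 < r') (h1 : r' < r) (hrR : r ≤ R) (h2 : R < R') {c : ℤ → F}
    (hM : 0 ≤ M) (hc1 : ∀ k, ‖c k‖ ≤ M * R' ^ (-k)) (hc2 : ∀ k, ‖c k‖ ≤ M * r' ^ (-k)) :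
    (∀ n : ℕ, wt r R n * ‖c n‖ ≤ M * (R / R') ^ n) ∧
      ∀ n : ℕ, wt r R (-(n + 1)) * ‖c (-(n + 1))‖ ≤ M * (r' / r) ^ (n + 1) := by
  have hr : 0 < r := hr'.trans h1
  have hR : 0 < R := hr.trans_le hrR
  have hR' : 0 < R' := hR.trans h2
  constructor
  · intro n
    rw [wt_nonneg_of hr hrR (by positivity), zpow_natCast]
    have := hc1 n
    rw [zpow_neg, zpow_natCast] at this
    calc R ^ n * ‖c n‖ ≤ R ^ n * (M * (R' ^ n)⁻¹) := by gcongr
      _ = M * (R / R') ^ n := by rw [div_pow]; ring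
  · intro n
    rw [wt_nonpos_of hr hrR (by omega)]
    have := hc2 (-(n + 1))
    rw [neg_neg] at this
    have e1 : r ^ (-((n : ℤ) + 1)) = (r ^ (n + 1))⁻¹ := by
      rw [zpow_neg, ← Nat.cast_succ, zpow_natCast]
    have e2 : r' ^ ((n : ℤ) + 1) = r' ^ (n + 1) := by
      rw [← Nat.cast_succ, zpow_natCast]
    rw [e2] at this
    rw [e1]
    calc (r ^ (n + 1))⁻¹ * ‖c (-(n + 1))‖ ≤ (r ^ (n + 1))⁻¹ * (M * r' ^ (n + 1)) := by gcongr
      _ = M * (r' / r) ^ (n + 1) := by rw [div_pow]; ring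

theorem summable_wt {r R r' R' M : ℝ} (hr' : 0 < r') (h1 : r' < r) (hrR : r ≤ R) (h2 : R < R') {c : ℤ → F}
    (hM : 0 ≤ M) (hc1 : ∀ k, ‖c k‖ ≤ M * R' ^ (-k)) (hc2 : ∀ k, ‖c k‖ ≤ M * r' ^ (-k)) :
    Summable fun k => wt r R k * ‖c k‖ := by
  have hr : 0 < r := hr'.trans h1
  have hR : 0 < R := hr.trans_le hrR
  have hR' : 0 < R' := hR.trans h2
  obtain ⟨b1, b2⟩ := wt_mul_le hr' h1 hrR h2 hM hc1 hc2
  have hpos : ∀ k, 0 ≤ wt r R k * ‖c k‖ := fun k =>
    mul_nonneg ((isWt_wt hr hR).pos k).le (norm_nonneg _)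
  refine Summable.of_nat_of_neg_add_one ?_ ?_
  · refine Summable.of_nonneg_of_le (fun n => hpos _) b1 ((summable_geometric_of_lt_one (by positivity) ?_).mul_left M)
    rw [div_lt_one hR']
    exact h2
  · refine Summable.of_nonneg_of_le (fun n => hpos _) b2 (((summable_nat_add_iff 1).mpr
      (summable_geometric_of_lt_one (by positivity) ?_)).mul_left M)
    rw [div_lt_one hr]
    exact h1

end one

section hassum

variable {F : Type*} [NormedAddCommGroup F] [NormedSpace ℂ F] [CompleteSpace F]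

/-- expansion of the Cauchy integral outside the circle -/
theorem hasSum_outside {f : ℂ → F} {ρ : ℝ} {w : ℂ} (hρ : 0 < ρ) (hf : CircleIntegrable f 0 ρ)
    (hw : ρ < ‖w‖) :
    HasSum (fun n : ℕ => ∮ z in C(0, ρ), (z / w) ^ n • w⁻¹ • f z)
      (∮ z in C(0, ρ), (w - z)⁻¹ • f z) := by
  have hw0 : 0 < ‖w‖ := hρ.trans hw
  have hw0' : w ≠ 0 := norm_pos_iff.mp hw0
  have hwR : ρ / ‖w‖ ∈ Ico (0 : ℝ) 1 :=
    ⟨div_nonneg hρ.le hw0.le, (div_lt_one hw0).2 hw⟩
  refine intervalIntegral.hasSum_integral_of_dominated_convergence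
      (fun n θ => (ρ * ‖w‖⁻¹ * ‖f (circleMap 0 ρ θ)‖) * (ρ / ‖w‖) ^ n) (fun n => ?_) (fun n => ?_) ?_ ?_ ?_
  · simp only [deriv_circleMap]
    apply_rules [AEStronglyMeasurable.smul, hf.def'.1] <;> apply Measurable.aestronglyMeasurable
    · fun_prop
    · fun_prop
    · fun_prop
  · refine Eventually.of_forall fun θ _ => le_of_eq ?_
    simp [norm_smul, abs_of_pos hρ]
    ring
  · exact Eventually.of_forall fun _ _ => (summable_geometric_of_lt_one hwR.1 hwR.2).mul_left _
  · simp only [tsum_mul_left, tsum_geometric_of_lt_one hwR.1 hwR.2]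
    exact (hf.norm.continuousOn_mul continuousOn_const).mul_continuousOn continuousOn_const
  · refine Eventually.of_forall fun θ _ => HasSum.const_smul _ ?_
    simp only [smul_smul]
    refine HasSum.smul_const ?_ _
    have h1 : ‖circleMap 0 ρ θ / w‖ < 1 := by simpa [abs_of_pos hρ] using hwR.2
    convert! (hasSum_geometric_of_norm_lt_one h1).mul_right _ using 1
    rw [← mul_inv]
    congr 1
    field_simp

end hassum


section expansion

variable {F : Type*} [NormedAddCommGroup F] [NormedSpace ℂ F] [CompleteSpace F]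

theorem circleIntegrable_of {f : ℂ → F} {ρ : ℝ} (hρ : 0 ≤ ρ)
    (hf : ∀ z : ℂ, ‖z‖ = ρ → ContinuousAt f z) : CircleIntegrable f 0 ρ := by
  refine ContinuousOn.circleIntegrable hρ fun z hz => ?_
  rw [mem_sphere_zero_iff_norm] at hz
  exact (hf z hz).continuousWithinAt

/-- Cauchy's formula in an annulus -/
theorem cauchy_annulus {f : ℂ → F} {a b : ℝ} (ha : 0 < a) {w : ℂ} (haw : a < ‖w‖) (hwb : ‖w‖ < b)
    (hf : ∀ z : ℂ, a ≤ ‖z‖ → ‖z‖ ≤ b → DifferentiableAt ℂ f z) :
    (2 * Real.pi * Complex.I : ℂ) • f w =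
      (∮ z in C(0, b), (z - w)⁻¹ • f z) + ∮ z in C(0, a), (w - z)⁻¹ • f z := by
  have hab : a < b := haw.trans hwb
  have hb : 0 < b := ha.trans hab
  -- the difference quotient
  have hd : ∀ z : ℂ, a ≤ ‖z‖ → ‖z‖ ≤ b → z ≠ w → DifferentiableAt ℂ (dslope f w) z :=
    fun z h1 h2 h3 => (differentiableAt_dslope_of_ne h3).mpr (hf z h1 h2)
  have hc : ∀ z : ℂ, a ≤ ‖z‖ → ‖z‖ ≤ b → ContinuousAt (dslope f w) z := by
    intro z h1 h2
    by_cases h3 : z = w
    · subst h3
      exact continuousAt_dslope_same.mpr (hf z h1 h2)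
    · exact (hd z h1 h2 h3).continuousAt
  have h1 : (∮ z in C(0, b), dslope f w z) = ∮ z in C(0, a), dslope f w z := by
    refine Complex.circleIntegral_eq_of_differentiable_on_annulus_off_countable ha hab.le
      (s := {w}) (countable_singleton w) ?_ ?_
    · intro z hz
      obtain ⟨h1, h2⟩ := mem_annulus hz
      exact (hc z h1 h2).continuousWithinAt
    · rintro z ⟨hz, hzw⟩
      rw [Set.mem_sdiff, mem_ball_zero_iff, mem_closedBall_zero_iff, not_le] at hz
      exact hd z hz.2.le hz.1.le hzw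
  -- on a circle not containing `w`
  have h2 : ∀ ρ : ℝ, 0 < ρ → ρ ≠ ‖w‖ → a ≤ ρ → ρ ≤ b → (∮ z in C(0, ρ), dslope f w z) =
      (∮ z in C(0, ρ), (z - w)⁻¹ • f z) - ∮ z in C(0, ρ), (z - w)⁻¹ • f w := by
    intro ρ hρ hρw h1 h2
    have hne : ∀ z : ℂ, ‖z‖ = ρ → z - w ≠ 0 := by
      intro z hz h0
      rw [sub_eq_zero] at h0
      exact hρw (by rw [← hz, h0])
    rw [← circleIntegral.integral_sub]
    · refine circleIntegral.integral_congr hρ.le fun z hz => ?_
      rw [mem_sphere_zero_iff_norm] at hz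
      have : z ≠ w := sub_ne_zero.mp (hne z hz)
      change dslope f w z = (z - w)⁻¹ • f z - (z - w)⁻¹ • f w
      rw [dslope_of_ne _ this, slope_def_module, smul_sub]
    · refine circleIntegrable_of hρ.le fun z hz => ?_
      exact ((continuousAt_id.sub continuousAt_const).inv₀ (hne z hz)).smul
        (hf z (h1.trans hz.ge) (hz.le.trans h2)).continuousAt
    · refine circleIntegrable_of hρ.le fun z hz => ?_
      exact ((continuousAt_id.sub continuousAt_const).inv₀ (hne z hz)).smul continuousAt_const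
  have h3 : (∮ z in C(0, b), (z - w)⁻¹ • f w) = (2 * Real.pi * Complex.I : ℂ) • f w := by
    rw [circleIntegral.integral_smul_const, circleIntegral.integral_sub_inv_of_mem_ball]
    rwa [mem_ball_zero_iff]
  have h4 : (∮ z in C(0, a), (z - w)⁻¹ • f w) = 0 := by
    rw [circleIntegral.integral_smul_const]
    have : (∮ z in C(0, a), (z - w)⁻¹) = 0 := by
      refine Complex.circleIntegral_eq_zero_of_differentiable_on_off_countable ha.le
        (s := ∅) countable_empty ?_ ?_
      · intro z hz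
        rw [mem_closedBall_zero_iff] at hz
        refine ContinuousAt.continuousWithinAt ?_
        refine (continuousAt_id.sub continuousAt_const).inv₀ ?_
        intro h0
        have h0' : z = w := sub_eq_zero.mp h0
        rw [h0'] at hz
        exact absurd hz (not_le.mpr haw)
      · rintro z ⟨hz, -⟩
        rw [mem_ball_zero_iff] at hz
        refine (differentiableAt_id.sub (differentiableAt_const w)).inv ?_
        intro h0
        have h0' : z = w := sub_eq_zero.mp h0
        rw [h0'] at hz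
        exact absurd hz (not_lt.mpr haw.le)
    rw [this, zero_smul]
  rw [h2 b hb hwb.ne' hab.le le_rfl, h2 a ha haw.ne le_rfl hab.le, h3, h4, sub_zero] at h1
  have h5 : (∮ z in C(0, a), (w - z)⁻¹ • f z) = - ∮ z in C(0, a), (z - w)⁻¹ • f z := by
    rw [← neg_one_smul ℂ (∮ z in C(0, a), (z - w)⁻¹ • f z), ← circleIntegral.integral_smul]
    refine circleIntegral.integral_congr ha.le fun z _ => ?_
    change (w - z)⁻¹ • f z = (-1 : ℂ) • ((z - w)⁻¹ • f z)
    rw [neg_one_smul, ← neg_smul, neg_inv, neg_sub]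
  rw [h5, ← h1]
  abel

/-- Laurent expansion -/
theorem hasSum_lc {f : ℂ → F} {a b : ℝ} (ha : 0 < a) {w : ℂ} (haw : a < ‖w‖) (hwb : ‖w‖ < b)
    (hf : ∀ z : ℂ, a ≤ ‖z‖ → ‖z‖ ≤ b → DifferentiableAt ℂ f z) :
    HasSum (fun k : ℤ => w ^ k • lc f b k) (f w) := by
  have hab : a < b := haw.trans hwb
  have hb : 0 < b := ha.trans hab
  have hpi : (2 * Real.pi * Complex.I : ℂ) ≠ 0 := by
    simp [Real.pi_ne_zero]
  have hC := cauchy_annulus ha haw hwb hf
  have h1 : f w = (2 * Real.pi * Complex.I : ℂ)⁻¹ • (∮ z in C(0, b), (z - w)⁻¹ • f z) +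
      (2 * Real.pi * Complex.I : ℂ)⁻¹ • ∮ z in C(0, a), (w - z)⁻¹ • f z := by
    rw [← smul_add, ← hC, inv_smul_smul₀ hpi]
  have hw0 : w ≠ 0 := norm_pos_iff.mp (ha.trans haw)
  rw [h1]
  refine HasSum.of_nat_of_neg_add_one ?_ ?_
  · have h2 := hasSum_two_pi_I_cauchyPowerSeries_integral (f := f) (c := 0) (R := b) (w := w)
      (circleIntegrable_of hb.le fun z hz => (hf z (hab.le.trans hz.ge) hz.le).continuousAt) hwb
    simp only [sub_zero, zero_add] at h2
    refine (h2.const_smul (2 * Real.pi * Complex.I : ℂ)⁻¹).congr_fun fun n => ?_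
    rw [lc, smul_comm (w ^ (n : ℤ))]
    congr 1
    rw [← circleIntegral.integral_smul]
    refine circleIntegral.integral_congr hb.le fun z hz => ?_
    rw [mem_sphere_zero_iff_norm] at hz
    have hz0 : z ≠ 0 := norm_pos_iff.mp (hb.trans_eq hz.symm)
    change w ^ (n : ℤ) • z ^ (-(n : ℤ) - 1) • f z = (w / z) ^ n • z⁻¹ • f z
    rw [smul_smul, smul_smul]
    congr 1
    rw [zpow_sub_one₀ hz0, zpow_neg, zpow_natCast, zpow_natCast, div_pow]
    field_simp
  · have h2 := hasSum_outside (f := f) (ρ := a) (w := w) ha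
      (circleIntegrable_of ha.le fun z hz => (hf z hz.ge (hz.le.trans hab.le)).continuousAt) haw
    refine (h2.const_smul (2 * Real.pi * Complex.I : ℂ)⁻¹).congr_fun fun n => ?_
    rw [lc_eq ha hab.le hf, lc, smul_comm (w ^ (-((n : ℤ) + 1)))]
    congr 1
    rw [← circleIntegral.integral_smul]
    refine circleIntegral.integral_congr ha.le fun z hz => ?_
    change w ^ (-((n : ℤ) + 1)) • z ^ (-(-((n : ℤ) + 1)) - 1) • f z = (z / w) ^ n • w⁻¹ • f z
    rw [smul_smul, smul_smul]
    congr 1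
    have e1 : (-(-((n : ℤ) + 1)) - 1) = (n : ℤ) := by ring
    have e2 : (-((n : ℤ) + 1)) = -(n : ℤ) - 1 := by ring
    rw [e1, e2, zpow_sub_one₀ hw0, zpow_neg, zpow_natCast, zpow_natCast, div_pow]
    field_simp

end expansion

/-! ### Evaluations on `Beur (wt r R) F` -/

section evaluations

variable {F : Type*} [NormedAddCommGroup F] [NormedSpace ℂ F] [CompleteSpace F]
  {r R : ℝ} [hr : Fact (0 < r)] [hR : Fact (0 < R)]

/-- `z^k` for `k ≥ 0` -/
noncomputable def chp (z : ℂ) (k : ℤ) : ℂ := if 0 ≤ k then z ^ k else 0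

/-- `z^k` for `k < 0` -/
noncomputable def chm (z : ℂ) (k : ℤ) : ℂ := if k < 0 then z ^ k else 0

theorem chp_add_chm (z : ℂ) (k : ℤ) : chm z k + chp z k = z ^ k := by
  unfold chp chm
  by_cases h : 0 ≤ k
  · rw [if_pos h, if_neg (by omega), zero_add]
  · rw [if_neg h, if_pos (by omega), add_zero]

theorem norm_chp_le {z : ℂ} (h : ‖z‖ ≤ R) (k : ℤ) : ‖chp z k‖ ≤ wt r R k := by
  unfold chp
  by_cases hk : 0 ≤ k
  · rw [if_pos hk]
    refine le_max_of_le_right ?_
    lift k to ℕ using hk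
    rw [zpow_natCast, zpow_natCast, norm_pow]
    exact pow_le_pow_left₀ (norm_nonneg _) h k
  · rw [if_neg hk, norm_zero]
    exact (instWt (r := r) (R := R)).pos k |>.le

theorem norm_chm_le {z : ℂ} (h : r ≤ ‖z‖) (k : ℤ) : ‖chm z k‖ ≤ wt r R k := by
  unfold chm
  by_cases hk : k < 0
  · rw [if_pos hk]
    refine le_max_of_le_left ?_
    obtain ⟨m, rfl⟩ : ∃ m : ℕ, k = -(m : ℤ) := ⟨(-k).toNat, by omega⟩
    rw [norm_zpow, zpow_neg, zpow_neg, zpow_natCast, zpow_natCast]
    exact inv_anti₀ (pow_pos hr.out m) (pow_le_pow_left₀ hr.out.le h m)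
  · rw [if_neg hk, norm_zero]
    exact (instWt (r := r) (R := R)).pos k |>.le

/-- evaluation of the part with indices `≥ 0`, on the closed disc `|z| ≤ R` -/
noncomputable def evp (z : ℂ) : Beur (wt r R) F →L[ℂ] F :=
  if h : ‖z‖ ≤ R then Beur.evalL (chp z) (norm_chp_le h) else 0

/-- evaluation of the part with indices `< 0`, on `|z| ≥ r` -/
noncomputable def evm (z : ℂ) : Beur (wt r R) F →L[ℂ] F :=
  if h : r ≤ ‖z‖ then Beur.evalL (chm z) (norm_chm_le h) else 0

/-- evaluation on the closed annulus -/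
noncomputable def ev (z : ℂ) : Beur (wt r R) F →L[ℂ] F := evm z + evp z

/-- the part with negative indices -/
noncomputable def Pm : Beur (wt r R) F →L[ℂ] Beur (wt r R) F := Beur.proj {k | k < 0}

theorem evp_apply {z : ℂ} (h : ‖z‖ ≤ R) (a : Beur (wt r R) F) : evp z a = Beur.eval (chp z) a := by
  rw [evp, dif_pos h]
  rfl

theorem evm_apply {z : ℂ} (h : r ≤ ‖z‖) (a : Beur (wt r R) F) : evm z a = Beur.eval (chm z) a := by
  rw [evm, dif_pos h]
  rfl

theorem ev_apply {z : ℂ} (h1 : r ≤ ‖z‖) (h2 : ‖z‖ ≤ R) (a : Beur (wt r R) F) :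
    ev z a = Beur.eval (fun k => z ^ k) a := by
  change evm z a + evp z a = _
  rw [evm_apply h1, evp_apply h2]
  have h3 := (Beur.hasSum_eval (norm_chm_le h1) a).add (Beur.hasSum_eval (norm_chp_le h2) a)
  refine h3.unique ((Beur.hasSum_eval (norm_zpow_le_wt hr.out h1 h2) a).congr_fun fun k => ?_)
  rw [← add_smul, chp_add_chm]

theorem norm_evp_le (z : ℂ) : ‖(evp z : Beur (wt r R) F →L[ℂ] F)‖ ≤ 1 := by
  unfold evp
  split_ifs
  · exact Beur.norm_evalL_le _ _
  · simp

theorem norm_ev_le {z : ℂ} (h1 : r ≤ ‖z‖) (h2 : ‖z‖ ≤ R) (a : Beur (wt r R) F) : ‖ev z a‖ ≤ ‖a‖ := by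
  rw [ev_apply h1 h2]
  exact Beur.norm_eval_le (norm_zpow_le_wt hr.out h1 h2) a

theorem hasSum_ev {z : ℂ} (h1 : r ≤ ‖z‖) (h2 : ‖z‖ ≤ R) (a : Beur (wt r R) F) :
    HasSum (fun k => z ^ k • a.coef k) (ev z a) := by
  rw [ev_apply h1 h2]
  exact Beur.hasSum_eval (norm_zpow_le_wt hr.out h1 h2) a

theorem evm_Pm {z : ℂ} (a : Beur (wt r R) F) : evm z (Pm a) = evm z a := by
  unfold evm
  split_ifs with h
  · rw [Beur.evalL_apply, Beur.evalL_apply]
    refine tsum_congr fun k => ?_
    unfold chm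
    by_cases hk : k < 0
    · congr 1
      change Set.indicator {k : ℤ | k < 0} a.coef k = _
      rw [Set.indicator_of_mem (by exact hk)]
    · rw [if_neg hk, zero_smul, zero_smul]
  · rfl

theorem evp_Pm {z : ℂ} (a : Beur (wt r R) F) : evp z (Pm a) = 0 := by
  unfold evp
  split_ifs with h
  · rw [Beur.evalL_apply, Beur.eval]
    refine (tsum_congr fun k => ?_).trans tsum_zero
    unfold chp
    by_cases hk : 0 ≤ k
    · have : (Pm a).coef k = 0 := by
        change Set.indicator {k : ℤ | k < 0} a.coef k = _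
        rw [Set.indicator_of_notMem]
        exact not_lt.mpr hk
      rw [this, smul_zero]
    · rw [if_neg hk, zero_smul]
  · rfl

theorem ev_eq (z : ℂ) (a : Beur (wt r R) F) : ev z a = evm z (Pm a) + evp z (a - Pm a) := by
  rw [evm_Pm, map_sub, evp_Pm, sub_zero]
  rfl

/-- decay of the negative part at infinity -/
theorem norm_evm_apply_le {z : ℂ} (hrR : r ≤ R) (a : Beur (wt r R) F) :
    ‖evm z a‖ ≤ r / ‖z‖ * ‖a‖ := by
  have hz0 : 0 ≤ r / ‖z‖ * ‖a‖ := mul_nonneg (div_nonneg hr.out.le (norm_nonneg _)) (norm_nonneg _)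
  unfold evm
  split_ifs with h
  · rw [Beur.evalL_apply]
    have hzp : 0 < ‖z‖ := hr.out.trans_le h
    refine (norm_tsum_le_tsum_norm (Beur.summ_char (norm_chm_le h) a)).trans ?_
    rw [Beur.norm_def, ← tsum_mul_left]
    refine (Beur.summ_char (norm_chm_le h) a).tsum_le_tsum (fun k => ?_) (a.summ.mul_left _)
    rw [norm_smul, ← mul_assoc]
    refine mul_le_mul_of_nonneg_right ?_ (norm_nonneg _)
    unfold chm
    by_cases hk : k < 0
    · rw [if_pos hk, norm_zpow, wt_nonpos_of hr.out hrR hk.le]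
      obtain ⟨m, rfl⟩ : ∃ m : ℕ, k = -(m : ℤ) - 1 := ⟨(-k - 1).toNat, by omega⟩
      rw [zpow_sub_one₀ hzp.ne', zpow_sub_one₀ hr.out.ne', zpow_neg, zpow_neg, zpow_natCast,
        zpow_natCast]
      have h1 : (‖z‖ ^ m)⁻¹ ≤ (r ^ m)⁻¹ :=
        inv_anti₀ (pow_pos hr.out m) (pow_le_pow_left₀ hr.out.le h m)
      have h0 := hr.out
      calc (‖z‖ ^ m)⁻¹ * ‖z‖⁻¹ ≤ (r ^ m)⁻¹ * ‖z‖⁻¹ := by gcongr
        _ = r / ‖z‖ * ((r ^ m)⁻¹ * r⁻¹) := by field_simp
    · rw [if_neg hk, norm_zero]
      exact mul_nonneg (div_nonneg hr.out.le (norm_nonneg _)) ((instWt (r := r) (R := R)).pos k).le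
  · simpa using hz0

end evaluations

end DQ.F
end

section

/-!
# Holomorphic families of Laurent series
-/

set_option autoImplicit false
set_option linter.unusedSectionVars false
set_option linter.unusedVariables false

open Filter Topology Set Metric MeasureTheory

namespace DQ.F

section holo

variable {F : Type*} [NormedAddCommGroup F] [NormedSpace ℂ F] [CompleteSpace F]
  {r R : ℝ} [hr : Fact (0 < r)] [hR : Fact (0 < R)]

/-- evaluation as a norm convergent series of coefficient maps -/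
theorem evalL_eq_tsum {G : Type*} [AddCommGroup G] {ω : G → ℝ} [IsWt ω] (χ : G → ℂ)
    (hχ : ∀ g, ‖χ g‖ ≤ ω g) (hs : Summable fun g => ‖χ g • (Beur.coefL g : Beur ω F →L[ℂ] F)‖) :
    ∑' g, χ g • (Beur.coefL g : Beur ω F →L[ℂ] F) = Beur.evalL χ hχ := by
  apply ContinuousLinearMap.ext
  intro a
  have h1 := hs.of_norm.hasSum
  have h2 := (ContinuousLinearMap.apply ℂ F a).hasSum h1
  rw [Beur.evalL_apply]
  exact h2.unique (Beur.hasSum_eval hχ a)

theorem norm_smul_coefL_le {G : Type*} [AddCommGroup G] {ω : G → ℝ} [IsWt ω] (c : ℂ) (g : G) :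
    ‖c • (Beur.coefL g : Beur ω F →L[ℂ] F)‖ ≤ ‖c‖ * (ω g)⁻¹ := by
  rw [norm_smul]
  exact mul_le_mul_of_nonneg_left (Beur.norm_coefL_le g) (norm_nonneg _)

/-- `evp` is holomorphic on the open disc, with values in operators -/
theorem differentiableOn_evp (hrR : r ≤ R) :
    DifferentiableOn ℂ (evp : ℂ → (Beur (wt r R) F →L[ℂ] F)) (ball 0 R) := by
  intro z hz
  rw [mem_ball_zero_iff] at hz
  obtain ⟨s, hs1, hs2⟩ := exists_between hz
  have hs0 : 0 < s := (norm_nonneg z).trans_lt hs1
  let u : ℤ → ℝ := fun k => if 0 ≤ k then (s / R) ^ k else 0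
  have hu : Summable u := by
    refine Summable.of_nat_of_neg_add_one ?_ ?_
    · have : (fun n : ℕ => u n) = fun n : ℕ => (s / R) ^ n := by
        funext n
        simp [u]
      rw [this]
      exact summable_geometric_of_lt_one (div_nonneg hs0.le hR.out.le) ((div_lt_one hR.out).mpr hs2)
    · have : (fun n : ℕ => u (-(n + 1))) = fun n : ℕ => 0 := by
        funext n
        change (if 0 ≤ -((n : ℤ) + 1) then _ else (0 : ℝ)) = 0
        rw [if_neg (by omega)]
      rw [this]
      exact summable_zero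
  have hle : ∀ (k : ℤ) (w : ℂ), w ∈ ball (0 : ℂ) s →
      ‖chp w k • (Beur.coefL k : Beur (wt r R) F →L[ℂ] F)‖ ≤ u k := by
    intro k w hw
    rw [mem_ball_zero_iff] at hw
    refine (norm_smul_coefL_le _ _).trans ?_
    unfold chp
    by_cases hk : 0 ≤ k
    · rw [if_pos hk, wt_nonneg_of hr.out hrR hk]
      simp only [u, if_pos hk]
      lift k to ℕ using hk
      simp only [zpow_natCast, norm_pow, div_pow]
      rw [div_eq_mul_inv]
      have := hR.out
      gcongr
    · simp [u, if_neg hk]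
  have hd : DifferentiableOn ℂ
      (fun w => ∑' k, chp w k • (Beur.coefL k : Beur (wt r R) F →L[ℂ] F)) (ball 0 s) := by
    refine Complex.differentiableOn_tsum_of_summable_norm hu (fun k => ?_) isOpen_ball hle
    unfold chp
    by_cases hk : 0 ≤ k
    · simp only [if_pos hk]
      lift k to ℕ using hk
      simp only [zpow_natCast]
      exact (differentiable_id.pow k).differentiableOn.smul_const _
    · simp only [if_neg hk, zero_smul]
      exact differentiableOn_const _
  have heq : ∀ w ∈ ball (0 : ℂ) s, evp w =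
      ∑' k, chp w k • (Beur.coefL k : Beur (wt r R) F →L[ℂ] F) := by
    intro w hw
    have hw' : ‖w‖ ≤ R := by
      rw [mem_ball_zero_iff] at hw
      linarith
    rw [evalL_eq_tsum (chp w) (norm_chp_le hw')
      (Summable.of_nonneg_of_le (fun _ => norm_nonneg _) (fun k => hle k w hw) hu), evp, dif_pos hw']
  have hz' : z ∈ ball (0 : ℂ) s := by rwa [mem_ball_zero_iff]
  exact ((hd.congr heq).differentiableAt (isOpen_ball.mem_nhds hz')).differentiableWithinAt

/-- `evm` is holomorphic outside the closed disc, with values in operators -/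
theorem differentiableOn_evm (hrR : r ≤ R) :
    DifferentiableOn ℂ (evm : ℂ → (Beur (wt r R) F →L[ℂ] F)) {z | r < ‖z‖} := by
  intro z hz
  have hz : r < ‖z‖ := hz
  obtain ⟨s, hs1, hs2⟩ := exists_between hz
  have hr0 := hr.out
  have hs0 : 0 < s := hr0.trans hs1
  let u : ℤ → ℝ := fun k => if k < 0 then (s / r) ^ k else 0
  have hu : Summable u := by
    refine Summable.of_nat_of_neg_add_one ?_ ?_
    · have : (fun n : ℕ => u n) = fun n : ℕ => 0 := by
        funext n
        change (if (n : ℤ) < 0 then _ else (0 : ℝ)) = 0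
        rw [if_neg (by omega)]
      rw [this]
      exact summable_zero
    · have : (fun n : ℕ => u (-(n + 1))) = fun n : ℕ => (r / s) ^ (n + 1) := by
        funext n
        change (if -((n : ℤ) + 1) < 0 then (s / r) ^ (-((n : ℤ) + 1)) else (0 : ℝ)) = _
        rw [if_pos (by omega), zpow_neg, ← inv_zpow, inv_div, ← Nat.cast_succ, zpow_natCast]
      rw [this]
      refine (summable_nat_add_iff 1).mpr (summable_geometric_of_lt_one (by positivity) ?_)
      rw [div_lt_one hs0]
      exact hs1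
  have hopen : IsOpen {w : ℂ | s < ‖w‖} := isOpen_lt continuous_const continuous_norm
  have hle : ∀ (k : ℤ) (w : ℂ), w ∈ {w : ℂ | s < ‖w‖} →
      ‖chm w k • (Beur.coefL k : Beur (wt r R) F →L[ℂ] F)‖ ≤ u k := by
    intro k w hw
    have hw : s < ‖w‖ := hw
    refine (norm_smul_coefL_le _ _).trans ?_
    unfold chm
    by_cases hk : k < 0
    · rw [if_pos hk, wt_nonpos_of hr.out hrR hk.le]
      simp only [u, if_pos hk]
      obtain ⟨m, rfl⟩ : ∃ m : ℕ, k = -(m : ℤ) := ⟨(-k).toNat, by omega⟩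
      rw [norm_zpow, zpow_neg, zpow_neg, zpow_neg, zpow_natCast, zpow_natCast, zpow_natCast, inv_inv,
        ← inv_pow (s / r), inv_div, div_pow, div_eq_inv_mul]
      have : (‖w‖ ^ m)⁻¹ ≤ (s ^ m)⁻¹ :=
        inv_anti₀ (pow_pos hs0 m) (pow_le_pow_left₀ hs0.le hw.le m)
      gcongr
    · simp [u, if_neg hk]
  have hd : DifferentiableOn ℂ
      (fun w => ∑' k, chm w k • (Beur.coefL k : Beur (wt r R) F →L[ℂ] F)) {w : ℂ | s < ‖w‖} := by
    refine Complex.differentiableOn_tsum_of_summable_norm hu (fun k => ?_) hopen hle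
    unfold chm
    by_cases hk : k < 0
    · simp only [if_pos hk]
      refine DifferentiableOn.smul_const (fun w hw => ?_) _
      have hw : s < ‖w‖ := hw
      have hw0 : w ≠ 0 := norm_pos_iff.mp (hs0.trans hw)
      exact (differentiableAt_zpow.mpr (Or.inl hw0)).differentiableWithinAt
    · simp only [if_neg hk, zero_smul]
      exact differentiableOn_const _
  have heq : ∀ w ∈ {w : ℂ | s < ‖w‖}, evm w =
      ∑' k, chm w k • (Beur.coefL k : Beur (wt r R) F →L[ℂ] F) := by
    intro w hw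
    have hw' : r ≤ ‖w‖ := by
      have hw : s < ‖w‖ := hw
      linarith
    rw [evalL_eq_tsum (chm w) (norm_chm_le hw')
      (Summable.of_nonneg_of_le (fun _ => norm_nonneg _) (fun k => hle k w hw) hu), evm, dif_pos hw']
  have hz' : z ∈ {w : ℂ | s < ‖w‖} := hs2
  exact ((hd.congr heq).differentiableAt (hopen.mem_nhds hz')).differentiableWithinAt

variable {E : Type*} [NormedAddCommGroup E] [NormedSpace ℂ E]

/-- joint holomorphy, nonnegative part -/
theorem differentiableOn_evp_apply (hrR : r ≤ R) {b : E → Beur (wt r R) F} {U : Set E}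
    (hb : DifferentiableOn ℂ b U) :
    DifferentiableOn ℂ (fun q : E × ℂ => evp q.2 (b q.1)) (U ×ˢ ball (0 : ℂ) R) := by
  have h1 : DifferentiableOn ℂ (fun q : E × ℂ => (evp q.2 : Beur (wt r R) F →L[ℂ] F))
      (U ×ˢ ball (0 : ℂ) R) :=
    DifferentiableOn.comp (g := (evp : ℂ → (Beur (wt r R) F →L[ℂ] F))) (f := fun q : E × ℂ => q.2)
      (t := ball (0 : ℂ) R) (differentiableOn_evp hrR) differentiableOn_snd (fun q hq => hq.2)
  have h2 : DifferentiableOn ℂ (fun q : E × ℂ => b q.1) (U ×ˢ ball (0 : ℂ) R) :=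
    hb.comp differentiableOn_fst (fun q hq => hq.1)
  exact h1.clm_apply h2

/-- joint holomorphy, negative part -/
theorem differentiableOn_evm_apply (hrR : r ≤ R) {b : E → Beur (wt r R) F} {U : Set E}
    (hb : DifferentiableOn ℂ b U) :
    DifferentiableOn ℂ (fun q : E × ℂ => evm q.2 (b q.1)) (U ×ˢ {z : ℂ | r < ‖z‖}) := by
  have h1 : DifferentiableOn ℂ (fun q : E × ℂ => (evm q.2 : Beur (wt r R) F →L[ℂ] F))
      (U ×ˢ {z : ℂ | r < ‖z‖}) :=
    DifferentiableOn.comp (g := (evm : ℂ → (Beur (wt r R) F →L[ℂ] F))) (f := fun q : E × ℂ => q.2)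
      (t := {z : ℂ | r < ‖z‖}) (differentiableOn_evm hrR) differentiableOn_snd (fun q hq => hq.2)
  have h2 : DifferentiableOn ℂ (fun q : E × ℂ => b q.1) (U ×ˢ {z : ℂ | r < ‖z‖}) :=
    hb.comp differentiableOn_fst (fun q hq => hq.1)
  exact h1.clm_apply h2

/-- joint holomorphy on the annulus -/
theorem differentiableOn_ev_apply (hrR : r ≤ R) {b : E → Beur (wt r R) F} {U : Set E}
    (hb : DifferentiableOn ℂ b U) :
    DifferentiableOn ℂ (fun q : E × ℂ => ev q.2 (b q.1)) (U ×ˢ {z : ℂ | r < ‖z‖ ∧ ‖z‖ < R}) := by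
  have h1 := (differentiableOn_evm_apply hrR hb).mono
    (s := U ×ˢ {z : ℂ | r < ‖z‖ ∧ ‖z‖ < R}) (fun q hq => ⟨hq.1, hq.2.1⟩)
  have h2 := (differentiableOn_evp_apply hrR hb).mono
    (s := U ×ˢ {z : ℂ | r < ‖z‖ ∧ ‖z‖ < R}) (fun q hq => ⟨hq.1, mem_ball_zero_iff.mpr hq.2.2⟩)
  exact h1.add h2

end holo

section cur

/-! ### Currying: holomorphic maps into spaces of continuous functions -/

variable {E F Z : Type*} [NormedAddCommGroup E] [NormedSpace ℂ E] [NormedAddCommGroup F]
  [NormedSpace ℂ F] [TopologicalSpace Z]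

open Classical in
/-- `x ↦ g (x, ·)` with values in `C(K, F)` (zero if `g (x, ·)` is not continuous on `K`) -/
noncomputable def cur (K : Set Z) (g : E × Z → F) (x : E) : C(K, F) :=
  if h : Continuous fun s : K => g (x, s) then ⟨fun s : K => g (x, s), h⟩ else 0

theorem cur_apply {K : Set Z} {g : E × Z → F} {x : E} (hc : ∀ z ∈ K, ContinuousAt g (x, z)) (s : K) :
    cur K g x s = g (x, s) := by
  have h : Continuous fun s : K => g (x, s) := by
    rw [continuous_iff_continuousAt]
    intro s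
    have h1 : ContinuousAt (fun s : K => ((x, (s : Z)) : E × Z)) s := by fun_prop
    exact ContinuousAt.comp (f := fun s : K => ((x, (s : Z)) : E × Z)) (g := g) (hc s s.2) h1
  rw [cur, dif_pos h]
  rfl

theorem differentiableAt_cur [CompleteSpace F] {K : Set Z} (hK : IsCompact K) {g : E × Z → F} {x₀ : E}
    (h : ∀ᶠ x in 𝓝 x₀, ∀ z ∈ K, ContinuousAt g (x, z) ∧ DifferentiableAt ℂ (fun y => g (y, z)) x) :
    haveI := isCompact_iff_compactSpace.mp hK
    DifferentiableAt ℂ (cur K g) x₀ := by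
  haveI := isCompact_iff_compactSpace.mp hK
  have h0 := h.self_of_nhds
  have hcont : ContinuousOn (fun z => ‖g (x₀, z)‖) K := by
    intro z hz
    have h1 : ContinuousAt (fun z => ((x₀, z) : E × Z)) z := by fun_prop
    exact (ContinuousAt.comp (f := fun z => ((x₀, z) : E × Z)) (g := g) (h0 z hz).1 h1).norm.continuousWithinAt
  obtain ⟨M, hM⟩ := (hK.image_of_continuousOn hcont).isBounded.bddAbove
  have hM' : ∀ᶠ x in 𝓝 x₀, ∀ z ∈ K, ‖g (x, z)‖ < M + 1 := by
    refine hK.eventually_forall_of_forall_eventually fun z hz => ?_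
    have h1 : ‖g (x₀, z)‖ < M + 1 := by
      have := hM (mem_image_of_mem _ hz)
      linarith
    have h2 : ContinuousAt (fun q : E × Z => ‖g q‖) (x₀, z) := (h0 z hz).1.norm
    exact h2.eventually (gt_mem_nhds h1)
  obtain ⟨δ, hδ, hball⟩ := Metric.eventually_nhds_iff_ball.mp (h.and hM')
  have hap : ∀ x ∈ ball x₀ δ, ∀ s : K, cur K g x s = g (x, s) := fun x hx s =>
    cur_apply (fun z hz => ((hball x hx).1 z hz).1) s
  refine param_diff (M := M + 1) hδ (fun s => ?_) (fun s y hy => ?_)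
  · have h1 : DifferentiableOn ℂ (fun y => g (y, s)) (ball x₀ δ) := fun y hy =>
      ((hball y hy).1 s s.2).2.differentiableWithinAt
    exact h1.congr fun y hy => hap y hy s
  · rw [hap y hy s]
    exact ((hball y hy).2 s s.2).le

end cur

section realize

variable {F : Type*} [NormedAddCommGroup F] [NormedSpace ℂ F]

/-- `z ^ n` on a circle -/
noncomputable def zp (ρ : ℝ) (hρ : 0 < ρ) (n : ℤ) : C(sphere (0 : ℂ) ρ, ℂ) :=
  ⟨fun s => (s : ℂ) ^ n, by
    rw [continuous_iff_continuousAt]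
    intro s
    have hs : (s : ℂ) ≠ 0 := by
      have := s.2
      rw [mem_sphere_zero_iff_norm] at this
      exact norm_pos_iff.mp (hρ.trans_eq this.symm)
    exact (continuousAt_subtype_val (x := s)).zpow₀ n (Or.inl hs)⟩

/-- Laurent coefficients as continuous linear maps on `C(circle, F)` -/
noncomputable def lcL (ρ : ℝ) (hρ : 0 < ρ) (k : ℤ) : C(sphere (0 : ℂ) ρ, F) →L[ℂ] F :=
  pairing 0 ρ hρ.le (zp ρ hρ (-k - 1))

theorem lcL_eq {ρ : ℝ} (hρ : 0 < ρ) (k : ℤ) {φ : C(sphere (0 : ℂ) ρ, F)} {f : ℂ → F}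
    (h : ∀ s : sphere (0 : ℂ) ρ, φ s = f s) : lcL ρ hρ k φ = lc f ρ k := by
  rw [lcL, pairing_apply, lc, circleIntegral]
  congr 1
  refine intervalIntegral.integral_congr fun θ _ => ?_
  change deriv (circleMap 0 ρ) θ • (zp ρ hρ (-k - 1)) (pt 0 ρ hρ.le θ) • φ (pt 0 ρ hρ.le θ) = _
  rw [h]
  rfl

theorem norm_lcL_le {ρ : ℝ} (hρ : 0 < ρ) (k : ℤ) (φ : C(sphere (0 : ℂ) ρ, F)) :
    ‖lcL ρ hρ k φ‖ ≤ ‖φ‖ * ρ ^ (-k) := by
  classical
  rw [lcL_eq hρ k (φ := φ) (f := fun z => if h : z ∈ sphere (0 : ℂ) ρ then φ ⟨z, h⟩ else 0)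
    (fun s => by rw [dif_pos s.2])]
  refine norm_lc_le hρ (fun z hz => ?_) k
  have hz' : z ∈ sphere (0 : ℂ) ρ := mem_sphere_zero_iff_norm.mpr hz
  rw [dif_pos hz']
  exact φ.norm_coe_le_norm _

variable {r R : ℝ} [hr : Fact (0 < r)] [hR : Fact (0 < R)]

/-- the part of the Laurent series with indices in `S`, from the values on one circle -/
noncomputable def LS (S : Set ℤ) (ρ : ℝ) (hρ : 0 < ρ)
    (hs : Summable (S.indicator fun k => wt r R k * ρ ^ (-k))) :
    C(sphere (0 : ℂ) ρ, F) →L[ℂ] Beur (wt r R) F := by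
  have key : ∀ (φ : C(sphere (0 : ℂ) ρ, F)) (k : ℤ),
      wt r R k * ‖S.indicator (fun k => lcL ρ hρ k φ) k‖ ≤
        S.indicator (fun k => wt r R k * ρ ^ (-k)) k * ‖φ‖ := by
    intro φ k
    by_cases hk : k ∈ S
    · rw [Set.indicator_of_mem hk, Set.indicator_of_mem hk]
      have := norm_lcL_le hρ k φ
      have h0 := (instWt (r := r) (R := R)).pos k
      calc wt r R k * ‖lcL ρ hρ k φ‖ ≤ wt r R k * (‖φ‖ * ρ ^ (-k)) := by gcongr
        _ = _ := by ring
    · rw [Set.indicator_of_notMem hk, Set.indicator_of_notMem hk]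
      simp
  exact LinearMap.mkContinuous
    { toFun := fun φ => ⟨S.indicator fun k => lcL ρ hρ k φ,
        Summable.of_nonneg_of_le
          (fun k => mul_nonneg ((instWt (r := r) (R := R)).pos k).le (norm_nonneg _)) (key φ)
          (hs.mul_right ‖φ‖)⟩
      map_add' := fun φ ψ => Beur.ext (by
        change S.indicator (fun k => lcL ρ hρ k (φ + ψ)) =
          S.indicator (fun k => lcL ρ hρ k φ) + S.indicator (fun k => lcL ρ hρ k ψ)
        rw [← Set.indicator_add']
        congr 1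
        funext k
        exact map_add _ _ _)
      map_smul' := fun c φ => Beur.ext (by
        change S.indicator (fun k => lcL ρ hρ k (c • φ)) = c • S.indicator (fun k => lcL ρ hρ k φ)
        funext k
        by_cases hk : k ∈ S
        · rw [Set.indicator_of_mem hk, Pi.smul_apply, Set.indicator_of_mem hk, map_smul]
        · rw [Set.indicator_of_notMem hk, Pi.smul_apply, Set.indicator_of_notMem hk, smul_zero]) }
    (∑' k, S.indicator (fun k => wt r R k * ρ ^ (-k)) k) (fun φ => by
      rw [Beur.norm_def, ← tsum_mul_right]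
      exact Summable.tsum_le_tsum (key φ) (Beur.summ _) (hs.mul_right _))

theorem coef_LS (S : Set ℤ) (ρ : ℝ) (hρ : 0 < ρ)
    (hs : Summable (S.indicator fun k => wt r R k * ρ ^ (-k))) (φ : C(sphere (0 : ℂ) ρ, F)) :
    (LS S ρ hρ hs φ : Beur (wt r R) F).coef = S.indicator fun k => lcL ρ hρ k φ := rfl

theorem summable_out (hrR : r ≤ R) {b : ℝ} (hRb : R < b) :
    Summable ({k : ℤ | 0 ≤ k}.indicator fun k => wt r R k * b ^ (-k)) := by
  have hb : 0 < b := hR.out.trans hRb
  refine Summable.of_nat_of_neg_add_one ?_ ?_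
  · have : (fun n : ℕ => {k : ℤ | 0 ≤ k}.indicator (fun k => wt r R k * b ^ (-k)) (n : ℤ)) =
        fun n : ℕ => (R / b) ^ n := by
      funext n
      rw [Set.indicator_of_mem (by exact Int.natCast_nonneg n), wt_nonneg_of hr.out hrR (by omega),
        zpow_neg, zpow_natCast, zpow_natCast, div_pow, div_eq_mul_inv]
    rw [this]
    exact summable_geometric_of_lt_one (div_nonneg hR.out.le hb.le) ((div_lt_one hb).mpr hRb)
  · have : (fun n : ℕ => {k : ℤ | 0 ≤ k}.indicator (fun k => wt r R k * b ^ (-k)) (-((n : ℤ) + 1))) =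
        fun n : ℕ => 0 := by
      funext n
      refine Set.indicator_of_notMem ?_ _
      change ¬ (0 ≤ -((n : ℤ) + 1))
      omega
    rw [this]
    exact summable_zero

theorem summable_in (hrR : r ≤ R) {a : ℝ} (ha : 0 < a) (har : a < r) :
    Summable ({k : ℤ | k < 0}.indicator fun k => wt r R k * a ^ (-k)) := by
  refine Summable.of_nat_of_neg_add_one ?_ ?_
  · have : (fun n : ℕ => {k : ℤ | k < 0}.indicator (fun k => wt r R k * a ^ (-k)) (n : ℤ)) =
        fun n : ℕ => 0 := by
      funext n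
      refine Set.indicator_of_notMem ?_ _
      change ¬ ((n : ℤ) < 0)
      omega
    rw [this]
    exact summable_zero
  · have : (fun n : ℕ => {k : ℤ | k < 0}.indicator (fun k => wt r R k * a ^ (-k)) (-((n : ℤ) + 1))) =
        fun n : ℕ => (a / r) ^ (n + 1) := by
      funext n
      rw [Set.indicator_of_mem (by change -((n : ℤ) + 1) < 0; omega),
        wt_nonpos_of hr.out hrR (by omega), neg_neg, zpow_neg, ← Nat.cast_succ, zpow_natCast,
        zpow_natCast, div_pow, div_eq_inv_mul]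
    rw [this]
    refine (summable_nat_add_iff 1).mpr (summable_geometric_of_lt_one (div_nonneg ha.le hr.out.le) ?_)
    rw [div_lt_one hr.out]
    exact har

open Classical in
/-- the Laurent series of a function, as an element of the Banach space `Beur (wt r R) F` -/
noncomputable def laur (r R : ℝ) (f : ℂ → F) : Beur (wt r R) F :=
  if h : Summable fun k => wt r R k * ‖lc f R k‖ then ⟨fun k => lc f R k, h⟩ else ⟨0, by simp⟩

theorem exists_bound_ann {f : ℂ → F} {a b : ℝ}
    (hf : ∀ z : ℂ, a ≤ ‖z‖ → ‖z‖ ≤ b → ContinuousAt f z) :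
    ∃ M : ℝ, 0 ≤ M ∧ ∀ z : ℂ, a ≤ ‖z‖ → ‖z‖ ≤ b → ‖f z‖ ≤ M := by
  have hcont : ContinuousOn (fun z => ‖f z‖) {z : ℂ | a ≤ ‖z‖ ∧ ‖z‖ ≤ b} := fun z hz =>
    (hf z hz.1 hz.2).norm.continuousWithinAt
  obtain ⟨M, hM⟩ := ((isCompact_ann a b).image_of_continuousOn hcont).isBounded.bddAbove
  refine ⟨max M 0, le_max_right _ _, fun z h1 h2 => ?_⟩
  exact (hM (mem_image_of_mem _ (show z ∈ {z : ℂ | a ≤ ‖z‖ ∧ ‖z‖ ≤ b} from ⟨h1, h2⟩))).trans (le_max_left _ _)

theorem coef_laur {f : ℂ → F} {a b : ℝ} (ha : 0 < a) (har : a < r) (hrR : r ≤ R) (hRb : R < b)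
    (hf : ∀ z : ℂ, a ≤ ‖z‖ → ‖z‖ ≤ b → DifferentiableAt ℂ f z) (k : ℤ) :
    (laur r R f).coef k = lc f R k := by
  obtain ⟨M, hM0, hM⟩ := exists_bound_ann (f := f) (a := a) (b := b)
    fun z h1 h2 => (hf z h1 h2).continuousAt
  have hb : 0 < b := hR.out.trans hRb
  have haR : a ≤ R := (har.trans_le hrR).le
  have hs : Summable fun k => wt r R k * ‖lc f R k‖ := by
    refine summable_wt ha har hrR hRb hM0 (fun k => ?_) (fun k => ?_)
    · rw [← lc_eq hR.out hRb.le (fun z h1 h2 => hf z (haR.trans h1) h2) k]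
      exact norm_lc_le hb (fun z hz => hM z (hz.ge.trans' (haR.trans hRb.le)) hz.le) k
    · rw [lc_eq ha haR (fun z h1 h2 => hf z h1 (h2.trans hRb.le)) k]
      exact norm_lc_le ha (fun z hz => hM z hz.ge (hz.le.trans (haR.trans hRb.le))) k
  rw [laur, dif_pos hs]

theorem ev_laur [CompleteSpace F] {f : ℂ → F} {a b : ℝ} (ha : 0 < a) (har : a < r) (hrR : r ≤ R)
    (hRb : R < b) (hf : ∀ z : ℂ, a ≤ ‖z‖ → ‖z‖ ≤ b → DifferentiableAt ℂ f z) {z : ℂ} (h1 : r ≤ ‖z‖)
    (h2 : ‖z‖ ≤ R) : ev z (laur r R f) = f z := by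
  have h3 := hasSum_ev h1 h2 (laur r R f)
  have h4 := hasSum_lc ha (har.trans_le h1) (h2.trans_lt hRb) hf
  refine h3.unique (h4.congr_fun fun k => ?_)
  rw [coef_laur ha har hrR hRb hf,
    lc_eq hR.out hRb.le (fun z h1 h2 => hf z ((har.trans_le hrR).le.trans h1) h2)]

variable {E : Type*} [NormedAddCommGroup E] [NormedSpace ℂ E]

/-- the Laurent series of a holomorphic family of functions is a holomorphic map -/
theorem differentiableAt_laur [CompleteSpace F] {g : E × ℂ → F} {x₀ : E} {a b : ℝ} (ha : 0 < a)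
    (har : a < r) (hrR : r ≤ R) (hRb : R < b)
    (hg : ∀ᶠ x in 𝓝 x₀, ∀ z : ℂ, a ≤ ‖z‖ → ‖z‖ ≤ b → DifferentiableAt ℂ g (x, z)) :
    DifferentiableAt ℂ (fun x => laur r R (fun z => g (x, z))) x₀ := by
  have hb : 0 < b := hR.out.trans hRb
  have hab : a ≤ b := (har.trans_le hrR).le.trans hRb.le
  have haR : a ≤ R := (har.trans_le hrR).le
  have hcomp : ∀ x z, DifferentiableAt ℂ g (x, z) → DifferentiableAt ℂ (fun y => g (y, z)) x := by
    intro x z h
    have h1 : DifferentiableAt ℂ (fun y : E => ((y, z) : E × ℂ)) x := by fun_prop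
    exact DifferentiableAt.comp (f := fun y : E => ((y, z) : E × ℂ)) (g := g) x h h1
  have hcomp' : ∀ x z, DifferentiableAt ℂ g (x, z) → DifferentiableAt ℂ (fun w => g (x, w)) z := by
    intro x z h
    have h1 : DifferentiableAt ℂ (fun y : ℂ => ((x, y) : E × ℂ)) z := by fun_prop
    exact DifferentiableAt.comp (f := fun y : ℂ => ((x, y) : E × ℂ)) (g := g) z h h1
  have hcur : ∀ ρ : ℝ, a ≤ ρ → ρ ≤ b → DifferentiableAt ℂ (cur (sphere (0 : ℂ) ρ) g) x₀ := by
    intro ρ h1 h2
    refine differentiableAt_cur (isCompact_sphere (0 : ℂ) ρ) ?_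
    filter_upwards [hg] with x hx z hz
    rw [mem_sphere_zero_iff_norm] at hz
    have := hx z (h1.trans hz.ge) (hz.le.trans h2)
    exact ⟨this.continuousAt, hcomp x z this⟩
  have h1 : DifferentiableAt ℂ (fun x => (LS {k : ℤ | 0 ≤ k} b hb (summable_out hrR hRb)
      (cur (sphere (0 : ℂ) b) g x) : Beur (wt r R) F)) x₀ :=
    (ContinuousLinearMap.differentiableAt _).comp x₀ (hcur b hab le_rfl)
  have h2 : DifferentiableAt ℂ (fun x => (LS {k : ℤ | k < 0} a ha (summable_in hrR ha har)
      (cur (sphere (0 : ℂ) a) g x) : Beur (wt r R) F)) x₀ :=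
    (ContinuousLinearMap.differentiableAt _).comp x₀ (hcur a le_rfl hab)
  refine (h1.add h2).congr_of_eventuallyEq ?_
  filter_upwards [hg] with x hx
  apply Beur.ext
  funext k
  have hf : ∀ z : ℂ, a ≤ ‖z‖ → ‖z‖ ≤ b → DifferentiableAt ℂ (fun z => g (x, z)) z :=
    fun z h1 h2 => hcomp' x z (hx z h1 h2)
  have hapb : ∀ s : sphere (0 : ℂ) b, cur (sphere (0 : ℂ) b) g x s = g (x, s) := cur_apply fun z hz => by
    rw [mem_sphere_zero_iff_norm] at hz
    exact (hx z (hab.trans hz.ge) hz.le).continuousAt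
  have hapa : ∀ s : sphere (0 : ℂ) a, cur (sphere (0 : ℂ) a) g x s = g (x, s) := cur_apply fun z hz => by
    rw [mem_sphere_zero_iff_norm] at hz
    exact (hx z hz.ge (hz.le.trans hab)).continuousAt
  rw [coef_laur ha har hrR hRb hf]
  change _ = (LS {k : ℤ | 0 ≤ k} b hb (summable_out hrR hRb)
      (cur (sphere (0 : ℂ) b) g x) : Beur (wt r R) F).coef k +
    (LS {k : ℤ | k < 0} a ha (summable_in hrR ha har)
      (cur (sphere (0 : ℂ) a) g x) : Beur (wt r R) F).coef k
  rw [coef_LS, coef_LS]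
  by_cases hk : 0 ≤ k
  · rw [Set.indicator_of_mem (by exact hk), Set.indicator_of_notMem (by exact not_lt.mpr hk), add_zero,
      lcL_eq hb k (f := fun z => g (x, z)) hapb,
      lc_eq hR.out hRb.le (fun z h1 h2 => hf z (haR.trans h1) h2)]
  · rw [Set.indicator_of_notMem (by exact hk), Set.indicator_of_mem (by exact not_le.mp hk), zero_add,
      lcL_eq ha k (f := fun z => g (x, z)) hapa,
      lc_eq ha haR (fun z h1 h2 => hf z h1 (h2.trans hRb.le))]

end realize

end DQ.F
end
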