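import Mathlib
import Pool.Agent.Lib.MP_4aa2a9_ag.Mg.G003
import Pool.Agent.Lib.MP_4aa2a9_ag.Mg.G001
import Pool.Agent.Lib.MP_4aa2a9_ag.DQ.Alg

section

/-!
# Holomorphic maps between complex normed spaces: limits, identity theorem

Here `E` is any complex normed space and `G` a complex Banach space.
-/

set_option autoImplicit false
set_option linter.unusedSectionVars false
set_option linter.style.haveILetI false

open Filter Topology Set Metric

namespace DQ.F

section limits

variable {E G : Type*} [NormedAddCommGroup E] [NormedSpace ℂ E] [NormedAddCommGroup G]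
  [NormedSpace ℂ G] [CompleteSpace G]

theorem norm_fderiv_le {f : E → G} {x : E} {r M : ℝ} (hr : 0 < r)
    (hf : DifferentiableOn ℂ f (ball x r)) (hM : ∀ z ∈ ball x r, ‖f z‖ ≤ M) :
    ‖fderiv ℂ f x‖ ≤ 2 * M / r := by
  have hM0 : 0 ≤ M := (norm_nonneg _).trans (hM x (mem_ball_self hr))
  exact ContinuousLinearMap.opNorm_le_bound _ (by positivity) fun h => norm_fderiv_apply_le hr hf hM h

/-- locally uniform limits of holomorphic maps are holomorphic -/
theorem differentiableAt_of_tendstoUniformlyOn {ι : Type*} {l : Filter ι} [l.NeBot] {f : ι → E → G}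
    {g : E → G} {x : E} {ρ : ℝ} (hρ : 0 < ρ) (hf : ∀ᶠ n in l, DifferentiableOn ℂ (f n) (ball x ρ))
    (h : TendstoUniformlyOn f g l (ball x ρ)) : DifferentiableAt ℂ g x := by
  have hρ2 : 0 < ρ / 2 := half_pos hρ
  have hsub : ∀ y ∈ ball x (ρ / 2), ball y (ρ / 2) ⊆ ball x ρ := by
    intro y hy z hz
    rw [mem_ball] at *
    calc dist z x ≤ dist z y + dist y x := dist_triangle _ _ _
      _ < ρ / 2 + ρ / 2 := add_lt_add hz hy
      _ = ρ := add_halves ρ
  -- derivatives are uniformly Cauchy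
  have hC : UniformCauchySeqOn (fun n y => fderiv ℂ (f n) y) l (ball x (ρ / 2)) := by
    intro u hu
    obtain ⟨ε, hε, hεu⟩ := Metric.mem_uniformity_dist.mp hu
    set η : ℝ := ε * ρ / 16 with hη
    have hηp : 0 < η := by positivity
    have h1 : ∀ᶠ n in l, ∀ y ∈ ball x ρ, dist (g y) (f n y) < η :=
      Metric.tendstoUniformlyOn_iff.mp h η hηp
    have h2 := (h1.and hf)
    filter_upwards [h2.prod_mk h2] with m hm y hy
    apply hεu
    obtain ⟨⟨a1, d1⟩, a2, d2⟩ := hm
    have e1 : DifferentiableAt ℂ (f m.1) y :=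
      d1.differentiableAt (isOpen_ball.mem_nhds (ball_subset_ball (by linarith) hy))
    have e2 : DifferentiableAt ℂ (f m.2) y :=
      d2.differentiableAt (isOpen_ball.mem_nhds (ball_subset_ball (by linarith) hy))
    rw [dist_eq_norm, ← fderiv_sub e1 e2]
    have h3 := norm_fderiv_le (f := f m.1 - f m.2) (M := 2 * η) hρ2
      ((d1.sub d2).mono (hsub y hy)) (fun z hz => by
        have b1 := a1 z (hsub y hy hz)
        have b2 := a2 z (hsub y hy hz)
        rw [Pi.sub_apply, ← dist_eq_norm]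
        calc dist (f m.1 z) (f m.2 z) ≤ dist (f m.1 z) (g z) + dist (g z) (f m.2 z) :=
              dist_triangle _ _ _
          _ ≤ 2 * η := by rw [dist_comm (f m.1 z)]; linarith)
    refine h3.trans_lt ?_
    have : 2 * (2 * η) / (ρ / 2) = ε / 2 := by
      rw [hη]
      field_simp
      ring
    rw [this]
    linarith
  have hlim : ∀ y ∈ ball x (ρ / 2), ∃ L, Tendsto (fun n => fderiv ℂ (f n) y) l (𝓝 L) := fun y hy =>
    CompleteSpace.complete (hC.cauchy_map hy)
  choose! g' hg' using hlim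
  have hU : TendstoUniformlyOn (fun n y => fderiv ℂ (f n) y) g' l (ball x (ρ / 2)) :=
    hC.tendstoUniformlyOn_of_tendsto hg'
  refine (hasFDerivAt_of_tendstoUniformlyOnFilter (l := l) (f := f) (f' := fun n y => fderiv ℂ (f n) y)
    (g := g) (g' := g') (x := x) ?_ ?_ ?_).differentiableAt
  · exact (tendstoUniformlyOn_iff_tendstoUniformlyOnFilter.mp hU).mono_right
      (le_principal_iff.mpr (ball_mem_nhds x hρ2))
  · have h1 : ∀ᶠ y in 𝓝 x, y ∈ ball x ρ := ball_mem_nhds x hρ
    filter_upwards [hf.prod_mk h1] with n hn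
    exact (hn.1.differentiableAt (isOpen_ball.mem_nhds hn.2)).hasFDerivAt
  · filter_upwards [ball_mem_nhds x hρ] with y hy
    exact h.tendsto_at hy

/-- locally uniform limits of holomorphic maps are holomorphic (uniform on a ball around every point) -/
theorem differentiableOn_of_locally {ι : Type*} {l : Filter ι} [l.NeBot]
    {f : ι → E → G} {g : E → G} {U : Set E}
    (h : ∀ x ∈ U, ∃ ρ > 0, (∀ᶠ n in l, DifferentiableOn ℂ (f n) (ball x ρ)) ∧
      TendstoUniformlyOn f g l (ball x ρ)) : DifferentiableOn ℂ g U := fun x hx => by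
  obtain ⟨ρ, hρ, h1, h2⟩ := h x hx
  exact (differentiableAt_of_tendstoUniformlyOn hρ h1 h2).differentiableWithinAt

/-- locally uniform limits of holomorphic maps are holomorphic, in Mathlib's form -/
theorem differentiableOn_of_tendstoLocallyUniformlyOn [FiniteDimensional ℂ E] {ι : Type*}
    {l : Filter ι} [l.NeBot] {f : ι → E → G} {g : E → G} {U : Set E} (hU : IsOpen U)
    (hf : ∀ᶠ n in l, DifferentiableOn ℂ (f n) U) (h : TendstoLocallyUniformlyOn f g l U) :
    DifferentiableOn ℂ g U := by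
  haveI := FiniteDimensional.proper ℂ E
  refine differentiableOn_of_locally (l := l) (f := f) fun x hx => ?_
  obtain ⟨ρ, hρ, hball⟩ := Metric.nhds_basis_closedBall.mem_iff.mp (hU.mem_nhds hx)
  refine ⟨ρ, hρ, hf.mono fun n hn => hn.mono (ball_subset_closedBall.trans hball), ?_⟩
  exact ((tendstoLocallyUniformlyOn_iff_tendstoUniformlyOn_of_compact
    (isCompact_closedBall x ρ)).mp (h.mono hball)).mono ball_subset_closedBall

/-- a series of holomorphic maps with a summable majorant is holomorphic -/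
theorem differentiableOn_tsum {ι : Type*} {f : ι → E → G} {U : Set E} (hU : IsOpen U) {u : ι → ℝ}
    (hu : Summable u) (hf : ∀ n, DifferentiableOn ℂ (f n) U) (hle : ∀ n, ∀ x ∈ U, ‖f n x‖ ≤ u n) :
    DifferentiableOn ℂ (fun x => ∑' n, f n x) U := by
  intro x hx
  obtain ⟨ρ, hρ, hball⟩ := Metric.isOpen_iff.mp hU x hx
  refine (differentiableAt_of_tendstoUniformlyOn (l := atTop) (f := fun (s : Finset ι) y => ∑ n ∈ s, f n y)
    hρ ?_ ?_).differentiableWithinAt
  · refine Eventually.of_forall fun s => ?_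
    exact DifferentiableOn.fun_sum fun n _ => (hf n).mono hball
  · exact (tendstoUniformlyOn_tsum hu hle).mono hball

end limits

section identity

variable {E G : Type*} [NormedAddCommGroup E] [NormedSpace ℂ E] [NormedAddCommGroup G]
  [NormedSpace ℂ G] [CompleteSpace G]

/-- identity theorem on a ball -/
theorem eqOn_ball {f g : E → G} {x y : E} {r : ℝ} (hf : DifferentiableOn ℂ f (ball x r))
    (hg : DifferentiableOn ℂ g (ball x r)) (hy : y ∈ ball x r) (h : f =ᶠ[𝓝 y] g) :
    EqOn f g (ball x r) := by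
  intro z hz
  let φ : ℂ → E := fun t => y + t • (z - y)
  have hφd : Differentiable ℂ φ := by
    intro t
    exact (differentiableAt_id.smul_const _).const_add _
  have hconv : Convex ℝ (φ ⁻¹' ball x r) := by
    intro s hs t ht a b ha hb hab
    have e : φ (a • s + b • t) = a • φ s + b • φ t := by
      have hab' : (a : ℂ) + (b : ℂ) = 1 := by exact_mod_cast hab
      simp only [φ, Complex.real_smul, smul_add, add_smul, mul_smul]
      have h1 : ∀ (c : ℝ) (v : E), c • v = (c : ℂ) • v := fun c v => (Complex.coe_smul c v).symm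
      rw [h1, h1, h1, h1]
      have h2 : y = (a : ℂ) • y + (b : ℂ) • y := by rw [← add_smul, hab', one_smul]
      calc y + ((a : ℂ) • s • (z - y) + (b : ℂ) • t • (z - y))
          = ((a : ℂ) • y + (b : ℂ) • y) + ((a : ℂ) • s • (z - y) + (b : ℂ) • t • (z - y)) := by
            rw [← h2]
        _ = _ := by abel
    rw [mem_preimage, e]
    exact convex_ball x r hs ht ha hb hab
  have hopen : IsOpen (φ ⁻¹' ball x r) := isOpen_ball.preimage hφd.continuous
  have h0 : φ 0 = y := by simp [φ]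
  have h1 : φ 1 = z := by simp [φ]
  have hA1 : AnalyticOnNhd ℂ (f ∘ φ) (φ ⁻¹' ball x r) :=
    (hf.comp hφd.differentiableOn (mapsTo_preimage _ _)).analyticOnNhd hopen
  have hA2 : AnalyticOnNhd ℂ (g ∘ φ) (φ ⁻¹' ball x r) :=
    (hg.comp hφd.differentiableOn (mapsTo_preimage _ _)).analyticOnNhd hopen
  have hev : (f ∘ φ) =ᶠ[𝓝 0] (g ∘ φ) := by
    have : Tendsto φ (𝓝 0) (𝓝 y) := by
      rw [← h0]
      exact hφd.continuous.tendsto 0
    exact this.eventually h
  have := hA1.eqOn_of_preconnected_of_eventuallyEq hA2 hconv.isPreconnected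
    (show (0 : ℂ) ∈ φ ⁻¹' ball x r by rw [mem_preimage, h0]; exact hy) hev
    (show (1 : ℂ) ∈ φ ⁻¹' ball x r by rw [mem_preimage, h1]; exact hz)
  simpa [h1] using this

/-- **Identity theorem**: holomorphic maps on a preconnected open subset of a complex normed space
which agree near one point agree. -/
theorem eqOn_of_isPreconnected {f g : E → G} {U : Set E} (hU : IsOpen U) (hc : IsPreconnected U)
    (hf : DifferentiableOn ℂ f U) (hg : DifferentiableOn ℂ g U) {x : E} (hx : x ∈ U)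
    (h : f =ᶠ[𝓝 x] g) : EqOn f g U := by
  let A : Set E := {y | f =ᶠ[𝓝 y] g}
  have hA : IsOpen A := isOpen_iff_mem_nhds.mpr fun y hy => eventually_eventually_nhds.mpr hy
  have hcl : closure A ∩ U ⊆ A := by
    rintro y ⟨hy, hyU⟩
    obtain ⟨r, hr, hball⟩ := Metric.isOpen_iff.mp hU y hyU
    obtain ⟨z, hz, hzA⟩ := mem_closure_iff_nhds.mp hy (ball y r) (ball_mem_nhds y hr)
    have h1 := eqOn_ball (hf.mono hball) (hg.mono hball) hz hzA
    filter_upwards [ball_mem_nhds y hr] with w hw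
    exact h1 hw
  have hsub := hc.subset_of_closure_inter_subset hA ⟨x, hx, h⟩ hcl
  exact fun y hy => (hsub hy).self_of_nhds

/-- Variant: agreement on a nonempty open subset. -/
theorem eqOn_of_isPreconnected' {f g : E → G} {U V : Set E} (hU : IsOpen U) (hc : IsPreconnected U)
    (hf : DifferentiableOn ℂ f U) (hg : DifferentiableOn ℂ g U) (hV : IsOpen V)
    (hne : (U ∩ V).Nonempty) (h : EqOn f g (U ∩ V)) : EqOn f g U := by
  obtain ⟨x, hxU, hxV⟩ := hne
  refine eqOn_of_isPreconnected hU hc hf hg hxU ?_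
  filter_upwards [(hU.inter hV).mem_nhds ⟨hxU, hxV⟩] with y hy
  exact h hy

end identity

end DQ.F
end

section

/-! # Kronecker: Cramer's rule for Hankel systems with values in a Banach space -/

set_option autoImplicit false

open Set Filter Topology Metric Matrix

namespace Pool.Agent.DQ.X

variable {T : Type*} [NormedAddCommGroup T] [NormedSpace ℂ T]
  {Z : Type*} [NormedAddCommGroup Z] [NormedSpace ℂ Z]

omit [NormedSpace ℂ Z] [NormedAddCommGroup Z] in
private theorem K4_prod {U : Set T} {ι : Type*} (s : Finset ι) (f : ι → T → ℂ)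
    (hf : ∀ i ∈ s, DifferentiableOn ℂ (f i) U) :
    DifferentiableOn ℂ (fun t => ∏ i ∈ s, f i t) U := by
  classical
  induction s using Finset.induction_on with
  | empty => simp only [Finset.prod_empty]; exact differentiableOn_const _
  | insert a s ha ih =>
    simp only [Finset.prod_insert ha]
    exact (hf a (Finset.mem_insert_self a s)).mul
      (ih fun i hi => hf i (Finset.mem_insert_of_mem hi))

omit [NormedSpace ℂ Z] [NormedAddCommGroup Z] in
private theorem K4_det {U : Set T} {m : ℕ} (A : T → Matrix (Fin m) (Fin m) ℂ)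
    (hA : ∀ i j, DifferentiableOn ℂ (fun t => A t i j) U) :
    DifferentiableOn ℂ (fun t => (A t).det) U := by
  have h1 : (fun t => (A t).det) = fun t => ∑ σ : Equiv.Perm (Fin m),
      ((Equiv.Perm.sign σ : ℤ) : ℂ) * ∏ i, A t (σ i) i := by
    funext t
    exact Matrix.det_apply' _
  rw [h1]
  refine DifferentiableOn.fun_sum fun σ _ => ?_
  exact (differentiableOn_const _).mul (K4_prod _ _ fun i _ => hA _ _)

/-- PROOF. For `r : Fin m → ℕ × (Z →L[ℂ] ℂ)` let `M m r t` be the matrix (`Fin m`, `Fin m`) with the entries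
`(r l).2 (h ((r l).1 + i) t)`. Let `Q m` be the statement: for all `r` and all `t` in the ball `det (M m r t) = 0`.
`Q (N + 1)` holds: for `t ∈ W'` the vector `p` is in the kernel of the matrix, so the determinant is zero
(`Matrix.exists_mulVec_eq_zero_iff`); the determinant is differentiable on the ball (polynomial in the entries;
`Matrix.det_apply`, or `DQ.F.MAn`), and zero on the ball by the identity theorem `DQ.F.eqOn_ball` (compare with the constant
`0`, at a point of `W'`). `Q 0` is false (`det` is `1`, the ball is not empty). So `Nat.find` gives `m = ρ + 1` with `Q (ρ + 1)`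
and not `Q ρ`: there are `r` and `t₁` in the ball with `det (M ρ r t₁) ≠ 0`. Let `M⁺ t` be the matrix (`Fin ρ`, `Fin (ρ + 1)`) with the
entries `(r l).2 (h ((r l).1 + i) t)` and `c i t = (-1) ^ (ρ + i) * det ((M⁺ t).submatrix id i.succAbove)`. They are
differentiable. `c (Fin.last ρ) t = det (M ρ r t)` (`Fin.succAbove_last`, the sign is `(-1) ^ (2 ρ) = 1`). For `k` and
`ℓ : Z →L[ℂ] ℂ` the sum `∑ i, c i t * ℓ (h (k + i) t)` is the expansion along the last row (`Matrix.det_succ_row _ (Fin.last ρ)`) of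
`det (M (ρ + 1) (Fin.snoc r (k, ℓ)) t) = 0`. So `ℓ (∑ i, c i t • h (k + i) t) = 0` for all `ℓ`, and the vector is zero by
Hahn-Banach (`NormedSpace.eq_zero_iff_forall_dual_eq_zero ℂ`, or `SeparatingDual`). If `c (Fin.last ρ) t ≠ 0` and
`∑ i, q i • h (k + i) t = 0` for all `k`, then `M ρ r t *ᵥ q = 0` (apply the functionals), so `q = 0`
(`Matrix.eq_zero_of_mulVec_eq_zero`). -/
theorem exists_cramer {t₀ : T} {ε : ℝ} {h : ℕ → T → Z}
    (hh : ∀ k, DifferentiableOn ℂ (h k) (ball t₀ ε)) {N : ℕ} {W' : Set T} (hW' : IsOpen W')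
    (hne : W'.Nonempty) (hsub : W' ⊆ ball t₀ ε)
    (hex : ∀ t ∈ W', ∃ p : Fin (N + 1) → ℂ, p ≠ 0 ∧ ∀ k : ℕ, ∑ i, p i • h (k + i) t = 0) :
    ∃ (ρ : ℕ) (c : Fin (ρ + 1) → T → ℂ), (∀ i, DifferentiableOn ℂ (c i) (ball t₀ ε)) ∧
      (∃ t ∈ ball t₀ ε, c (Fin.last ρ) t ≠ 0) ∧
      (∀ t ∈ ball t₀ ε, ∀ k : ℕ, ∑ i, c i t • h (k + i) t = 0) ∧
      ∀ t ∈ ball t₀ ε, c (Fin.last ρ) t ≠ 0 → ∀ q : Fin ρ → ℂ,
        (∀ k : ℕ, ∑ i, q i • h (k + i) t = 0) → q = 0 := by
  classical
  let M : (m : ℕ) → (Fin m → ℕ × (Z →L[ℂ] ℂ)) → T → Matrix (Fin m) (Fin m) ℂ :=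
    fun m r t => Matrix.of fun l i => (r l).2 (h ((r l).1 + (i : ℕ)) t)
  have hentry : ∀ (a : ℕ × (Z →L[ℂ] ℂ)) (i : ℕ),
      DifferentiableOn ℂ (fun t => a.2 (h (a.1 + i) t)) (ball t₀ ε) := fun a i =>
    a.2.differentiable.comp_differentiableOn (hh (a.1 + i))
  have hMd : ∀ m r, DifferentiableOn ℂ (fun t => (M m r t).det) (ball t₀ ε) := fun m r =>
    K4_det _ fun i j => hentry (r i) j
  let Q : ℕ → Prop := fun m => ∀ r, ∀ t ∈ ball t₀ ε, (M m r t).det = 0
  have hmul : ∀ (m : ℕ) (r : Fin m → ℕ × (Z →L[ℂ] ℂ)) (t : T) (q : Fin m → ℂ),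
      (∀ k : ℕ, ∑ i : Fin m, q i • h (k + (i : ℕ)) t = 0) → M m r t *ᵥ q = 0 := by
    intro m r t q hq
    funext l
    change ∑ i : Fin m, (r l).2 (h ((r l).1 + (i : ℕ)) t) * q i = 0
    have h1 := congrArg (r l).2 (hq (r l).1)
    rw [map_sum, map_zero] at h1
    rw [← h1]
    refine Finset.sum_congr rfl fun i _ => ?_
    rw [map_smul, smul_eq_mul, mul_comm]
  have hQN : Q (N + 1) := by
    intro r t ht
    obtain ⟨y, hy⟩ := hne
    have h0 : (fun t => (M (N + 1) r t).det) =ᶠ[𝓝 y] fun _ => (0 : ℂ) := by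
      filter_upwards [hW'.mem_nhds hy] with x hx
      obtain ⟨p, hp, hk⟩ := hex x hx
      exact Matrix.exists_mulVec_eq_zero_iff.mp ⟨p, hp, hmul _ r x p hk⟩
    exact DQ.F.eqOn_ball (hMd _ r) (differentiableOn_const _) (hsub hy) h0 ht
  have hQ0 : ¬ Q 0 := by
    intro h0
    obtain ⟨y, hy⟩ := hne
    have h1 := h0 (fun i => i.elim0) y (hsub hy)
    rw [Matrix.det_isEmpty] at h1
    exact one_ne_zero h1
  have hexQ : ∃ m, Q m := ⟨_, hQN⟩
  obtain ⟨ρ, hρ⟩ : ∃ ρ, Nat.find hexQ = ρ + 1 := by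
    refine Nat.exists_eq_succ_of_ne_zero fun h0 => hQ0 ?_
    have h1 := Nat.find_spec hexQ
    rw [h0] at h1
    exact h1
  have hQρ1 : Q (ρ + 1) := by
    have h1 := Nat.find_spec hexQ
    rw [hρ] at h1
    exact h1
  have hQρ : ¬ Q ρ := Nat.find_min hexQ (by omega)
  have hQρ' : ∃ r, ∃ t ∈ ball t₀ ε, (M ρ r t).det ≠ 0 := by
    by_contra hcon
    refine hQρ fun r t ht => ?_
    by_contra h1
    exact hcon ⟨r, t, ht, h1⟩
  obtain ⟨r, t₁, ht₁, hdet⟩ := hQρ'
  let Mp : T → Matrix (Fin ρ) (Fin (ρ + 1)) ℂ :=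
    fun t => Matrix.of fun l i => (r l).2 (h ((r l).1 + (i : ℕ)) t)
  let c : Fin (ρ + 1) → T → ℂ := fun i t =>
    (-1) ^ (ρ + (i : ℕ)) * ((Mp t).submatrix id i.succAbove).det
  have hclast : ∀ t, c (Fin.last ρ) t = (M ρ r t).det := by
    intro t
    change (-1) ^ (ρ + ((Fin.last ρ : Fin (ρ + 1)) : ℕ)) *
      ((Mp t).submatrix id (Fin.last ρ).succAbove).det = _
    rw [Fin.val_last, Fin.succAbove_last, ← two_mul, pow_mul, neg_one_sq, one_pow, one_mul]
    rfl
  refine ⟨ρ, c, fun i => ?_, ⟨t₁, ht₁, ?_⟩, fun t ht k => ?_, fun t ht hc q hq => ?_⟩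
  · refine (differentiableOn_const _).mul (K4_det _ fun a b => ?_)
    exact hentry (r a) _
  · rw [hclast]
    exact hdet
  · refine (SeparatingDual.eq_zero_iff_forall_dual_eq_zero (R := ℂ) _).mpr fun ℓ => ?_
    have h1 := hQρ1 (Fin.snoc (α := fun _ => ℕ × (Z →L[ℂ] ℂ)) r (k, ℓ)) t ht
    rw [Matrix.det_succ_row _ (Fin.last ρ)] at h1
    rw [map_sum, ← h1]
    refine Finset.sum_congr rfl fun i _ => ?_
    have h2 : M (ρ + 1) (Fin.snoc (α := fun _ => ℕ × (Z →L[ℂ] ℂ)) r (k, ℓ)) t (Fin.last ρ) i =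
        ℓ (h (k + (i : ℕ)) t) := by
      change (Fin.snoc (α := fun _ => ℕ × (Z →L[ℂ] ℂ)) r (k, ℓ) (Fin.last ρ)).2
        (h ((Fin.snoc (α := fun _ => ℕ × (Z →L[ℂ] ℂ)) r (k, ℓ) (Fin.last ρ)).1 + (i : ℕ)) t) = _
      rw [Fin.snoc_last]
    have h3 : (M (ρ + 1) (Fin.snoc (α := fun _ => ℕ × (Z →L[ℂ] ℂ)) r (k, ℓ)) t).submatrix
        (Fin.last ρ).succAbove i.succAbove = (Mp t).submatrix id i.succAbove := by
      ext a b
      change (Fin.snoc (α := fun _ => ℕ × (Z →L[ℂ] ℂ)) r (k, ℓ) ((Fin.last ρ).succAbove a)).2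
        (h ((Fin.snoc (α := fun _ => ℕ × (Z →L[ℂ] ℂ)) r (k, ℓ) ((Fin.last ρ).succAbove a)).1 +
          ((i.succAbove b : Fin (ρ + 1)) : ℕ)) t) =
        (r a).2 (h ((r a).1 + ((i.succAbove b : Fin (ρ + 1)) : ℕ)) t)
      rw [Fin.succAbove_last, Fin.snoc_castSucc]
    rw [h2, h3, map_smul, smul_eq_mul, Fin.val_last]
    change (-1) ^ (ρ + (i : ℕ)) * ((Mp t).submatrix id i.succAbove).det * ℓ (h (k + (i : ℕ)) t) = _
    ring
  · rw [hclast] at hc
    exact Matrix.eq_zero_of_mulVec_eq_zero hc (hmul ρ r t q hq)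

end Pool.Agent.DQ.X
end

section

/-! # Bounds for polynomials with small roots -/

set_option autoImplicit false

open Set Filter Topology Metric

namespace Pool.Agent.DQ.X

private theorem K6_prod {j : ℝ} {w : ℂ} (hw : j ≤ ‖w‖) (s : Multiset ℂ) (hs : ∀ a ∈ s, ‖a‖ ≤ j) :
    (‖w‖ - j) ^ s.card ≤ ‖(s.map fun a => w - a).prod‖ := by
  induction s using Multiset.induction_on with
  | empty => simp
  | cons a s ih =>
    rw [Multiset.card_cons, Multiset.map_cons, Multiset.prod_cons, norm_mul, pow_succ']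
    have h1 : ‖w‖ - j ≤ ‖w - a‖ := by
      have h2 := norm_sub_norm_le w a
      have h3 := hs a (Multiset.mem_cons_self a s)
      linarith
    have h4 := ih fun b hb => hs b (Multiset.mem_cons_of_mem hb)
    exact mul_le_mul h1 h4 (pow_nonneg (by linarith) _) (norm_nonneg _)

/-- PROOF. Let `P = ∑ i, C (c i / c (last)) * X ^ i`, a monic polynomial of degree `ρ` over `ℂ`, which splits
(`IsAlgClosed.splits`). All its roots have norm `≤ j` (`hr`, multiply by `c (last)`). The first claim: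
`Polynomial.coeff_le_of_roots_le` (file Mathlib/Topology/Algebra/Polynomial) gives `‖P.coeff i‖ ≤ j ^ (ρ - i) * ρ.choose i`, which is
`≤ (1 + j) ^ ρ * 2 ^ ρ` (`Nat.choose_le_two_pow`). The second: `P.eval w = ∏ (w - a)` over the multiset of the `ρ` roots
(`Polynomial.eval_eq_prod_roots_of_monic_of_splits_id` or similar), `‖w - a‖ ≥ ‖w‖ - ‖a‖ ≥ ‖w‖ - j ≥ 0`; the product of
the norms is `≥ (‖w‖ - j) ^ ρ` (`Multiset.prod_map_le_prod_map`-type lemma, or induction on the multiset). -/
theorem monic_bounds {j : ℝ} (hj : 0 < j) {ρ : ℕ} {c : Fin (ρ + 1) → ℂ}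
    (hc : c (Fin.last ρ) ≠ 0) (hr : ∀ w : ℂ, ∑ i, c i * w ^ (i : ℕ) = 0 → ‖w‖ ≤ j) :
    (∀ i, ‖c i / c (Fin.last ρ)‖ ≤ (1 + j) ^ ρ * 2 ^ ρ) ∧
      ∀ w : ℂ, j ≤ ‖w‖ → (‖w‖ - j) ^ ρ ≤ ‖∑ i, c i / c (Fin.last ρ) * w ^ (i : ℕ)‖ := by
  classical
  let a : Fin (ρ + 1) → ℂ := fun i => c i / c (Fin.last ρ)
  let P : Polynomial ℂ := ∑ i : Fin (ρ + 1), Polynomial.C (a i) * Polynomial.X ^ (i : ℕ)
  have hcoeff : ∀ i : Fin (ρ + 1), P.coeff i = a i := by
    intro i
    change (∑ i : Fin (ρ + 1), Polynomial.C (a i) * Polynomial.X ^ (i : ℕ)).coeff (i : ℕ) = _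
    rw [Polynomial.finsetSum_coeff, Finset.sum_eq_single i]
    · rw [Polynomial.coeff_C_mul_X_pow, if_pos rfl]
    · intro b _ hb
      rw [Polynomial.coeff_C_mul_X_pow, if_neg]
      exact fun h => hb (Fin.ext h.symm)
    · intro h
      exact absurd (Finset.mem_univ _) h
  have hlast : P.coeff ρ = 1 := by
    have h1 := hcoeff (Fin.last ρ)
    rw [Fin.val_last] at h1
    rw [h1]
    exact div_self hc
  have hdegle : P.natDegree ≤ ρ := by
    refine Polynomial.natDegree_sum_le_of_forall_le _ _ fun i _ => ?_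
    refine (Polynomial.natDegree_C_mul_X_pow_le _ _).trans ?_
    have := i.2
    omega
  have hmonic : P.Monic := Polynomial.monic_of_natDegree_le_of_coeff_eq_one ρ hdegle hlast
  have hdeg : P.natDegree = ρ :=
    Polynomial.natDegree_eq_of_le_of_coeff_ne_zero hdegle (by rw [hlast]; exact one_ne_zero)
  have heval : ∀ w : ℂ, P.eval w = ∑ i, a i * w ^ (i : ℕ) := by
    intro w
    change (∑ i : Fin (ρ + 1), Polynomial.C (a i) * Polynomial.X ^ (i : ℕ)).eval w = _
    rw [Polynomial.eval_finsetSum]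
    refine Finset.sum_congr rfl fun i _ => ?_
    rw [Polynomial.eval_mul, Polynomial.eval_C, Polynomial.eval_pow, Polynomial.eval_X]
  have hroots : ∀ z ∈ P.roots, ‖z‖ ≤ j := by
    intro z hz
    have h1 : P.eval z = 0 := Polynomial.isRoot_of_mem_roots hz
    refine hr z ?_
    have h2 : ∑ i, c i * z ^ (i : ℕ) = c (Fin.last ρ) * P.eval z := by
      rw [heval, Finset.mul_sum]
      refine Finset.sum_congr rfl fun i _ => ?_
      simp only [a]
      field_simp
    rw [h2, h1, mul_zero]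
  have hsplit : P.Splits := IsAlgClosed.splits P
  refine ⟨fun i => ?_, fun w hw => ?_⟩
  · have h1 := Polynomial.coeff_le_of_roots_le (p := P) (f := RingHom.id ℂ) (B := j) (i : ℕ) hmonic
      (by rw [Polynomial.map_id]; exact hsplit) (by rw [Polynomial.map_id]; exact hroots)
    rw [Polynomial.map_id, hcoeff i, hdeg] at h1
    refine h1.trans ?_
    have h2 : j ^ (ρ - (i : ℕ)) ≤ (1 + j) ^ ρ :=
      (pow_le_pow_left₀ hj.le (by linarith) _).trans
        (pow_le_pow_right₀ (by linarith) (Nat.sub_le _ _))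
    have h3 : ((ρ.choose (i : ℕ) : ℕ) : ℝ) ≤ 2 ^ ρ := by
      exact_mod_cast Nat.choose_le_two_pow ρ i
    exact mul_le_mul h2 h3 (Nat.cast_nonneg _) (by positivity)
  · have h1 : ∑ i, c i / c (Fin.last ρ) * w ^ (i : ℕ) = (P.roots.map fun a => w - a).prod := by
      rw [← hsplit.eval_eq_prod_roots_of_monic hmonic w, heval]
    rw [h1]
    have h2 := K6_prod hw P.roots hroots
    rw [← hsplit.natDegree_eq_card_roots, hdeg] at h2
    exact h2

end Pool.Agent.DQ.X
end

section

/-! Campaign DQ, module S: extension of sections from arbitrary subsets, sections of the direct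
image. -/

set_option autoImplicit false

open Set Filter Topology

universe u v w v'

namespace Pool.Agent.DQ

section Ext

variable {X : Type u} [MetricSpace X] {R : ERing.{u, v} X}

/-- A family of germs which is locally (in `Z`) given by sections extends to a section near `Z`. -/
theorem EMod.exists_ext (F : EMod.{u, v, w} R) (Z : Set X) (σ : (x : X) → F.St x)
    (hσ : ∀ x ∈ Z, ∃ s : (x : X) → F.St x, F.At s x ∧ ∀ᶠ y in 𝓝[Z] x, σ y = s y) :
    ∃ s : (x : X) → F.St x, F.On s Z ∧ ∀ x ∈ Z, s x = σ x := by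
  classical
  have h1 : ∀ x : Z, ∃ (s : (x : X) → F.St x) (U : Set X), IsOpen U ∧ x.1 ∈ U ∧
      ∀ y ∈ U, F.At s y ∧ (y ∈ Z → σ y = s y) := by
    rintro ⟨x, hx⟩
    obtain ⟨s, hs, h⟩ := hσ x hx
    rw [eventually_nhdsWithin_iff] at h
    obtain ⟨U, hU, hUo, hxU⟩ := eventually_nhds_iff.mp ((F.ev hs).and h)
    exact ⟨s, U, hUo, hxU, hU⟩
  choose s U hUo hxU hU using h1
  let Ω : Set X := ⋃ x : Z, U x
  have hΩ : IsOpen Ω := isOpen_iUnion hUo
  obtain ⟨v, hvo, hvu, hvf, hvU⟩ := precise_refinement (fun x : Z => ((↑) : Ω → X) ⁻¹' U x)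
    (fun x => (hUo x).preimage continuous_subtype_val) (by
      rw [eq_univ_iff_forall]
      rintro ⟨y, hy⟩
      obtain ⟨x, hx⟩ := mem_iUnion.mp hy
      exact mem_iUnion.mpr ⟨x, hx⟩)
  obtain ⟨v', hvu', hvo', hcl⟩ := exists_iUnion_eq_closure_subset hvo hvf.point_finite hvu
  have hch : ∀ y : Ω, ∃ i : Z, y ∈ v' i := fun y => by
    have : y ∈ iUnion v' := by rw [hvu']; exact mem_univ y
    exact mem_iUnion.mp this
  choose i hi using hch
  have key : ∀ z : Z, ∀ᶠ y in 𝓝 z.1, (if h : y ∈ Ω then s (i ⟨y, h⟩) y else 0) = s z y := by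
    intro z
    have hzΩ : z.1 ∈ Ω := mem_iUnion.mpr ⟨z, hxU z⟩
    obtain ⟨N, hN, hfin⟩ := hvf ⟨z.1, hzΩ⟩
    have hj : ∀ j ∈ {j | (v j ∩ N).Nonempty}, ∀ᶠ y : Ω in 𝓝 ⟨z.1, hzΩ⟩,
        y ∈ v' j → s j y.1 = s z y.1 := by
      intro j _
      by_cases hzj : (⟨z.1, hzΩ⟩ : Ω) ∈ closure (v' j)
      · have h2 : z.1 ∈ U j := hvU j (hcl j hzj)
        have h3 : s j z.1 = s z z.1 := by
          rw [← (hU j z.1 h2).2 z.2, (hU z z.1 (hxU z)).2 z.2]
        have h4 := F.inj (hU j z.1 h2).1 (hU z z.1 (hxU z)).1 h3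
        have h5 : Tendsto ((↑) : Ω → X) (𝓝 ⟨z.1, hzΩ⟩) (𝓝 z.1) :=
          continuous_subtype_val.continuousAt
        filter_upwards [h5.eventually h4] with y hy _
        exact hy
      · have h2 : (closure (v' j))ᶜ ∈ 𝓝 (⟨z.1, hzΩ⟩ : Ω) :=
          isClosed_closure.isOpen_compl.mem_nhds hzj
        filter_upwards [h2] with y hy hy'
        exact absurd (subset_closure hy') hy
    have h6 : ∀ᶠ y : Ω in 𝓝 ⟨z.1, hzΩ⟩, s (i y) y.1 = s z y.1 := by
      filter_upwards [(hfin.eventually_all).2 hj, hN] with y hy hyN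
      exact hy (i y) ⟨y, hcl _ (subset_closure (hi y)), hyN⟩ (hi y)
    have h7 : ∀ᶠ y : X in map ((↑) : Ω → X) (𝓝 ⟨z.1, hzΩ⟩),
        (if h : y ∈ Ω then s (i ⟨y, h⟩) y else 0) = s z y := by
      rw [eventually_map]
      filter_upwards [h6] with y hy
      rw [dif_pos y.2]
      exact hy
    rwa [hΩ.isOpenEmbedding_subtypeVal.map_nhds_eq] at h7
  refine ⟨fun y => if h : y ∈ Ω then s (i ⟨y, h⟩) y else 0, ?_, ?_⟩
  · intro z hz
    exact F.congr (hU ⟨z, hz⟩ z (hxU ⟨z, hz⟩)).1
      ((key ⟨z, hz⟩).mono fun y hy => hy.symm)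
  · intro z hz
    have h1 := (key ⟨z, hz⟩).self_of_nhds
    refine h1.trans ?_
    exact ((hU ⟨z, hz⟩ z (hxU ⟨z, hz⟩)).2 hz).symm

end Ext

variable {V : Type u} [NormedAddCommGroup V] [NormedSpace ℂ V]
  {V' : Type u} [NormedAddCommGroup V'] [NormedSpace ℂ V']
  {W : Type v} [NormedAddCommGroup W] [NormedSpace ℂ W]

variable (F : EMod.{u, u, w} (O V)) (e : V ≃L[ℂ] V' × W) (D : Set W) (hD : IsCompact D)

/-- sections of the direct image over any set `S` are given by sections of `F` near `S × D` -/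
theorem EMod.push_on_mp {S : Set V'} {s' : (t : V') → (F.push e D hD).St t}
    (h : (F.push e D hD).On s' S) :
    ∃ s : (x : V) → F.St x, (∀ t ∈ S, F.On s (fib e D t)) ∧
      ∀ t ∈ S, ∀ x (hx : x ∈ fib e D t), F.pushVal e D hD t (s' t) x hx = s x := by
  classical
  let σ : (x : V) → F.St x := fun x => if hx : (e x).2 ∈ D then
    F.pushVal e D hD (e x).1 (s' (e x).1) x ⟨rfl, hx⟩ else 0
  have hσ' : ∀ (t : V') (x : V) (hx : x ∈ fib e D t), σ x = F.pushVal e D hD t (s' t) x hx := by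
    rintro t x ⟨rfl, hx⟩
    exact dif_pos hx
  obtain ⟨s, hs, h'⟩ := F.exists_ext {x | (e x).1 ∈ S ∧ (e x).2 ∈ D} σ (by
    rintro x ⟨hx, hxD⟩
    obtain ⟨s, hs⟩ := (F.push_at e D hD).1 (h (e x).1 hx)
    refine ⟨s, hs.self_of_nhds.1 x ⟨rfl, hxD⟩, ?_⟩
    rw [eventually_nhdsWithin_iff]
    filter_upwards [(tendsto_fst e rfl).eventually hs] with y hy hyZ
    rw [hσ' (e y).1 y ⟨rfl, hyZ.2⟩]
    exact hy.2 y ⟨rfl, hyZ.2⟩)
  refine ⟨s, ?_, ?_⟩
  · rintro t ht x ⟨rfl, hx⟩
    exact hs x ⟨ht, hx⟩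
  · rintro t ht x hx
    rw [← hσ' t x hx]
    obtain ⟨rfl, hx⟩ := hx
    exact (h' x ⟨ht, hx⟩).symm

/-- sections of the direct image over an open set `S` are sections of `F` near `S × D` -/
theorem EMod.push_on {S : Set V'} (hS : IsOpen S) (s' : (t : V') → (F.push e D hD).St t) :
    (F.push e D hD).On s' S ↔ ∃ s : (x : V) → F.St x, (∀ t ∈ S, F.On s (fib e D t)) ∧
      ∀ t ∈ S, ∀ x (hx : x ∈ fib e D t), F.pushVal e D hD t (s' t) x hx = s x := by
  refine ⟨F.push_on_mp e D hD, ?_⟩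
  rintro ⟨s, hs, h⟩ t ht
  rw [F.push_at]
  refine ⟨s, ?_⟩
  filter_upwards [hS.mem_nhds ht] with t' ht'
  exact ⟨hs t' ht', h t' ht'⟩

/-- sections of `F` near the fibres over `S` give a section of the direct image over `S` -/
theorem EMod.push_exists (S : Set V') (s : (x : V) → F.St x) (hs : ∀ t ∈ S, F.On s (fib e D t)) :
    ∃ s' : (t : V') → (F.push e D hD).St t, (F.push e D hD).On s' S ∧
      ∀ t ∈ S, ∀ x (hx : x ∈ fib e D t), F.pushVal e D hD t (s' t) x hx = s x :=
  ⟨F.pushSec e D hD s, fun t ht => F.pushSec_at e D hD (hs t ht),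
    fun t ht x hx => F.pushVal_pushSec e D hD (hs t ht) x hx⟩

end Pool.Agent.DQ
end

section

/-! A stalk of a deformation is noetherian as soon as its saturated left ideals are finitely
generated. -/

set_option autoImplicit false

universe u v w

namespace Pool.Agent.DQ

namespace HStalk

variable {A : Type u} {B : Type v} [Ring A] [CommRing B] (H : HStalk A B)

/-- `h ^ k M` -/
def hsub (M : Type w) [AddCommGroup M] [Module A M] (k : ℕ) : Submodule A M :=
  LinearMap.range (H.hmul M k)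

theorem mem_hsub {M : Type w} [AddCommGroup M] [Module A M] {k : ℕ} {m : M} :
    m ∈ H.hsub M k ↔ ∃ q : M, H.h ^ k • q = m := Iff.rfl

/-- a left ideal containing `h` is finitely generated -/
theorem fg_of_h_mem [IsNoetherianRing B] (P : Submodule A A) (hP : H.h ∈ P) : P.FG := by
  let J : Ideal B :=
    { carrier := {f | ∃ p ∈ P, H.red p = f}
      add_mem' := by
        rintro _ _ ⟨p, hp, rfl⟩ ⟨q, hq, rfl⟩
        exact ⟨p + q, P.add_mem hp hq, map_add _ _ _⟩
      zero_mem' := ⟨0, P.zero_mem, map_zero _⟩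
      smul_mem' := by
        rintro c _ ⟨p, hp, rfl⟩
        obtain ⟨a, rfl⟩ := H.red_surj c
        exact ⟨a * p, P.smul_mem a hp, map_mul _ _ _⟩ }
  obtain ⟨n, f, hf⟩ := Submodule.fg_iff_exists_fin_generating_family.mp
    (IsNoetherian.noetherian J)
  have hfJ : ∀ i, f i ∈ J := fun i => hf ▸ Submodule.subset_span ⟨i, rfl⟩
  choose p hp hpf using hfJ
  refine Submodule.fg_iff_exists_fin_generating_family.mpr ⟨n + 1, Fin.cons H.h p, ?_⟩
  apply le_antisymm
  · rw [Submodule.span_le]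
    rintro _ ⟨i, rfl⟩
    refine Fin.cases ?_ (fun i => ?_) i
    · exact hP
    · exact hp i
  · intro a ha
    have h1 : H.red a ∈ J := ⟨a, ha, rfl⟩
    rw [← hf, Submodule.mem_span_range_iff_exists_fun] at h1
    obtain ⟨c, hc⟩ := h1
    choose C hC using fun i => H.red_surj (c i)
    have h2 : H.red (a - ∑ i, C i • p i) = 0 := by
      rw [map_sub, map_sum, sub_eq_zero, ← hc]
      refine Finset.sum_congr rfl fun i _ => ?_
      rw [smul_eq_mul, smul_eq_mul, map_mul, hC, hpf]
    obtain ⟨b, hb⟩ := (H.red_zero _).1 h2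
    have h3 : a = ∑ i, C i • p i + b • H.h := by
      rw [smul_eq_mul, ← H.comm, ← hb]
      abel
    rw [h3]
    refine Submodule.add_mem _ (Submodule.sum_mem _ fun i _ => Submodule.smul_mem _ _ ?_)
      (Submodule.smul_mem _ _ ?_)
    · exact Submodule.subset_span ⟨i.succ, by simp⟩
    · exact Submodule.subset_span ⟨0, by simp⟩

theorem noeth_quot_one [IsNoetherianRing B] : IsNoetherian A (A ⧸ H.hsub A 1) := by
  rw [isNoetherian_def]
  intro P
  have h1 : (P.comap (H.hsub A 1).mkQ).FG := by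
    apply H.fg_of_h_mem
    rw [Submodule.mem_comap]
    have : (H.hsub A 1).mkQ H.h = 0 := by
      rw [← LinearMap.mem_ker, Submodule.ker_mkQ]
      exact ⟨1, by simp⟩
    rw [this]
    exact P.zero_mem
  have h2 := h1.map (H.hsub A 1).mkQ
  rwa [Submodule.map_comap_eq_of_surjective (Submodule.mkQ_surjective _)] at h2

theorem noeth_mod_one [IsNoetherianRing B] (M : Type w) [AddCommGroup M] [Module A M]
    [Module.Finite A M] : IsNoetherian A (M ⧸ H.hsub M 1) := by
  have := H.noeth_quot_one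
  obtain ⟨n, f, hf⟩ := Module.Finite.exists_fin' A M
  -- `(A / h)^n → M / h`
  let φ : (Fin n → A) →ₗ[A] (Fin n → A ⧸ H.hsub A 1) :=
    LinearMap.pi fun i => (H.hsub A 1).mkQ ∘ₗ LinearMap.proj i
  have hφ : Function.Surjective φ := by
    intro y
    choose x hx using fun i => Submodule.mkQ_surjective (H.hsub A 1) (y i)
    exact ⟨x, funext hx⟩
  have hker : LinearMap.ker φ ≤ LinearMap.ker ((H.hsub M 1).mkQ ∘ₗ f) := by
    intro x hx
    rw [LinearMap.mem_ker] at hx ⊢
    have h1 : ∀ i, ∃ q : A, H.h * q = x i := by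
      intro i
      have := congrFun hx i
      simp only [φ, LinearMap.pi_apply, LinearMap.comp_apply, LinearMap.proj_apply,
        Pi.zero_apply, Submodule.mkQ_apply, Submodule.Quotient.mk_eq_zero] at this
      obtain ⟨q, hq⟩ := this
      exact ⟨q, by simpa using hq⟩
    choose q hq using h1
    have h2 : x = H.h • q := by
      funext i
      exact (hq i).symm
    rw [LinearMap.comp_apply, Submodule.mkQ_apply, Submodule.Quotient.mk_eq_zero]
    exact ⟨f q, by rw [h2, map_smul, hmul_apply, pow_one]⟩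
  let e := LinearMap.quotKerEquivOfSurjective φ hφ
  let g : (Fin n → A ⧸ H.hsub A 1) →ₗ[A] (M ⧸ H.hsub M 1) :=
    ((LinearMap.ker φ).liftQ ((H.hsub M 1).mkQ ∘ₗ f) hker) ∘ₗ e.symm.toLinearMap
  have hg : Function.Surjective g := by
    intro y
    obtain ⟨m, rfl⟩ := Submodule.mkQ_surjective _ y
    obtain ⟨x, rfl⟩ := hf m
    refine ⟨φ x, ?_⟩
    have : e.symm (φ x) = (LinearMap.ker φ).mkQ x := by
      rw [LinearEquiv.symm_apply_eq]
      rfl
    change ((LinearMap.ker φ).liftQ _ hker) (e.symm (φ x)) = _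
    rw [this]
    rfl
  exact isNoetherian_of_surjective g (LinearMap.range_eq_top.mpr hg)

theorem noeth_mod [IsNoetherianRing B] (M : Type w) [AddCommGroup M] [Module A M]
    [Module.Finite A M] (k : ℕ) : IsNoetherian A (M ⧸ H.hsub M k) := by
  induction k with
  | zero =>
    have : H.hsub M 0 = ⊤ := by
      rw [eq_top_iff]
      intro m _
      exact ⟨m, by simp⟩
    rw [this]
    infer_instance
  | succ k ih =>
    have := H.noeth_mod_one M
    let f : (M ⧸ H.hsub M k) →ₗ[A] (M ⧸ H.hsub M (k + 1)) :=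
      (H.hsub M k).mapQ (H.hsub M (k + 1)) (H.hmul M 1) (by
        rintro _ ⟨q, rfl⟩
        refine ⟨q, ?_⟩
        rw [hmul_apply, hmul_apply, hmul_apply, smul_smul, pow_one, ← pow_succ'])
    let g : (M ⧸ H.hsub M (k + 1)) →ₗ[A] (M ⧸ H.hsub M 1) :=
      (H.hsub M (k + 1)).mapQ (H.hsub M 1) LinearMap.id (by
        rintro _ ⟨q, rfl⟩
        refine ⟨H.h ^ k • q, ?_⟩
        rw [hmul_apply, hmul_apply, LinearMap.id_apply, smul_smul, pow_one, ← pow_succ'])
    refine isNoetherian_of_range_eq_ker f g ?_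
    apply le_antisymm
    · rintro _ ⟨y, rfl⟩
      obtain ⟨m, rfl⟩ := Submodule.mkQ_surjective _ y
      rw [LinearMap.mem_ker]
      change (H.hsub M 1).mkQ (H.hmul M 1 m) = 0
      rw [Submodule.mkQ_apply, Submodule.Quotient.mk_eq_zero]
      exact ⟨m, rfl⟩
    · intro y hy
      obtain ⟨m, rfl⟩ := Submodule.mkQ_surjective _ y
      rw [LinearMap.mem_ker] at hy
      change (H.hsub M 1).mkQ m = 0 at hy
      rw [Submodule.mkQ_apply, Submodule.Quotient.mk_eq_zero] at hy
      obtain ⟨q, rfl⟩ := hy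
      exact ⟨(H.hsub M k).mkQ q, rfl⟩

/-- the saturation of a left ideal -/
def sat {M : Type w} [AddCommGroup M] [Module A M] (P : Submodule A M) : Submodule A M where
  carrier := {a | ∃ k : ℕ, H.h ^ k • a ∈ P}
  add_mem' := by
    rintro a b ⟨k, hk⟩ ⟨l, hl⟩
    refine ⟨k + l, ?_⟩
    rw [smul_add]
    refine P.add_mem ?_ ?_
    · rw [add_comm, pow_add, mul_smul]
      exact P.smul_mem _ hk
    · rw [pow_add, mul_smul]
      exact P.smul_mem _ hl
  zero_mem' := ⟨0, by simp⟩
  smul_mem' := by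
    rintro c a ⟨k, hk⟩
    refine ⟨k, ?_⟩
    rw [smul_smul, H.comm_pow, mul_smul]
    exact P.smul_mem _ hk

theorem mem_sat {M : Type w} [AddCommGroup M] [Module A M] {P : Submodule A M} {a : M} :
    a ∈ H.sat P ↔ ∃ k : ℕ, H.h ^ k • a ∈ P := Iff.rfl

theorem le_sat {M : Type w} [AddCommGroup M] [Module A M] (P : Submodule A M) : P ≤ H.sat P :=
  fun a ha => ⟨0, by simpa using ha⟩

theorem sat_sat {M : Type w} [AddCommGroup M] [Module A M] {P : Submodule A M} {a : M}
    (ha : H.h • a ∈ H.sat P) : a ∈ H.sat P := by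
  obtain ⟨k, hk⟩ := ha
  exact ⟨k + 1, by rwa [pow_succ, mul_smul]⟩

/-- if the saturation of `P` is finitely generated then so is `P` -/
theorem fg_of_sat_fg [IsNoetherianRing B] {M : Type w} [AddCommGroup M] [Module A M]
    (P : Submodule A M) (hfg : (H.sat P).FG) : P.FG := by
  -- a power of `h` multiplies the saturation into `P`
  have hk : ∃ k : ℕ, ∀ a ∈ H.sat P, H.h ^ k • a ∈ P := by
    obtain ⟨n, g, hg⟩ := Submodule.fg_iff_exists_fin_generating_family.mp hfg
    have h1 : ∀ i, ∃ k : ℕ, H.h ^ k • g i ∈ P := fun i =>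
      (hg ▸ Submodule.subset_span ⟨i, rfl⟩ : g i ∈ H.sat P)
    choose k hk using h1
    refine ⟨∑ i, k i, fun a ha => ?_⟩
    rw [← hg, Submodule.mem_span_range_iff_exists_fun] at ha
    obtain ⟨c, rfl⟩ := ha
    rw [Finset.smul_sum]
    refine P.sum_mem fun i _ => ?_
    rw [smul_smul, H.comm_pow, mul_smul]
    apply P.smul_mem
    have : ∑ j, k j = (∑ j ∈ Finset.univ.erase i, k j) + k i :=
      (Finset.sum_erase_add _ _ (Finset.mem_univ i)).symm
    rw [this, pow_add, mul_smul]
    exact P.smul_mem _ (hk i)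
  obtain ⟨k, hk⟩ := hk
  set Q := H.sat P with hQ
  have : Module.Finite A Q := Module.Finite.iff_fg.mpr hfg
  have := H.noeth_mod Q k
  let P' : Submodule A Q := P.comap Q.subtype
  have hP' : P'.FG := by
    apply Submodule.fg_of_fg_map_of_fg_inf_ker (H.hsub Q k).mkQ
    · exact IsNoetherian.noetherian _
    · have : P' ⊓ LinearMap.ker (H.hsub Q k).mkQ = H.hsub Q k := by
        rw [Submodule.ker_mkQ, inf_eq_right]
        rintro _ ⟨q, rfl⟩
        exact hk q q.2
      rw [this]
      have h2 : (H.hsub Q k) = Submodule.map (H.hmul Q k) ⊤ := (Submodule.map_top _).symm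
      rw [h2]
      exact (Module.Finite.fg_top (R := A) (M := Q)).map _
  have h3 := hP'.map Q.subtype
  have h4 : Submodule.map Q.subtype P' = P := by
    rw [Submodule.map_comap_subtype, inf_eq_right]
    exact H.le_sat P
  rwa [h4] at h3

/-- criterion for noetherianity -/
theorem noeth_of_sat [IsNoetherianRing B]
    (hfg : ∀ I : Submodule A A, (∀ a, H.h * a ∈ I → a ∈ I) → I.FG) : IsNoetherianRing A := by
  rw [isNoetherianRing_iff, isNoetherian_def]
  intro P
  exact H.fg_of_sat_fg P (hfg _ fun a ha => H.sat_sat ha)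

end HStalk

end Pool.Agent.DQ
end

section

/-! The stalks of a deformation are noetherian. -/

set_option autoImplicit false

open Set Filter Topology

universe u v w

namespace Pool.Agent.DQ

variable (V : Type u) [NormedAddCommGroup V] [NormedSpace ℂ V]

/-- Cartan B combined with the noetherian property at `x`: there are arbitrarily small open
neighbourhoods `U` of `x` such that every section over `U` whose germ at `x` is a combination of the
`f i`, is a combination of the `f i` over `U`. -/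
def DivNear (x : V) : Prop :=
  ∀ (q n : ℕ) (f : Fin n → (y : V) → Fin q → (O V).St y), (∀ i, ((O V).free q).At (f i) x) →
  ∀ W ∈ 𝓝 x, ∃ U ⊆ W, IsOpen U ∧ x ∈ U ∧ (∀ i, ((O V).free q).On (f i) U) ∧
    ∀ s : (y : V) → Fin q → (O V).St y, ((O V).free q).On s U →
      s x ∈ Submodule.span ((O V).St x) (Set.range fun i => f i x) →
      ∃ c : Fin n → (y : V) → (O V).St y, (∀ i, ∀ y ∈ U, (O V).At (c i) y) ∧
        ∀ y ∈ U, s y = ∑ i, c i y • f i y

variable {V}

namespace Defo

variable (𝓐 : Defo.{u, v} V)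

/-- a saturated left ideal is finitely generated -/
theorem fg_of_saturated {x : V} (hx : x ∈ 𝓐.A.dom) (hdiv : DivNear V x)
    (hnoe : IsNoetherianRing ((O V).St x)) (I : Submodule (𝓐.A.St x) (𝓐.A.St x))
    (hI : ∀ a, 𝓐.hb x * a ∈ I → a ∈ I) : I.FG := by
  let J : Ideal ((O V).St x) :=
    { carrier := {f | ∃ p ∈ I, 𝓐.red x p = f}
      add_mem' := by
        rintro _ _ ⟨p, hp, rfl⟩ ⟨q, hq, rfl⟩
        exact ⟨p + q, I.add_mem hp hq, 𝓐.red_add x hx _ _⟩
      zero_mem' := ⟨0, I.zero_mem, 𝓐.red_zero' hx⟩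
      smul_mem' := by
        rintro c _ ⟨p, hp, rfl⟩
        obtain ⟨a, rfl⟩ := 𝓐.red_surj x hx c
        exact ⟨a * p, I.smul_mem a hp, 𝓐.red_mul x hx _ _⟩ }
  obtain ⟨n, f, hf⟩ := Submodule.fg_iff_exists_fin_generating_family.mp
    (IsNoetherian.noetherian J)
  have hfJ : ∀ i, f i ∈ J := fun i => hf ▸ Submodule.subset_span ⟨i, rfl⟩
  choose p hp hpf using hfJ
  choose β hβ hβp using fun i => 𝓐.A.surj x hx (p i)
  refine Submodule.fg_iff_exists_fin_generating_family.mpr ⟨n, p, ?_⟩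
  apply le_antisymm
  · rw [Submodule.span_le]
    rintro _ ⟨i, rfl⟩
    exact hp i
  intro a ha
  obtain ⟨α, hα, hαa⟩ := 𝓐.A.surj x hx a
  -- a neighbourhood on which everything is defined
  let W : Set V := {y | 𝓐.A.At α y ∧ (∀ i, 𝓐.A.At (β i) y) ∧ y ∈ 𝓐.A.dom}
  have hW : W ∈ 𝓝 x := by
    have h1 : ∀ᶠ y in 𝓝 x, ∀ i, 𝓐.A.At (β i) y := eventually_all.mpr fun i => 𝓐.A.ev (hβ i)
    filter_upwards [𝓐.A.ev hα, h1, 𝓐.A.isOpen_dom.mem_nhds hx] with y h1 h2 h3
    exact ⟨h1, h2, h3⟩
  obtain ⟨U, hUW, hU, hxU, -, hdivU⟩ := hdiv 1 n (fun i y _ => 𝓐.red y (β i y))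
    (fun i => ⟨mem_univ _, fun _ => 𝓐.red_at hx (hβ i)⟩) W hW
  have hUd : U ⊆ 𝓐.A.dom := fun y hy => (hUW hy).2.2
  -- successive approximation in the free module of rank one, as the module `A`
  have hstep : ∀ s : (y : V) → Fin 1 → 𝓐.A.St y, (𝓐.A.free 1).On s U → s x 0 ∈ I →
      ∃ (C : Fin n → (y : V) → 𝓐.A.St y) (s' : (y : V) → Fin 1 → 𝓐.A.St y),
      (∀ i, ∀ y ∈ U, 𝓐.A.At (C i) y) ∧ (𝓐.A.free 1).On s' U ∧ s' x 0 ∈ I ∧
      ∀ y ∈ U, s y = ∑ i, C i y • (fun _ : Fin 1 => β i y) + 𝓐.hb y • s' y := by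
    intro s hs hsI
    obtain ⟨c, hc, hcs⟩ := hdivU (fun y _ => 𝓐.red y (s y 0))
      (fun y hy => ⟨mem_univ _, fun _ => 𝓐.red_at (hUd hy) ((hs y hy).2 0)⟩) (by
        have h1 : 𝓐.red x (s x 0) ∈ J := ⟨_, hsI, rfl⟩
        rw [← hf, Submodule.mem_span_range_iff_exists_fun] at h1
        obtain ⟨e, he⟩ := h1
        rw [Submodule.mem_span_range_iff_exists_fun]
        refine ⟨e, ?_⟩
        funext _
        rw [Finset.sum_apply, ← he]
        refine Finset.sum_congr rfl fun i _ => ?_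
        rw [Pi.smul_apply, hβp, hpf])
    obtain ⟨C, hC, hCc⟩ := 𝓐.lift_fam hU hUd hc
    have hcomb : ∀ y ∈ U, 𝓐.A.At ((fun y => s y 0) - ∑ i, C i * β i) y := by
      intro y hy
      exact 𝓐.A.sub ((hs y hy).2 0) (𝓐.A.sum _ (hUd hy) fun i _ =>
        𝓐.A.mul (hC i y hy) ((hUW hy).2.1 i))
    obtain ⟨t, ht, hts⟩ := 𝓐.div_at hU hUd hcomb (by
      intro y hy
      have h1 := congrFun (hcs y hy) 0
      have h2 : 𝓐.redHom (hUd hy) (s y 0) = ∑ i, 𝓐.redHom (hUd hy) (C i y) *
          𝓐.redHom (hUd hy) (β i y) := by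
        change 𝓐.red y (s y 0) = ∑ i, 𝓐.red y (C i y) * 𝓐.red y (β i y)
        rw [h1, Finset.sum_apply]
        refine Finset.sum_congr rfl fun i _ => ?_
        rw [hCc i y hy]
        rfl
      change 𝓐.redHom (hUd hy) _ = 0
      rw [Pi.sub_apply, map_sub, h2, Finset.sum_apply, map_sum, sub_eq_zero]
      refine Finset.sum_congr rfl fun i _ => ?_
      rw [Pi.mul_apply, map_mul])
    refine ⟨C, fun y _ => t y, hC, fun y hy => ⟨hUd hy, fun _ => ht y hy⟩, ?_, ?_⟩
    · apply hI
      have h1 := hts x hxU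
      rw [Pi.sub_apply, Finset.sum_apply] at h1
      rw [← h1]
      refine I.sub_mem hsI (I.sum_mem fun i _ => ?_)
      rw [Pi.mul_apply, hβp]
      exact I.smul_mem _ (hp i)
    · intro y hy
      funext j
      have h1 := hts y hy
      rw [Pi.sub_apply, Finset.sum_apply, sub_eq_iff_eq_add] at h1
      rw [Subsingleton.elim j 0, h1, Pi.add_apply, Finset.sum_apply, add_comm]
      rfl
  obtain ⟨D, hD, hDs⟩ := 𝓐.iterate (M := 𝓐.A.free 1) hU hUd
    (fun y hy => 𝓐.sepAt_free 1 (hUd hy)) (fun i y _ => β i y) (fun s => s x 0 ∈ I) hstep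
    (fun y _ => α y) (fun y hy => ⟨hUd hy, fun _ => (hUW hy).1⟩) (by
      change α x ∈ I
      rw [hαa]
      exact ha)
  rw [Submodule.mem_span_range_iff_exists_fun]
  refine ⟨fun i => D i x, ?_⟩
  have h2 : (fun _ : Fin 1 => α x) = ∑ i, (fun _ : Fin 1 => D i x * β i x) := hDs x hxU
  have h3 := congrFun h2 0
  rw [Finset.sum_apply] at h3
  rw [← hαa, h3]
  refine Finset.sum_congr rfl fun i _ => ?_
  rw [← hβp]
  rfl

/-- the stalks of a deformation are noetherian -/
theorem noetherian {x : V} (hx : x ∈ 𝓐.A.dom) (hdiv : DivNear V x)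
    (hnoe : IsNoetherianRing ((O V).St x)) : IsNoetherianRing (𝓐.A.St x) :=
  (𝓐.stalk hx).noeth_of_sat fun I hI => 𝓐.fg_of_saturated hx hdiv hnoe I hI

end Defo

end Pool.Agent.DQ
end

section

/-! The tower of the modules `(M : ħ^m)` near a compact set. -/

set_option autoImplicit false

open Set Filter Topology

universe u v w

namespace Pool.Agent.DQ

variable {V : Type u} [NormedAddCommGroup V] [NormedSpace ℂ V]

namespace Defo

variable (𝓐 : Defo.{u, v} V)

/-- Sections `R k` near `K` whose reductions generate the relations of the reductions of the `g i`,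
and sections `t k` with `∑ R k i g i = ħ t k`. -/
theorem exists_lift_rel {K : Set V} (hKd : K ⊆ 𝓐.A.dom) (hRel : RelGen K) {q n : ℕ}
    (g : Fin n → (y : V) → Fin q → 𝓐.A.St y) (hg : ∀ i, (𝓐.A.free q).On (g i) K) :
    ∃ (m : ℕ) (R : Fin m → (y : V) → Fin n → 𝓐.A.St y) (t : Fin m → (y : V) → Fin q → 𝓐.A.St y),
      (∀ k, (𝓐.A.free n).On (R k) K) ∧ (∀ k, (𝓐.A.free q).On (t k) K) ∧
      (∀ k, ∀ y ∈ K, ∑ i, R k y i • g i y = 𝓐.hb y • t k y) ∧
      ∀ y ∈ K, ∀ c : Fin n → 𝓐.A.St y, (∃ s : Fin q → 𝓐.A.St y, ∑ i, c i • g i y = 𝓐.hb y • s) →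
        ∃ (E : Fin m → 𝓐.A.St y) (c' : Fin n → 𝓐.A.St y), c = ∑ k, E k • R k y + 𝓐.hb y • c' := by
  have hredg : ∀ i, ((O V).free q).On (fun y => 𝓐.redv q y (g i y)) K :=
    fun i y hy => 𝓐.redv_at (hg i y hy)
  obtain ⟨m, ρ, hρ, hgen⟩ := hRel q n (fun i y => 𝓐.redv q y (g i y)) hredg
  -- an open neighbourhood of `K` on which everything is defined
  let u : Fin m → (y : V) → Fin q → (O V).St y := fun k y => ∑ i, ρ k y i • 𝓐.redv q y (g i y)
  let W : Set V := {y | (y ∈ 𝓐.A.dom ∧ (∀ i, (𝓐.A.free q).At (g i) y) ∧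
    ∀ k, ((O V).free n).At (ρ k) y) ∧ ∀ k, u k y = 0}
  have hu : ∀ y, ((∀ i, (𝓐.A.free q).At (g i) y) ∧ ∀ k, ((O V).free n).At (ρ k) y) → ∀ k,
      ((O V).free q).At (u k) y := by
    intro y hy k
    exact ((O V).free q).comb (mem_univ y) (fun i => (hy.2 k).2 i) fun i => 𝓐.redv_at (hy.1 i)
  have hWo : IsOpen W := by
    rw [isOpen_iff_mem_nhds]
    rintro y ⟨⟨h1, h2, h3⟩, h4⟩
    have e2 : ∀ᶠ z in 𝓝 y, ∀ i, (𝓐.A.free q).At (g i) z :=
      eventually_all.mpr fun i => (𝓐.A.free q).ev (h2 i)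
    have e3 : ∀ᶠ z in 𝓝 y, ∀ k, ((O V).free n).At (ρ k) z :=
      eventually_all.mpr fun k => ((O V).free n).ev (h3 k)
    have e4 : ∀ᶠ z in 𝓝 y, ∀ k, u k z = 0 := by
      refine eventually_all.mpr fun k => ?_
      exact ((O V).free q).inj (hu y ⟨h2, h3⟩ k) (((O V).free q).zero y (mem_univ y)) (h4 k)
    filter_upwards [𝓐.A.isOpen_dom.mem_nhds h1, e2, e3, e4] with z z1 z2 z3 z4
    exact ⟨⟨z1, z2, z3⟩, z4⟩
  have hKW : K ⊆ W := by
    intro y hy
    refine ⟨⟨hKd hy, fun i => hg i y hy, fun k => hρ k y hy⟩, fun k => ?_⟩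
    have h1 : ρ k y ∈ Submodule.span ((O V).St y) (Set.range fun k => ρ k y) :=
      Submodule.subset_span ⟨k, rfl⟩
    exact (hgen y hy).ge h1
  have hWd : W ⊆ 𝓐.A.dom := fun y hy => hy.1.1
  obtain ⟨R, hR, hRρ⟩ := 𝓐.liftv hWo hWd (f := ρ) fun k y hy => hy.1.2.2 k
  have hv : ∀ k, (𝓐.A.free q).On (fun y => ∑ i, R k y i • g i y) W := by
    intro k y hy
    exact (𝓐.A.free q).comb hy.1.1 (fun i => (hR k y hy).2 i) fun i => hy.1.2.1 i
  have hdiv : ∀ k, ∃ t : (x : V) → Fin q → 𝓐.A.St x, (𝓐.A.free q).On t W ∧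
      ∀ x ∈ W, ∑ i, R k x i • g i x = 𝓐.hb x • t x := by
    intro k
    refine 𝓐.div_mod (M := 𝓐.A.free q) hWo hWd (fun x hx m hm => 𝓐.tf_free (hWd hx) m hm)
      (hv k) fun x hx => ?_
    apply (𝓐.redv_eq_zero (hWd hx) _).1
    rw [𝓐.redv_comb (hWd hx), ← hx.2 k]
    refine Finset.sum_congr rfl fun i _ => ?_
    have := congrFun (hRρ k x hx) i
    rw [← this]
    rfl
  choose t ht htR using hdiv
  refine ⟨m, R, t, fun k y hy => hR k y (hKW hy), fun k y hy => ht k y (hKW hy),
    fun k y hy => htR k y (hKW hy), ?_⟩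
  rintro y hy c ⟨s, hs⟩
  apply 𝓐.comb_of_red (hKd hy)
  have h2 : 𝓐.redv q y (∑ i, c i • g i y) = 0 := by
    rw [hs]
    exact (𝓐.redv_eq_zero (hKd hy) _).2 ⟨s, rfl⟩
  rw [𝓐.redv_comb (hKd hy)] at h2
  have h1 := (hgen y hy).le h2
  have h3 : (fun k => 𝓐.redv n y (R k y)) = fun k => ρ k y := funext fun k => hRρ k y (hKW hy)
  rw [h3]
  exact h1

/-- one step of the tower -/
theorem tower_step {K : Set V} (hKd : K ⊆ 𝓐.A.dom) (hRel : RelGen K) {q n : ℕ}
    (g : Fin n → (y : V) → Fin q → 𝓐.A.St y) (hg : ∀ i, (𝓐.A.free q).On (g i) K) :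
    ∃ (n' : ℕ) (g' : Fin n' → (y : V) → Fin q → 𝓐.A.St y), (∀ i, (𝓐.A.free q).On (g' i) K) ∧
      ∀ y ∈ K, ∀ s : Fin q → 𝓐.A.St y,
        s ∈ Submodule.span (𝓐.A.St y) (Set.range fun i => g' i y) ↔
          𝓐.hb y • s ∈ Submodule.span (𝓐.A.St y) (Set.range fun i => g i y) := by
  obtain ⟨m, R, t, hR, ht, hRt, hgen⟩ := 𝓐.exists_lift_rel hKd hRel g hg
  refine ⟨n + m, Fin.append g t, ?_, ?_⟩
  · intro i
    refine Fin.addCases (fun i => ?_) (fun i => ?_) i
    · rw [Fin.append_left]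
      exact hg i
    · rw [Fin.append_right]
      exact ht i
  intro y hy s
  have hspan : Submodule.span (𝓐.A.St y) (Set.range fun i => Fin.append g t i y) =
      Submodule.span (𝓐.A.St y) (Set.range fun i => g i y) ⊔
        Submodule.span (𝓐.A.St y) (Set.range fun k => t k y) := by
    rw [← Submodule.span_union]
    congr 1
    ext z
    constructor
    · rintro ⟨i, rfl⟩
      refine Fin.addCases (fun i => ?_) (fun i => ?_) i
      · left
        exact ⟨i, by simp only [Fin.append_left]⟩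
      · right
        exact ⟨i, by simp only [Fin.append_right]⟩
    · rintro (⟨i, rfl⟩ | ⟨i, rfl⟩)
      · exact ⟨Fin.castAdd m i, by simp only [Fin.append_left]⟩
      · exact ⟨Fin.natAdd n i, by simp only [Fin.append_right]⟩
  rw [hspan]
  constructor
  · intro h
    obtain ⟨a, ha, b, hb, rfl⟩ := Submodule.mem_sup.mp h
    rw [smul_add]
    refine Submodule.add_mem _ (Submodule.smul_mem _ _ ha) ?_
    obtain ⟨e, rfl⟩ := mem_span_fam.mp hb
    rw [Finset.smul_sum]
    refine Submodule.sum_mem _ fun k _ => ?_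
    rw [𝓐.hb_smul_comm (hKd hy)]
    apply Submodule.smul_mem
    rw [← hRt k y hy]
    exact mem_span_fam.mpr ⟨fun i => R k y i, rfl⟩
  · intro h
    exact (𝓐.stalk (hKd hy)).sat_step (M := Fin q → 𝓐.A.St y)
      (fun m hm => 𝓐.tf_free (hKd hy) m hm) (fun i => g i y) (fun k i => R k y i)
      (fun k => t k y) (fun k => hRt k y hy) (fun c hc => by
        obtain ⟨E, c', e⟩ := hgen y hy c hc
        refine ⟨E, c', fun i => ?_⟩
        rw [e, Pi.add_apply, Finset.sum_apply]
        rfl) s h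

/-- the tower -/
theorem tower {K : Set V} (hKd : K ⊆ 𝓐.A.dom) (hRel : RelGen K) {q n : ℕ}
    (g : Fin n → (y : V) → Fin q → 𝓐.A.St y) (hg : ∀ i, (𝓐.A.free q).On (g i) K) :
    ∃ (N : ℕ → ℕ) (G : ∀ m, Fin (N m) → (y : V) → Fin q → 𝓐.A.St y),
      (∀ m i, (𝓐.A.free q).On (G m i) K) ∧
      (∀ y ∈ K, Submodule.span (𝓐.A.St y) (Set.range fun i => G 0 i y) =
        Submodule.span (𝓐.A.St y) (Set.range fun i => g i y)) ∧
      ∀ m, ∀ y ∈ K, ∀ s : Fin q → 𝓐.A.St y,
        s ∈ Submodule.span (𝓐.A.St y) (Set.range fun i => G (m + 1) i y) ↔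
          𝓐.hb y • s ∈ Submodule.span (𝓐.A.St y) (Set.range fun i => G m i y) := by
  classical
  let T := { p : Σ n : ℕ, Fin n → (y : V) → Fin q → 𝓐.A.St y // ∀ i, (𝓐.A.free q).On (p.2 i) K }
  have hstep : ∀ p : T, ∃ p' : T, ∀ y ∈ K, ∀ s : Fin q → 𝓐.A.St y,
        s ∈ Submodule.span (𝓐.A.St y) (Set.range fun i => p'.1.2 i y) ↔
          𝓐.hb y • s ∈ Submodule.span (𝓐.A.St y) (Set.range fun i => p.1.2 i y) := by
    rintro ⟨⟨n, g⟩, hg⟩
    obtain ⟨n', g', hg', h⟩ := 𝓐.tower_step hKd hRel g hg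
    exact ⟨⟨⟨n', g'⟩, hg'⟩, h⟩
  choose nx hnx using hstep
  let S : ℕ → T := fun k => Nat.rec ⟨⟨n, g⟩, hg⟩ (fun _ t => nx t) k
  exact ⟨fun m => (S m).1.1, fun m => (S m).1.2, fun m => (S m).2, fun y _ => rfl,
    fun m y hy s => hnx (S m) y hy s⟩

end Defo

end Pool.Agent.DQ
end

section

/-! Campaign DQ, module M12, block (b): frames, generators and the dual sheaf. -/

set_option autoImplicit false

open Set Filter Topology

universe u v w

namespace Pool.Agent.DQ.M12b

/-! ### algebra -/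

section Alg

variable {R : Type*} [CommRing R] {M : Type*} [AddCommGroup M] [Module R M] {n p : ℕ}

/-- coefficients of generators with respect to a basis and back -/
theorem coeff_mul {f : Fin n → M} {u : Fin p → M} (hf : ∀ c : Fin n → R, ∑ j, c j • f j = 0 → c = 0)
    {a : Fin n → Fin p → R} (ha : ∀ i, u i = ∑ j, a j i • f j) {s : Fin n → Fin p → R}
    (hs : ∀ j, f j = ∑ i, s j i • u i) (j m : Fin n) :
    ∑ i, s j i * a m i = if m = j then 1 else 0 := by
  have h1 : ∑ m, ((∑ i, s j i * a m i) - if m = j then 1 else 0) • f m = 0 := by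
    have h2 : ∑ m, (∑ i, s j i * a m i) • f m = f j := by
      conv_rhs => rw [hs j]
      simp only [Finset.sum_smul, mul_smul]
      rw [Finset.sum_comm]
      refine Finset.sum_congr rfl fun i _ => ?_
      rw [ha i, Finset.smul_sum]
    simp only [sub_smul, Finset.sum_sub_distrib, ite_smul, one_smul, zero_smul]
    rw [h2]
    simp
  exact sub_eq_zero.mp (congrFun (hf _ h1) m)

/-- functionals which respect the relations between the generators -/
theorem dual_coeff {f : Fin n → M} {u : Fin p → M} {a : Fin n → Fin p → R}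
    (ha : ∀ i, u i = ∑ j, a j i • f j) {s : Fin n → Fin p → R}
    (hs : ∀ j, f j = ∑ i, s j i • u i) {w : Fin p → R}
    (hw : ∀ c : Fin p → R, ∑ i, c i • u i = 0 → ∑ i, c i * w i = 0) (i : Fin p) :
    w i = ∑ j, (∑ m, s j m * w m) * a j i := by
  have h1 := hw (fun m => (if m = i then 1 else 0) - ∑ j, a j i * s j m) (by
    simp only [sub_smul, Finset.sum_sub_distrib, ite_smul, one_smul, zero_smul,
      Finset.sum_ite_eq', Finset.mem_univ, if_true, Finset.sum_smul, mul_smul]
    rw [Finset.sum_comm]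
    have h2 : ∑ j, ∑ m, a j i • s j m • u m = u i := by
      rw [ha i]
      refine Finset.sum_congr rfl fun j _ => ?_
      rw [← Finset.smul_sum, ← hs j]
    rw [h2, sub_self])
  simp only [sub_mul, Finset.sum_sub_distrib, ite_mul, one_mul, zero_mul,
    Finset.sum_ite_eq', Finset.mem_univ, if_true, Finset.sum_mul] at h1
  rw [sub_eq_zero.mp h1, Finset.sum_comm]
  refine Finset.sum_congr rfl fun j _ => ?_
  rw [Finset.sum_mul]
  refine Finset.sum_congr rfl fun m _ => ?_
  ring

/-- the dual coefficients span -/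
theorem dual_span {f : Fin n → M} {u : Fin p → M}
    (hf : ∀ c : Fin n → R, ∑ j, c j • f j = 0 → c = 0)
    {a : Fin n → Fin p → R} (ha : ∀ i, u i = ∑ j, a j i • f j) {s : Fin n → Fin p → R}
    (hs : ∀ j, f j = ∑ i, s j i • u i) {q p' : ℕ} {ρ : Fin q → Fin p → R}
    (hρ : ∀ l, ∑ i, ρ l i • u i = 0) {w : Fin p' → Fin p → R}
    (hw : ∀ c : Fin p → R, (∀ l, ∑ i, c i * ρ l i = 0) → ∃ d : Fin p' → R,
      ∀ i, c i = ∑ l, d l * w l i) (j : Fin n) :
    ∃ d : Fin p' → R, ∀ m, ∑ l, d l * (∑ i, s m i * w l i) = if m = j then 1 else 0 := by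
  obtain ⟨d, hd⟩ := hw (a j) (by
    intro l
    have h1 : ∑ j, (∑ i, a j i * ρ l i) • f j = 0 := by
      rw [← hρ l]
      simp only [Finset.sum_smul]
      rw [Finset.sum_comm]
      refine Finset.sum_congr rfl fun i _ => ?_
      rw [ha i, Finset.smul_sum]
      refine Finset.sum_congr rfl fun j _ => ?_
      rw [mul_comm, mul_smul]
    exact congrFun (hf _ h1) j)
  refine ⟨d, fun m => ?_⟩
  have h2 := coeff_mul hf ha hs m j
  have h3 : (∑ i, s m i * a j i) = ∑ l, d l * (∑ i, s m i * w l i) := by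
    simp only [Finset.mul_sum]
    rw [Finset.sum_comm]
    refine Finset.sum_congr rfl fun i _ => ?_
    rw [hd i, Finset.mul_sum]
    refine Finset.sum_congr rfl fun l _ => ?_
    ring
  rw [← h3, h2]
  by_cases h : m = j
  · rw [if_pos h, if_pos h.symm]
  · rw [if_neg h, if_neg fun h' => h h'.symm]

end Alg

end Pool.Agent.DQ.M12b
end

section

/-! Campaign DQ, module M12, block (f), file MFAlg1: linear algebra for the one variable step. -/

set_option autoImplicit false
set_option linter.unusedVariables false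

open Set Filter Topology

namespace Pool.Agent.DQ

namespace MF

/-- a submodule which is stable under `N` is stable under its powers -/
private theorem pow_mem_of_stab' {R M : Type*} [CommRing R] [AddCommGroup M] [Module R M]
    (S : Submodule R M) (N : M →ₗ[R] M) (hN : ∀ x ∈ S, N x ∈ S) (n : ℕ) {x : M} (hx : x ∈ S) :
    (N ^ n) x ∈ S := by
  induction n with
  | zero => simpa using hx
  | succ n ih =>
    rw [pow_succ', Module.End.mul_apply]
    exact hN _ ih

/-- **Telescoping.**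

Proof. Apply `N ^ i` to the equation number `i` (`h0` is number `0`, `h1 i` is number `i.succ`) and add:
`0 = c - ∑ i, (N ^ i) (r i) + ∑ i : Fin (m + 1), (N ^ (i + 1)) (B i) - ∑ i : Fin m, (N ^ (i + 1)) (B i.castSucc) + ∑ i, a i • (N ^ i) (B (Fin.last m))`.
The two middle sums differ by the term `(N ^ (m + 1)) (B (Fin.last m))` (`Fin.sum_univ_castSucc`). Use `Fin.sum_univ_succ` to split the
sums over `i : Fin (m + 1)` in the number `0` and the numbers `i.succ`. Hence
`c = ∑ i, (N ^ i) (r i) - ((N ^ (m + 1)) (B (last m)) + ∑ i, a i • (N ^ i) (B (last m)))`. `S` is stable under `N`, hence under `N ^ i`. -/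
theorem step_alg {R M : Type*} [CommRing R] [AddCommGroup M] [Module R M] (S : Submodule R M)
    (N : M →ₗ[R] M) (hN : ∀ x ∈ S, N x ∈ S) {m : ℕ} (B : Fin (m + 1) → M) (a : Fin (m + 1) → R)
    (r : Fin (m + 1) → M) (hr : ∀ i, r i ∈ S) (c : M)
    (h0 : c - r 0 + N (B 0) + a 0 • B (Fin.last m) = 0)
    (h1 : ∀ i : Fin m, - r i.succ - B i.castSucc + N (B i.succ) + a i.succ • B (Fin.last m) = 0)
    (hχ : (N ^ (m + 1)) (B (Fin.last m)) + ∑ i : Fin (m + 1), a i • (N ^ (i : ℕ)) (B (Fin.last m)) ∈ S) :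
    c ∈ S := by
  have e0 : r 0 = c + N (B 0) + a 0 • B (Fin.last m) := by
    have := sub_eq_zero.1 (show c + N (B 0) + a 0 • B (Fin.last m) - r 0 = 0 by rw [← h0]; abel)
    exact this.symm
  have e1 : ∀ i : Fin m, r i.succ = N (B i.succ) + a i.succ • B (Fin.last m) - B i.castSucc := by
    intro i
    have := sub_eq_zero.1 (show N (B i.succ) + a i.succ • B (Fin.last m) - B i.castSucc - r i.succ
      = 0 by rw [← h1 i]; abel)
    exact this.symm
  have hs : ∑ i : Fin (m + 1), (N ^ (i : ℕ)) (r i) = c + ((N ^ (m + 1)) (B (Fin.last m)) +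
      ∑ i : Fin (m + 1), a i • (N ^ (i : ℕ)) (B (Fin.last m))) := by
    have f1 : ∑ i : Fin (m + 1), (N ^ ((i : ℕ) + 1)) (B i) =
        ∑ i : Fin m, (N ^ ((i : ℕ) + 1)) (B i.castSucc) + (N ^ (m + 1)) (B (Fin.last m)) := by
      rw [Fin.sum_univ_castSucc]
      rfl
    have f2 : ∑ i : Fin (m + 1), (N ^ ((i : ℕ) + 1)) (B i) =
        N (B 0) + ∑ i : Fin m, (N ^ ((i : ℕ) + 2)) (B i.succ) := by
      rw [Fin.sum_univ_succ]
      simp [Fin.val_succ]
    have f3 : ∑ i : Fin (m + 1), a i • (N ^ (i : ℕ)) (B (Fin.last m)) =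
        a 0 • B (Fin.last m) + ∑ i : Fin m, a i.succ • (N ^ ((i : ℕ) + 1)) (B (Fin.last m)) := by
      rw [Fin.sum_univ_succ]
      simp [Fin.val_succ]
    have f4 : ∀ i : Fin m, (N ^ ((i : ℕ) + 1)) (r i.succ) = (N ^ ((i : ℕ) + 2)) (B i.succ) +
        a i.succ • (N ^ ((i : ℕ) + 1)) (B (Fin.last m)) - (N ^ ((i : ℕ) + 1)) (B i.castSucc) := by
      intro i
      rw [e1 i, map_sub, map_add, map_smul, pow_succ N ((i : ℕ) + 1), Module.End.mul_apply]
    have f5 : ∑ i : Fin (m + 1), (N ^ (i : ℕ)) (r i) =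
        r 0 + ∑ i : Fin m, (N ^ ((i : ℕ) + 1)) (r i.succ) := by
      rw [Fin.sum_univ_succ]
      simp [Fin.val_succ]
    rw [f5, Finset.sum_congr rfl fun i _ => f4 i, Finset.sum_sub_distrib, Finset.sum_add_distrib,
      e0, f3]
    have f6 := f2.symm.trans f1
    have f7 : ∑ i : Fin m, (N ^ ((i : ℕ) + 2)) (B i.succ) =
        ∑ i : Fin m, (N ^ ((i : ℕ) + 1)) (B i.castSucc) + (N ^ (m + 1)) (B (Fin.last m))
          - N (B 0) := by
      rw [← f6]
      abel
    rw [f7]
    abel
  have hc : c = ∑ i : Fin (m + 1), (N ^ (i : ℕ)) (r i) - ((N ^ (m + 1)) (B (Fin.last m)) +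
      ∑ i : Fin (m + 1), a i • (N ^ (i : ℕ)) (B (Fin.last m))) := by
    rw [hs]
    abel
  rw [hc]
  exact S.sub_mem (S.sum_mem fun i _ => pow_mem_of_stab' S N hN _ (hr i)) hχ

/-- a submodule which is stable under `N` is stable under its powers -/
theorem pow_mem_of_stab {R M : Type*} [CommRing R] [AddCommGroup M] [Module R M]
    (S : Submodule R M) (N : M →ₗ[R] M) (hN : ∀ x ∈ S, N x ∈ S) (n : ℕ) {x : M} (hx : x ∈ S) :
    (N ^ n) x ∈ S :=
  pow_mem_of_stab' S N hN n hx

end MF

end Pool.Agent.DQ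
end

section

/-! Campaign DQ, module M12, block (f), file MFAlg2: Cayley–Hamilton over a local ring with control of the
roots. -/

set_option autoImplicit false
set_option linter.unusedVariables false

open Polynomial

namespace Pool.Agent.DQ

namespace MF

/-- a minimal generating family has no relation with a unit coefficient -/
private theorem MFAlg2_min {R : Type*} [CommRing R] [IsLocalRing R] (π : R →+* ℂ)
    (hπ : Function.Surjective π) {P : Type*} [AddCommGroup P] [Module R P] {n : ℕ} (p : Fin n → P)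
    (hp : Submodule.span R (Set.range p) = ⊤)
    (hmin : ∀ m < n, ¬ ∃ q : Fin m → P, Submodule.span R (Set.range q) = ⊤)
    (a : Fin n → R) (ha : ∑ i, a i • p i = 0) (i₀ : Fin n) : π (a i₀) = 0 := by
  classical
  by_contra hne
  have hu : IsUnit (a i₀) := by
    by_contra hu
    have h1 : a i₀ ∈ IsLocalRing.maximalIdeal R := (IsLocalRing.mem_maximalIdeal _).2 hu
    rw [← IsLocalRing.eq_maximalIdeal (RingHom.ker_isMaximal_of_surjective π hπ)] at h1
    exact hne h1
  obtain ⟨m, rfl⟩ : ∃ m, n = m + 1 := by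
    cases n with
    | zero => exact i₀.elim0
    | succ m => exact ⟨m, rfl⟩
  refine hmin m (Nat.lt_succ_self m) ⟨fun j => p (i₀.succAbove j), ?_⟩
  rw [eq_top_iff, ← hp, Submodule.span_le]
  have hin : ∀ j, p (i₀.succAbove j) ∈
      Submodule.span R (Set.range fun j => p (i₀.succAbove j)) := fun j =>
    Submodule.subset_span ⟨j, rfl⟩
  have h0 : p i₀ ∈ Submodule.span R (Set.range fun j => p (i₀.succAbove j)) := by
    rw [Fin.sum_univ_succAbove _ i₀] at ha
    have h1 : a i₀ • p i₀ = - ∑ j, a (i₀.succAbove j) • p (i₀.succAbove j) :=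
      eq_neg_of_add_eq_zero_left ha
    obtain ⟨b, hb⟩ := hu.exists_left_inv
    have h2 : p i₀ = b • (a i₀ • p i₀) := by rw [smul_smul, hb, one_smul]
    rw [h2, h1]
    exact Submodule.smul_mem _ _ (Submodule.neg_mem _ (Submodule.sum_mem _ fun j _ =>
      Submodule.smul_mem _ _ (hin j)))
  rintro _ ⟨i, rfl⟩
  by_cases hi : i = i₀
  · rw [hi]
    exact h0
  · obtain ⟨j, rfl⟩ := Fin.exists_succAbove_eq hi
    exact hin j

/-- **Cayley–Hamilton with minimal generators.** Here `π : R → ℂ` is the residue field map of the local ring `R` (surjective, its kernel is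
the maximal ideal).

Proof. Let `𝔪 = ker π` (the maximal ideal; `Ideal.Quotient` or `IsLocalRing.ResidueField R` is identified with `ℂ` by `π`). The `R ⧸ 𝔪`-vector
space `P̄ = P ⧸ 𝔪 • ⊤` is finite-dimensional; let `n` be its dimension and `p : Fin n → P` a lift of a basis. By Nakayama
(`IsLocalRing.span_eq_top_of_tmul_eq_basis`, or `Submodule.le_of_le_smul_of_le_jacobson_bot`, see also `IsLocalRing.map_mkQ_eq_top`,
`Module.Basis`-statements in Mathlib.RingTheory.LocalRing.Module) the `p i` span `P`. Choose a matrix `F` over `R` with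
`f (p j) = ∑ i, F i j • p i`. Then `F` represents `f` (`Matrix.Represents`, `Mathlib.LinearAlgebra.Matrix.Charpoly.LinearMap`;
`Matrix.isRepresentation.toEnd` is an algebra homomorphism; `Matrix.aeval_self_charpoly`), so `χ := F.charpoly` is monic and `aeval f χ = 0`.
If `c` is a root of `χ.map π = (F.map π).charpoly` then `det (c - F.map π) = 0`. The matrix `F.map π` is the matrix of the
endomorphism `f̄` of the finite-dimensional space `P̄` in the basis `p̄`. So `c - f̄` is not injective, hence not surjective. But `f - r • 1`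
surjective on `P` implies `f̄ - c` surjective on `P̄` (`π r = c`): contradiction.
(Equivalent without `P̄` as a `ℂ`-space: assume `r • 1 - f` surjective on `P`, `π r = c`; then there is a matrix `G` over `R` with
`∑ i, (r • 1 - F) · G` applied to the generators equal to the generators, i.e. `(r - F) G - 1` has all its columns in the relations of `p`; by minimality of
`p` all relations have coefficients in `𝔪`; hence `det (c - F̄) · det Ḡ = 1`, so `c` is not a root of the characteristic polynomial of `F̄`. This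
version only needs: the `p i` generate `P` and every relation `∑ i, a i • p i = 0` has all `a i ∈ 𝔪`. A generating family with the minimal number of
elements has this property: if `a i` is a unit, `p i` is a combination of the others.) -/
theorem exists_charpoly {R : Type*} [CommRing R] [IsLocalRing R] (π : R →+* ℂ)
    (hπ : Function.Surjective π) {P : Type*} [AddCommGroup P] [Module R P] [Module.Finite R P]
    (f : P →ₗ[R] P) :
    ∃ χ : R[X], χ.Monic ∧ Polynomial.aeval f χ = 0 ∧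
      ∀ r : R, (χ.map π).IsRoot (π r) → ¬ Function.Surjective fun p => r • p - f p := by
  classical
  have hex : ∃ n, ∃ p : Fin n → P, Submodule.span R (Set.range p) = ⊤ := by
    obtain ⟨n, p, hp⟩ := Module.Finite.exists_fin (R := R) (M := P)
    exact ⟨n, p, hp⟩
  obtain ⟨p, hp⟩ := Nat.find_spec hex
  have hmin : ∀ m < Nat.find hex, ¬ ∃ q : Fin m → P, Submodule.span R (Set.range q) = ⊤ :=
    fun m hm => Nat.find_min hex hm
  generalize hn : Nat.find hex = n at p hp hmin
  obtain ⟨A, hA⟩ := Matrix.isRepresentation.toEnd_surjective R p hp f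
  have hrep : Matrix.Represents p A.1 (Matrix.isRepresentation.toEnd R p hp A) :=
    Matrix.isRepresentation.toEnd_represents R p hp A
  rw [hA] at hrep
  refine ⟨A.1.charpoly, A.1.charpoly_monic, ?_, ?_⟩
  · rw [← hA, Polynomial.aeval_algHom_apply, ← map_zero (Matrix.isRepresentation.toEnd R p hp)]
    congr 1
    ext1
    rw [Polynomial.aeval_subalgebra_coe, Matrix.aeval_self_charpoly, Subalgebra.coe_zero]
  · intro r hr hsurj
    have hf : ∀ j, f (p j) = ∑ i, A.1 i j • p i := by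
      intro j
      have h := hrep.congr_fun (Pi.single j 1)
      rw [Fintype.linearCombination_apply_single, one_smul] at h
      rw [← h, Fintype.linearCombination_apply]
      exact Finset.sum_congr rfl fun i _ => by rw [Matrix.mulVec_single_one]; rfl
    have hg : ∀ j, ∃ g : Fin n → R, r • (∑ i, g i • p i) - f (∑ i, g i • p i) = p j := by
      intro j
      obtain ⟨x, hx⟩ := hsurj (p j)
      have hx' : x ∈ Submodule.span R (Set.range p) := by rw [hp]; trivial
      obtain ⟨g, hg⟩ := (Submodule.mem_span_range_iff_exists_fun R).1 hx'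
      exact ⟨g, by rw [hg]; exact hx⟩
    choose g hg using hg
    let G : Matrix (Fin n) (Fin n) R := Matrix.of fun i j => g j i
    have hcol : ∀ k j, π ((Matrix.scalar (Fin n) r * G - A.1 * G - 1) k j) = 0 := by
      intro k j
      refine MFAlg2_min π hπ p hp hmin
        (fun k => (Matrix.scalar (Fin n) r * G - A.1 * G - 1) k j) ?_ k
      have h1 := hg j
      have h2 : r • (∑ i, g j i • p i) = ∑ k, (Matrix.scalar (Fin n) r * G) k j • p k := by
        rw [Finset.smul_sum]
        refine Finset.sum_congr rfl fun i _ => ?_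
        rw [smul_smul]
        congr 1
        rw [Matrix.scalar_apply, Matrix.diagonal_mul]
        rfl
      have h3 : f (∑ i, g j i • p i) = ∑ k, (A.1 * G) k j • p k := by
        rw [map_sum]
        simp_rw [map_smul, hf, Finset.smul_sum, Matrix.mul_apply, Finset.sum_smul, smul_smul]
        rw [Finset.sum_comm]
        refine Finset.sum_congr rfl fun k _ => Finset.sum_congr rfl fun i _ => ?_
        rw [mul_comm]
        rfl
      have h4 : p j = ∑ k, (1 : Matrix (Fin n) (Fin n) R) k j • p k := by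
        simp [Matrix.one_apply]
      simp only [Matrix.sub_apply, sub_smul, Finset.sum_sub_distrib]
      rw [← h2, ← h3, h1, ← h4, sub_self]
    have hmat : (Matrix.scalar (Fin n) (π r) - A.1.map π) * G.map π = 1 := by
      have h1 : ((Matrix.scalar (Fin n) r * G - A.1 * G - 1).map π) = 0 := by
        ext k j
        exact hcol k j
      have h2 : (Matrix.scalar (Fin n) r * G - A.1 * G - 1).map π =
          (Matrix.scalar (Fin n) (π r) - A.1.map π) * G.map π - 1 := by
        have h3 : π.mapMatrix (Matrix.scalar (Fin n) r * G - A.1 * G - 1) =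
            (π.mapMatrix (Matrix.scalar (Fin n) r) - π.mapMatrix A.1) * π.mapMatrix G - 1 := by
          rw [map_sub, map_sub, map_mul, map_mul, map_one, sub_mul]
        have h4 : π.mapMatrix (Matrix.scalar (Fin n) r) = Matrix.scalar (Fin n) (π r) := by
          ext i j
          simp [Matrix.scalar_apply, Matrix.diagonal_apply, apply_ite π]
        rw [h4] at h3
        exact h3
      rw [h2] at h1
      exact sub_eq_zero.1 h1
    have hdet : (Matrix.scalar (Fin n) (π r) - A.1.map π).det = 0 := by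
      have h1 : (A.1.charpoly.map π) = (A.1.map π).charpoly := by
        rw [Matrix.charpoly_map]
      rw [h1, Polynomial.IsRoot.def, Matrix.eval_charpoly] at hr
      exact hr
    have := congrArg Matrix.det hmat
    rw [Matrix.det_mul, hdet, zero_mul, Matrix.det_one] at this
    exact zero_ne_one this

end MF

end Pool.Agent.DQ
end

section

/-! M34, algebra 1: minors and finite generation. -/

set_option autoImplicit false

universe u v w

namespace Pool.Agent.DQ.M34

/-- A submodule `N` of `R^ι` in which all `(b+1)`-minors vanish is determined by finitely many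
coordinates. Proof: choose `r ≤ b` maximal with a non-vanishing `r`-minor `det (x_p (i_q))`
(`r = 0` allowed, the empty determinant is `1`). If `x ∈ N` has `x (i q) = 0` for all `q < r`, then for every
`j` the `(r+1)`-minor of `x_1, …, x_r, x` in the coordinates `i_1, …, i_r, j` vanishes, and it equals
`det (x_p (i_q)) * x j` (expand along the row of `x`, whose only nonzero entry is the last one), so
`x j = 0`. (For `r = b` use the hypothesis, for `r < b` maximality.) -/
theorem exists_coords {R : Type u} [CommRing R] [IsDomain R] {ι : Type v} (b : ℕ)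
    (N : Submodule R (ι → R))
    (h : ∀ (x : Fin (b + 1) → N) (i : Fin (b + 1) → ι),
      (Matrix.of fun p q => (x p : ι → R) (i q)).det = 0) :
    ∃ (r : ℕ) (i : Fin r → ι), ∀ x ∈ N, (∀ q, x (i q) = 0) → x = 0 := by
  classical
  let P : ℕ → Prop := fun r => ∃ (x : Fin r → N) (i : Fin r → ι),
    (Matrix.of fun p q => (x p : ι → R) (i q)).det ≠ 0
  have h0 : P 0 := ⟨fun p => p.elim0, fun p => p.elim0, by
    rw [Matrix.det_isEmpty]; exact one_ne_zero⟩
  have hb : ¬ P (b + 1) := by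
    rintro ⟨x, i, hx⟩
    exact hx (h x i)
  obtain ⟨r, hr, hr1⟩ : ∃ r, P r ∧ ¬ P (r + 1) := by
    by_contra hcon
    push Not at hcon
    have hall : ∀ n, P n := by
      intro n
      induction n with
      | zero => exact h0
      | succ n ih => exact hcon n ih
    exact hb (hall _)
  obtain ⟨x, i, hx⟩ := hr
  refine ⟨r, i, fun y hy hyi => ?_⟩
  funext j
  have hdet : (Matrix.of fun p q => ((Fin.snoc (α := fun _ => N) x ⟨y, hy⟩ p : N) : ι → R)
      ((Fin.snoc (α := fun _ => ι) i j : Fin (r + 1) → ι) q)).det = 0 := by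
    by_contra hne
    exact hr1 ⟨_, _, hne⟩
  rw [Matrix.det_succ_row _ (Fin.last r)] at hdet
  rw [Fin.sum_univ_castSucc] at hdet
  have hz : ∀ q : Fin r, (Matrix.of fun p q => ((Fin.snoc (α := fun _ => N) x ⟨y, hy⟩ p : N) : ι → R)
      ((Fin.snoc (α := fun _ => ι) i j : Fin (r + 1) → ι) q)) (Fin.last r) (Fin.castSucc q) = 0 := by
    intro q
    simp [hyi q]
  rw [Finset.sum_eq_zero (fun q _ => by rw [hz q, mul_zero, zero_mul]), zero_add] at hdet
  have hsub : ((Matrix.of fun p q => ((Fin.snoc (α := fun _ => N) x ⟨y, hy⟩ p : N) : ι → R)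
      ((Fin.snoc (α := fun _ => ι) i j : Fin (r + 1) → ι) q)).submatrix
        (Fin.last r).succAbove (Fin.last r).succAbove)
      = Matrix.of fun p q => (x p : ι → R) (i q) := by
    ext p q
    simp
  rw [hsub] at hdet
  rcases mul_eq_zero.1 hdet with h1 | h1
  · rcases mul_eq_zero.1 h1 with h2 | h2
    · exact absurd h2 (pow_ne_zero _ (neg_ne_zero.2 one_ne_zero))
    · simpa using h2
  · exact absurd h1 hx

/-- Finite generation: `N` embeds in `R^r` by `exists_coords`, and `R` is noetherian. -/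
theorem fg_of_minors {R : Type u} [CommRing R] [IsDomain R] [IsNoetherianRing R] {ι : Type v} (b : ℕ)
    (N : Submodule R (ι → R))
    (h : ∀ (x : Fin (b + 1) → N) (i : Fin (b + 1) → ι),
      (Matrix.of fun p q => (x p : ι → R) (i q)).det = 0) : N.FG := by
  obtain ⟨r, i, hi⟩ := exists_coords b N h
  let φ : N →ₗ[R] (Fin r → R) :=
    { toFun := fun x q => (x : ι → R) (i q)
      map_add' := fun x y => by funext q; simp
      map_smul' := fun a x => by funext q; simp }
  have hφ : Function.Injective φ := by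
    rw [← LinearMap.ker_eq_bot, LinearMap.ker_eq_bot']
    intro x hx
    have : (x : ι → R) = 0 := hi x x.2 (fun q => congrFun hx q)
    exact Subtype.ext this
  exact Module.Finite.iff_fg.1 (Module.Finite.of_injective φ hφ)

/-- Linearly dependent elements `x_p` and linear functionals `c_q`: the determinant of the matrix
`c_q (x_p)` vanishes (`∑ a_p x_p = 0` with `a ≠ 0`, so `a ᵥ* matrix = 0`;
`Matrix.exists_vecMul_eq_zero_iff`). -/
theorem det_of_dep {R : Type u} [CommRing R] [IsDomain R] {H : Type w} [AddCommGroup H]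
    [Module R H] {n : ℕ} (x : Fin n → H) (hx : ¬ LinearIndependent R x)
    (c : Fin n → (H →ₗ[R] R)) : (Matrix.of fun p q => c q (x p)).det = 0 := by
  obtain ⟨g, hg, k, hk⟩ := Fintype.not_linearIndependent_iff.1 hx
  refine Matrix.exists_vecMul_eq_zero_iff.1 ⟨g, fun h0 => hk (congrFun h0 k), ?_⟩
  funext q
  have : c q (∑ p, g p • x p) = 0 := by rw [hg, map_zero]
  rw [map_sum] at this
  simpa [Matrix.vecMul, dotProduct, map_smul, smul_eq_mul] using this

end Pool.Agent.DQ.M34
end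

section

/-! M34, algebra 2: ranks over a domain. -/

set_option autoImplicit false

universe u v w

namespace Pool.Agent.DQ.M34

/-- Rank count along two filtrations. `G j ⊆ H × F` are submodules; `D j` (first projection) and `J j`
(second projection) satisfy `J (j+1) × {0} ⊆ G j` in the sense of `hA`, `(h, 0) ∈ G (j+1) → h ∈ D j`
and `D 0 = 0`. Then `rank (D m) ≤ b` if `rank F ≤ b`; in particular `b + 1` elements of `D m` are
linearly dependent.

Proof. Let `π : R^(b+1) → H` be the linear map with `π e_i = x_i` and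
`G' j := {(a, γ) | (π a, γ) ∈ G j} ⊆ R^(b+1) × F`, with projections `D' j`, `J' j`; `hA`, `hB` hold for `G'`
(use `hA` and `hB` for `G`; for `hB`: `(a, 0) ∈ G' (j+1)` gives `π a ∈ D j`), and `D' 0 = ker π`. For every `j`:
`rank (G' j) = rank (D' j) + rank {γ | (0, γ) ∈ G' j} ≥ rank (D' j) + rank (J' (j+1))` and
`rank (G' (j+1)) = rank (J' (j+1)) + rank {a | (a, 0) ∈ G' (j+1)} ≤ rank (J' (j+1)) + rank (D' j)`
(rank-nullity over a domain: `rank_quotient_add_rank_of_isDomain` or
`LinearMap.rank_range_add_rank_ker`/`HasRankNullity`; `Module.rank` is monotone for submodules).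
By induction on `j`: `rank (D' j) + rank (J' (j+1)) ≤ rank (ker π) + b` (case `0`: `J' 1 ⊆ F`; step:
`rank (D' (j+1)) + rank (J' (j+2)) ≤ rank (G' (j+1)) ≤ rank (J' (j+1)) + rank (D' j)`).
As `D' m = ⊤` (hypothesis `hx`), `b + 1 ≤ rank (ker π) + b`, so `ker π ≠ 0`. -/
theorem dep_of_filtration {R : Type} [CommRing R] [IsDomain R] {H : Type w} [AddCommGroup H]
    [Module R H] {F : Type} [AddCommGroup F] [Module R F] (b : ℕ) (hb : Module.rank R F ≤ b)
    (G : ℕ → Submodule R (H × F)) (hA : ∀ j h γ, (h, γ) ∈ G (j + 1) → ((0 : H), γ) ∈ G j)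
    (hB : ∀ j h, (h, (0 : F)) ∈ G (j + 1) → ∃ γ, (h, γ) ∈ G j)
    (h0 : ∀ h γ, (h, γ) ∈ G 0 → h = 0) (m : ℕ) (x : Fin (b + 1) → H)
    (hx : ∀ i, ∃ γ, (x i, γ) ∈ G m) : ¬ LinearIndependent R x := by
  classical
  intro hli
  let A : Type := Fin (b + 1) → R
  let π : A →ₗ[R] H :=
    { toFun := fun a => ∑ i, a i • x i
      map_add' := fun a c => by simp [A, add_smul, Finset.sum_add_distrib]
      map_smul' := fun t a => by simp [A, mul_smul, Finset.smul_sum] }
  have hπ : ∀ a, π a = ∑ i, a i • x i := fun a => rfl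
  have hπ0 : ∀ a, π a = 0 → a = 0 := fun a ha => by
    funext i
    exact Fintype.linearIndependent_iff.1 hli a (by rw [← hπ]; exact ha) i
  let M : ℕ → Submodule R (A × F) := fun j => (G j).comap (π.prodMap LinearMap.id)
  have hM : ∀ j a γ, (a, γ) ∈ M j ↔ (π a, γ) ∈ G j := fun j a γ => Iff.rfl
  let f : ∀ j, M j →ₗ[R] A := fun j => (LinearMap.fst R A F).comp (M j).subtype
  let g : ∀ j, M j →ₗ[R] F := fun j => (LinearMap.snd R A F).comp (M j).subtype
  have h1 : ∀ j, Module.rank R (LinearMap.range (g (j + 1))) ≤ Module.rank R (LinearMap.ker (f j)) := by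
    intro j
    let φ : LinearMap.range (g (j + 1)) →ₗ[R] LinearMap.ker (f j) :=
      { toFun := fun γ => ⟨⟨((0 : A), (γ : F)), by
            obtain ⟨⟨⟨a, γ'⟩, hm⟩, hγ⟩ := γ.2
            rw [hM, map_zero]
            have : γ' = (γ : F) := hγ
            rw [← this]
            exact hA j _ _ ((hM _ _ _).1 hm)⟩, by
            rw [LinearMap.mem_ker]; rfl⟩
        map_add' := fun γ γ' => by
          apply Subtype.ext; apply Subtype.ext
          simp
        map_smul' := fun t γ => by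
          apply Subtype.ext; apply Subtype.ext
          simp }
    refine LinearMap.rank_le_of_injective φ ?_
    intro γ γ' hγ
    have := congrArg (fun z : LinearMap.ker (f j) => ((z : M j) : A × F).2) hγ
    exact Subtype.ext this
  have h2 : ∀ j, Module.rank R (LinearMap.ker (g (j + 1))) ≤ Module.rank R (LinearMap.range (f j)) := by
    intro j
    let φ : LinearMap.ker (g (j + 1)) →ₗ[R] LinearMap.range (f j) :=
      { toFun := fun z => ⟨((z : M (j + 1)) : A × F).1, by
            obtain ⟨⟨⟨a, γ⟩, hm⟩, hz⟩ := z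
            have hz' : γ = 0 := hz
            subst hz'
            obtain ⟨γ, hγ⟩ := hB j _ ((hM _ _ _).1 hm)
            exact ⟨⟨(a, γ), (hM _ _ _).2 hγ⟩, rfl⟩⟩
        map_add' := fun z z' => rfl
        map_smul' := fun t z => rfl }
    refine LinearMap.rank_le_of_injective φ ?_
    intro z z' hz
    have h1 := congrArg (fun y : LinearMap.range (f j) => (y : A)) hz
    have h2 : ((z : M (j + 1)) : A × F).2 = ((z' : M (j + 1)) : A × F).2 :=
      (show _ = (0 : F) from z.2).trans (show _ = (0 : F) from z'.2).symm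
    exact Subtype.ext (Subtype.ext (Prod.ext h1 h2))
  have hind : ∀ j, Module.rank R (LinearMap.range (f j))
      + Module.rank R (LinearMap.range (g (j + 1))) ≤ (b : Cardinal) := by
    intro j
    induction j with
    | zero =>
      have hz : Module.rank R (LinearMap.range (f 0)) = 0 := by
        have : LinearMap.range (f 0) = ⊥ := by
          rw [eq_bot_iff]
          rintro a ⟨⟨⟨a', γ⟩, hm⟩, rfl⟩
          exact hπ0 _ (h0 _ _ ((hM _ _ _).1 hm))
        rw [this]
        exact rank_bot R A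
      rw [hz, zero_add]
      exact (Submodule.rank_le _).trans hb
    | succ j ih =>
      calc Module.rank R (LinearMap.range (f (j + 1)))
            + Module.rank R (LinearMap.range (g (j + 1 + 1)))
          ≤ Module.rank R (LinearMap.range (f (j + 1))) + Module.rank R (LinearMap.ker (f (j + 1))) :=
            add_le_add le_rfl (h1 (j + 1))
        _ = Module.rank R (M (j + 1)) := LinearMap.rank_range_add_rank_ker (f (j + 1))
        _ = Module.rank R (LinearMap.range (g (j + 1))) + Module.rank R (LinearMap.ker (g (j + 1))) :=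
            (LinearMap.rank_range_add_rank_ker (g (j + 1))).symm
        _ ≤ Module.rank R (LinearMap.range (g (j + 1))) + Module.rank R (LinearMap.range (f j)) :=
            add_le_add le_rfl (h2 j)
        _ = _ := add_comm _ _
        _ ≤ _ := ih
  have htop : LinearMap.range (f m) = ⊤ := by
    rw [eq_top_iff]
    intro a _
    have ha : a = ∑ i, a i • (Pi.single i (1 : R) : A) := by
      funext k
      simp [A, Finset.sum_apply, Pi.single_apply]
    rw [ha]
    refine Submodule.sum_mem _ fun i _ => Submodule.smul_mem _ _ ?_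
    obtain ⟨γ, hγ⟩ := hx i
    refine ⟨⟨((Pi.single i (1 : R) : A), γ), (hM _ _ _).2 ?_⟩, rfl⟩
    have : π (Pi.single i (1 : R) : A) = x i := by
      rw [hπ]
      simp [Pi.single_apply]
    rw [this]
    exact hγ
  have hfin := hind m
  rw [htop, rank_top] at hfin
  have hA' : Module.rank R A = ((b + 1 : ℕ) : Cardinal) := by
    simp [A]
  rw [hA'] at hfin
  have h3 : ((b + 1 : ℕ) : Cardinal) ≤ (b : Cardinal) := le_trans (self_le_add_right _ _) hfin
  have := Nat.cast_le.1 h3
  omega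

end Pool.Agent.DQ.M34
end

section

/-! M34, algebra 3: rank of a finitely generated module. -/

set_option autoImplicit false

universe u v w

namespace Pool.Agent.DQ.M34

/-- A maximal linearly independent subfamily `J` of a finite family `g`: every `g i` has a nonzero
multiple in the span of the `g j`, `j ∈ J`. (`J` of maximal cardinality; for `i ∉ J` the family
`insert i J` is dependent, the coefficient of `g i` in the relation is not zero.) -/
theorem exists_max_indep {R : Type u} [CommRing R] [IsDomain R] {N : Type v} [AddCommGroup N]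
    [Module R N] {n : ℕ} (g : Fin n → N) :
    ∃ J : Finset (Fin n), LinearIndependent R (fun j : J => g j) ∧
      ∀ i, ∃ r : R, r ≠ 0 ∧ r • g i ∈ Submodule.span R (g '' (J : Set (Fin n))) := by
  classical
  have hne : (Finset.univ.filter fun J : Finset (Fin n) =>
      LinearIndepOn R g (J : Set (Fin n))).Nonempty := by
    refine ⟨∅, ?_⟩
    rw [Finset.mem_filter]
    refine ⟨Finset.mem_univ _, ?_⟩
    rw [linearIndepOn_finset_iff]
    intro f _ i hi
    exact absurd hi (Finset.notMem_empty i)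
  obtain ⟨J, hJ, hmax⟩ := Finset.exists_max_image _ Finset.card hne
  rw [Finset.mem_filter] at hJ
  refine ⟨J, hJ.2, fun i => ?_⟩
  by_cases hi : i ∈ J
  · refine ⟨1, one_ne_zero, ?_⟩
    rw [one_smul]
    exact Submodule.subset_span ⟨i, hi, rfl⟩
  · have hd : ¬ LinearIndepOn R g ((insert i J : Finset (Fin n)) : Set (Fin n)) := by
      intro hc
      have h1 := hmax (insert i J) (by rw [Finset.mem_filter]; exact ⟨Finset.mem_univ _, hc⟩)
      rw [Finset.card_insert_of_notMem hi] at h1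
      omega
    rw [linearIndepOn_finset_iff] at hd
    push Not at hd
    obtain ⟨f, hf, k, hk, hfk⟩ := hd
    rw [Finset.sum_insert hi] at hf
    have hfi : f i ≠ 0 := by
      intro h0
      rw [h0, zero_smul, zero_add] at hf
      have h2 := (linearIndepOn_finset_iff.1 hJ.2) f hf
      rcases Finset.mem_insert.1 hk with rfl | hkJ
      · exact hfk h0
      · exact hfk (h2 k hkJ)
    refine ⟨f i, hfi, ?_⟩
    have h3 : f i • g i = -∑ j ∈ J, f j • g j := eq_neg_of_add_eq_zero_left hf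
    rw [h3]
    refine Submodule.neg_mem _ (Submodule.sum_mem _ fun j hj => Submodule.smul_mem _ _ ?_)
    exact Submodule.subset_span ⟨j, hj, rfl⟩

/-- The rank of a module with generators `g i` is the cardinality of a linearly independent
subfamily `J` such that every `g i` has a nonzero multiple in the span of `g j`, `j ∈ J`: let `S` be this
span, `Module.rank R S = J.card` (`rank_span`/`LinearIndependent`), `N ⧸ S` is a torsion module, so its rank is
zero (`rank_eq_zero_iff`), and `rank_quotient_add_rank_of_isDomain`. -/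
theorem rank_of_indep {R : Type u} [CommRing R] [IsDomain R] {N : Type v} [AddCommGroup N]
    [Module R N] {n : ℕ} (g : Fin n → N) (hg : Submodule.span R (Set.range g) = ⊤)
    (J : Finset (Fin n)) (hJ : LinearIndependent R (fun j : J => g j))
    (h : ∀ i, ∃ r : R, r ≠ 0 ∧ r • g i ∈ Submodule.span R (g '' (J : Set (Fin n)))) :
    Module.rank R N = J.card := by
  set S : Submodule R N := Submodule.span R (g '' (J : Set (Fin n))) with hS
  have hr : Set.range (fun j : J => g j) = g '' (J : Set (Fin n)) := by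
    ext x
    simp
  have h1 : Module.rank R S = J.card := by
    have h2 := rank_span hJ
    rw [hr] at h2
    have hinj : Set.InjOn g (J : Set (Fin n)) := by
      intro a ha b hb hab
      have h3 := hJ.injective (a₁ := ⟨a, ha⟩) (a₂ := ⟨b, hb⟩) hab
      exact congrArg Subtype.val h3
    rw [hS, h2, ← Set.cast_ncard (J.finite_toSet.image g), Set.ncard_image_of_injOn hinj,
      Set.ncard_coe_finset]
  have h2 : Module.rank R (N ⧸ S) = 0 := by
    rw [rank_eq_zero_iff]
    intro x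
    obtain ⟨y, rfl⟩ := Submodule.Quotient.mk_surjective S x
    have hy : y ∈ Submodule.span R (Set.range g) := by rw [hg]; exact Submodule.mem_top
    have h3 : ∃ a : R, a ≠ 0 ∧ a • y ∈ S := by
      induction hy using Submodule.span_induction with
      | mem x hx =>
        obtain ⟨i, rfl⟩ := hx
        exact h i
      | zero => exact ⟨1, one_ne_zero, by rw [smul_zero]; exact S.zero_mem⟩
      | add x z _ _ hx hz =>
        obtain ⟨a, ha, hax⟩ := hx
        obtain ⟨b, hb, hbz⟩ := hz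
        refine ⟨a * b, mul_ne_zero ha hb, ?_⟩
        rw [smul_add]
        refine S.add_mem ?_ ?_
        · rw [mul_comm, mul_smul]
          exact S.smul_mem b hax
        · rw [mul_smul]
          exact S.smul_mem a hbz
      | smul c x _ hx =>
        obtain ⟨a, ha, hax⟩ := hx
        refine ⟨a, ha, ?_⟩
        rw [smul_comm]
        exact S.smul_mem c hax
    obtain ⟨a, ha, hay⟩ := h3
    refine ⟨a, ha, ?_⟩
    rw [← Submodule.Quotient.mk_smul, Submodule.Quotient.mk_eq_zero]
    exact hay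
  have h3 := rank_quotient_add_rank_of_isDomain S
  rw [h2, zero_add, h1] at h3
  exact h3.symm

end Pool.Agent.DQ.M34
end

section

/-! # DQ, module HA2: commutative algebra of resolutions by matrices (definitions) -/

set_option autoImplicit false

open Matrix RingTheory.Sequence

universe u v w

namespace Pool.Agent.DQ

section act

variable {R : Type u} [CommRing R] {N : Type v} [AddCommGroup N] [Module R N] {p q r : ℕ}

/-- action of a matrix on column vectors with entries in a module -/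
def act (A : Matrix (Fin p) (Fin q) R) : (Fin q → N) →ₗ[R] (Fin p → N) where
  toFun w := fun i => ∑ j, A i j • w j
  map_add' w w' := by
    funext i
    simp [smul_add, Finset.sum_add_distrib]
  map_smul' a w := by
    funext i
    simp only [Pi.smul_apply, RingHom.id_apply, Finset.smul_sum]
    exact Finset.sum_congr rfl fun j _ => smul_comm _ _ _

theorem act_apply (A : Matrix (Fin p) (Fin q) R) (w : Fin q → N) (i : Fin p) :
    act A w i = ∑ j, A i j • w j := rfl

theorem act_eq_mulVec (A : Matrix (Fin p) (Fin q) R) (w : Fin q → R) : act A w = A *ᵥ w := by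
  funext i
  simp [act_apply, mulVec, dotProduct]

theorem act_mul (A : Matrix (Fin p) (Fin q) R) (B : Matrix (Fin q) (Fin r) R) (w : Fin r → N) :
    act (A * B) w = act A (act B w) := by
  funext i
  simp only [act_apply, Matrix.mul_apply, Finset.sum_smul, Finset.smul_sum, mul_smul]
  exact Finset.sum_comm

theorem act_add (A B : Matrix (Fin p) (Fin q) R) (w : Fin q → N) :
    act (A + B) w = act A w + act B w := by
  funext i
  simp [act_apply, add_smul, Finset.sum_add_distrib]

theorem act_smul (a : R) (A : Matrix (Fin p) (Fin q) R) (w : Fin q → N) :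
    act (a • A) w = a • act A w := by
  funext i
  simp [act_apply, Finset.smul_sum, mul_smul]

theorem act_one (w : Fin p → N) : act (1 : Matrix (Fin p) (Fin p) R) w = w := by
  funext i
  simp [act_apply, Matrix.one_apply]

theorem act_zero (w : Fin q → N) : act (0 : Matrix (Fin p) (Fin q) R) w = 0 := by
  funext i
  simp [act_apply]

theorem act_map {N' : Type w} [AddCommGroup N'] [Module R N'] (f : N →ₗ[R] N')
    (A : Matrix (Fin p) (Fin q) R) (w : Fin q → N) :
    act A (fun j => f (w j)) = fun i => f (act A w i) := by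
  funext i
  simp [act_apply, map_sum]

/-- exactness at the place `j` of the complex `Hom(R^{n ·}, N)` -/
def ExN {R : Type u} [CommRing R] (n : ℕ → ℕ) (B : ∀ k, Matrix (Fin (n (k + 1))) (Fin (n k)) R)
    (N : Type v) [AddCommGroup N] [Module R N] (j : ℕ) : Prop :=
  ∀ w : Fin (n (j + 1)) → N, act (B (j + 1)) w = 0 → ∃ u : Fin (n j) → N, act (B j) u = w

theorem exN_iff {n : ℕ → ℕ} {B : ∀ k, Matrix (Fin (n (k + 1))) (Fin (n k)) R} {j : ℕ} :
    ExN n B R j ↔ ∀ w, B (j + 1) *ᵥ w = 0 → ∃ u, B j *ᵥ u = w := by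
  simp [ExN, act_eq_mulVec]

end act

variable {R : Type u} [CommRing R]

/-- the annihilator of `Ext^j(M, R)`, where `B` is a resolution of `M` -/
def AnnExt (n : ℕ → ℕ) (B : ∀ k, Matrix (Fin (n (k + 1))) (Fin (n k)) R) (j : ℕ) : Ideal R where
  carrier := {a | ∀ w, B (j + 1) *ᵥ w = 0 → ∃ u, B j *ᵥ u = a • w}
  add_mem' := by
    intro a b ha hb w hw
    obtain ⟨u, hu⟩ := ha w hw
    obtain ⟨u', hu'⟩ := hb w hw
    exact ⟨u + u', by rw [mulVec_add, hu, hu', add_smul]⟩
  zero_mem' := fun w _ => ⟨0, by simp⟩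
  smul_mem' := by
    intro c a ha w hw
    obtain ⟨u, hu⟩ := ha w hw
    exact ⟨c • u, by rw [mulVec_smul, hu, smul_smul, smul_eq_mul]⟩

theorem mem_annExt {n : ℕ → ℕ} {B : ∀ k, Matrix (Fin (n (k + 1))) (Fin (n k)) R} {j : ℕ} {a : R} :
    a ∈ AnnExt n B j ↔ ∀ w, B (j + 1) *ᵥ w = 0 → ∃ u, B j *ᵥ u = a • w := Iff.rfl

/-- the grade of the ideal `I` is at least `d`: `I` contains a (weakly) regular sequence of
length `d` -/
def GradeGE (I : Ideal R) (d : ℕ) : Prop :=
  ∃ rs : List R, rs.length = d ∧ (∀ r ∈ rs, r ∈ I) ∧ IsWeaklyRegular R rs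

/-- the complex `B` is exact at the place `k` -/
def ExactAt (n : ℕ → ℕ) (B : ∀ k, Matrix (Fin (n (k + 1))) (Fin (n k)) R) (k : ℕ) : Prop :=
  ∀ v, v ᵥ* B k = 0 ↔ ∃ u, u ᵥ* B (k + 1) = v

theorem IsRes.exactAt {M : Type w} [AddCommGroup M] [Module R M] {n : ℕ → ℕ}
    {B : ∀ k, Matrix (Fin (n (k + 1))) (Fin (n k)) R} {ε : (Fin (n 1) → R) →ₗ[R] M}
    (h : IsRes n B ε) {k : ℕ} (hk : 1 ≤ k) : ExactAt n B k := h.exact k hk

/-- von Neumann regular matrices; for a complex `B` exact at the places `≥ k` the condition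
`VN (B k)` means that the complex splits at the places `≥ k` -/
def VN {p q : ℕ} (A : Matrix (Fin p) (Fin q) R) : Prop :=
  ∃ S : Matrix (Fin q) (Fin p) R, A * S * A = A

/-- `R` is local and `x_1, …, x_N` is a regular sequence which generates the maximal ideal -/
structure RegLoc (R : Type u) [CommRing R] [IsLocalRing R] (xs : List R) : Prop where
  span : IsLocalRing.maximalIdeal R = Ideal.ofList xs
  reg : IsWeaklyRegular R xs

end Pool.Agent.DQ
end

section

/-!
# DQ, module HA: the two properties of the regular local ring `S = 𝓞_x` used by HA1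
(to be proved in HA2 for noetherian local rings whose maximal ideal is generated by a regular
sequence)
-/

set_option autoImplicit false

universe v w u

namespace Pool.Agent.DQ

open Matrix

/-- the row complex `… → S^{n 3} → S^{n 2} → S^{n 1}` is exact (it is a resolution of its
cokernel); `n 0 = 0` -/
structure RowRes {S : Type u} [Ring S] (n : ℕ → ℕ)
    (B : ∀ k, Matrix (Fin (n (k + 1))) (Fin (n k)) S) : Prop where
  zero : n 0 = 0
  exact : ∀ k, 1 ≤ k → ∀ v, v ᵥ* B k = 0 ↔ ∃ u, u ᵥ* B (k + 1) = v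

/-- the column complex is exact at the `j`-th place (`Ext^j = 0`) -/
def ColEx {S : Type u} [Ring S] {n : ℕ → ℕ}
    (B : ∀ k, Matrix (Fin (n (k + 1))) (Fin (n k)) S) (j : ℕ) : Prop :=
  ∀ w, B (j + 1) *ᵥ w = 0 → ∃ u, B j *ᵥ u = w

/-- `grade Ann Ext^j(F, S) ≥ j`: a finite module `T` which is killed by powers of the elements of
the annihilator of `Ext^j(F, S)` has `Ext^i(T, S) = 0` for `i < j`. -/
def GradeAnn (S : Type u) [CommRing S] : Prop :=
  ∀ (n : ℕ → ℕ) (B : ∀ k, Matrix (Fin (n (k + 1))) (Fin (n k)) S), RowRes n B →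
  ∀ (j : ℕ) (T : Type u) [AddCommGroup T] [Module S T] [Module.Finite S T],
    (∀ a : S, (∀ w, B (j + 1) *ᵥ w = 0 → ∃ u, B j *ᵥ u = a • w) → ∃ k : ℕ, ∀ t : T, a ^ k • t = 0) →
    ∀ i < j, ExtZero S T i

/-- purity of `Ext^d(F, S)`, `grade F ≥ d`: no nonzero element of the cokernel of
`S^{n d} → S^{n (d+1)}` is killed by an ideal of grade `≥ d + 1`. -/
def PureExt (S : Type u) [CommRing S] : Prop :=
  ∀ (n : ℕ → ℕ) (B : ∀ k, Matrix (Fin (n (k + 1))) (Fin (n k)) S), RowRes n B →
  ∀ d : ℕ, (∀ j < d, ColEx B j) →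
  ∀ I : Ideal S, (∀ i ≤ d, ExtZero S (S ⧸ I) i) →
  ∀ x : Fin (n (d + 1)) → S, (∀ a ∈ I, ∃ u, B d *ᵥ u = a • x) → ∃ u, B d *ᵥ u = x

end Pool.Agent.DQ
end

section

/-! # DQ, module G, task GM3b: a direction in which a germ does not vanish -/

set_option autoImplicit false

open Set Filter Topology Module RingTheory.Sequence

universe u w

namespace Pool.Agent.DQ

variable {V : Type u} [NormedAddCommGroup V] [NormedSpace ℂ V] [FiniteDimensional ℂ V]
  {B : Type u} [NormedAddCommGroup B] [NormedSpace ℂ B] [FiniteDimensional ℂ B]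

/-- Coordinates of `B` in which a given nonzero germ does not vanish identically along the last coordinate axis.

Proof. Let `b = 0`-centred: since `gm α b ≠ 0`, `α` does not vanish identically near `b` (`gm_eq_iff`, `gm_zero`). There is a vector `ν ≠ 0` with `∃ᶠ s in 𝓝 0, α (b + s • ν) ≠ 0`: otherwise, with `r > 0` such that `α` is holomorphic on `ball b r`, for every `ν` with `‖ν‖ < r` the function
`s ↦ α (b + s • ν)` is analytic on the disc of radius `r / ‖ν‖ > 1` (connected) and vanishes near `0`, so it vanishes at `s = 1` (identity theorem, `AnalyticOnNhd.eqOn_zero_of_preconnected_of_eventuallyEq_zero`), so `α = 0` on `ball b r`. (If `B` has dimension `0`: `n' + 1 = 0` impossible; then the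
hypothesis `hB` excludes it.) Let `κ` be linear coordinates with `κ ν = Pi.single (last) 1` (extend `ν` to a basis whose last vector is `ν`). -/
theorem exists_coord_dir {n' : ℕ} (hB : finrank ℂ B = n' + 1) {α : B → ℂ} {b : B} (hα : HolAt α b)
    (h : (gm α b : OGerm b) ≠ 0) :
    ∃ κ : B ≃L[ℂ] (Fin (n' + 1) → ℂ),
      ∃ᶠ s in 𝓝 (0 : ℂ), α (b + s • κ.symm (Pi.single (Fin.last n') 1)) ≠ 0 := by
  have hnt : Nontrivial B := Module.nontrivial_of_finrank_pos (R := ℂ) (by omega)
  have hnz : ¬ ∀ᶠ y in 𝓝 b, α y = 0 := by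
    intro h1
    apply h
    have h2 : gm α b = gm (0 : B → ℂ) b := (gm_eq_iff hα (HolAt.const 0 b)).mpr h1
    rw [h2, gm_zero]
  obtain ⟨ν, hν, hfr⟩ : ∃ ν : B, ν ≠ 0 ∧ ∃ᶠ s in 𝓝 (0 : ℂ), α (b + s • ν) ≠ 0 := by
    by_contra hcon
    push Not at hcon
    have hcon' : ∀ ν : B, ν ≠ 0 → ∀ᶠ s in 𝓝 (0 : ℂ), α (b + s • ν) = 0 := hcon
    apply hnz
    obtain ⟨r, hr, hball⟩ := Metric.eventually_nhds_iff_ball.mp hα
    filter_upwards [Metric.ball_mem_nhds b hr] with y hy
    by_cases hyb : y = b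
    · obtain ⟨ν, hν⟩ := exists_ne (0 : B)
      have h1 := (hcon' ν hν).self_of_nhds
      rw [zero_smul, add_zero] at h1
      rw [hyb, h1]
    · set ν : B := y - b with hνd
      have hν : ν ≠ 0 := sub_ne_zero.mpr hyb
      have hn : 0 < ‖ν‖ := norm_pos_iff.mpr hν
      have hyr : ‖ν‖ < r := by
        rw [Metric.mem_ball, dist_eq_norm] at hy
        exact hy
      have hd : DifferentiableOn ℂ (fun s : ℂ => α (b + s • ν)) (Metric.ball 0 (r / ‖ν‖)) := by
        intro s hs
        rw [mem_ball_zero_iff, lt_div_iff₀ hn] at hs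
        have h2 : b + s • ν ∈ Metric.ball b r := by
          rw [Metric.mem_ball, dist_eq_norm, add_sub_cancel_left, norm_smul]
          exact hs
        have h3 : DifferentiableAt ℂ (fun s : ℂ => b + s • ν) s :=
          (differentiableAt_id.smul_const ν).const_add b
        exact (DifferentiableAt.comp s (hball _ h2) h3).differentiableWithinAt
      have han : AnalyticOnNhd ℂ (fun s : ℂ => α (b + s • ν)) (Metric.ball 0 (r / ‖ν‖)) :=
        hd.analyticOnNhd Metric.isOpen_ball
      have h0mem : (0 : ℂ) ∈ Metric.ball (0 : ℂ) (r / ‖ν‖) := Metric.mem_ball_self (div_pos hr hn)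
      have h1mem : (1 : ℂ) ∈ Metric.ball (0 : ℂ) (r / ‖ν‖) := by
        rw [mem_ball_zero_iff, norm_one, lt_div_iff₀ hn, one_mul]
        exact hyr
      have h4 := han.eqOn_zero_of_preconnected_of_eventuallyEq_zero
        (convex_ball _ _).isPreconnected h0mem (hcon' ν hν) h1mem
      simp only [one_smul, hνd, add_sub_cancel, Pi.zero_apply] at h4
      exact h4
  let κ₀ : B ≃L[ℂ] (Fin (n' + 1) → ℂ) := ContinuousLinearEquiv.ofFinrankEq (by simp [hB])
  have hw : κ₀.symm (Pi.single (Fin.last n') 1) ≠ 0 := by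
    rw [ne_eq, ContinuousLinearEquiv.map_eq_zero_iff]
    intro h1
    have h2 := congrFun h1 (Fin.last n')
    rw [Pi.single_eq_same, Pi.zero_apply] at h2
    exact one_ne_zero h2
  obtain ⟨A, hA⟩ := SeparatingDual.exists_continuousLinearEquiv_apply_eq (R := ℂ) hν hw
  refine ⟨A.trans κ₀, ?_⟩
  have h5 : (A.trans κ₀).symm (Pi.single (Fin.last n') 1) = ν := by
    rw [ContinuousLinearEquiv.symm_apply_eq, ContinuousLinearEquiv.trans_apply, hA,
      ContinuousLinearEquiv.apply_symm_apply]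
  rw [h5]
  exact hfr

end Pool.Agent.DQ
end

section

/-!
# Sheaves as families of germs in a chart (campaign DQ, module S)

For a sheaf `F : Sh X`, a partial homeomorphism `e : X → E` and an open set `D ≤ e.source`:
`ESt F e D z` is the stalk of `F` at `e.symm z` if `z ∈ e '' D` (and a one point group
otherwise) and `EAt F e D s z` says that the family of germs `s` is a section of `F` near `z`.
-/

set_option autoImplicit false

open TopologicalSpace Topology Filter Set

universe u v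

namespace Pool.Agent.DQ

variable {X : Type u} [TopologicalSpace X] {E : Type v} [TopologicalSpace E]

/-- stalks in the chart `e` -/
def ESt (F : Sh X) (e : OpenPartialHomeomorph X E) (D : Opens X) (z : E) : Type u :=
  ∀ _ : PLift (z ∈ e '' (D : Set X)), F.Stalk (e.symm z)

noncomputable instance (F : Sh X) (e : OpenPartialHomeomorph X E) (D : Opens X) (z : E) :
    AddCommGroup (ESt F e D z) :=
  inferInstanceAs (AddCommGroup (∀ _ : PLift (z ∈ e '' (D : Set X)), F.Stalk (e.symm z)))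

/-- the family of germs `s` is a section near `z` -/
def EAt (F : Sh X) (e : OpenPartialHomeomorph X E) (D : Opens X) (s : ∀ z, ESt F e D z) (z : E) :
    Prop :=
  z ∈ e '' (D : Set X) ∧ ∃ (U : Opens X) (a : F.sec U), U ≤ D ∧ e.symm z ∈ U ∧
    ∀ w (h : w ∈ e '' (D : Set X)) (hU : e.symm w ∈ U), s w ⟨h⟩ = F.germ (e.symm w) U hU a

section

variable (e : OpenPartialHomeomorph X E) {D : Opens X} (hD : (D : Set X) ⊆ e.source)
include hD

theorem mem_image_iff {U : Opens X} (hU : U ≤ D) {z : E} :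
    z ∈ e '' (U : Set X) ↔ z ∈ e.target ∧ e.symm z ∈ U := by
  constructor
  · rintro ⟨x, hx, rfl⟩
    exact ⟨e.map_source (hD (hU hx)), by rw [e.left_inv (hD (hU hx))]; exact hx⟩
  · rintro ⟨h1, h2⟩
    exact ⟨_, h2, e.right_inv h1⟩

theorem symm_mem {U : Opens X} (hU : U ≤ D) {z : E} (hz : z ∈ e '' (U : Set X)) :
    e.symm z ∈ U := ((mem_image_iff e hD hU).1 hz).2

theorem isOpen_image {U : Opens X} (hU : U ≤ D) : IsOpen (e '' (U : Set X)) :=
  e.isOpen_image_of_subset_source U.2 (fun _ h => hD (hU h))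

/-- near `z ∈ e '' D` the points of a neighbourhood `N` of `z` come from a small open set -/
theorem exists_small {z : E} (hz : z ∈ e '' (D : Set X)) {N : Set E} (hN : N ∈ 𝓝 z)
    {U : Opens X} (hU : e.symm z ∈ U) :
    ∃ W : Opens X, W ≤ D ∧ W ≤ U ∧ e.symm z ∈ W ∧ ∀ w, w ∈ e.target → e.symm w ∈ W → w ∈ N := by
  obtain ⟨N', hN'N, hN'o, hzN'⟩ := mem_nhds_iff.1 hN
  have hz' := symm_mem e hD le_rfl hz
  have ho : IsOpen (e.source ∩ e ⁻¹' N') := e.isOpen_inter_preimage hN'o
  refine ⟨⟨(e.source ∩ e ⁻¹' N') ∩ ((U : Set X) ∩ D), ho.inter (U.2.inter D.2)⟩,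
    fun x hx => hx.2.2, fun x hx => hx.2.1, ?_, ?_⟩
  · obtain ⟨x, hx, rfl⟩ := hz
    refine ⟨⟨?_, ?_⟩, hU, hz'⟩
    · rw [e.left_inv (hD hx)]
      exact hD hx
    · rw [mem_preimage, e.left_inv (hD hx)]
      exact hzN'
  · intro w hw hwW
    have : e (e.symm w) ∈ N' := hwW.1.2
    rw [e.right_inv hw] at this
    exact hN'N this

theorem eventually_of_open {z : E} (hz : z ∈ e '' (D : Set X)) {U : Opens X} (hU : U ≤ D)
    (hzU : e.symm z ∈ U) : ∀ᶠ w in 𝓝 z, w ∈ e '' (U : Set X) := by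
  have h1 : z ∈ e '' (U : Set X) := (mem_image_iff e hD hU).2
    ⟨((mem_image_iff e hD le_rfl).1 hz).1, hzU⟩
  exact (isOpen_image e hD hU).mem_nhds h1

end

variable {F : Sh X} {e : OpenPartialHomeomorph X E} {D : Opens X}

theorem EAt.mem {s : ∀ z, ESt F e D z} {z : E} (h : EAt F e D s z) : z ∈ e '' (D : Set X) := h.1

theorem EAt.ev (hD : (D : Set X) ⊆ e.source) {s : ∀ z, ESt F e D z} {z : E}
    (h : EAt F e D s z) : ∀ᶠ y in 𝓝 z, EAt F e D s y := by
  obtain ⟨hz, U, a, hU, hzU, h⟩ := h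
  filter_upwards [eventually_of_open e hD hz hU hzU] with y hy
  exact ⟨image_mono (by exact hU) hy, U, a, hU, symm_mem e hD hU hy, h⟩

theorem EAt.congr (hD : (D : Set X) ⊆ e.source) {s t : ∀ z, ESt F e D z} {z : E}
    (h : EAt F e D s z) (h' : ∀ᶠ y in 𝓝 z, s y = t y) : EAt F e D t z := by
  obtain ⟨hz, U, a, hU, hzU, h⟩ := h
  obtain ⟨W, hWD, hWU, hzW, hW⟩ := exists_small e hD hz h' hzU
  refine ⟨hz, W, F.res hWU a, hWD, hzW, fun w hw hwW => ?_⟩
  have h1 : s w = t w := hW w ((mem_image_iff e hD le_rfl).1 hw).1 hwW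
  rw [← h1, h w hw (hWU hwW), F.germ_res]

theorem EAt.inj (hD : (D : Set X) ⊆ e.source) {s t : ∀ z, ESt F e D z} {z : E}
    (h : EAt F e D s z) (h' : EAt F e D t z) (e' : s z = t z) : ∀ᶠ y in 𝓝 z, s y = t y := by
  obtain ⟨hz, U, a, hU, hzU, h⟩ := h
  obtain ⟨-, U', a', hU', hzU', h'⟩ := h'
  have e1 := congrFun e' ⟨hz⟩
  rw [h z hz hzU, h' z hz hzU'] at e1
  obtain ⟨W, hW, hW', hzW, e2⟩ := (F.germ_eq_iff _ _ _ _ _).1 e1
  filter_upwards [eventually_of_open e hD hz (hW.trans hU) hzW] with y hy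
  funext ⟨h0⟩
  have hyW := symm_mem e hD (hW.trans hU) hy
  rw [h y h0 (hW hyW), h' y h0 (hW' hyW), ← F.germ_res _ hW hyW, ← F.germ_res _ hW' hyW, e2]

open Classical in
theorem EAt.surj (hD : (D : Set X) ⊆ e.source) {z : E} (hz : z ∈ e '' (D : Set X))
    (g : ESt F e D z) : ∃ s : ∀ z, ESt F e D z, EAt F e D s z ∧ s z = g := by
  obtain ⟨U, hzU, a, ha⟩ := F.exists_germ _ (g ⟨hz⟩)
  refine ⟨fun w _ => if hw : e.symm w ∈ U ⊓ D then
    F.germ (e.symm w) (U ⊓ D) hw (F.res inf_le_left a) else 0, ?_, ?_⟩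
  · refine ⟨hz, U ⊓ D, F.res inf_le_left a, inf_le_right, ⟨hzU, symm_mem e hD le_rfl hz⟩, ?_⟩
    intro w hw hwU
    exact dif_pos hwU
  · funext ⟨h⟩
    have h1 : e.symm z ∈ U ⊓ D := ⟨hzU, symm_mem e hD le_rfl hz⟩
    have h2 : (if hw : e.symm z ∈ U ⊓ D then
        F.germ (e.symm z) (U ⊓ D) hw (F.res inf_le_left a) else 0) = g ⟨hz⟩ := by
      rw [dif_pos h1, F.germ_res, ha]
    exact h2

theorem EAt.zero (hD : (D : Set X) ⊆ e.source) {z : E} (hz : z ∈ e '' (D : Set X)) :
    EAt F e D (0 : ∀ z, ESt F e D z) z :=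
  ⟨hz, D, 0, le_rfl, symm_mem e hD le_rfl hz, fun w _ hU => (F.germ_zero (e.symm w) hU).symm⟩

/-- two sections near `z` are given by sections over the same open set -/
theorem EAt.both {G : Sh X} {D' : Opens X} {s : ∀ z, ESt F e D z} {t : ∀ z, ESt G e D' z}
    {z : E} (h : EAt F e D s z) (h' : EAt G e D' t z) :
    ∃ (U : Opens X) (a : F.sec U) (b : G.sec U), U ≤ D ∧ U ≤ D' ∧ e.symm z ∈ U ∧
      (∀ w (h : w ∈ e '' (D : Set X)) (hU : e.symm w ∈ U), s w ⟨h⟩ = F.germ (e.symm w) U hU a) ∧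
      ∀ w (h : w ∈ e '' (D' : Set X)) (hU : e.symm w ∈ U),
        t w ⟨h⟩ = G.germ (e.symm w) U hU b := by
  obtain ⟨hz, U, a, hU, hzU, h⟩ := h
  obtain ⟨-, U', a', hU', hzU', h'⟩ := h'
  refine ⟨U ⊓ U', F.res inf_le_left a, G.res inf_le_right a', inf_le_left.trans hU,
    inf_le_right.trans hU', ⟨hzU, hzU'⟩, fun w hw hwU => ?_, fun w hw hwU => ?_⟩
  · rw [h w hw hwU.1, F.germ_res]
  · rw [h' w hw hwU.2, G.germ_res]

theorem EAt.add {s t : ∀ z, ESt F e D z} {z : E} (h : EAt F e D s z) (h' : EAt F e D t z) :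
    EAt F e D (s + t) z := by
  obtain ⟨U, a, b, hU, -, hzU, h1, h2⟩ := h.both h'
  refine ⟨h.mem, U, a + b, hU, hzU, fun w hw hwU => ?_⟩
  rw [F.germ_add, ← h1 w hw hwU, ← h2 w hw hwU]
  rfl

theorem EAt.neg {s : ∀ z, ESt F e D z} {z : E} (h : EAt F e D s z) : EAt F e D (-s) z := by
  obtain ⟨hz, U, a, hU, hzU, h⟩ := h
  refine ⟨hz, U, -a, hU, hzU, fun w hw hwU => ?_⟩
  rw [F.germ_neg, ← h w hw hwU]
  rfl

/-! ### Gluing -/

/-- sections with the same germs are equal -/
theorem Sh.sec_ext (F : Sh X) {U : Opens X} {a b : F.sec U}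
    (h : ∀ x (hx : x ∈ U), F.germ x U hx a = F.germ x U hx b) : a = b := by
  apply F.eq_of_locally
  intro x hx
  obtain ⟨W, h1, h2, hxW, e⟩ := (F.germ_eq_iff x hx hx a b).1 (h x hx)
  exact ⟨W, h1, hxW, e⟩

/-- a family of germs which is locally given by sections is given by a section -/
theorem Sh.exists_sec (F : Sh X) {U : Opens X} (s : ∀ x, x ∈ U → F.Stalk x)
    (h : ∀ x ∈ U, ∃ (W : Opens X) (a : F.sec W), x ∈ W ∧
      ∀ y (hy : y ∈ U) (hyW : y ∈ W), s y hy = F.germ y W hyW a) :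
    ∃ a : F.sec U, ∀ x (hx : x ∈ U), s x hx = F.germ x U hx a := by
  choose! W a hxW ha using h
  obtain ⟨t, ht⟩ := F.glue U (fun x : U => W x.1 ⊓ U) (fun x => inf_le_right)
    (fun x hx => ⟨⟨x, hx⟩, hxW x hx, hx⟩) (fun x => F.res inf_le_left (a x.1)) (by
    intro x y
    apply F.sec_ext
    intro z hz
    rw [F.res_res, F.res_res, F.germ_res, F.germ_res, ← ha x.1 x.2 z hz.1.2 hz.1.1,
      ← ha y.1 y.2 z hz.1.2 hz.2.1])
  refine ⟨t, fun x hx => ?_⟩
  have h1 : x ∈ W x ⊓ U := ⟨hxW x hx, hx⟩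
  rw [ha x hx x hx (hxW x hx)]
  exact ((F.germ_res x inf_le_left h1 (a x)).symm.trans
    (congrArg (F.germ x (W x ⊓ U) h1) (ht ⟨x, hx⟩).symm)).trans (F.germ_res x inf_le_right h1 t)

/-- a family of germs which is a section near every point of `e '' U` comes from a section over
`U` -/
theorem EAt.glue (hD : (D : Set X) ⊆ e.source) {U : Opens X} (hU : U ≤ D)
    {s : ∀ z, ESt F e D z} (h : ∀ z ∈ e '' (U : Set X), EAt F e D s z) :
    ∃ a : F.sec U, ∀ w (hw : w ∈ e '' (D : Set X)) (hwU : e.symm w ∈ U),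
      s w ⟨hw⟩ = F.germ (e.symm w) U hwU a := by
  have hsrc : ∀ x ∈ U, ∃ w, w ∈ e '' (U : Set X) ∧ e.symm w = x := fun x hx =>
    ⟨e x, mem_image_of_mem _ hx, e.left_inv (hD (hU hx))⟩
  have h' : ∀ x : U, ∃ (W : Opens X) (a : F.sec W), x.1 ∈ W ∧
      ∀ w (hw : w ∈ e '' (D : Set X)) (hwW : e.symm w ∈ W),
        s w ⟨hw⟩ = F.germ (e.symm w) W hwW a := by
    rintro ⟨x, hx⟩
    obtain ⟨w, hw, rfl⟩ := hsrc x hx
    obtain ⟨-, W, a, -, hxW, h2⟩ := h w hw
    exact ⟨W, a, hxW, h2⟩
  choose W a hxW ha using h'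
  obtain ⟨t, ht⟩ := F.glue U (fun x : U => W x ⊓ U) (fun x => inf_le_right)
    (fun x hx => ⟨⟨x, hx⟩, hxW ⟨x, hx⟩, hx⟩) (fun x => F.res inf_le_left (a x)) (by
    intro x y
    apply F.sec_ext
    intro z hz
    obtain ⟨w, hw, rfl⟩ := hsrc z hz.1.2
    rw [F.res_res, F.res_res, F.germ_res, F.germ_res,
      ← ha x w (image_mono (by exact hU) hw) hz.1.1, ← ha y w (image_mono (by exact hU) hw) hz.2.1])
  refine ⟨t, fun w hw hwU => ?_⟩
  have h1 : e.symm w ∈ W ⟨e.symm w, hwU⟩ ⊓ U := ⟨hxW _, hwU⟩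
  rw [ha ⟨e.symm w, hwU⟩ w hw (hxW _)]
  exact ((F.germ_res _ inf_le_left h1 (a _)).symm.trans
    (congrArg (F.germ _ (W _ ⊓ U) h1) (ht ⟨_, hwU⟩).symm)).trans (F.germ_res _ inf_le_right h1 t)

/-! ### The family of germs of a section -/

open Classical in
/-- the family of germs of a section over `U` -/
noncomputable def ffam (F : Sh X) (e : OpenPartialHomeomorph X E) (D U : Opens X) (a : F.sec U) :
    ∀ z, ESt F e D z :=
  fun z _ => if hw : e.symm z ∈ U then F.germ (e.symm z) U hw a else 0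

theorem ffam_apply {U : Opens X} (a : F.sec U) {z : E}
    (h : z ∈ e '' (D : Set X)) (hw : e.symm z ∈ U) :
    ffam F e D U a z ⟨h⟩ = F.germ (e.symm z) U hw a := dif_pos hw

section

variable (hD : (D : Set X) ⊆ e.source)
include hD

theorem mem_of_mem {U : Opens X} (hU : U ≤ D) {z : E}
    (hz : z ∈ e '' (D : Set X)) (h : e.symm z ∈ U) : z ∈ e '' (U : Set X) :=
  (mem_image_iff e hD hU).2 ⟨((mem_image_iff e hD le_rfl).1 hz).1, h⟩

theorem ffam_at {U : Opens X} (hU : U ≤ D) (a : F.sec U) {z : E}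
    (hz : z ∈ e '' (U : Set X)) : EAt F e D (ffam F e D U a) z :=
  ⟨image_mono (by exact hU) hz, U, a, hU, symm_mem e hD hU hz,
    fun _ hw hwU => ffam_apply a hw hwU⟩

theorem EAt.exists_ffam {s : ∀ z, ESt F e D z} {z : E} (h : EAt F e D s z) :
    ∃ (U : Opens X) (a : F.sec U), U ≤ D ∧ z ∈ e '' (U : Set X) ∧
      ∀ w ∈ e '' (U : Set X), s w = ffam F e D U a w := by
  obtain ⟨hz, U, a, hU, hzU, h⟩ := h
  refine ⟨U, a, hU, mem_of_mem hD hU hz hzU, fun w hw => ?_⟩
  have hwU := symm_mem e hD hU hw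
  funext ⟨h0⟩
  rw [ffam_apply a h0 hwU]
  exact h w h0 hwU

/-- every germ is the germ of a section -/
theorem exists_ffam {z : E} (hz : z ∈ e '' (D : Set X)) (g : ESt F e D z) :
    ∃ (U : Opens X) (a : F.sec U), U ≤ D ∧ z ∈ e '' (U : Set X) ∧
      g = ffam F e D U a z := by
  obtain ⟨s, hs, rfl⟩ := EAt.surj (F := F) hD hz g
  obtain ⟨U, a, hU, hzU, h⟩ := hs.exists_ffam hD
  exact ⟨U, a, hU, hzU, h z hzU⟩

theorem ffam_eq_iff {U U' : Opens X} (hU : U ≤ D) (hU' : U' ≤ D) (a : F.sec U)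
    (b : F.sec U') {z : E} (hz : z ∈ e '' (U : Set X))
    (hz' : z ∈ e '' (U' : Set X)) :
    ffam F e D U a z = ffam F e D U' b z ↔ ∃ (W : Opens X) (h : W ≤ U) (h' : W ≤ U'),
      z ∈ e '' (W : Set X) ∧ F.res h a = F.res h' b := by
  have hz0 : z ∈ e '' (D : Set X) := image_mono (by exact hU) hz
  have h1 := symm_mem e hD hU hz
  have h2 := symm_mem e hD hU' hz'
  constructor
  · intro e1
    have e1 := congrFun e1 ⟨hz0⟩
    rw [ffam_apply a hz0 h1, ffam_apply b hz0 h2] at e1
    obtain ⟨W, h, h', hW, e2⟩ := (F.germ_eq_iff _ _ _ _ _).1 e1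
    exact ⟨W, h, h', mem_of_mem hD (h.trans hU) hz0 hW, e2⟩
  · rintro ⟨W, h, h', hW, e1⟩
    funext ⟨h0⟩
    rw [ffam_apply a h0 h1, ffam_apply b h0 h2]
    exact (F.germ_eq_iff _ _ _ _ _).2
      ⟨W, h, h', symm_mem e hD (h.trans hU) hW, e1⟩

theorem ffam_res {U W : Opens X} (h : W ≤ U) (hU : U ≤ D) (a : F.sec U)
    {z : E} (hz : z ∈ e '' (W : Set X)) :
    ffam F e D W (F.res h a) z = ffam F e D U a z :=
  (ffam_eq_iff hD (h.trans hU) hU _ _ hz (image_mono (by exact h) hz)).2
    ⟨W, le_rfl, h, hz, by rw [Sh.res_id]⟩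

theorem ffam_add {U : Opens X} (hU : U ≤ D) (a b : F.sec U) {z : E}
    (hz : z ∈ e '' (U : Set X)) :
    ffam F e D U (a + b) z = ffam F e D U a z + ffam F e D U b z := by
  have h1 := symm_mem e hD hU hz
  funext ⟨h0⟩
  have : (ffam F e D U a z + ffam F e D U b z) ⟨h0⟩ =
    ffam F e D U a z ⟨h0⟩ + ffam F e D U b z ⟨h0⟩ := rfl
  rw [this, ffam_apply _ h0 h1, ffam_apply _ h0 h1, ffam_apply _ h0 h1, F.germ_add]

theorem ffam_zero {U : Opens X} (hU : U ≤ D) {z : E}
    (hz : z ∈ e '' (U : Set X)) : ffam F e D U (0 : F.sec U) z = 0 := by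
  have h1 := symm_mem e hD hU hz
  funext ⟨h0⟩
  have : (0 : ESt F e D z) ⟨h0⟩ = 0 := rfl
  rw [this, ffam_apply _ h0 h1, F.germ_zero]

theorem ffam_sum {U : Opens X} (hU : U ≤ D) {ι : Type*} (s : Finset ι)
    (a : ι → F.sec U) {z : E} (hz : z ∈ e '' (U : Set X)) :
    ffam F e D U (∑ i ∈ s, a i) z = ∑ i ∈ s, ffam F e D U (a i) z := by
  classical
  induction s using Finset.induction_on with
  | empty => simp [ffam_zero hD hU hz]
  | insert i s hi ih => rw [Finset.sum_insert hi, Finset.sum_insert hi, ffam_add hD hU _ _ hz, ih]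

/-- sections are determined by their families of germs -/
theorem sec_ext_ffam {U : Opens X} (hU : U ≤ D) {a b : F.sec U}
    (h : ∀ z ∈ e '' (U : Set X), ffam F e D U a z = ffam F e D U b z) : a = b := by
  apply F.sec_ext
  intro x hx
  have hz : e x ∈ e '' (U : Set X) := mem_image_of_mem _ hx
  obtain ⟨W, h1, h2, hW, e1⟩ := (ffam_eq_iff hD hU hU a b hz hz).1 (h _ hz)
  have hxW : x ∈ W := by
    have := symm_mem e hD (h1.trans hU) hW
    rwa [e.left_inv (hD (hU hx))] at this
  exact (F.germ_eq_iff _ _ _ _ _).2 ⟨W, h1, h2, hxW, e1⟩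

/-- a family of germs which is a section near every point of `e '' U` is the family of germs of
a section over `U` -/
theorem EAt.glue' {U : Opens X} (hU : U ≤ D)
    {s : ∀ z, ESt F e D z} (h : ∀ z ∈ e '' (U : Set X), EAt F e D s z) :
    ∃ a : F.sec U, ∀ w ∈ e '' (U : Set X), s w = ffam F e D U a w := by
  obtain ⟨a, ha⟩ := EAt.glue hD hU h
  refine ⟨a, fun w hw => ?_⟩
  have hwU := symm_mem e hD hU hw
  funext ⟨h0⟩
  rw [ffam_apply a h0 hwU]
  exact ha w h0 hwU

/-- finitely many sections near `z` are given by sections over a common small open set -/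
theorem EAt.common {ι : Type*} [Finite ι] {s : ι → ∀ z, ESt F e D z} {z : E}
    (h : ∀ l, EAt F e D (s l) z) {U : Opens X} (hU : U ≤ D) (hz : z ∈ e '' (U : Set X))
    {N : Set E} (hN : N ∈ 𝓝 z) :
    ∃ (Z : Opens X) (_ : Z ≤ U) (b : ι → F.sec Z), z ∈ e '' (Z : Set X) ∧
      e '' (Z : Set X) ⊆ N ∧ ∀ l, ∀ w ∈ e '' (Z : Set X), s l w = ffam F e D Z (b l) w := by
  have h1 : ∀ᶠ w in 𝓝 z, (∀ l, EAt F e D (s l) w) ∧ w ∈ N :=
    (eventually_all.2 fun l => (h l).ev hD).and hN
  obtain ⟨W, hWD, hWU, hzW, hW⟩ := exists_small e hD (image_mono (by exact hU) hz) h1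
    (symm_mem e hD hU hz)
  have hW' : ∀ w ∈ e '' (W : Set X), (∀ l, EAt F e D (s l) w) ∧ w ∈ N := fun w hw =>
    have h2 := (mem_image_iff e hD hWD).1 hw
    hW w h2.1 h2.2
  have h3 := fun l => EAt.glue' hD hWD (s := s l) (fun w hw => (hW' w hw).1 l)
  choose b hb using h3
  exact ⟨W, hWU, b, mem_of_mem hD hWD (image_mono (by exact hU) hz) hzW,
    fun w hw => (hW' w hw).2, hb⟩

end

end Pool.Agent.DQ
end
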