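import Mathlib
import Pool.Agent.DQ.Mg_MP_4aa2a9_ag.G001
import Pool.Agent.Lib.MP_4aa2a9_ag.Mg.G002
import Pool.Agent.Lib.MP_4aa2a9_ag.Mg.G005
import Pool.Agent.Lib.MP_4aa2a9_ag.Mg.G001
import Pool.Agent.Lib.MP_4aa2a9_ag.Mg.G011

section

/-!
# Laurent algebras of annuli: uniqueness, multiplicativity, realisation of holomorphic families
-/

set_option autoImplicit false
set_option linter.unusedSectionVars false
set_option linter.unusedVariables false
set_option linter.style.haveILetI false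

open Filter Topology Set Metric MeasureTheory

namespace DQ.F

section uniq

variable {F : Type*} [NormedAddCommGroup F] [NormedSpace ℂ F] [CompleteSpace F]
  {r R : ℝ} [hr : Fact (0 < r)] [hR : Fact (0 < R)]

/-- the Laurent coefficients of the values are the coefficients -/
theorem lc_ev (a : Beur (wt r R) F) {ρ : ℝ} (h1 : r ≤ ρ) (h2 : ρ ≤ R) (k : ℤ) :
    lc (fun z => ev z a) ρ k = a.coef k := by
  have hρ : 0 < ρ := hr.out.trans_le h1
  have hpi : (2 * Real.pi * Complex.I : ℂ) ≠ 0 := by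
    simp [Real.pi_ne_zero]
  have hcm : ∀ θ : ℝ, ‖circleMap 0 ρ θ‖ = ρ := by
    intro θ
    simp [circleMap, abs_of_pos hρ]
  have hw : ∀ j : ℤ, ρ ^ j ≤ wt r R j := by
    intro j
    have := norm_zpow_le_wt (R := R) hr.out (z := (ρ : ℂ)) (by simpa [abs_of_pos hρ] using h1)
      (by simpa [abs_of_pos hρ] using h2) j
    rwa [norm_zpow, Complex.norm_real, Real.norm_of_nonneg hρ.le] at this
  have key : HasSum (fun j : ℤ => ∮ z in C(0, ρ), z ^ (-k - 1) • z ^ j • a.coef j)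
      (∮ z in C(0, ρ), z ^ (-k - 1) • ev z a) := by
    refine intervalIntegral.hasSum_integral_of_dominated_convergence
      (fun j θ => ρ * ρ ^ (-k - 1) * (wt r R j * ‖a.coef j‖)) (fun j => ?_) (fun j => ?_) ?_ ?_ ?_
    · refine Continuous.aestronglyMeasurable ?_
      have hc : Continuous fun θ : ℝ => circleMap 0 ρ θ := continuous_circleMap 0 ρ
      have hne : ∀ θ : ℝ, circleMap 0 ρ θ ≠ 0 := fun θ => by
        rw [← norm_pos_iff, hcm]
        exact hρ
      have hz : ∀ m : ℤ, Continuous fun θ : ℝ => circleMap 0 ρ θ ^ m := fun m =>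
        hc.zpow₀ m fun θ => Or.inl (hne θ)
      have hd : Continuous fun θ : ℝ => deriv (circleMap 0 ρ) θ := by
        simp only [deriv_circleMap]
        exact hc.mul continuous_const
      exact hd.smul ((hz _).smul ((hz _).smul continuous_const))
    · refine Eventually.of_forall fun θ _ => ?_
      have e1 : ‖deriv (circleMap 0 ρ) θ‖ = ρ := by
        rw [deriv_circleMap, norm_mul, hcm, Complex.norm_I, mul_one]
      rw [norm_smul, norm_smul, norm_smul, e1, norm_zpow, norm_zpow, hcm, mul_assoc]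
      have := hw j
      have h3 : 0 ≤ ρ ^ (-k - 1) := zpow_nonneg hρ.le _
      gcongr
    · exact Eventually.of_forall fun _ _ => a.summ.mul_left _
    · exact intervalIntegrable_const
    · refine Eventually.of_forall fun θ _ => HasSum.const_smul _ (HasSum.const_smul _ ?_)
      exact hasSum_ev (by rw [hcm]; exact h1) (by rw [hcm]; exact h2) a
  have hterm : ∀ j : ℤ, (∮ z in C(0, ρ), z ^ (-k - 1) • z ^ j • a.coef j) =
      if j = k then (2 * Real.pi * Complex.I : ℂ) • a.coef k else 0 := by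
    intro j
    have e : (∮ z in C(0, ρ), z ^ (-k - 1) • z ^ j • a.coef j) =
        ∮ z in C(0, ρ), (z - 0) ^ (j - k - 1) • a.coef j := by
      refine circleIntegral.integral_congr hρ.le fun z hz => ?_
      rw [mem_sphere_zero_iff_norm] at hz
      have hz0 : z ≠ 0 := norm_pos_iff.mp (hρ.trans_eq hz.symm)
      change z ^ (-k - 1) • z ^ j • a.coef j = (z - 0) ^ (j - k - 1) • a.coef j
      rw [smul_smul, ← zpow_add₀ hz0, sub_zero]
      congr 2
      ring
    rw [e, circleIntegral.integral_smul_const]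
    split_ifs with hj
    · subst hj
      have h3 : (∮ z in C(0, ρ), (z - 0) ^ (j - j - 1)) = ∮ z in C(0, ρ), (z - 0)⁻¹ := by
        refine circleIntegral.integral_congr hρ.le fun z _ => ?_
        rw [sub_self, zero_sub, zpow_neg_one]
      rw [h3, circleIntegral.integral_sub_inv_of_mem_ball (mem_ball_self hρ)]
    · rw [circleIntegral.integral_sub_zpow_of_ne (by omega), zero_smul]
  have h3 : HasSum (fun j : ℤ => if j = k then (2 * Real.pi * Complex.I : ℂ) • a.coef k else 0)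
      ((2 * Real.pi * Complex.I : ℂ) • a.coef k) := by
    convert hasSum_single (f := fun j : ℤ => if j = k then (2 * Real.pi * Complex.I : ℂ) • a.coef k else 0)
      k ?_ using 1
    · rw [if_pos rfl]
    · intro j hj
      rw [if_neg hj]
  simp only [hterm] at key
  rw [lc, key.unique h3, inv_smul_smul₀ hpi]

/-- an element is determined by its values on one circle -/
theorem ev_inj {a b : Beur (wt r R) F} {ρ : ℝ} (h1 : r ≤ ρ) (h2 : ρ ≤ R)
    (h : ∀ z : ℂ, ‖z‖ = ρ → ev z a = ev z b) : a = b := by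
  apply Beur.ext
  funext k
  rw [← lc_ev a h1 h2, ← lc_ev b h1 h2, lc, lc]
  congr 1
  refine circleIntegral.integral_congr (hr.out.le.trans h1) fun z hz => ?_
  rw [mem_sphere_zero_iff_norm] at hz
  rw [h z hz]

/-- the value at `z` of an element with no negative part -/
theorem ev_eq_evp {a : Beur (wt r R) F} (ha : Pm a = 0) (z : ℂ) : ev z a = evp z a := by
  rw [ev_eq, ha, map_zero, zero_add, sub_zero]

theorem ev_eq_evm {a : Beur (wt r R) F} (ha : Pm a = a) (z : ℂ) : ev z a = evm z a := by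
  rw [ev_eq, ha, sub_self, map_zero, add_zero]

/-- the Laurent series of the values is the element itself, for elements with a larger domain -/
theorem laur_ev {a' b' : ℝ} [Fact (0 < a')] [Fact (0 < b')] (h1 : a' < r) (hrR : r ≤ R) (h2 : R < b')
    (x : Beur (wt a' b') F) : ∀ k, (laur r R fun z => ev z x).coef k = x.coef k := by
  intro k
  have ha' : 0 < a' := Fact.out
  obtain ⟨s, hs1, hs2⟩ := exists_between h1
  obtain ⟨t, ht1, ht2⟩ := exists_between h2
  have hs0 : 0 < s := ha'.trans hs1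
  have hab : a' ≤ b' := (h1.trans_le hrR).le.trans h2.le
  have hd : ∀ z : ℂ, s ≤ ‖z‖ → ‖z‖ ≤ t → DifferentiableAt ℂ (fun z => ev z x) z := by
    intro z h3 h4
    have hopen : IsOpen {z : ℂ | a' < ‖z‖ ∧ ‖z‖ < b'} :=
      (isOpen_lt continuous_const continuous_norm).inter (isOpen_lt continuous_norm continuous_const)
    have h5 : DifferentiableOn ℂ (fun z : ℂ => ev z x) {z : ℂ | a' < ‖z‖ ∧ ‖z‖ < b'} := by
      have h6 := differentiableOn_ev_apply (E := ℂ) hab (b := fun _ => x) (U := univ)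
        (differentiableOn_const x)
      exact h6.comp (f := fun z : ℂ => ((0, z) : ℂ × ℂ)) (by fun_prop) fun z hz => ⟨mem_univ _, hz⟩
    exact h5.differentiableAt (hopen.mem_nhds ⟨hs1.trans_le h3, h4.trans_lt ht2⟩)
  rw [coef_laur hs0 hs2 hrR ht1 hd, lc_ev x (h1.le.trans hrR) h2.le]

end uniq

section mult

variable {C0 : Type*} [NormedRing C0] [NormedAlgebra ℂ C0] [CompleteSpace C0]
  {r R : ℝ} [hr : Fact (0 < r)] [hR : Fact (0 < R)]

theorem ev_mul {z : ℂ} (h1 : r ≤ ‖z‖) (h2 : ‖z‖ ≤ R) (a b : Beur (wt r R) C0) :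
    ev z (a * b) = ev z a * ev z b := by
  have hz0 : z ≠ 0 := norm_pos_iff.mp (hr.out.trans_le h1)
  rw [ev_apply h1 h2, ev_apply h1 h2, ev_apply h1 h2]
  exact Beur.eval_mul (norm_zpow_le_wt hr.out h1 h2) (fun g h => zpow_add₀ hz0 g h) a b

theorem ev_one {z : ℂ} (h1 : r ≤ ‖z‖) (h2 : ‖z‖ ≤ R) : ev z (1 : Beur (wt r R) C0) = 1 := by
  rw [ev_apply h1 h2]
  exact Beur.eval_one (zpow_zero z)

/-- evaluation as a ring homomorphism -/
noncomputable def evR {z : ℂ} (h1 : r ≤ ‖z‖) (h2 : ‖z‖ ≤ R) : Beur (wt r R) C0 →+* C0 where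
  toFun a := ev z a
  map_one' := ev_one h1 h2
  map_mul' := ev_mul h1 h2
  map_zero' := map_zero _
  map_add' := map_add _

/-- the part with indices `-N ≤ k < 0` -/
noncomputable def FN (N : ℕ) : Beur (wt r R) C0 →L[ℂ] Beur (wt r R) C0 :=
  Beur.proj {k | -(N : ℤ) ≤ k ∧ k < 0}

/-- the part with indices `k < -N` -/
noncomputable def Tm (N : ℕ) : Beur (wt r R) C0 →L[ℂ] Beur (wt r R) C0 :=
  Beur.proj {k | k < -(N : ℤ)}

/-- the part with indices `k > N` -/
noncomputable def Tp (N : ℕ) : Beur (wt r R) C0 →L[ℂ] Beur (wt r R) C0 :=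
  Beur.proj {k | (N : ℤ) < k}

theorem Pm_eq (N : ℕ) (a : Beur (wt r R) C0) : Pm a = FN N a + Tm N a := by
  apply Beur.ext
  funext k
  change Set.indicator {k : ℤ | k < 0} a.coef k =
    Set.indicator {k : ℤ | -(N : ℤ) ≤ k ∧ k < 0} a.coef k + Set.indicator {k : ℤ | k < -(N : ℤ)} a.coef k
  rw [Set.indicator_apply, Set.indicator_apply, Set.indicator_apply]
  simp only [mem_ofPred_eq]
  split_ifs <;> first | omega | simp

theorem Pm_sub_FN (N : ℕ) (a : Beur (wt r R) C0) : Pm a - FN N a = Tm N a := by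
  rw [Pm_eq N, add_sub_cancel_left]

theorem FN_Pm (N : ℕ) (a : Beur (wt r R) C0) : FN N (Pm a) = FN N a := by
  rw [FN, Pm, Beur.proj_proj]
  congr 2
  ext k
  simp only [mem_inter_iff, mem_ofPred_eq]
  omega

theorem Pm_FN (N : ℕ) (a : Beur (wt r R) C0) : Pm (FN N a) = FN N a := by
  rw [FN, Pm, Beur.proj_proj]
  congr 2
  ext k
  simp only [mem_inter_iff, mem_ofPred_eq]
  omega

theorem Pm_Pm (a : Beur (wt r R) C0) : Pm (Pm a) = Pm a := by
  rw [Pm, Beur.proj_proj, inter_self]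

theorem FN_FN (N : ℕ) (a : Beur (wt r R) C0) : FN N (FN N a) = FN N a := by
  rw [FN, Beur.proj_proj, inter_self]

theorem norm_Pm_le (a : Beur (wt r R) C0) : ‖Pm a‖ ≤ ‖a‖ := Beur.norm_proj_le _ _

theorem sub_Pm_eq (a : Beur (wt r R) C0) : a - Pm a = Beur.proj {k | 0 ≤ k} a := by
  apply Beur.ext
  funext k
  change a.coef k - Set.indicator {k : ℤ | k < 0} a.coef k = Set.indicator {k : ℤ | 0 ≤ k} a.coef k
  by_cases h : k < 0
  · rw [Set.indicator_of_mem (by exact h), Set.indicator_of_notMem (by exact not_le.mpr h), sub_self]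
  · rw [Set.indicator_of_notMem (by exact h), Set.indicator_of_mem (by exact not_lt.mp h), sub_zero]

theorem norm_sub_Pm_le (a : Beur (wt r R) C0) : ‖a - Pm a‖ ≤ ‖a‖ := by
  rw [sub_Pm_eq]
  exact Beur.norm_proj_le _ _

theorem Pm_one : Pm (1 : Beur (wt r R) C0) = 0 := by
  refine Beur.proj_eq_zero_iff.mpr fun k hk => ?_
  have hk : k < 0 := hk
  exact Beur.coef_mono_ne hk.ne _

theorem Pm_mono_of_nonneg {k : ℤ} (hk : 0 ≤ k) (b : C0) : Pm (Beur.mono k b : Beur (wt r R) C0) = 0 := by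
  refine Beur.proj_eq_zero_iff.mpr fun j hj => ?_
  have hj : j < 0 := hj
  exact Beur.coef_mono_ne (hj.trans_le hk).ne _

theorem Pm_mono_of_neg {k : ℤ} (hk : k < 0) (b : C0) :
    Pm (Beur.mono k b : Beur (wt r R) C0) = Beur.mono k b := by
  refine Beur.proj_eq_self fun j hj => ?_
  refine Beur.coef_mono_ne ?_ _
  rintro rfl
  exact hj hk

/-- the range of `Pm` is closed under products -/
theorem Pm_mul_of_neg {a b : Beur (wt r R) C0} (ha : Pm a = a) (hb : Pm b = b) : Pm (a * b) = a * b :=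
  Beur.proj_mul_of_closed (fun g hg h hh => by
    simp only [mem_ofPred_eq] at *
    omega) ha hb

/-- the kernel of `Pm` is closed under products -/
theorem Pm_mul_of_pos {a b : Beur (wt r R) C0} (ha : Pm a = 0) (hb : Pm b = 0) : Pm (a * b) = 0 := by
  have ha' : Beur.proj {k | 0 ≤ k} a = a := by rw [← sub_Pm_eq, ha, sub_zero]
  have hb' : Beur.proj {k | 0 ≤ k} b = b := by rw [← sub_Pm_eq, hb, sub_zero]
  have h := Beur.proj_mul_of_closed (S := {k : ℤ | 0 ≤ k}) (fun g hg h hh => by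
    simp only [mem_ofPred_eq] at *
    omega) ha' hb'
  rw [← sub_Pm_eq] at h
  exact sub_eq_self.mp h

theorem finiteDimensional_FN [FiniteDimensional ℂ C0] (N : ℕ) :
    FiniteDimensional ℂ (LinearMap.range (FN N : Beur (wt r R) C0 →L[ℂ] Beur (wt r R) C0).toLinearMap) := by
  refine Beur.finiteDimensional_range_proj ?_
  exact (Set.finite_Ico (-(N : ℤ)) 0).subset fun k hk => ⟨hk.1, hk.2⟩

theorem finiteDimensional_coefs [FiniteDimensional ℂ C0] {S : Set ℤ} (hS : S.Finite) :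
    FiniteDimensional ℂ
      (LinearMap.range (Beur.proj S : Beur (wt r R) C0 →L[ℂ] Beur (wt r R) C0).toLinearMap) :=
  Beur.finiteDimensional_range_proj hS

/-! Tails of multiplication operators -/

theorem tail_left₁ (N : ℕ) (b a : Beur (wt r R) C0) :
    ‖Tm N (b * (a - Pm a))‖ ≤ ‖Tm N b‖ * ‖a‖ := by
  rw [sub_Pm_eq]
  exact Beur.norm_proj_mul_proj_le (fun g hg h hh => by
    simp only [mem_ofPred_eq] at *
    omega) b a

theorem tail_left₂ (N : ℕ) (b a : Beur (wt r R) C0) :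
    ‖b * Tm N a - Pm (b * Tm N a)‖ ≤ ‖Tp N b‖ * ‖a‖ := by
  rw [sub_Pm_eq]
  exact Beur.norm_proj_mul_proj_le (fun g hg h hh => by
    simp only [mem_ofPred_eq] at *
    omega) b a

theorem tail_right₁ (N : ℕ) (b a : Beur (wt r R) C0) :
    ‖Tm N ((a - Pm a) * b)‖ ≤ ‖a‖ * ‖Tm N b‖ := by
  rw [sub_Pm_eq]
  exact Beur.norm_proj_proj_mul_le (fun g hg h hh => by
    simp only [mem_ofPred_eq] at *
    omega) b a

theorem tail_right₂ (N : ℕ) (b a : Beur (wt r R) C0) :
    ‖Tm N a * b - Pm (Tm N a * b)‖ ≤ ‖a‖ * ‖Tp N b‖ := by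
  rw [sub_Pm_eq]
  exact Beur.norm_proj_proj_mul_le (fun g hg h hh => by
    simp only [mem_ofPred_eq] at *
    omega) b a

theorem tendsto_Tm (a : Beur (wt r R) C0) : Tendsto (fun N : ℕ => ‖Tm N a‖) atTop (𝓝 0) := by
  refine Beur.tendsto_norm_proj (fun N : ℕ => {k : ℤ | k < -(N : ℤ)}) (fun g => ?_) a
  filter_upwards [eventually_ge_atTop g.natAbs] with N hN hc
  have hc : g < -(N : ℤ) := hc
  omega

theorem tendsto_Tp (a : Beur (wt r R) C0) : Tendsto (fun N : ℕ => ‖Tp N a‖) atTop (𝓝 0) := by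
  refine Beur.tendsto_norm_proj (fun N : ℕ => {k : ℤ | (N : ℤ) < k}) (fun g => ?_) a
  filter_upwards [eventually_ge_atTop g.natAbs] with N hN hc
  have hc : (N : ℤ) < g := hc
  omega

/-- tails are uniformly small on compact sets -/
theorem tails_compact {K : Set (Beur (wt r R) C0)} (hK : IsCompact K) {ε : ℝ} (hε : 0 < ε) :
    ∀ᶠ N : ℕ in atTop, ∀ a ∈ K, ‖Tm N a‖ < ε ∧ ‖Tp N a‖ < ε := by
  have h1 := Beur.tail_compact (l := (atTop : Filter ℕ)) (fun N : ℕ => {k : ℤ | k < -(N : ℤ)}) (fun g => by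
    filter_upwards [eventually_ge_atTop g.natAbs] with N hN hc
    have hc : g < -(N : ℤ) := hc
    omega) hK hε
  have h2 := Beur.tail_compact (l := (atTop : Filter ℕ)) (fun N : ℕ => {k : ℤ | (N : ℤ) < k}) (fun g => by
    filter_upwards [eventually_ge_atTop g.natAbs] with N hN hc
    have hc : (N : ℤ) < g := hc
    omega) hK hε
  filter_upwards [h1, h2] with N h3 h4 a ha
  exact ⟨h3 a ha, h4 a ha⟩

end mult

section realisation

variable {E F : Type*} [NormedAddCommGroup E] [NormedSpace ℂ E] [NormedAddCommGroup F]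
  [NormedSpace ℂ F] [CompleteSpace F] {r R : ℝ} [hr : Fact (0 < r)] [hR : Fact (0 < R)]

theorem differentiableOn_laur {g : E × ℂ → F} {U : Set E} (hU : IsOpen U) {r₀ R₀ : ℝ} (h1 : r₀ < r)
    (hrR : r ≤ R) (h2 : R < R₀) (hg : DifferentiableOn ℂ g (U ×ˢ {z : ℂ | r₀ < ‖z‖ ∧ ‖z‖ < R₀})) :
    DifferentiableOn ℂ (fun p => laur r R fun z => g (p, z)) U ∧
      ∀ p ∈ U, ∀ z : ℂ, r ≤ ‖z‖ → ‖z‖ ≤ R → ev z (laur r R fun z => g (p, z)) = g (p, z) := by
  obtain ⟨a, ha1, ha2⟩ := exists_between (max_lt h1 hr.out)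
  obtain ⟨b, hb1, hb2⟩ := exists_between h2
  have ha0 : 0 < a := (le_max_right _ _).trans_lt ha1
  have ha : r₀ < a := (le_max_left _ _).trans_lt ha1
  have hopen : IsOpen (U ×ˢ {z : ℂ | r₀ < ‖z‖ ∧ ‖z‖ < R₀}) :=
    hU.prod ((isOpen_lt continuous_const continuous_norm).inter
      (isOpen_lt continuous_norm continuous_const))
  have hd : ∀ p ∈ U, ∀ z : ℂ, a ≤ ‖z‖ → ‖z‖ ≤ b → DifferentiableAt ℂ g (p, z) := fun p hp z h3 h4 =>
    hg.differentiableAt (hopen.mem_nhds ⟨hp, ha.trans_le h3, h4.trans_lt hb2⟩)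
  constructor
  · intro p hp
    refine (differentiableAt_laur ha0 ha2 hrR hb1 ?_).differentiableWithinAt
    filter_upwards [hU.mem_nhds hp] with q hq z h3 h4
    exact hd q hq z h3 h4
  · intro p hp z h3 h4
    refine ev_laur ha0 ha2 hrR hb1 (fun w h5 h6 => ?_) h3 h4
    have h7 : DifferentiableAt ℂ (fun y : ℂ => ((p, y) : E × ℂ)) w := by fun_prop
    exact DifferentiableAt.comp (f := fun y : ℂ => ((p, y) : E × ℂ)) (g := g) w (hd p hp w h5 h6) h7

/-- no negative part for functions holomorphic on the disc -/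
theorem Pm_laur {f : ℂ → F} (hrR : r ≤ R) {R₀ : ℝ} (h2 : R < R₀)
    (hf : DifferentiableOn ℂ f (ball 0 R₀)) : Pm (laur r R f) = 0 := by
  obtain ⟨b, hb1, hb2⟩ := exists_between h2
  have hd : ∀ z : ℂ, ‖z‖ < R₀ → DifferentiableAt ℂ f z := fun z hz =>
    hf.differentiableAt (isOpen_ball.mem_nhds (mem_ball_zero_iff.mpr hz))
  refine Beur.proj_eq_zero_iff.mpr fun k hk => ?_
  have hk : k < 0 := hk
  rw [coef_laur (a := r / 2) (b := b) (half_pos hr.out) (half_lt_self hr.out) hrR hb1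
    (fun z _ h4 => hd z (h4.trans_lt hb2)), lc]
  obtain ⟨m, hm⟩ : ∃ m : ℕ, -k - 1 = (m : ℤ) := ⟨(-k - 1).toNat, by omega⟩
  have hd' : ∀ z : ℂ, ‖z‖ ≤ R → DifferentiableAt ℂ (fun z : ℂ => z ^ (-k - 1) • f z) z := by
    intro z hz
    simp only [hm, zpow_natCast]
    exact (differentiableAt_id.pow m).smul (hd z (hz.trans_lt h2))
  have : (∮ z in C(0, R), z ^ (-k - 1) • f z) = 0 := by
    refine Complex.circleIntegral_eq_zero_of_differentiable_on_off_countable hR.out.le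
      (s := ∅) countable_empty ?_ ?_
    · intro z hz
      exact (hd' z (mem_closedBall_zero_iff.mp hz)).continuousAt.continuousWithinAt
    · rintro z ⟨hz, -⟩
      exact hd' z (mem_ball_zero_iff.mp hz).le
  rw [this, smul_zero]

/-- values in the disc -/
theorem evp_laur {f : ℂ → F} (hrR : r < R) {R₀ : ℝ} (h2 : R < R₀)
    (hf : DifferentiableOn ℂ f (ball 0 R₀)) {z : ℂ} (hz : ‖z‖ ≤ R) : evp z (laur r R f) = f z := by
  have hd : ∀ z : ℂ, ‖z‖ < R₀ → DifferentiableAt ℂ f z := fun z hz =>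
    hf.differentiableAt (isOpen_ball.mem_nhds (mem_ball_zero_iff.mpr hz))
  obtain ⟨b, hb1, hb2⟩ := exists_between h2
  have hPm := Pm_laur hrR.le h2 hf
  have hann : ∀ w : ℂ, r ≤ ‖w‖ → ‖w‖ ≤ R → evp w (laur r R f) = f w := by
    intro w h3 h4
    rw [← ev_eq_evp hPm]
    exact ev_laur (a := r / 2) (b := b) (half_pos hr.out) (half_lt_self hr.out) hrR.le hb1
      (fun z _ h4 => hd z (h4.trans_lt hb2)) h3 h4
  by_cases h3 : r ≤ ‖z‖
  · exact hann z h3 hz
  push Not at h3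
  -- identity theorem on the open disc
  have hA1 : AnalyticOnNhd ℂ (fun w => evp w (laur r R f)) (ball 0 R) := by
    refine DifferentiableOn.analyticOnNhd ?_ isOpen_ball
    exact (differentiableOn_evp hrR.le).clm_apply (differentiableOn_const _)
  have hA2 : AnalyticOnNhd ℂ f (ball 0 R) :=
    (hf.mono (ball_subset_ball h2.le)).analyticOnNhd isOpen_ball
  obtain ⟨ρ, hρ1, hρ2⟩ := exists_between hrR
  have hρ0 : 0 < ρ := hr.out.trans hρ1
  have hmem : ((ρ : ℝ) : ℂ) ∈ ball (0 : ℂ) R := by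
    rw [mem_ball_zero_iff, Complex.norm_real, Real.norm_of_nonneg hρ0.le]
    exact hρ2
  have hev : (fun w => evp w (laur r R f)) =ᶠ[𝓝 ((ρ : ℝ) : ℂ)] f := by
    have hopen : IsOpen {z : ℂ | r < ‖z‖ ∧ ‖z‖ < R} :=
      (isOpen_lt continuous_const continuous_norm).inter (isOpen_lt continuous_norm continuous_const)
    filter_upwards [hopen.mem_nhds (show ((ρ : ℝ) : ℂ) ∈ {z : ℂ | r < ‖z‖ ∧ ‖z‖ < R} by
      simp only [mem_ofPred_eq, Complex.norm_real, Real.norm_of_nonneg hρ0.le]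
      exact ⟨hρ1, hρ2⟩)] with w hw
    exact hann w hw.1.le hw.2.le
  exact hA1.eqOn_of_preconnected_of_eventuallyEq hA2 (convex_ball 0 R).isPreconnected hmem hev
    (mem_ball_zero_iff.mpr (h3.trans hrR))

/-- **Realisation** of holomorphic families on annuli and discs. -/
theorem exists_realisation {g : E × ℂ → F} {U : Set E} (hU : IsOpen U) {r₀ R₀ : ℝ} (h1 : r₀ < r)
    (hrR : r < R) (h2 : R < R₀) (hg : DifferentiableOn ℂ g (U ×ˢ {z : ℂ | r₀ < ‖z‖ ∧ ‖z‖ < R₀})) :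
    ∃ G : E → Beur (wt r R) F, DifferentiableOn ℂ G U ∧
      (∀ p ∈ U, ∀ z : ℂ, r ≤ ‖z‖ → ‖z‖ ≤ R → ev z (G p) = g (p, z)) ∧
      (DifferentiableOn ℂ g (U ×ˢ ball (0 : ℂ) R₀) →
        ∀ p ∈ U, Pm (G p) = 0 ∧ ∀ z : ℂ, ‖z‖ ≤ R → evp z (G p) = g (p, z)) := by
  obtain ⟨h3, h4⟩ := differentiableOn_laur hU h1 hrR.le h2 hg
  refine ⟨_, h3, h4, fun hg' p hp => ?_⟩
  have h5 : DifferentiableOn ℂ (fun z : ℂ => g (p, z)) (ball 0 R₀) := by
    have h6 : DifferentiableOn ℂ (fun y : ℂ => ((p, y) : E × ℂ)) (ball 0 R₀) := by fun_prop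
    exact DifferentiableOn.comp (g := g) (f := fun y : ℂ => ((p, y) : E × ℂ)) hg' h6
      fun z hz => ⟨hp, hz⟩
  exact ⟨Pm_laur hrR.le h2 h5, fun z hz => evp_laur hrR h2 h5 hz⟩

end realisation

section algebra

variable {C0 : Type*} [NormedRing C0] [NormedAlgebra ℂ C0] [CompleteSpace C0]
  {r R : ℝ} [hr : Fact (0 < r)] [hR : Fact (0 < R)]

theorem laur_mul {f g : ℂ → C0} {a b : ℝ} (ha : 0 < a) (har : a < r) (hrR : r ≤ R) (hRb : R < b)
    (hf : ∀ z : ℂ, a ≤ ‖z‖ → ‖z‖ ≤ b → DifferentiableAt ℂ f z)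
    (hg : ∀ z : ℂ, a ≤ ‖z‖ → ‖z‖ ≤ b → DifferentiableAt ℂ g z) :
    laur r R (fun z => f z * g z) = laur r R f * laur r R g := by
  refine ev_inj (ρ := r) le_rfl hrR fun z hz => ?_
  rw [ev_mul hz.ge (hz.le.trans hrR),
    ev_laur (f := fun z => f z * g z) ha har hrR hRb (fun w h1 h2 => (hf w h1 h2).mul (hg w h1 h2))
      hz.ge (hz.le.trans hrR), ev_laur ha har hrR hRb hf hz.ge (hz.le.trans hrR), ev_laur ha har hrR hRb hg hz.ge (hz.le.trans hrR)]

theorem laur_one (hrR : r ≤ R) : laur r R (fun _ => (1 : C0)) = 1 := by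
  refine ev_inj (ρ := r) le_rfl hrR fun z hz => ?_
  rw [ev_one hz.ge (hz.le.trans hrR), ev_laur (a := r / 2) (b := R + 1) (half_pos hr.out)
    (half_lt_self hr.out) hrR (lt_add_one R) (fun w _ _ => differentiableAt_const _) hz.ge
    (hz.le.trans hrR)]

end algebra

end DQ.F
end

section

/-! # Matrix valued Laurent series on a closed annulus -/

set_option autoImplicit false

open Set Filter Topology Metric

namespace Pool.Agent.DQ.X

/-- square matrices with the operator norm for the sup norm -/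
abbrev Mt (n : ℕ) := Matrix (Fin n) (Fin n) ℂ

noncomputable scoped instance instNormedRingMt (n : ℕ) : NormedRing (Mt n) :=
  Matrix.linftyOpNormedRing

noncomputable scoped instance instNormedAlgebraMt (n : ℕ) : NormedAlgebra ℂ (Mt n) :=
  Matrix.linftyOpNormedAlgebra

scoped instance instCompleteMt (n : ℕ) : CompleteSpace (Mt n) := FiniteDimensional.complete ℂ (Mt n)

/-- radii of an annulus -/
structure Rad where
  r : ℝ
  R : ℝ
  pos : 0 < r
  lt : r < R

instance instFactr (ρ : Rad) : Fact (0 < ρ.r) := ⟨ρ.pos⟩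

instance instFactR (ρ : Rad) : Fact (0 < ρ.R) := ⟨ρ.pos.trans ρ.lt⟩

/-- Laurent series with coefficients in the square matrices. -/
abbrev BB (n : ℕ) (ρ : Rad) := DQ.F.Beur (DQ.F.wt ρ.r ρ.R) (Mt n)

open DQ.F DQ.F.Beur

variable {n : ℕ} {ρ : Rad}

/-- The splitting: `P` is the part with negative indices, `F N` the part with the indices
`-N, …, -1`. -/
noncomputable def SS (n : ℕ) (ρ : Rad) : Split (BB n ρ) where
  P := Pm
  P_P := Pm_Pm
  P_one := Pm_one
  plus_mul := Pm_mul_of_pos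
  F := FN
  F_F := FN_FN
  P_F := Pm_FN
  F_P := FN_Pm
  fin := finiteDimensional_FN
  tailL {K} hK {ε} hε := by
    obtain ⟨N₀, h⟩ := eventually_atTop.1 (tails_compact hK hε)
    refine ⟨N₀, fun N hN b hb x => ?_⟩
    rw [Pm_sub_FN]
    exact (tail_left₁ N b x).trans (mul_le_mul_of_nonneg_right (h N hN b hb).1.le (norm_nonneg _))
  tailR {K} hK {ε} hε := by
    obtain ⟨N₀, h⟩ := eventually_atTop.1 (tails_compact hK hε)
    refine ⟨N₀, fun N hN b hb x => ?_⟩
    rw [Pm_sub_FN]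
    exact (tail_left₂ N b x).trans (mul_le_mul_of_nonneg_right (h N hN b hb).2.le (norm_nonneg _))

theorem SS_P (x : BB n ρ) : (SS n ρ).P x = Pm x := rfl

/-- the value at `z`, `‖z‖ ≥ r`, of the negative part of a Laurent series -/
noncomputable def evm (z : ℂ) : BB n ρ →L[ℂ] Mt n := DQ.F.evm z

/-- the value at `z`, `‖z‖ ≤ R`, of the nonnegative part of a Laurent series -/
noncomputable def evp (z : ℂ) : BB n ρ →L[ℂ] Mt n := DQ.F.evp z

/-- the value at `z`, `r ≤ ‖z‖ ≤ R`, of a Laurent series -/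
noncomputable def ev (z : ℂ) : BB n ρ →L[ℂ] Mt n := DQ.F.ev z

theorem ev_apply (z : ℂ) (b : BB n ρ) : ev z b = evm z b + evp z b := rfl

theorem ev_mul {z : ℂ} (h1 : ρ.r ≤ ‖z‖) (h2 : ‖z‖ ≤ ρ.R) (a b : BB n ρ) :
    ev z (a * b) = ev z a * ev z b := DQ.F.ev_mul h1 h2 a b

theorem ev_one {z : ℂ} (h1 : ρ.r ≤ ‖z‖) (h2 : ‖z‖ ≤ ρ.R) : ev z (1 : BB n ρ) = 1 :=
  DQ.F.ev_one h1 h2

theorem ev_eq_evp {b : BB n ρ} (hb : (SS n ρ).P b = 0) (z : ℂ) : ev z b = evp z b :=
  DQ.F.ev_eq_evp hb z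

theorem ev_eq_evm {b : BB n ρ} (hb : (SS n ρ).P b = b) (z : ℂ) : ev z b = evm z b :=
  DQ.F.ev_eq_evm hb z

theorem evm_hol : DifferentiableOn ℂ (evm : ℂ → BB n ρ →L[ℂ] Mt n) {z | ρ.r < ‖z‖} :=
  DQ.F.differentiableOn_evm ρ.lt.le

theorem evp_hol : DifferentiableOn ℂ (evp : ℂ → BB n ρ →L[ℂ] Mt n) (ball 0 ρ.R) :=
  DQ.F.differentiableOn_evp ρ.lt.le

theorem norm_evm_le (z : ℂ) (b : BB n ρ) : ‖evm z b‖ ≤ ρ.r / ‖z‖ * ‖b‖ :=
  DQ.F.norm_evm_apply_le ρ.lt.le b

theorem tendsto_evm (b : BB n ρ) :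
    Tendsto (fun z : ℂ => evm z b) (Bornology.cobounded ℂ) (𝓝 0) := by
  apply squeeze_zero_norm (a := fun z : ℂ => ρ.r * ‖b‖ / ‖z‖)
  · intro z
    refine (norm_evm_le z b).trans_eq ?_
    ring
  · exact Tendsto.div_atTop tendsto_const_nhds tendsto_norm_cobounded_atTop

theorem ev_injective {b b' : BB n ρ} {s : ℝ} (hs : ρ.r ≤ s) (hs' : s ≤ ρ.R)
    (h : ∀ z : ℂ, ‖z‖ = s → ev z b = ev z b') : b = b' :=
  DQ.F.ev_inj hs hs' h

/-- Laurent and Taylor expansions with holomorphic parameters. -/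
theorem exists_real {E : Type*} [NormedAddCommGroup E] [NormedSpace ℂ E] {U : Set E}
    (hU : IsOpen U) {r' R' : ℝ} (hr' : r' < ρ.r)
    (hR' : ρ.R < R') {g : E × ℂ → Mt n}
    (hg : DifferentiableOn ℂ g (U ×ˢ {z : ℂ | r' < ‖z‖ ∧ ‖z‖ < R'})) :
    ∃ G : E → BB n ρ, DifferentiableOn ℂ G U ∧
      (∀ p ∈ U, ∀ z : ℂ, ρ.r ≤ ‖z‖ → ‖z‖ ≤ ρ.R → ev z (G p) = g (p, z)) ∧
      (DifferentiableOn ℂ g (U ×ˢ ball (0 : ℂ) R') →
        ∀ p ∈ U, (SS n ρ).P (G p) = 0 ∧ ∀ z : ℂ, ‖z‖ ≤ ρ.R → evp z (G p) = g (p, z)) :=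
  DQ.F.exists_realisation hU hr' ρ.lt hR' hg

end Pool.Agent.DQ.X
end

section

/-! # Holomorphic matrix valued functions -/

set_option autoImplicit false

open Set Filter Topology Metric Matrix

namespace Pool.Agent.DQ.X

variable {n : ℕ} {E : Type*} [NormedAddCommGroup E] [NormedSpace ℂ E]

/-- an entry, as a continuous linear map -/
noncomputable def entryL (i j : Fin n) : Mt n →L[ℂ] ℂ :=
  LinearMap.toContinuousLinearMap (Matrix.entryLinearMap ℂ ℂ i j)

theorem entryL_apply (i j : Fin n) (A : Mt n) : entryL i j A = A i j := rfl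

theorem diffAt_iff {a : E → Mt n} {x : E} :
    DifferentiableAt ℂ a x ↔ ∀ i j, DifferentiableAt ℂ (fun x => a x i j) x := by
  constructor
  · intro h i j
    exact (entryL i j).differentiableAt.comp x h
  · intro h
    have e : a = fun x => ∑ i, ∑ j, a x i j • (Matrix.single i j (1 : ℂ) : Mt n) := by
      funext x
      conv_lhs => rw [Matrix.matrix_eq_sum_single (a x)]
      refine Finset.sum_congr rfl fun i _ => Finset.sum_congr rfl fun j _ => ?_
      rw [Matrix.smul_single, smul_eq_mul, mul_one]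
    rw [e]
    exact DifferentiableAt.fun_sum fun i _ => DifferentiableAt.fun_sum fun j _ =>
      (h i j).smul_const _

theorem diffOn_iff {a : E → Mt n} {S : Set E} :
    DifferentiableOn ℂ a S ↔ ∀ i j, DifferentiableOn ℂ (fun x => a x i j) S := by
  constructor
  · intro h i j
    exact (entryL i j).differentiable.comp_differentiableOn h
  · intro h
    have e : a = fun x => ∑ i, ∑ j, a x i j • (Matrix.single i j (1 : ℂ) : Mt n) := by
      funext x
      conv_lhs => rw [Matrix.matrix_eq_sum_single (a x)]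
      refine Finset.sum_congr rfl fun i _ => Finset.sum_congr rfl fun j _ => ?_
      rw [Matrix.smul_single, smul_eq_mul, mul_one]
    rw [e]
    exact DifferentiableOn.fun_sum fun i _ => DifferentiableOn.fun_sum fun j _ =>
      (h i j).smul_const _

theorem diffOn_transpose {a : E → Mt n} {S : Set E} (h : DifferentiableOn ℂ a S) :
    DifferentiableOn ℂ (fun x => (a x)ᵀ) S := by
  rw [diffOn_iff] at h ⊢
  exact fun i j => h j i

theorem diffOn_det {a : E → Mt n} {S : Set E} (h : DifferentiableOn ℂ a S) :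
    DifferentiableOn ℂ (fun x => (a x).det) S := by
  rw [diffOn_iff] at h
  have e : (fun x => (a x).det) = fun x => ∑ σ : Equiv.Perm (Fin n),
      ((Equiv.Perm.sign σ : ℤ) : ℂ) * ∏ i, a x (σ i) i := by
    funext x
    exact Matrix.det_apply' _
  rw [e]
  refine DifferentiableOn.fun_sum fun σ _ => (DifferentiableOn.const_mul ?_ _)
  have key : ∀ s : Finset (Fin n), DifferentiableOn ℂ (fun x => ∏ i ∈ s, a x (σ i) i) S := by
    intro s
    induction s using Finset.induction_on with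
    | empty =>
      simp only [Finset.prod_empty]
      exact differentiableOn_const 1
    | insert i s hi ih =>
      simp only [Finset.prod_insert hi]
      exact (h _ _).mul ih
  exact key Finset.univ

theorem diffOn_inv {a : E → Mt n} {S : Set E} (hS : IsOpen S) (h : DifferentiableOn ℂ a S)
    (hd : ∀ x ∈ S, IsUnit (a x).det) : DifferentiableOn ℂ (fun x => (a x)⁻¹) S := by
  intro x hx
  have h1 : DifferentiableAt ℂ (Ring.inverse : Mt n → Mt n) (a x) :=
    differentiableAt_inverse ((Matrix.isUnit_iff_isUnit_det (a x)).mpr (hd x hx))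
  have h2 : (fun x => (a x)⁻¹) = fun x => Ring.inverse (a x) := by
    funext x
    exact Matrix.nonsing_inv_eq_ringInverse (A := a x)
  rw [h2]
  exact (h1.comp x (h.differentiableAt (hS.mem_nhds hx))).differentiableWithinAt

end Pool.Agent.DQ.X
end

section

/-! # The solutions of the Birkhoff equations are invertible -/

set_option autoImplicit false

open Set Filter Topology Metric Matrix

namespace Pool.Agent.DQ.X

variable {n : ℕ} {ρ : Rad}

/-- TASK C2. PROOF. Write `S = SS n ρ`, `x = 1 + tau S g`, `y = g * x`, `x' = 1 + tau S g'`, `y' = g' * x'`; `S.P y = 0`,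
`S.P y' = 0` (`P_mul_tau`), `S.P (tau S g) = tau S g` (`P_tau`). For `ρ.r ≤ ‖z‖ ≤ ρ.R` we have `ev z x = 1 + evm z (tau S g)` (`ev_one`,
`ev_eq_evm`), `evp z y = ev z y = ev z g * ev z x` (`ev_eq_evp`, `ev_mul`), and the same with `'`. So (by `h`)
`(evp z y')ᵀ * evp z y = (ev z x')ᵀ * ((ev z g')ᵀ * ev z g) * ev z x = (ev z x')ᵀ * ev z x` on the closed annulus. Define
`G z = (evp z y')ᵀ * evp z y` if `‖z‖ < ρ.R` and `G z = (1 + evm z (tau S g'))ᵀ * (1 + evm z (tau S g))` otherwise: `G` is differentiable on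
`ℂ` (it is given by the first formula on `ball 0 ρ.R`, by the second on the open set `{ρ.r < ‖z‖}`, as both agree on the annulus:
`evp_hol`, `evm_hol` applied to constant elements, `diffOn_transpose`, `DifferentiableOn.mul`) and `G z → 1` at infinity
(`tendsto_evm`, continuity of the transposition and multiplication). So `G` is bounded and constant by Liouville's theorem
(`Differentiable.apply_eq_of_tendsto_cocompact` / `Differentiable.apply_eq_apply_of_bounded`), `G = 1`. -/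
theorem birkhoff {g g' : BB n ρ} (hg : IsUnit (Tt (SS n ρ) g)) (hg' : IsUnit (Tt (SS n ρ) g'))
    (h : ∀ z : ℂ, ρ.r ≤ ‖z‖ → ‖z‖ ≤ ρ.R → (ev z g')ᵀ * ev z g = 1) :
    (∀ z : ℂ, ρ.r < ‖z‖ →
      (1 + evm z (tau (SS n ρ) g'))ᵀ * (1 + evm z (tau (SS n ρ) g)) = 1) ∧
    ∀ z ∈ ball (0 : ℂ) ρ.R, (evp z (g' * (1 + tau (SS n ρ) g')))ᵀ *
      evp z (g * (1 + tau (SS n ρ) g)) = 1 := by
  classical
  obtain ⟨τ, hτ⟩ : ∃ τ, τ = tau (SS n ρ) g := ⟨_, rfl⟩
  obtain ⟨τ', hτ'⟩ : ∃ τ', τ' = tau (SS n ρ) g' := ⟨_, rfl⟩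
  have hy0 : (SS n ρ).P (g * (1 + τ)) = 0 := by rw [hτ]; exact P_mul_tau _ hg
  have hy0' : (SS n ρ).P (g' * (1 + τ')) = 0 := by rw [hτ']; exact P_mul_tau _ hg'
  have hPτ : (SS n ρ).P τ = τ := by rw [hτ]; exact P_tau _ hg
  have hPτ' : (SS n ρ).P τ' = τ' := by rw [hτ']; exact P_tau _ hg'
  rw [← hτ, ← hτ']
  obtain ⟨G1, hG1⟩ : ∃ G1 : ℂ → Mt n, G1 = fun z => (evp z (g' * (1 + τ')))ᵀ *
      evp z (g * (1 + τ)) := ⟨_, rfl⟩
  obtain ⟨G2, hG2⟩ : ∃ G2 : ℂ → Mt n, G2 = fun z => (1 + evm z τ')ᵀ * (1 + evm z τ) := ⟨_, rfl⟩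
  have hex : ∀ z : ℂ, ρ.r ≤ ‖z‖ → ‖z‖ ≤ ρ.R → ∀ t : BB n ρ, (SS n ρ).P t = t →
      ev z (1 + t) = 1 + evm z t := by
    intro z h1 h2 t ht
    rw [map_add, ev_one h1 h2, ev_eq_evm ht]
  have hagree : ∀ z : ℂ, ρ.r ≤ ‖z‖ → ‖z‖ ≤ ρ.R → G1 z = G2 z := by
    intro z h1 h2
    rw [hG1, hG2]
    change (evp z (g' * (1 + τ')))ᵀ * evp z (g * (1 + τ)) = (1 + evm z τ')ᵀ * (1 + evm z τ)
    rw [← ev_eq_evp hy0 z, ← ev_eq_evp hy0' z, ev_mul h1 h2, ev_mul h1 h2, hex z h1 h2 τ hPτ,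
      hex z h1 h2 τ' hPτ', Matrix.transpose_mul]
    calc (1 + evm z τ')ᵀ * (ev z g')ᵀ * (ev z g * (1 + evm z τ))
        = (1 + evm z τ')ᵀ * (((ev z g')ᵀ * ev z g) * (1 + evm z τ)) := by
          simp only [Matrix.mul_assoc]
      _ = _ := by rw [h z h1 h2, Matrix.one_mul]
  obtain ⟨G, hG⟩ : ∃ G : ℂ → Mt n, G = fun z => if ‖z‖ < ρ.R then G1 z else G2 z := ⟨_, rfl⟩
  have hGl : ∀ z : ℂ, ‖z‖ < ρ.R → G z = G1 z := by
    intro z hz
    rw [hG]
    exact if_pos hz
  have hGr : ∀ z : ℂ, ρ.r ≤ ‖z‖ → G z = G2 z := by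
    intro z hz
    by_cases h1 : ‖z‖ < ρ.R
    · rw [hGl z h1]
      exact hagree z hz h1.le
    · rw [hG]
      exact if_neg h1
  have hev : ∀ t : BB n ρ, DifferentiableOn ℂ (fun z : ℂ => evp z t) (ball 0 ρ.R) := fun t =>
    evp_hol.clm_apply (differentiableOn_const t)
  have hem : ∀ t : BB n ρ, DifferentiableOn ℂ (fun z : ℂ => evm z t) {z | ρ.r < ‖z‖} := fun t =>
    evm_hol.clm_apply (differentiableOn_const t)
  have hd1 : DifferentiableOn ℂ G1 (ball 0 ρ.R) := by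
    rw [hG1]
    exact (diffOn_transpose (hev _)).mul (hev _)
  have hd2 : DifferentiableOn ℂ G2 {z | ρ.r < ‖z‖} := by
    rw [hG2]
    exact (diffOn_transpose ((differentiableOn_const (1 : Mt n)).add (hem _))).mul
      ((differentiableOn_const (1 : Mt n)).add (hem _))
  have ho2 : IsOpen {z : ℂ | ρ.r < ‖z‖} := isOpen_lt continuous_const continuous_norm
  have hd : Differentiable ℂ G := by
    intro z
    rcases lt_or_ge ‖z‖ ρ.R with h1 | h1
    · have h2 : z ∈ ball (0 : ℂ) ρ.R := by simpa using h1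
      refine (hd1.differentiableAt (isOpen_ball.mem_nhds h2)).congr_of_eventuallyEq ?_
      filter_upwards [isOpen_ball.mem_nhds h2] with y hy
      exact hGl y (by simpa using hy)
    · have h2 : z ∈ {z : ℂ | ρ.r < ‖z‖} := ρ.lt.trans_le h1
      refine (hd2.differentiableAt (ho2.mem_nhds h2)).congr_of_eventuallyEq ?_
      filter_upwards [ho2.mem_nhds h2] with y hy
      exact hGr y (le_of_lt hy)
  have hlim : Tendsto G (cocompact ℂ) (𝓝 1) := by
    rw [← Metric.cobounded_eq_cocompact]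
    have h1 : Tendsto G2 (Bornology.cobounded ℂ) (𝓝 ((1 + 0 : Mt n)ᵀ * (1 + 0))) := by
      rw [hG2]
      have h2 : ∀ t : BB n ρ, Tendsto (fun z : ℂ => 1 + evm z t) (Bornology.cobounded ℂ)
          (𝓝 (1 + 0 : Mt n)) := fun t => tendsto_const_nhds.add (tendsto_evm t)
      have h3 : Continuous fun A : Mt n => Aᵀ :=
        LinearMap.continuous_of_finiteDimensional
          (Matrix.transposeLinearEquiv (Fin n) (Fin n) ℂ ℂ).toLinearMap
      exact ((h3.tendsto _).comp (h2 τ')).mul (h2 τ)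
    have h4 : ((1 + 0 : Mt n)ᵀ * (1 + 0)) = 1 := by simp
    rw [h4] at h1
    refine h1.congr' ?_
    filter_upwards [tendsto_norm_cobounded_atTop.eventually_ge_atTop ρ.r] with z hz
    exact (hGr z hz).symm
  have hone : ∀ z, G z = 1 := fun z => hd.apply_eq_of_tendsto_cocompact z hlim
  refine ⟨fun z hz => ?_, fun z hz => ?_⟩
  · have h1 := hGr z hz.le
    rw [hone z, hG2] at h1
    exact h1.symm
  · have h1 := hGl z (by simpa using hz)
    rw [hone z, hG1] at h1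
    exact h1.symm

end Pool.Agent.DQ.X
end

section

/-! Cartan's theorems (A) and (B) near compact products of plane sets. -/

set_option autoImplicit false

open Set Filter Topology

universe u v w

namespace Pool.Agent.DQ.C

theorem interval_induction {R : ℝ → ℝ → Prop} {α β : ℝ} (hαβ : α ≤ β)
    (hloc : ∀ x ∈ Icc α β, ∃ δ : ℝ, 0 < δ ∧ ∀ b c, b ≤ c → |b - x| < δ → |c - x| < δ → R b c)
    (hadd : ∀ a b c, α ≤ a → a ≤ b → b ≤ c → c ≤ β → R a b → R b c → R a c) : R α β := by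
  choose! δ hδ hR using hloc
  obtain ⟨ε, hε, hleb⟩ := lebesgue_number_lemma_of_metric (isCompact_Icc (a := α) (b := β))
    (c := fun x : Icc α β => Metric.ball (x : ℝ) (δ x)) (fun _ => Metric.isOpen_ball)
    (fun x hx => mem_iUnion.mpr ⟨⟨x, hx⟩, Metric.mem_ball_self (hδ x hx)⟩)
  obtain ⟨N, hN⟩ := exists_nat_gt ((β - α) / ε)
  have hN0 : 0 < (N : ℝ) := lt_of_le_of_lt (div_nonneg (by linarith) hε.le) hN
  have hstep : (β - α) / N < ε := by
    rw [div_lt_iff₀ hε] at hN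
    rw [div_lt_iff₀ hN0]
    linarith
  have hstep0 : 0 ≤ (β - α) / N := div_nonneg (by linarith) hN0.le
  set a : ℕ → ℝ := fun k => α + k * ((β - α) / N) with ha
  have ha0 : a 0 = α := by simp [ha]
  have haN : a N = β := by
    simp only [ha]
    field_simp
    ring
  have hmono : ∀ k, a k ≤ a (k + 1) := by
    intro k
    simp only [ha]
    push_cast
    nlinarith
  have hmem : ∀ k ≤ N, a k ∈ Icc α β := by
    intro k hk
    constructor
    · simp only [ha]
      have : 0 ≤ (k : ℝ) * ((β - α) / N) := by positivity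
      linarith
    · rw [← haN]
      simp only [ha]
      have : (k : ℝ) ≤ N := by exact_mod_cast hk
      nlinarith
  have key : ∀ k ≤ N, R α (a k) := by
    intro k
    induction k with
    | zero =>
      intro _
      rw [ha0]
      have hα : α ∈ Icc α β := ⟨le_rfl, hαβ⟩
      exact hR α hα α α le_rfl (by simpa using hδ α hα) (by simpa using hδ α hα)
    | succ k ih =>
      intro hk
      have h1 := ih (by omega)
      have hk1 := hmem k (by omega)
      have hk2 := hmem (k + 1) hk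
      obtain ⟨⟨x, hx⟩, hball⟩ := hleb (a k) hk1
      have h2 : R (a k) (a (k + 1)) := by
        refine hR x hx _ _ (hmono k) ?_ ?_
        · have := hball (Metric.mem_ball_self hε)
          rwa [Metric.mem_ball, Real.dist_eq] at this
        · have h3 : a (k + 1) ∈ Metric.ball (a k) ε := by
            rw [Metric.mem_ball, Real.dist_eq, abs_of_nonneg (by linarith [hmono k])]
            have : a (k + 1) - a k = (β - α) / N := by
              simp only [ha]
              push_cast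
              ring
            rw [this]
            exact hstep
          have := hball h3
          rwa [Metric.mem_ball, Real.dist_eq] at this
      exact hadd _ _ _ le_rfl hk1.1 (hmono k) hk2.2 h1 h2
  have := key N le_rfl
  rwa [haN] at this

variable {V : Type u} [NormedAddCommGroup V] [NormedSpace ℂ V] {n : ℕ}

/-- generators at a point generate near the point -/
theorem gen_open {M : EMod.{u, u, w} (O V)} {x : V} (hM : M.CohAt x) {p : ℕ}
    {g : Fin p → (x : V) → M.St x} (hg : ∀ r, M.At (g r) x)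
    (hspan : Submodule.span ((O V).St x) (Set.range fun r => g r x) = ⊤) :
    ∀ᶠ y in 𝓝 x, Submodule.span ((O V).St y) (Set.range fun r => g r y) = ⊤ := by
  obtain ⟨hx, ⟨m, h, hh, hgen⟩, -⟩ := hM
  have h1 : ∀ j, ∃ c : Fin p → (y : V) → (O V).St y, (∀ r, (O V).At (c r) x) ∧
      ∀ᶠ y in 𝓝 x, h j y = ∑ r, c r y • g r y := by
    intro j
    obtain ⟨c, hc⟩ := exists_coeff hspan (h j x)
    choose f hf hfx using fun r => exists_gm (c r)
    refine ⟨fun r => gm (f r), fun r => at_gm (hf r), ?_⟩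
    refine M.inj (hh j) (M.at_comb hx (fun r => at_gm (hf r)) hg) ?_
    rw [hc]
    refine Finset.sum_congr rfl fun r _ => ?_
    rw [← hfx r]
    rfl
  choose c hc hce using h1
  filter_upwards [hgen, eventually_all.mpr hce] with y h2 h3
  rw [eq_top_iff, ← h2, Submodule.span_le]
  rintro _ ⟨j, rfl⟩
  simp only
  rw [h3 j]
  exact Submodule.sum_mem _ fun r _ => Submodule.smul_mem _ _ (Submodule.subset_span ⟨r, rfl⟩)

/-- both theorems hold near `K` -/
def AB (K : Set V) : Prop :=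
  ∀ M : EMod.{u, u, w} (O V), M.Coh K → PropA M K ∧ PropB M K

theorem Coh_mono {M : EMod.{u, u, w} (O V)} {K L : Set V} (h : M.Coh K) (hL : L ⊆ K) :
    M.Coh L := fun x hx => h x (hL hx)

theorem cohAt_of_coh {M : EMod.{u, u, w} (O V)} {K : Set V} (h : M.Coh K) {x : V} (hx : x ∈ K) :
    M.CohAt x := (h x hx).self_of_nhds

/-- Oka's theorem, as a hypothesis -/
def Oka (V : Type u) [NormedAddCommGroup V] [NormedSpace ℂ V] : Prop :=
  ∀ p : ℕ, ((O V).free p).Coh univ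

theorem relSh_coh (hO : Oka V) {M : EMod.{u, u, w} (O V)} {K : Set V} (h : M.Coh K) {p : ℕ}
    {g : Fin p → (x : V) → M.St x} (hg : ∀ r, M.On (g r) K) : (M.relSh g).Coh K := by
  intro x hx
  have h1 : ∀ᶠ y in 𝓝 x, ∀ r, M.At (g r) y := eventually_all.mpr fun r => M.ev (hg r x hx)
  filter_upwards [h x hx, h1, hO p x (mem_univ _)] with y a b c
  exact EMod.relSh_cohAt b a c

theorem Gen_open {M : EMod.{u, u, w} (O V)} {K : Set V} (hM : M.Coh K) {p : ℕ}
    {g : Fin p → (x : V) → M.St x} (hg : ∀ r, M.On (g r) K) (hgen : M.Gen g K) :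
    ∃ Ω : Set V, IsOpen Ω ∧ K ⊆ Ω ∧ (∀ r, M.On (g r) Ω) ∧ M.Gen g Ω := by
  refine ⟨{x | ∀ᶠ y in 𝓝 x, (∀ r, M.At (g r) y) ∧
    Submodule.span ((O V).St y) (Set.range fun r => g r y) = ⊤},
    isOpen_iff_mem_nhds.mpr fun x hx => eventually_eventually_nhds.mpr hx, ?_, ?_, ?_⟩
  · intro x hx
    have h1 : ∀ᶠ y in 𝓝 x, ∀ r, M.At (g r) y := eventually_all.mpr fun r => M.ev (hg r x hx)
    have h2 := gen_open (cohAt_of_coh hM hx) (fun r => hg r x hx) (hgen x hx)
    exact h1.and h2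
  · intro r x hx
    exact (show ∀ᶠ y in 𝓝 x, _ from hx).self_of_nhds.1 r
  · intro x hx
    exact (show ∀ᶠ y in 𝓝 x, _ from hx).self_of_nhds.2

theorem PropB1.open {M : EMod.{u, u, w} (O V)} {K : Set V} {p : ℕ}
    {g : Fin p → (x : V) → M.St x} {s : (x : V) → M.St x} (h : PropB1 M K g s)
    (hg : ∀ r, M.On (g r) K) (hs : M.On s K) :
    ∃ Ω : Set V, IsOpen Ω ∧ K ⊆ Ω ∧ PropB1 M Ω g s := by
  obtain ⟨f, hf, he⟩ := h
  refine ⟨{x | ∀ᶠ y in 𝓝 x, (∀ r, HolAt (f r) y) ∧ s y = ∑ r, gm (f r) y • g r y},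
    isOpen_iff_mem_nhds.mpr fun x hx => eventually_eventually_nhds.mpr hx, ?_, f, ?_, ?_⟩
  · intro x hx
    have h1 : ∀ᶠ y in 𝓝 x, ∀ r, HolAt (f r) y :=
      eventually_all.mpr fun r => (hf r x hx).eventually
    have h2 : ∀ᶠ y in 𝓝 x, s y = ∑ r, gm (f r) y • g r y :=
      M.inj (hs x hx) (M.at_comb (M.mem_dom (hs x hx)) (fun r => at_gm (hf r x hx))
        (fun r => hg r x hx)) (he x hx)
    exact h1.and h2
  · intro r x hx
    exact (show ∀ᶠ y in 𝓝 x, _ from hx).self_of_nhds.1 r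
  · intro x hx
    exact (show ∀ᶠ y in 𝓝 x, _ from hx).self_of_nhds.2

variable (κ : V ≃L[ℂ] (Fin n → ℂ)) {C : Fin n → Set ℂ} (i : Fin n)

/-- a neighbourhood of a slice contains a slab -/
theorem slab {D : Set ℂ} (hC : ∀ j, IsCompact (C j)) (hD : IsCompact D) {φ : ℂ → ℝ}
    (hφ : Continuous φ) (a : ℝ) {Ω : Set V} (hΩ : IsOpen Ω)
    (h : Bx κ C i (D ∩ {z | φ z = a}) ⊆ Ω) :
    ∃ δ : ℝ, 0 < δ ∧ ∀ b c : ℝ, |b - a| < δ → |c - a| < δ →
      Bx κ C i (D ∩ {z | φ z ∈ Icc b c}) ⊆ Ω := by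
  have hK : IsCompact (Bx κ C i D \ Ω) := (isCompact_bx κ i hC hD).diff hΩ
  have hψ : Continuous fun x : V => |φ (κ x i) - a| :=
    ((hφ.comp (continuous_coord κ i)).sub continuous_const).abs
  rcases (Bx κ C i D \ Ω).eq_empty_or_nonempty with h0 | hne
  · refine ⟨1, one_pos, fun b c _ _ => ?_⟩
    intro x hx
    by_contra hxΩ
    have : x ∈ Bx κ C i D \ Ω := ⟨⟨hx.1.1, hx.2⟩, hxΩ⟩
    rw [h0] at this
    exact this
  · obtain ⟨x₀, hx₀, hmin⟩ := hK.exists_isMinOn hne hψ.continuousOn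
    have hpos : 0 < |φ (κ x₀ i) - a| := by
      rw [abs_pos, sub_ne_zero]
      intro he
      exact hx₀.2 (h ⟨⟨hx₀.1.1, he⟩, hx₀.1.2⟩)
    refine ⟨|φ (κ x₀ i) - a|, hpos, fun b c hb hc => ?_⟩
    intro x hx
    by_contra hxΩ
    have h1 := hmin (show x ∈ Bx κ C i D \ Ω from ⟨⟨hx.1.1, hx.2⟩, hxΩ⟩)
    have h2 : |φ (κ x₀ i) - a| ≤ |φ (κ x i) - a| := h1
    have h3 : φ (κ x i) ∈ Icc b c := hx.1.2
    have h4 : |φ (κ x i) - a| < |φ (κ x₀ i) - a| := by
      rw [abs_lt] at hb hc ⊢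
      constructor
      · linarith [h3.1]
      · linarith [h3.2]
    linarith

theorem slice_union {D : Set ℂ} {φ : ℂ → ℝ} {a b c : ℝ} (hab : a ≤ b) (hbc : b ≤ c) :
    (D ∩ {z | φ z ∈ Icc a b}) ∪ (D ∩ {z | φ z ∈ Icc b c}) = D ∩ {z | φ z ∈ Icc a c} := by
  rw [← inter_union_distrib_left]
  congr 1
  ext z
  simp only [mem_union, mem_ofPred_eq]
  rw [← mem_union, Icc_union_Icc_eq_Icc hab hbc]

theorem slice_inter {D : Set ℂ} {φ : ℂ → ℝ} {a b c : ℝ} (hab : a ≤ b) (hbc : b ≤ c) :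
    (D ∩ {z | φ z ∈ Icc a b}) ∩ (D ∩ {z | φ z ∈ Icc b c}) = D ∩ {z | φ z = b} := by
  ext z
  simp only [mem_inter_iff, mem_ofPred_eq, mem_Icc]
  constructor
  · rintro ⟨⟨h1, h2, h3⟩, _, h4, h5⟩
    exact ⟨h1, le_antisymm h3 h4⟩
  · rintro ⟨h1, h2⟩
    rw [h2]
    exact ⟨⟨h1, hab, le_rfl⟩, h1, le_rfl, hbc⟩

theorem exists_range {D : Set ℂ} (hD : IsCompact D) {φ : ℂ → ℝ} (hφ : Continuous φ) :
    ∃ α β : ℝ, α ≤ β ∧ D ∩ {z | φ z ∈ Icc α β} = D := by
  obtain ⟨B, hB⟩ := (hD.image hφ).isBounded.exists_norm_le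
  refine ⟨-|B|, |B|, by linarith [abs_nonneg B], ?_⟩
  apply inter_eq_left.mpr
  intro z hz
  have h1 := hB (φ z) ⟨z, hz, rfl⟩
  rw [Real.norm_eq_abs] at h1
  exact abs_le.mp (h1.trans (le_abs_self B))

/-- (A) from the slices -/
theorem stepA {D : Set ℂ} (hC : ∀ j, IsCompact (C j)) (hD : IsCompact D) {φ : ℂ → ℝ}
    (hφ : Continuous φ) (hA : ∀ a, Appr V (D ∩ {z | φ z = a}) univ)
    (hs : ∀ a, AB.{u, w} (Bx κ C i (D ∩ {z | φ z = a}))) (M : EMod.{u, u, w} (O V))
    (hM : M.Coh (Bx κ C i D)) : PropA M (Bx κ C i D) := by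
  obtain ⟨α, β, hαβ, hD2⟩ := exists_range hD hφ
  have hcl : ∀ S : Set ℝ, IsClosed S → IsCompact (D ∩ {z | φ z ∈ S}) := fun S hS =>
    hD.inter_right (hS.preimage hφ)
  have hdom : ∀ S : Set ℂ, S ⊆ D → Bx κ C i S ⊆ M.dom := fun S hS x hx =>
    (cohAt_of_coh hM (bx_mono κ i hS hx)).1
  have hcoh : ∀ S : Set ℂ, S ⊆ D → M.Coh (Bx κ C i S) := fun S hS =>
    Coh_mono hM (bx_mono κ i hS)
  rw [← hD2]
  refine interval_induction (R := fun a b => PropA M (Bx κ C i (D ∩ {z | φ z ∈ Icc a b})))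
    hαβ ?_ ?_
  · intro a _
    obtain ⟨p, g, hg, hgen⟩ := (hs a M (hcoh _ inter_subset_left)).1
    obtain ⟨Ω, hΩ, hKΩ, hgΩ, hgenΩ⟩ := Gen_open (hcoh _ inter_subset_left) hg hgen
    obtain ⟨δ, hδ, hsl⟩ := slab κ i hC hD hφ a hΩ hKΩ
    refine ⟨δ, hδ, fun b c _ hb hc => ?_⟩
    exact (show PropA M Ω from ⟨p, g, hgΩ, hgenΩ⟩).mono (hsl b c hb hc)
  · intro a b c _ hab hbc _ h1 h2
    rw [← slice_union hab hbc]
    refine attachA κ i hC (hcl _ isClosed_Icc) (hcl _ isClosed_Icc) (X := univ) ?_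
      (subset_univ _) ?_ h1 h2 ?_
    · rw [slice_inter hab hbc]; exact hA b
    · exact hdom _ (union_subset inter_subset_left inter_subset_left)
    · rw [slice_inter hab hbc]; exact (hs b M (hcoh _ inter_subset_left)).2

/-- (A) and (B) from the slices -/
theorem step (hO : Oka V) {D : Set ℂ} (hC : ∀ j, IsCompact (C j)) (hD : IsCompact D) {φ : ℂ → ℝ}
    (hφ : Continuous φ) (hA : ∀ a, Appr V (D ∩ {z | φ z = a}) univ)
    (hs : ∀ a, AB.{u, w} (Bx κ C i (D ∩ {z | φ z = a})))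
    (hs' : ∀ a, AB.{u, u} (Bx κ C i (D ∩ {z | φ z = a}))) : AB.{u, w} (Bx κ C i D) := by
  intro M hM
  refine ⟨stepA κ i hC hD hφ hA hs M hM, ?_⟩
  intro p g hg hgen s hs0
  obtain ⟨α, β, hαβ, hD2⟩ := exists_range hD hφ
  have hcl : ∀ S : Set ℝ, IsClosed S → IsCompact (D ∩ {z | φ z ∈ S}) := fun S hS =>
    hD.inter_right (hS.preimage hφ)
  have hdom : ∀ S : Set ℂ, S ⊆ D → Bx κ C i S ⊆ M.dom := fun S hS x hx =>
    (cohAt_of_coh hM (bx_mono κ i hS hx)).1
  have hcoh : ∀ S : Set ℂ, S ⊆ D → M.Coh (Bx κ C i S) := fun S hS =>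
    Coh_mono hM (bx_mono κ i hS)
  have hN : (M.relSh g).Coh (Bx κ C i D) := relSh_coh hO hM hg
  have hNA := stepA κ i hC hD hφ hA hs' (M.relSh g) hN
  have key : PropB1 M (Bx κ C i (D ∩ {z | φ z ∈ Icc α β})) g s := by
    refine interval_induction
      (R := fun a b => PropB1 M (Bx κ C i (D ∩ {z | φ z ∈ Icc a b})) g s) hαβ ?_ ?_
    · intro a _
      have hsub : Bx κ C i (D ∩ {z | φ z = a}) ⊆ Bx κ C i D := bx_mono κ i inter_subset_left
      have h1 := (hs a M (hcoh _ inter_subset_left)).2 p g (fun r x hx => hg r x (hsub hx))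
        (fun x hx => hgen x (hsub hx)) s (fun x hx => hs0 x (hsub hx))
      obtain ⟨Ω, hΩ, hKΩ, hΩB⟩ := h1.open (fun r x hx => hg r x (hsub hx))
        (fun x hx => hs0 x (hsub hx))
      obtain ⟨δ, hδ, hsl⟩ := slab κ i hC hD hφ a hΩ hKΩ
      refine ⟨δ, hδ, fun b c _ hb hc => ?_⟩
      obtain ⟨f, hf, he⟩ := hΩB
      exact ⟨f, fun r x hx => hf r x (hsl b c hb hc hx), fun x hx => he x (hsl b c hb hc hx)⟩
    · intro a b c _ hab hbc _ h1 h2
      rw [← slice_union hab hbc]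
      have hsubD : (D ∩ {z | φ z ∈ Icc a b}) ∪ (D ∩ {z | φ z ∈ Icc b c}) ⊆ D :=
        union_subset inter_subset_left inter_subset_left
      refine attachB κ i hC (hcl _ isClosed_Icc) (hcl _ isClosed_Icc) (hdom _ hsubD)
        (fun r x hx => hg r x (bx_mono κ i hsubD hx)) h1 h2
        (hNA.mono (bx_mono κ i hsubD)) ?_
      rw [slice_inter hab hbc]
      exact (hs' b (M.relSh g) (Coh_mono hN (bx_mono κ i inter_subset_left))).2
  rwa [hD2] at key

/-- (A) and (B) for a union -/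
theorem AB_union (hO : Oka V) (hC : ∀ j, IsCompact (C j)) {C' C'' X : Set ℂ}
    (hC' : IsCompact C') (hC'' : IsCompact C'') (hA : Appr V (C' ∩ C'') X) (hX : C' ∪ C'' ⊆ X)
    (h1 : AB.{u, w} (Bx κ C i C')) (h2 : AB.{u, w} (Bx κ C i C''))
    (h3 : AB.{u, w} (Bx κ C i (C' ∩ C'')))
    (h1' : AB.{u, u} (Bx κ C i C')) (h2' : AB.{u, u} (Bx κ C i C''))
    (h3' : AB.{u, u} (Bx κ C i (C' ∩ C''))) : AB.{u, w} (Bx κ C i (C' ∪ C'')) := by
  intro M hM
  have hsub' : Bx κ C i C' ⊆ Bx κ C i (C' ∪ C'') := bx_mono κ i subset_union_left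
  have hsub'' : Bx κ C i C'' ⊆ Bx κ C i (C' ∪ C'') := bx_mono κ i subset_union_right
  have hsub : Bx κ C i (C' ∩ C'') ⊆ Bx κ C i (C' ∪ C'') :=
    bx_mono κ i (inter_subset_left.trans subset_union_left)
  have hdom : Bx κ C i (C' ∪ C'') ⊆ M.dom := fun x hx => (cohAt_of_coh hM hx).1
  have hM' := h1 M (Coh_mono hM hsub')
  have hM'' := h2 M (Coh_mono hM hsub'')
  have hMi := h3 M (Coh_mono hM hsub)
  refine ⟨attachA κ i hC hC' hC'' hA hX hdom hM'.1 hM''.1 hMi.2, ?_⟩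
  intro p g hg hgen s hs
  have hN : (M.relSh g).Coh (Bx κ C i (C' ∪ C'')) := relSh_coh hO hM hg
  have hNdom : Bx κ C i (C' ∪ C'') ⊆ (M.relSh g).dom := fun x hx => (cohAt_of_coh hN hx).1
  have hNA : PropA (M.relSh g) (Bx κ C i (C' ∪ C'')) :=
    attachA κ i hC hC' hC'' hA hX hNdom (h1' _ (Coh_mono hN hsub')).1
      (h2' _ (Coh_mono hN hsub'')).1 (h3' _ (Coh_mono hN hsub)).2
  exact attachB κ i hC hC' hC'' hdom hg
    (hM'.2 p g (fun r x hx => hg r x (hsub' hx)) (fun x hx => hgen x (hsub' hx)) s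
      (fun x hx => hs x (hsub' hx)))
    (hM''.2 p g (fun r x hx => hg r x (hsub'' hx)) (fun x hx => hgen x (hsub'' hx)) s
      (fun x hx => hs x (hsub'' hx)))
    hNA (h3' _ (Coh_mono hN hsub)).2

end Pool.Agent.DQ.C
end

section

/-! Cartan's theorems (A) and (B) near compact products of plane sets: the induction. -/

set_option autoImplicit false

open Set Filter Topology

universe u v w

namespace Pool.Agent.DQ.C

variable {V : Type u} [NormedAddCommGroup V] [NormedSpace ℂ V] {n : ℕ}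

/-- the plane sets for which Cartan's theorems are proved, with their level -/
inductive Lv (V : Type u) [NormedAddCommGroup V] [NormedSpace ℂ V] : ℕ → Set ℂ → Prop
  | sub {C : Set ℂ} (h : C.Subsingleton) : Lv V 0 C
  | line {C : Set ℂ} (h : IsCompact C) (h2 : ∀ z ∈ C, ∀ w ∈ C, z.re = w.re) : Lv V 1 C
  | vconv {C : Set ℂ} (h : VConv C) : Lv V 2 C
  | union {C' C'' X : Set ℂ} {a b c k : ℕ} (h' : Lv V a C') (h'' : Lv V b C'')
      (hi : Lv V c (C' ∩ C'')) (ha : a < k) (hb : b < k) (hc : c < k)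
      (hA : Appr V (C' ∩ C'') X) (hX : C' ∪ C'' ⊆ X) : Lv V k (C' ∪ C'')

theorem Lv.isCompact {k : ℕ} {C : Set ℂ} (h : Lv V k C) : IsCompact C := by
  induction h with
  | sub h => exact h.isCompact
  | line h _ => exact h
  | vconv h => exact h.compact
  | union _ _ _ _ _ _ _ _ ih' ih'' _ => exact ih'.union ih''

theorem Lv.subsingleton {k : ℕ} {C : Set ℂ} (h : Lv V k C) (hk : k = 0) : C.Subsingleton := by
  induction h with
  | sub h => exact h
  | line _ _ => exact absurd hk (by norm_num)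
  | vconv _ => exact absurd hk (by norm_num)
  | union _ _ _ ha _ _ _ _ _ _ _ => exact absurd ha (by omega)

theorem sum_update_lt {l : Fin n → ℕ} {i : Fin n} {a : ℕ} (h : a < l i) :
    ∑ j, Function.update l i a j < ∑ j, l j := by
  refine Finset.sum_lt_sum (fun j _ => ?_) ⟨i, Finset.mem_univ i, by simpa using h⟩
  by_cases hj : j = i
  · subst hj; simpa using h.le
  · simp [Function.update_of_ne hj]

theorem appr_subsingleton {C : Set ℂ} (h : C.Subsingleton) : Appr V C univ := by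
  rcases h.eq_empty_or_singleton with h0 | ⟨z, h0⟩
  · rw [h0]; exact appr_empty _
  · rw [h0]
    have := appr_closedBall (F := V) z 0
    rwa [Metric.closedBall_zero] at this

variable (κ : V ≃L[ℂ] (Fin n → ℂ))

/-- the base of the induction -/
theorem AB_subsingleton {C : Fin n → Set ℂ} (h : ∀ j, (C j).Subsingleton) :
    AB.{u, w} (Box κ C) := by
  have hs : (Box κ C).Subsingleton := fun x hx y hy =>
    ext_coord κ fun j => h j (hx j) (hy j)
  intro M hM
  rcases hs.eq_empty_or_singleton with h0 | ⟨x, h0⟩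
  · rw [h0]
    refine ⟨⟨0, fun r => r.elim0, fun r => r.elim0, fun x hx => absurd hx (notMem_empty _)⟩, ?_⟩
    intro p g _ _ s _
    exact ⟨fun _ _ => 0, fun r x hx => absurd hx (notMem_empty _),
      fun x hx => absurd hx (notMem_empty _)⟩
  · rw [h0] at hM ⊢
    constructor
    · obtain ⟨-, ⟨p, g, hg, hgen⟩, -⟩ := cohAt_of_coh hM (mem_singleton x)
      refine ⟨p, g, fun r y hy => ?_, fun y hy => ?_⟩
      · rw [mem_singleton_iff.mp hy]; exact hg r
      · rw [mem_singleton_iff.mp hy]; exact hgen.self_of_nhds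
    · intro p g hg hgen s hs
      obtain ⟨c, hc⟩ := exists_coeff (hgen x (mem_singleton x)) (s x)
      choose f hf hfx using fun r => exists_gm (c r)
      refine ⟨f, fun r y hy => ?_, fun y hy => ?_⟩
      · rw [mem_singleton_iff.mp hy]; exact hf r
      · rw [mem_singleton_iff.mp hy, hc]
        exact Finset.sum_congr rfl fun r _ => by rw [hfx r]

theorem AB_box_aux (hO : Oka V) : ∀ (m : ℕ) (C : Fin n → Set ℂ) (l : Fin n → ℕ),
    (∀ j, Lv V (l j) (C j)) → ∑ j, l j = m →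
    AB.{u, w} (Box κ C) ∧ AB.{u, u} (Box κ C) := by
  intro m
  induction m using Nat.strong_induction_on with
  | _ m IH =>
  intro C l hl hm
  by_cases h0 : ∀ j, l j = 0
  · have hsub : ∀ j, (C j).Subsingleton := fun j => (hl j).subsingleton (h0 j)
    exact ⟨AB_subsingleton κ hsub, AB_subsingleton κ hsub⟩
  push Not at h0
  obtain ⟨i, hi⟩ := h0
  have hC : ∀ j, IsCompact (C j) := fun j => (hl j).isCompact
  -- induction hypothesis
  have ih : ∀ (S : Set ℂ) (a : ℕ), a < l i → Lv V a S →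
      AB.{u, w} (Bx κ C i S) ∧ AB.{u, u} (Bx κ C i S) := by
    intro S a ha hS
    rw [← box_update]
    refine IH (∑ j, Function.update l i a j) (by rw [← hm]; exact sum_update_lt ha) _
      (Function.update l i a) (fun j => ?_) rfl
    by_cases hj : j = i
    · subst hj; simpa using hS
    · simpa [Function.update_of_ne hj] using hl j
  rw [box_eq κ C i]
  have hli := hl i
  generalize hk : l i = k at hli hi ih
  generalize hD : C i = D at hli
  cases hli with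
  | sub h => exact absurd rfl hi
  | line h h2 =>
    have hsl : ∀ a : ℝ, (D ∩ {z | z.im = a}).Subsingleton := by
      intro a z hz w hw
      have hz2 : z.im = a := hz.2
      have hw2 : w.im = a := hw.2
      exact Complex.ext (h2 z hz.1 w hw.1) (hz2.trans hw2.symm)
    have ih2 := fun a : ℝ => ih _ 0 (by norm_num) (Lv.sub (hsl a))
    exact ⟨step κ i hO hC h Complex.continuous_im (fun a => appr_subsingleton (hsl a))
      (fun a => (ih2 a).1) (fun a => (ih2 a).2),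
      step κ i hO hC h Complex.continuous_im (fun a => appr_subsingleton (hsl a))
      (fun a => (ih2 a).2) (fun a => (ih2 a).2)⟩
  | vconv h =>
    have hsl : ∀ a : ℝ, Lv V 1 (D ∩ {z | z.re = a}) := by
      intro a
      refine Lv.line (h.compact.inter_right (isClosed_eq Complex.continuous_re
        continuous_const)) ?_
      intro z hz w hw
      have hz2 : z.re = a := hz.2
      have hw2 : w.re = a := hw.2
      rw [hz2, hw2]
    have ih2 := fun a : ℝ => ih _ 1 (by norm_num) (hsl a)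
    exact ⟨step κ i hO hC h.compact Complex.continuous_re (fun a => h.appr_section a)
      (fun a => (ih2 a).1) (fun a => (ih2 a).2),
      step κ i hO hC h.compact Complex.continuous_re (fun a => h.appr_section a)
      (fun a => (ih2 a).2) (fun a => (ih2 a).2)⟩
  | @union C' C'' X a b c _ h' h'' hin ha hb hc hA hX =>
    have i1 := ih C' a ha h'
    have i2 := ih C'' b hb h''
    have i3 := ih _ c hc hin
    exact ⟨AB_union κ i hO hC h'.isCompact h''.isCompact hA hX i1.1 i2.1 i3.1 i1.2 i2.2 i3.2,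
      AB_union κ i hO hC h'.isCompact h''.isCompact hA hX i1.2 i2.2 i3.2 i1.2 i2.2 i3.2⟩

theorem AB_box (hO : Oka V) {C : Fin n → Set ℂ} {l : Fin n → ℕ} (hl : ∀ j, Lv V (l j) (C j)) :
    AB.{u, w} (Box κ C) := (AB_box_aux κ hO _ C l hl rfl).1

/-- Induction principle for properties of compact products. -/
theorem box_ind_aux (hO : Oka V) {P : Set V → Prop} {K₀ : Set V} (hempty : P ∅)
    (hpt : ∀ x ∈ K₀, P {x}) (hmono : ∀ K L, L ⊆ K → P K → P L)
    (hopen : ∀ K, K ⊆ K₀ → IsCompact K → P K → ∃ Ω, IsOpen Ω ∧ K ⊆ Ω ∧ P Ω)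
    (hunion : ∀ (C : Fin n → Set ℂ) (i : Fin n) (C' C'' X : Set ℂ), (∀ j, IsCompact (C j)) →
      IsCompact C' → IsCompact C'' → Appr V (C' ∩ C'') X → C' ∪ C'' ⊆ X →
      Bx κ C i (C' ∪ C'') ⊆ K₀ → AB.{u, w} (Bx κ C i (C' ∩ C'')) →
      P (Bx κ C i C') → P (Bx κ C i C'') → P (Bx κ C i (C' ∪ C''))) :
    ∀ (m : ℕ) (C : Fin n → Set ℂ) (l : Fin n → ℕ), (∀ j, Lv V (l j) (C j)) → ∑ j, l j = m →
      Box κ C ⊆ K₀ → P (Box κ C) := by
  intro m
  induction m using Nat.strong_induction_on with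
  | _ m IH =>
  intro C l hl hm hK
  by_cases h0 : ∀ j, l j = 0
  · have hsub : ∀ j, (C j).Subsingleton := fun j => (hl j).subsingleton (h0 j)
    have hs : (Box κ C).Subsingleton := fun x hx y hy =>
      ext_coord κ fun j => hsub j (hx j) (hy j)
    rcases hs.eq_empty_or_singleton with h0 | ⟨x, h0⟩
    · rw [h0]; exact hempty
    · rw [h0]; exact hpt x (hK (by rw [h0]; exact mem_singleton x))
  push Not at h0
  obtain ⟨i, hi⟩ := h0
  have hC : ∀ j, IsCompact (C j) := fun j => (hl j).isCompact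
  have hlu : ∀ (S : Set ℂ) (a : ℕ), Lv V a S →
      ∀ j, Lv V (Function.update l i a j) (Function.update C i S j) := by
    intro S a hS j
    by_cases hj : j = i
    · subst hj; simpa using hS
    · simpa [Function.update_of_ne hj] using hl j
  rw [box_eq κ C i] at hK ⊢
  have hBx : ∀ S ⊆ C i, Bx κ C i S ⊆ K₀ := fun S hS => (bx_mono κ i hS).trans hK
  have ih : ∀ (S : Set ℂ) (a : ℕ), a < l i → Lv V a S → S ⊆ C i → P (Bx κ C i S) := by
    intro S a ha hS hSC
    rw [← box_update]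
    exact IH (∑ j, Function.update l i a j) (by rw [← hm]; exact sum_update_lt ha) _
      (Function.update l i a) (hlu S a hS) rfl (by rw [box_update]; exact hBx S hSC)
  have hAB : ∀ (S : Set ℂ) (a : ℕ), Lv V a S → AB.{u, w} (Bx κ C i S) := by
    intro S a hS
    rw [← box_update]
    exact AB_box κ hO (hlu S a hS)
  -- slicing
  have hslice : ∀ (D : Set ℂ) (φ : ℂ → ℝ), D = C i → Continuous φ →
      (∀ a, Appr V (D ∩ {z | φ z = a}) univ) → (∀ a, AB.{u, w} (Bx κ C i (D ∩ {z | φ z = a}))) →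
      (∀ a, P (Bx κ C i (D ∩ {z | φ z = a}))) → P (Bx κ C i D) := by
    intro D φ hD hφ hA hABs hPs
    have hDc : IsCompact D := by rw [hD]; exact hC i
    obtain ⟨α, β, hαβ, hD2⟩ := exists_range hDc hφ
    have hcl : ∀ S : Set ℝ, IsClosed S → IsCompact (D ∩ {z | φ z ∈ S}) := fun S hS =>
      hDc.inter_right (hS.preimage hφ)
    rw [← hD2]
    refine interval_induction (R := fun a b => P (Bx κ C i (D ∩ {z | φ z ∈ Icc a b}))) hαβ ?_ ?_
    · intro a _
      obtain ⟨Ω, hΩ, hKΩ, hPΩ⟩ := hopen _ (hBx _ (by rw [← hD]; exact inter_subset_left))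
        (isCompact_bx κ i hC (by
          have := hcl {a} isClosed_singleton
          simpa using this)) (hPs a)
      obtain ⟨δ, hδ, hsl⟩ := slab κ i hC hDc hφ a hΩ hKΩ
      exact ⟨δ, hδ, fun b c _ hb hc => hmono _ _ (hsl b c hb hc) hPΩ⟩
    · intro a b c _ hab hbc _ h1 h2
      rw [← slice_union hab hbc]
      refine hunion C i _ _ univ hC (hcl _ isClosed_Icc) (hcl _ isClosed_Icc) ?_
        (subset_univ _) (hBx _ (by
          rw [← hD]
          exact union_subset inter_subset_left inter_subset_left)) ?_ h1 h2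
      · rw [slice_inter hab hbc]; exact hA b
      · rw [slice_inter hab hbc]; exact hABs b
  have hli := hl i
  generalize hk : l i = k at hli hi ih
  generalize hD : C i = D at hli hslice ih
  cases hli with
  | sub h => exact absurd rfl hi
  | line h h2 =>
    have hsl : ∀ a : ℝ, (D ∩ {z | z.im = a}).Subsingleton := by
      intro a z hz w hw
      have hz2 : z.im = a := hz.2
      have hw2 : w.im = a := hw.2
      exact Complex.ext (h2 z hz.1 w hw.1) (hz2.trans hw2.symm)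
    exact hslice D _ rfl Complex.continuous_im (fun a => appr_subsingleton (hsl a))
      (fun a => hAB _ 0 (Lv.sub (hsl a)))
      (fun a => ih _ 0 (by norm_num) (Lv.sub (hsl a)) inter_subset_left)
  | vconv h =>
    have hsl : ∀ a : ℝ, Lv V 1 (D ∩ {z | z.re = a}) := by
      intro a
      refine Lv.line (h.compact.inter_right (isClosed_eq Complex.continuous_re
        continuous_const)) ?_
      intro z hz w hw
      have hz2 : z.re = a := hz.2
      have hw2 : w.re = a := hw.2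
      rw [hz2, hw2]
    exact hslice D _ rfl Complex.continuous_re (fun a => h.appr_section a)
      (fun a => hAB _ 1 (hsl a)) (fun a => ih _ 1 (by norm_num) (hsl a) inter_subset_left)
  | @union C' C'' X a b c _ h' h'' hin ha hb hc hA hX =>
    refine hunion C i C' C'' X hC h'.isCompact h''.isCompact hA hX ?_ (hAB _ c hin)
      (ih C' a ha h' subset_union_left) (ih C'' b hb h'' subset_union_right)
    exact hBx _ (by rw [hD])

theorem box_ind (hO : Oka V) {P : Set V → Prop} {K₀ : Set V} (hempty : P ∅)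
    (hpt : ∀ x ∈ K₀, P {x}) (hmono : ∀ K L, L ⊆ K → P K → P L)
    (hopen : ∀ K, K ⊆ K₀ → IsCompact K → P K → ∃ Ω, IsOpen Ω ∧ K ⊆ Ω ∧ P Ω)
    (hunion : ∀ (C : Fin n → Set ℂ) (i : Fin n) (C' C'' X : Set ℂ), (∀ j, IsCompact (C j)) →
      IsCompact C' → IsCompact C'' → Appr V (C' ∩ C'') X → C' ∪ C'' ⊆ X →
      Bx κ C i (C' ∪ C'') ⊆ K₀ → AB.{u, w} (Bx κ C i (C' ∩ C'')) →
      P (Bx κ C i C') → P (Bx κ C i C'') → P (Bx κ C i (C' ∪ C'')))
    {C : Fin n → Set ℂ} {l : Fin n → ℕ} (hl : ∀ j, Lv V (l j) (C j)) (hK : Box κ C ⊆ K₀) :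
    P (Box κ C) :=
  box_ind_aux κ hO hempty hpt hmono hopen hunion _ C l hl rfl hK

/-! ### discs and annuli -/

theorem lv_disc (c : ℂ) (R : ℝ) : Lv V 2 (Metric.closedBall c R) := Lv.vconv (vconv_closedBall c R)

theorem lv_annulus (c : ℂ) {r R : ℝ} (hr : 0 < r) (hrR : r ≤ R) :
    Lv V 4 {z : ℂ | r ≤ ‖z - c‖ ∧ ‖z - c‖ ≤ R} := by
  obtain ⟨h1, h2⟩ := vconv_halfAnnulus c r R hr.le (hr.le.trans hrR)
  have hu : {z : ℂ | c.im ≤ z.im ∧ r ≤ ‖z - c‖ ∧ ‖z - c‖ ≤ R} ∪
      {z : ℂ | z.im ≤ c.im ∧ r ≤ ‖z - c‖ ∧ ‖z - c‖ ≤ R} =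
      {z : ℂ | r ≤ ‖z - c‖ ∧ ‖z - c‖ ≤ R} := by
    ext z
    simp only [mem_union, mem_ofPred_eq]
    constructor
    · rintro (h | h)
      · exact h.2
      · exact h.2
    · intro h
      rcases le_total c.im z.im with h' | h'
      · exact Or.inl ⟨h', h⟩
      · exact Or.inr ⟨h', h⟩
  have hi : {z : ℂ | c.im ≤ z.im ∧ r ≤ ‖z - c‖ ∧ ‖z - c‖ ≤ R} ∩
      {z : ℂ | z.im ≤ c.im ∧ r ≤ ‖z - c‖ ∧ ‖z - c‖ ≤ R} =
      {z : ℂ | z.im = c.im ∧ r ≤ ‖z - c‖ ∧ ‖z - c‖ ≤ R} := by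
    ext z
    simp only [mem_inter_iff, mem_ofPred_eq]
    constructor
    · rintro ⟨⟨a, b⟩, ⟨c, _⟩⟩
      exact ⟨le_antisymm c a, b⟩
    · rintro ⟨a, b⟩
      exact ⟨⟨a.ge, b⟩, ⟨a.le, b⟩⟩
  -- the two horizontal segments
  have hc0 := isCompact_hpair c r R
  have v1 : VConv ({z : ℂ | z.im = c.im ∧ r ≤ ‖z - c‖ ∧ ‖z - c‖ ≤ R} ∩ {z | c.re ≤ z.re}) := by
    refine ⟨hc0.inter_right (isClosed_le continuous_const Complex.continuous_re), ?_⟩
    intro z hz w hw e y hy1 hy2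
    have e1 : z.im = c.im := hz.1.1
    have e2 : w.im = c.im := hw.1.1
    have e3 : y = z.im := le_antisymm (by rw [e1, ← e2]; exact hy2) hy1
    rw [e3]
    exact hz
  have v2 : VConv ({z : ℂ | z.im = c.im ∧ r ≤ ‖z - c‖ ∧ ‖z - c‖ ≤ R} ∩ {z | z.re ≤ c.re}) := by
    refine ⟨hc0.inter_right (isClosed_le Complex.continuous_re continuous_const), ?_⟩
    intro z hz w hw e y hy1 hy2
    have e1 : z.im = c.im := hz.1.1
    have e2 : w.im = c.im := hw.1.1
    have e3 : y = z.im := le_antisymm (by rw [e1, ← e2]; exact hy2) hy1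
    rw [e3]
    exact hz
  have hdisj : ({z : ℂ | z.im = c.im ∧ r ≤ ‖z - c‖ ∧ ‖z - c‖ ≤ R} ∩ {z | c.re ≤ z.re}) ∩
      ({z : ℂ | z.im = c.im ∧ r ≤ ‖z - c‖ ∧ ‖z - c‖ ≤ R} ∩ {z | z.re ≤ c.re}) = ∅ := by
    rw [Set.eq_empty_iff_forall_notMem]
    rintro z ⟨⟨⟨h3, h4, _⟩, h5⟩, ⟨_, h6⟩⟩
    have : z = c := Complex.ext (le_antisymm h6 h5) h3
    rw [this, sub_self, norm_zero] at h4
    linarith
  have l3 : Lv V 3 {z : ℂ | z.im = c.im ∧ r ≤ ‖z - c‖ ∧ ‖z - c‖ ≤ R} := by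
    have h3 := Lv.union (k := 3) (X := univ) (Lv.vconv (V := V) v1) (Lv.vconv (V := V) v2)
      (c := 0) (by rw [hdisj]; exact Lv.sub subsingleton_empty) (by norm_num) (by norm_num)
      (by norm_num) (by rw [hdisj]; exact appr_empty _) (subset_univ _)
    rw [← inter_union_distrib_left] at h3
    have hun : {z : ℂ | c.re ≤ z.re} ∪ {z : ℂ | z.re ≤ c.re} = univ := by
      ext z
      simp only [mem_union, mem_ofPred_eq, mem_univ, iff_true]
      exact le_total _ _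
    rwa [hun, inter_univ] at h3
  have h4 := Lv.union (k := 4) (X := {c}ᶜ) (Lv.vconv (V := V) h1) (Lv.vconv (V := V) h2)
    (c := 3) (by rw [hi]; exact l3) (by norm_num) (by norm_num) (by norm_num)
    (by rw [hi]; exact appr_hpair c hr hrR) (by
      rw [hu]
      rintro z ⟨hz, _⟩ rfl
      rw [sub_self, norm_zero] at hz
      linarith)
  rwa [hu] at h4

end Pool.Agent.DQ.C
end

section

/-! Approximation on products; exhaustion of discs and annuli. -/

set_option autoImplicit false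

open Set Filter Topology

universe u v w

namespace Pool.Agent.DQ.C

variable {V : Type u} [NormedAddCommGroup V] [NormedSpace ℂ V] {n : ℕ}
variable (κ : V ≃L[ℂ] (Fin n → ℂ))

/-- approximation in all coordinates -/
theorem appr_box {C D X : Fin n → Set ℂ} (hC : ∀ j, IsCompact (C j)) (hD : ∀ j, IsCompact (D j))
    (hA : ∀ j, Appr V (C j) (X j)) (hCD : ∀ j, C j ⊆ D j) (hDX : ∀ j, D j ⊆ X j) {f : V → ℂ}
    (hf : HolNear f (Box κ C)) {ε : ℝ} (hε : 0 < ε) :
    ∃ g : V → ℂ, HolNear g (Box κ D) ∧ ∀ x ∈ Box κ C, ‖f x - g x‖ ≤ ε := by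
  classical
  have key : ∀ S : Finset (Fin n), ∀ ε : ℝ, 0 < ε →
      ∃ g : V → ℂ, HolNear g (Box κ (S.piecewise D C)) ∧ ∀ x ∈ Box κ C, ‖f x - g x‖ ≤ ε := by
    intro S
    induction S using Finset.induction_on with
    | empty =>
      intro ε hε
      refine ⟨f, by simpa using hf, fun x hx => ?_⟩
      rw [sub_self, norm_zero]
      exact hε.le
    | insert a S ha ih =>
      intro ε hε
      obtain ⟨g, hg, hgb⟩ := ih (ε / 2) (half_pos hε)
      have hS : ∀ j, IsCompact (S.piecewise D C j) := by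
        intro j
        by_cases hj : j ∈ S
        · simpa [hj] using hD j
        · simpa [hj] using hC j
      have hSa : S.piecewise D C a = C a := by simp [ha]
      have hg2 := hg
      rw [box_eq κ _ a, hSa] at hg2
      obtain ⟨Ω, hΩ, hsub, happ⟩ := appr_bx κ a hS (hA a) hg2
      obtain ⟨h, hh, -, hhb⟩ := happ (ε / 2) (half_pos hε)
      refine ⟨h, ?_, fun x hx => ?_⟩
      · rw [Finset.piecewise_insert, box_update]
        exact hh.mono (bx_mono κ a (hDX a))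
      · have hx2 : x ∈ Ω := by
          refine hsub ⟨hx a, fun j hj => ?_⟩
          by_cases hj : j ∈ S
          · simpa [hj] using hCD j (hx j)
          · simpa [hj] using hx j
        calc ‖f x - h x‖ = ‖(f x - g x) + (g x - h x)‖ := by congr 1; ring
          _ ≤ ε / 2 + ε / 2 := (norm_add_le _ _).trans (add_le_add (hgb x hx) (hhb x hx2))
          _ = ε := by ring
  obtain ⟨g, hg, hgb⟩ := key Finset.univ ε hε
  exact ⟨g, by simpa using hg, hgb⟩

/-! ### closed and open rings -/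

theorem cring_of_nonpos {c : ℂ} {r R : ℝ} (hr : r ≤ 0) : cring c r R = Metric.closedBall c R := by
  ext z
  simp only [cring, mem_ofPred_eq, Metric.mem_closedBall, dist_eq_norm]
  exact ⟨fun h => h.2, fun h => ⟨hr.trans (norm_nonneg _), h⟩⟩

theorem lv_cring (c : ℂ) (r R : ℝ) : ∃ l, Lv V l (cring c r R) := by
  rcases le_or_gt r 0 with hr | hr
  · rw [cring_of_nonpos hr]
    exact ⟨2, lv_disc c R⟩
  rcases le_or_gt r R with hR | hR
  · exact ⟨4, lv_annulus c hr hR⟩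
  · have : cring c r R = ∅ := by
      rw [Set.eq_empty_iff_forall_notMem]
      rintro z ⟨h1, h2⟩
      linarith
    rw [this]
    exact ⟨0, Lv.sub subsingleton_empty⟩

theorem isOpen_ring (c : ℂ) (r R : ℝ) : IsOpen (ring c r R) := by
  have h : Continuous fun z : ℂ => ‖z - c‖ := by fun_prop
  exact (isOpen_lt continuous_const h).inter (isOpen_lt h continuous_const)

theorem cbox_eq (c : Fin n → ℂ) (r R : Fin n → ℝ) :
    cbox κ c r R = Box κ (fun j => cring (c j) (r j) (R j)) := rfl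

theorem box_eq' (c : Fin n → ℂ) (r R : Fin n → ℝ) :
    box κ c r R = Box κ (fun j => ring (c j) (r j) (R j)) := rfl

theorem isOpen_Box {C : Fin n → Set ℂ} (hC : ∀ j, IsOpen (C j)) : IsOpen (Box κ C) := by
  have h1 : Box κ C = ⋂ j, (fun x : V => κ x j) ⁻¹' C j := by
    ext x; simp [Box]
  rw [h1]
  exact isOpen_iInter_of_finite fun j => (hC j).preimage (continuous_coord κ j)

variable (V) in
/-- exhaustion of an open disc or annulus -/
theorem exh (c : ℂ) {r R : ℝ} (h0 : r ≠ 0) (hrR : r < R) (hR : 0 < R) :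
    ∃ (ρ P : ℕ → ℝ) (X : Set ℂ), (∀ ν, Appr V (cring c (ρ ν) (P ν)) X) ∧ cring c r R ⊆ X ∧
      (∀ ν, cring c (ρ ν) (P ν) ⊆ ring c r R) ∧
      (∀ ν, cring c (ρ ν) (P ν) ⊆ cring c (ρ (ν + 1)) (P (ν + 1))) ∧
      (∀ ν, ring c (ρ ν) (P ν) ⊆ ring c (ρ (ν + 1)) (P (ν + 1))) ∧
      ∀ z ∈ ring c r R, ∀ᶠ ν in atTop, z ∈ ring c (ρ ν) (P ν) := by
  have hlim : Tendsto (fun ν : ℕ => ((ν : ℝ) + 3)⁻¹) atTop (𝓝 0) :=
    tendsto_inv_atTop_zero.comp
      (tendsto_atTop_add_const_right _ _ tendsto_natCast_atTop_atTop)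
  have hpos : ∀ ν : ℕ, 0 < ((ν : ℝ) + 3)⁻¹ := fun ν => by positivity
  have hdec : ∀ ν : ℕ, (((ν + 1 : ℕ) : ℝ) + 3)⁻¹ ≤ ((ν : ℝ) + 3)⁻¹ := fun ν => by
    apply inv_anti₀ (by positivity)
    push_cast
    linarith
  have hthird : ∀ ν : ℕ, ((ν : ℝ) + 3)⁻¹ ≤ 1 / 3 := fun ν => by
    rw [one_div]
    apply inv_anti₀ (by norm_num)
    linarith [(Nat.cast_nonneg ν : (0 : ℝ) ≤ ν)]
  rcases lt_or_gt_of_ne h0 with hr | hr
  · refine ⟨fun _ => r, fun ν => R - R * ((ν : ℝ) + 3)⁻¹, univ, fun ν => ?_, subset_univ _,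
      fun ν => ?_, fun ν => ?_, fun ν => ?_, ?_⟩
    · rw [cring_of_nonpos hr.le]
      exact appr_closedBall _ _
    · rintro z ⟨-, h2⟩
      exact ⟨hr.trans_le (norm_nonneg _), by nlinarith [hpos ν]⟩
    · rintro z ⟨h1, h2⟩
      exact ⟨h1, by nlinarith [hdec ν]⟩
    · rintro z ⟨h1, h2⟩
      exact ⟨h1, by nlinarith [hdec ν]⟩
    · rintro z ⟨h1, h2⟩
      have h3 : Tendsto (fun ν : ℕ => R - R * ((ν : ℝ) + 3)⁻¹) atTop (𝓝 (R - R * 0)) :=
        tendsto_const_nhds.sub (hlim.const_mul R)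
      rw [mul_zero, sub_zero] at h3
      filter_upwards [h3.eventually (lt_mem_nhds h2)] with ν hν
      exact ⟨h1, hν⟩
  · have hd : 0 < R - r := by linarith
    refine ⟨fun ν => r + (R - r) * ((ν : ℝ) + 3)⁻¹, fun ν => R - (R - r) * ((ν : ℝ) + 3)⁻¹, {c}ᶜ,
      fun ν => ?_, ?_, fun ν => ?_, fun ν => ?_, fun ν => ?_, ?_⟩
    · refine appr_annulus c ?_ ?_
      · nlinarith [hpos ν, mul_pos hd (hpos ν)]
      · nlinarith [hthird ν]
    · rintro z ⟨h1, _⟩ rfl
      rw [sub_self, norm_zero] at h1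
      linarith
    · rintro z ⟨h1, h2⟩
      exact ⟨by nlinarith [mul_pos hd (hpos ν)], by nlinarith [mul_pos hd (hpos ν)]⟩
    · rintro z ⟨h1, h2⟩
      exact ⟨by nlinarith [hdec ν], by nlinarith [hdec ν]⟩
    · rintro z ⟨h1, h2⟩
      exact ⟨by nlinarith [hdec ν], by nlinarith [hdec ν]⟩
    · rintro z ⟨h1, h2⟩
      have h3 : Tendsto (fun ν : ℕ => R - (R - r) * ((ν : ℝ) + 3)⁻¹) atTop
          (𝓝 (R - (R - r) * 0)) := tendsto_const_nhds.sub (hlim.const_mul (R - r))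
      have h4 : Tendsto (fun ν : ℕ => r + (R - r) * ((ν : ℝ) + 3)⁻¹) atTop
          (𝓝 (r + (R - r) * 0)) := tendsto_const_nhds.add (hlim.const_mul (R - r))
      rw [mul_zero, sub_zero] at h3
      rw [mul_zero, add_zero] at h4
      filter_upwards [h3.eventually (lt_mem_nhds h2), h4.eventually (gt_mem_nhds h1)] with ν a b
      exact ⟨b, a⟩

end Pool.Agent.DQ.C
end

section

/-! Torsors under coherent sheaves near compact products of plane sets. -/

set_option autoImplicit false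

open Set Filter Topology

universe u v w

namespace Pool.Agent.DQ.C

variable {V : Type u} [NormedAddCommGroup V] [NormedSpace ℂ V] {n : ℕ}

/-- linear combination of sections with functions as coefficients -/
noncomputable def comb (F : EMod.{u, u, w} (O V)) {p : ℕ} (g : Fin p → (x : V) → F.St x)
    (c : Fin p → V → ℂ) (x : V) : F.St x := ∑ r, gm (c r) x • g r x

theorem comb_at {F : EMod.{u, u, w} (O V)} {p : ℕ} {g : Fin p → (x : V) → F.St x}
    {c : Fin p → V → ℂ} {x : V} (hx : x ∈ F.dom) (hg : ∀ r, F.At (g r) x)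
    (hc : ∀ r, HolAt (c r) x) : F.At (comb F g c) x :=
  F.at_comb hx (fun r => at_gm (hc r)) hg

theorem comb_congr {F : EMod.{u, u, w} (O V)} {p : ℕ} (g : Fin p → (x : V) → F.St x)
    {c c' : Fin p → V → ℂ} {x : V} (hc : ∀ r, HolAt (c r) x) (h : ∀ r, c r =ᶠ[𝓝 x] c' r) :
    comb F g c x = comb F g c' x := by
  unfold comb
  exact Finset.sum_congr rfl fun r _ => by rw [gm_congr (hc r) (h r)]

theorem comb_sub {F : EMod.{u, u, w} (O V)} {p : ℕ} (g : Fin p → (x : V) → F.St x)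
    {c c' : Fin p → V → ℂ} {x : V} (hc : ∀ r, HolAt (c r) x) (hc' : ∀ r, HolAt (c' r) x) :
    comb F g (fun r y => c r y - c' r y) x = comb F g c x - comb F g c' x := by
  unfold comb
  rw [← Finset.sum_sub_distrib]
  refine Finset.sum_congr rfl fun r _ => ?_
  rw [gm_sub' (hc r) (hc' r)]
  exact sub_smul (gm (c r) x) (gm (c' r) x) (g r x)

theorem comb_add {F : EMod.{u, u, w} (O V)} {p : ℕ} (g : Fin p → (x : V) → F.St x)
    {c c' : Fin p → V → ℂ} {x : V} (hc : ∀ r, HolAt (c r) x) (hc' : ∀ r, HolAt (c' r) x) :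
    comb F g (fun r y => c r y + c' r y) x = comb F g c x + comb F g c' x := by
  unfold comb
  rw [← Finset.sum_add_distrib]
  refine Finset.sum_congr rfl fun r _ => ?_
  have h1 : gm (fun y => c r y + c' r y) x = gm (c r) x + gm (c' r) x :=
    gm_add (hc r) (hc' r)
  rw [h1]
  exact add_smul (gm (c r) x) (gm (c' r) x) (g r x)

theorem comb_neg {F : EMod.{u, u, w} (O V)} {p : ℕ} (g : Fin p → (x : V) → F.St x)
    {c : Fin p → V → ℂ} {x : V} (hc : ∀ r, HolAt (c r) x) :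
    comb F g (fun r y => - c r y) x = - comb F g c x := by
  unfold comb
  rw [← Finset.sum_neg_distrib]
  refine Finset.sum_congr rfl fun r _ => ?_
  have h1 : gm (fun y => - c r y) x = - gm (c r) x := gm_neg (hc r)
  rw [h1]
  exact neg_smul (gm (c r) x) (g r x)

/-- torsor sheaves under `F` -/
structure IsTors (F : EMod.{u, u, w} (O V)) {G : V → Type v} [∀ x, AddTorsor (F.St x) (G x)]
    (AtG : ((x : V) → G x) → V → Prop) : Prop where
  ev : ∀ s x, AtG s x → ∀ᶠ y in 𝓝 x, AtG s y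
  congr : ∀ s t x, AtG s x → (∀ᶠ y in 𝓝 x, s y = t y) → AtG t x
  add : ∀ f s x, F.At f x → AtG s x → AtG (fun y => f y +ᵥ s y) x
  sub : ∀ s t x, AtG s x → AtG t x → F.At (fun y => s y -ᵥ t y) x

variable (κ : V ≃L[ℂ] (Fin n → ℂ))

theorem tors_compact (hO : Oka V) {F : EMod.{u, u, w} (O V)} {G : V → Type v}
    [∀ x, AddTorsor (F.St x) (G x)] {AtG : ((x : V) → G x) → V → Prop} (hT : IsTors F AtG)
    {C : Fin n → Set ℂ} {l : Fin n → ℕ} (hl : ∀ j, Lv V (l j) (C j)) (hF : F.Coh (Box κ C))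
    (loc : ∀ x ∈ Box κ C, ∃ s, AtG s x) : ∃ s, ∀ x ∈ Box κ C, AtG s x := by
  classical
  obtain ⟨⟨p, g, hg, hgen⟩, -⟩ := AB_box.{u, w} κ hO hl F hF
  refine box_ind.{u, w} κ hO (P := fun K => ∃ s, ∀ x ∈ K, AtG s x) (K₀ := Box κ C)
    ?_ ?_ ?_ ?_ ?_ hl subset_rfl
  · exact ⟨fun x => Classical.choice (AddTorsor.nonempty (G := F.St x) (P := G x)),
      fun x hx => absurd hx (notMem_empty _)⟩
  · intro x hx
    obtain ⟨s, hs⟩ := loc x hx
    exact ⟨s, fun y hy => by rw [mem_singleton_iff.mp hy]; exact hs⟩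
  · rintro K L hL ⟨s, hs⟩
    exact ⟨s, fun x hx => hs x (hL hx)⟩
  · rintro K - - ⟨s, hs⟩
    exact ⟨{x | AtG s x}, isOpen_iff_mem_nhds.mpr fun x hx => hT.ev s x hx, hs, s,
      fun x hx => hx⟩
  · rintro C₁ i C' C'' X hC₁ hC' hC'' hA hX hK hAB ⟨s', hs'⟩ ⟨s'', hs''⟩
    have hsub' : Bx κ C₁ i (C' ∩ C'') ⊆ Bx κ C₁ i C' := bx_mono κ i inter_subset_left
    have hsub'' : Bx κ C₁ i (C' ∩ C'') ⊆ Bx κ C₁ i C'' := bx_mono κ i inter_subset_right
    have hsub : Bx κ C₁ i (C' ∩ C'') ⊆ Box κ C :=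
      (bx_mono κ i (inter_subset_left.trans subset_union_left)).trans hK
    have hK' : Bx κ C₁ i C' ⊆ Box κ C := (bx_mono κ i subset_union_left).trans hK
    have hK'' : Bx κ C₁ i C'' ⊆ Box κ C := (bx_mono κ i subset_union_right).trans hK
    have hdom : ∀ x ∈ Box κ C, x ∈ F.dom := fun x hx => (cohAt_of_coh hF hx).1
    have hδ : ∀ x ∈ Bx κ C₁ i (C' ∩ C''), F.At (fun y => s' y -ᵥ s'' y) x := fun x hx =>
      hT.sub s' s'' x (hs' x (hsub' hx)) (hs'' x (hsub'' hx))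
    obtain ⟨c, hc, ec⟩ := (hAB F (Coh_mono hF hsub)).2 p g (fun r x hx => hg r x (hsub hx))
      (fun x hx => hgen x (hsub hx)) _ hδ
    choose c' c'' hc' hc'' ecc using fun r => split_bx κ i hC₁ hC' hC'' (hc r)
    -- the two sections
    have hnear : ∀ x ∈ Bx κ C₁ i C' ∩ Bx κ C₁ i C'', ∀ᶠ y in 𝓝 x,
        comb F g (fun r z => - c' r z) y +ᵥ s' y = comb F g (fun r z => - c'' r z) y +ᵥ s'' y := by
      intro x hx
      rw [bx_inter] at hx
      have h1 : ∀ᶠ y in 𝓝 x, s' y -ᵥ s'' y = comb F g c y :=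
        F.inj (hδ x hx) (comb_at (hdom x (hsub hx)) (fun r => hg r x (hsub hx))
          (fun r => hc r x hx)) (ec x hx)
      have h2 : ∀ᶠ y in 𝓝 x, ∀ r, c r =ᶠ[𝓝 y] fun z => c' r z - c'' r z :=
        eventually_all.mpr fun r => eventually_eventually_nhds.mpr (ecc r x hx)
      have h3 : ∀ᶠ y in 𝓝 x, ∀ r, HolAt (c r) y :=
        eventually_all.mpr fun r => (hc r x hx).eventually
      have h4 : ∀ᶠ y in 𝓝 x, ∀ r, HolAt (c' r) y :=
        eventually_all.mpr fun r => (hc' r x (hsub' hx)).eventually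
      have h5 : ∀ᶠ y in 𝓝 x, ∀ r, HolAt (c'' r) y :=
        eventually_all.mpr fun r => (hc'' r x (hsub'' hx)).eventually
      filter_upwards [h1, h2, h3, h4, h5] with y e1 e2 e3 e4 e5
      rw [comb_neg g e4, comb_neg g e5]
      have e6 : s' y = (comb F g c' y - comb F g c'' y) +ᵥ s'' y := by
        rw [← comb_sub g e4 e5, ← comb_congr g e3 e2, ← e1, vsub_vadd]
      rw [e6, vadd_vadd]
      congr 1
      abel
    obtain ⟨σ, hσ', hσ''⟩ := glue
      (fun y => comb F g (fun r z => - c' r z) y +ᵥ s' y)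
      (fun y => comb F g (fun r z => - c'' r z) y +ᵥ s'' y)
      (isCompact_bx κ i hC₁ hC') (isCompact_bx κ i hC₁ hC'') hnear
    refine ⟨σ, fun x hx => ?_⟩
    rw [← bx_union] at hx
    rcases hx with hx | hx
    · refine hT.congr _ _ x (hT.add _ _ x (comb_at (hdom x (hK' hx))
        (fun r => hg r x (hK' hx)) (fun r => (hc' r x hx).neg)) (hs' x hx)) ?_
      filter_upwards [hσ' x hx] with y hy using hy.symm
    · refine hT.congr _ _ x (hT.add _ _ x (comb_at (hdom x (hK'' hx))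
        (fun r => hg r x (hK'' hx)) (fun r => (hc'' r x hx).neg)) (hs'' x hx)) ?_
      filter_upwards [hσ'' x hx] with y hy using hy.symm

end Pool.Agent.DQ.C
end

section

/-! Torsors under coherent sheaves over open products of discs and annuli. -/

set_option autoImplicit false

open Set Filter Topology

universe u v w

namespace Pool.Agent.DQ.C

variable {V : Type u} [NormedAddCommGroup V] [NormedSpace ℂ V] {n : ℕ}
variable (κ : V ≃L[ℂ] (Fin n → ℂ))

theorem box_subset_cbox (c : Fin n → ℂ) (r R : Fin n → ℝ) : box κ c r R ⊆ cbox κ c r R :=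
  fun _ hx i => ⟨(hx i).1.le, (hx i).2.le⟩

theorem tors_open (hO : Oka V) {F : EMod.{u, u, w} (O V)} {G : V → Type v}
    [∀ x, AddTorsor (F.St x) (G x)] {AtG : ((x : V) → G x) → V → Prop} (hT : IsTors F AtG)
    (c : Fin n → ℂ) (r R : Fin n → ℝ) (hrR : GoodRadii r R) (hF : F.Coh (cbox κ c r R))
    (loc : ∀ x ∈ box κ c r R, ∃ s, AtG s x) : ∃ s, ∀ x ∈ box κ c r R, AtG s x := by
  classical
  choose ρ P X hA hX hsub hmc hmo hex using
    fun j => exh V (c j) (hrR j).1 (hrR j).2.1 (hrR j).2.2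
  set K : ℕ → Set V := fun ν => Box κ (fun j => cring (c j) (ρ j ν) (P j ν)) with hK
  set U : ℕ → Set V := fun ν => Box κ (fun j => ring (c j) (ρ j ν) (P j ν)) with hU
  have hUo : ∀ ν, IsOpen (U ν) := fun ν => isOpen_Box κ fun j => isOpen_ring _ _ _
  have hUK : ∀ ν, U ν ⊆ K ν := fun ν x hx j => ⟨(hx j).1.le, (hx j).2.le⟩
  have hKK : ∀ ν, K ν ⊆ K (ν + 1) := fun ν x hx j => hmc j ν (hx j)
  have hUU : ∀ ν, U ν ⊆ U (ν + 1) := fun ν x hx j => hmo j ν (hx j)
  have hKm : Monotone K := monotone_nat_of_le_succ hKK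
  have hUm : Monotone U := monotone_nat_of_le_succ hUU
  have hKbox : ∀ ν, K ν ⊆ box κ c r R := fun ν x hx j => hsub j ν (hx j)
  have hKc : ∀ ν, K ν ⊆ cbox κ c r R := fun ν => (hKbox ν).trans (box_subset_cbox κ c r R)
  have hcover : ∀ x ∈ box κ c r R, ∃ ν, x ∈ U ν := by
    intro x hx
    have h1 : ∀ᶠ ν in atTop, ∀ j, κ x j ∈ ring (c j) (ρ j ν) (P j ν) :=
      eventually_all.mpr fun j => hex j _ (hx j)
    exact h1.exists
  have hdom : ∀ x ∈ cbox κ c r R, x ∈ F.dom := fun x hx => (cohAt_of_coh hF hx).1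
  choose l hl using fun j => lv_cring (V := V) (c j) (r j) (R j)
  choose lν hlν using fun (ν : ℕ) (j : Fin n) => lv_cring (V := V) (c j) (ρ j ν) (P j ν)
  obtain ⟨⟨p, g, hg, hgen⟩, -⟩ := AB_box.{u, w} κ hO hl F hF
  have hgK : ∀ ν, ∀ i, F.On (g i) (K ν) := fun ν i x hx => hg i x (hKc ν hx)
  choose s hs using fun ν => tors_compact κ hO hT (hlν ν) (Coh_mono hF (hKc ν))
    (fun x hx => loc x (hKbox ν hx))
  have hδ : ∀ ν, F.On (fun y => s (ν + 1) y -ᵥ s ν y) (K ν) := fun ν x hx =>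
    hT.sub _ _ x (hs (ν + 1) x (hKK ν hx)) (hs ν x hx)
  choose co hco eco using fun ν => (AB_box.{u, w} κ hO (hlν ν) F (Coh_mono hF (hKc ν))).2 p g
    (hgK ν) (fun x hx => hgen x (hKc ν hx)) _ (hδ ν)
  have hcompC : ∀ ν j, IsCompact (cring (c j) (ρ j ν) (P j ν)) := fun ν j => (hlν ν j).isCompact
  have hcompD : ∀ j, IsCompact (cring (c j) (r j) (R j)) := fun j => (hl j).isCompact
  choose a ha hab using fun ν i => appr_box κ (hcompC ν) hcompD (fun j => hA j ν)
    (fun j z hz => ⟨((hsub j ν) hz).1.le, ((hsub j ν) hz).2.le⟩) hX (hco ν i)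
    (ε := (1 / 2 : ℝ) ^ ν) (by positivity)
  -- the corrections
  set d : ℕ → Fin p → V → ℂ := fun ν i z => co ν i z - a ν i z with hd
  have hdb : ∀ ν i, ∀ z ∈ K ν, ‖d ν i z‖ ≤ (1 / 2 : ℝ) ^ ν := fun ν i z hz => hab ν i z hz
  have hdh : ∀ ν i, HolNear (d ν i) (K ν) := fun ν i x hx =>
    (hco ν i x hx).sub (ha ν i x (hKc ν hx))
  set e : ℕ → Fin p → V → ℂ := fun ν i z => ∑' k, d (ν + k) i z with he
  have hgeo : Summable fun k : ℕ => (1 / 2 : ℝ) ^ k := summable_geometric_two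
  have hgeo' : ∀ ν, Summable fun k : ℕ => (1 / 2 : ℝ) ^ (ν + k) := fun ν => by
    simp only [pow_add]
    exact hgeo.mul_left _
  have hsum : ∀ ν i, ∀ z ∈ K ν, Summable fun k => d (ν + k) i z := fun ν i z hz =>
    Summable.of_norm_bounded (hgeo' ν) fun k => hdb (ν + k) i z (hKm (Nat.le_add_right ν k) hz)
  have heh : ∀ ν i, HolNear (e ν i) (U ν) := by
    intro ν i
    rw [holNear_iff_differentiableOn (hUo ν)]
    refine differentiableOn_tsum (hUo ν) (hgeo' ν) (fun k => ?_) (fun k x hx => ?_)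
    · rw [← holNear_iff_differentiableOn (hUo ν)]
      exact (hdh (ν + k) i).mono ((hUK ν).trans (hKm (Nat.le_add_right ν k)))
    · exact hdb (ν + k) i x (hKm (Nat.le_add_right ν k) (hUK ν hx))
  have hes : ∀ ν i, ∀ z ∈ K ν, e ν i z = d ν i z + e (ν + 1) i z := by
    intro ν i z hz
    simp only [he]
    rw [(hsum ν i z hz).tsum_eq_zero_add, Nat.add_zero]
    congr 1
    refine tsum_congr fun k => ?_
    rw [show ν + (k + 1) = ν + 1 + k by omega]
  set b : ℕ → Fin p → V → ℂ := fun ν i z => e ν i z - ∑ μ ∈ Finset.range ν, a μ i z with hb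
  have hbh : ∀ ν, ∀ x ∈ U ν, ∀ i, HolAt (b ν i) x := fun ν x hx i =>
    (heh ν i x hx).sub (HolAt.sum _ fun μ _ => ha μ i x (hKc ν (hUK ν hx)))
  set σ : ℕ → (x : V) → G x := fun ν y => comb F g (b ν) y +ᵥ s ν y with hσ
  have hσat : ∀ ν, ∀ x ∈ U ν, AtG (σ ν) x := fun ν x hx =>
    hT.add _ _ x (comb_at (hdom x (hKc ν (hUK ν hx))) (fun i => hgK ν i x (hUK ν hx))
      (hbh ν x hx)) (hs ν x (hUK ν hx))
  have hσs : ∀ ν, ∀ x ∈ U ν, σ (ν + 1) x = σ ν x := by
    intro ν x hx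
    have h1 : s (ν + 1) x = comb F g (co ν) x +ᵥ s ν x := by
      have h2 : s (ν + 1) x -ᵥ s ν x = comb F g (co ν) x := eco ν x (hUK ν hx)
      rw [← h2, vsub_vadd]
    simp only [hσ]
    rw [h1, vadd_vadd, ← comb_add g (hbh (ν + 1) x (hUU ν hx)) (fun i => hco ν i x (hUK ν hx))]
    congr 1
    refine comb_congr g (fun i => (hbh (ν + 1) x (hUU ν hx) i).add (hco ν i x (hUK ν hx)))
      fun i => ?_
    filter_upwards [(hUo ν).mem_nhds hx] with z hz
    simp only [hb]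
    rw [Finset.sum_range_succ, hes ν i z (hUK ν hz)]
    simp only [hd]
    ring
  have hσm : ∀ μ, ∀ x ∈ U μ, ∀ ν, μ ≤ ν → σ ν x = σ μ x := by
    intro μ x hx ν hμν
    induction ν, hμν using Nat.le_induction with
    | base => rfl
    | succ ν hν ih => rw [hσs ν x (hUm hν hx), ih]
  refine ⟨fun x => if h : ∃ ν, x ∈ U ν then σ (Nat.find h) x else s 0 x, fun x hx => ?_⟩
  obtain ⟨ν, hν⟩ := hcover x hx
  refine hT.congr _ _ x (hσat ν x hν) ?_
  filter_upwards [(hUo ν).mem_nhds hν] with y hy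
  have h : ∃ ν, y ∈ U ν := ⟨ν, hy⟩
  rw [dif_pos h]
  exact hσm _ y (Nat.find_spec h) ν (Nat.find_min' h hy)

end Pool.Agent.DQ.C
end

section

/-! # The symbol -/

set_option autoImplicit false

open Set Filter Topology Metric Matrix

namespace Pool.Agent.DQ.X

variable {T : Type*} [NormedAddCommGroup T] [NormedSpace ℂ T]

/-- TASK H0a. The symbol.
PROOF. `exists_real` (`E = T × ℂ`, `U = ball t₀ ε ×ˢ An rw Rw`, `r' = rz`, `R' = Rz`) for the functions
`(p, z) ↦ s (p.1, p.2, z) * (s (t₀, w₀, z))⁻¹` and `(p, z) ↦ s (t₀, w₀, z) * (s (p.1, p.2, z))⁻¹`, which are differentiable on `U ×ˢ An rz Rz`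
(`diffOn_inv`, composition of `s` with differentiable maps, `DifferentiableOn.mul`; `An rz Rz` is by definition the set in `exists_real`). Their
product is `1` in both orders (`Matrix.mul_nonsing_inv`, `Matrix.nonsing_inv_mul`), so `G * G' = 1` by `ev_injective` (take the radius `ρ.r`; `ev_mul`,
`ev_one`). `G (t₀, w₀) = 1`: the same. -/
theorem exists_sym {t₀ : T} {ε : ℝ} (hε : 0 < ε) {rw Rw rz Rz : ℝ} {n : ℕ} {ρ : Rad}
    (hρ : rz < ρ.r) (hρ' : ρ.R < Rz) {s : T × ℂ × ℂ → Mt n}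
    (hs : DifferentiableOn ℂ s (ball t₀ ε ×ˢ An rw Rw ×ˢ An rz Rz))
    (hd : ∀ x ∈ ball t₀ ε ×ˢ An rw Rw ×ˢ An rz Rz, IsUnit (s x).det) {w₀ : ℂ}
    (hw₀ : w₀ ∈ An rw Rw) :
    ∃ G G' : T × ℂ → BB n ρ, DifferentiableOn ℂ G (ball t₀ ε ×ˢ An rw Rw) ∧
      DifferentiableOn ℂ G' (ball t₀ ε ×ˢ An rw Rw) ∧
      (∀ p ∈ ball t₀ ε ×ˢ An rw Rw, G p * G' p = 1 ∧ G' p * G p = 1) ∧ G (t₀, w₀) = 1 ∧
      ∀ p ∈ ball t₀ ε ×ˢ An rw Rw, ∀ z : ℂ, ρ.r ≤ ‖z‖ → ‖z‖ ≤ ρ.R →
        ev z (G p) = s (p.1, p.2, z) * (s (t₀, w₀, z))⁻¹ := by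
  have hU : IsOpen (ball t₀ ε ×ˢ An rw Rw) := isOpen_ball.prod (isOpen_An rw Rw)
  have hUz : IsOpen ((ball t₀ ε ×ˢ An rw Rw) ×ˢ An rz Rz) := hU.prod (isOpen_An rz Rz)
  have hm1 : ∀ q ∈ (ball t₀ ε ×ˢ An rw Rw) ×ˢ An rz Rz,
      ((q.1.1, q.1.2, q.2) : T × ℂ × ℂ) ∈ ball t₀ ε ×ˢ An rw Rw ×ˢ An rz Rz := by
    intro q hq
    exact ⟨hq.1.1, hq.1.2, hq.2⟩
  have hm2 : ∀ q ∈ (ball t₀ ε ×ˢ An rw Rw) ×ˢ An rz Rz,
      ((t₀, w₀, q.2) : T × ℂ × ℂ) ∈ ball t₀ ε ×ˢ An rw Rw ×ˢ An rz Rz := by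
    intro q hq
    exact ⟨mem_ball_self hε, hw₀, hq.2⟩
  have hs1 : DifferentiableOn ℂ (fun q : (T × ℂ) × ℂ => s (q.1.1, q.1.2, q.2))
      ((ball t₀ ε ×ˢ An rw Rw) ×ˢ An rz Rz) := by
    have h1 : Differentiable ℂ (fun q : (T × ℂ) × ℂ => ((q.1.1, q.1.2, q.2) : T × ℂ × ℂ)) := by
      fun_prop
    exact hs.comp h1.differentiableOn hm1
  have hs2 : DifferentiableOn ℂ (fun q : (T × ℂ) × ℂ => s (t₀, w₀, q.2))
      ((ball t₀ ε ×ˢ An rw Rw) ×ˢ An rz Rz) := by
    have h1 : Differentiable ℂ (fun q : (T × ℂ) × ℂ => ((t₀, w₀, q.2) : T × ℂ × ℂ)) := by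
      fun_prop
    exact hs.comp h1.differentiableOn hm2
  have hi1 := diffOn_inv hUz hs1 fun q hq => hd _ (hm1 q hq)
  have hi2 := diffOn_inv hUz hs2 fun q hq => hd _ (hm2 q hq)
  obtain ⟨G, hG, hGv, -⟩ := exists_real (ρ := ρ) hU hρ hρ' (hs1.mul hi2)
  obtain ⟨G', hG', hGv', -⟩ := exists_real (ρ := ρ) hU hρ hρ' (hs2.mul hi1)
  have hz : ∀ z : ℂ, ρ.r ≤ ‖z‖ → ‖z‖ ≤ ρ.R → z ∈ An rz Rz := fun z h1 h2 =>
    ⟨hρ.trans_le h1, h2.trans_lt hρ'⟩
  refine ⟨G, G', hG, hG', ?_, ?_, fun p hp z h1 h2 => hGv p hp z h1 h2⟩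
  · intro p hp
    constructor
    · refine ev_injective le_rfl ρ.lt.le fun z h => ?_
      have h1 : ρ.r ≤ ‖z‖ := h.ge
      have h2 : ‖z‖ ≤ ρ.R := h.le.trans ρ.lt.le
      have hq : ((p, z) : (T × ℂ) × ℂ) ∈ (ball t₀ ε ×ˢ An rw Rw) ×ˢ An rz Rz :=
        ⟨hp, hz z h1 h2⟩
      have hu1 := hd _ (hm1 _ hq)
      have hu2 := hd _ (hm2 _ hq)
      rw [ev_mul h1 h2, ev_one h1 h2, hGv p hp z h1 h2, hGv' p hp z h1 h2]
      change s (p.1, p.2, z) * (s (t₀, w₀, z))⁻¹ * (s (t₀, w₀, z) * (s (p.1, p.2, z))⁻¹) = 1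
      rw [Matrix.mul_assoc, ← Matrix.mul_assoc (s (t₀, w₀, z))⁻¹, Matrix.nonsing_inv_mul _ hu2,
        Matrix.one_mul, Matrix.mul_nonsing_inv _ hu1]
    · refine ev_injective le_rfl ρ.lt.le fun z h => ?_
      have h1 : ρ.r ≤ ‖z‖ := h.ge
      have h2 : ‖z‖ ≤ ρ.R := h.le.trans ρ.lt.le
      have hq : ((p, z) : (T × ℂ) × ℂ) ∈ (ball t₀ ε ×ˢ An rw Rw) ×ˢ An rz Rz :=
        ⟨hp, hz z h1 h2⟩
      have hu1 := hd _ (hm1 _ hq)
      have hu2 := hd _ (hm2 _ hq)
      rw [ev_mul h1 h2, ev_one h1 h2, hGv p hp z h1 h2, hGv' p hp z h1 h2]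
      change s (t₀, w₀, z) * (s (p.1, p.2, z))⁻¹ * (s (p.1, p.2, z) * (s (t₀, w₀, z))⁻¹) = 1
      rw [Matrix.mul_assoc, ← Matrix.mul_assoc (s (p.1, p.2, z))⁻¹, Matrix.nonsing_inv_mul _ hu1,
        Matrix.one_mul, Matrix.mul_nonsing_inv _ hu2]
  · refine ev_injective le_rfl ρ.lt.le fun z h => ?_
    have h1 : ρ.r ≤ ‖z‖ := h.ge
    have h2 : ‖z‖ ≤ ρ.R := h.le.trans ρ.lt.le
    have hp : ((t₀, w₀) : T × ℂ) ∈ ball t₀ ε ×ˢ An rw Rw := ⟨mem_ball_self hε, hw₀⟩
    have hq : (((t₀, w₀), z) : (T × ℂ) × ℂ) ∈ (ball t₀ ε ×ˢ An rw Rw) ×ˢ An rz Rz :=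
      ⟨hp, hz z h1 h2⟩
    rw [ev_one h1 h2, hGv _ hp z h1 h2]
    change s (t₀, w₀, z) * (s (t₀, w₀, z))⁻¹ = 1
    rw [Matrix.mul_nonsing_inv _ (hd _ (hm2 _ hq))]

end Pool.Agent.DQ.X
end
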